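import Pool.Agent.Lib_helper58.JOS.Base
import Pool.Agent.Lib_helper58.SP.Two

/-! # JO, part S: further definitions -/

namespace Pool.Agent.JOS

open Complex MeasureTheory Filter Topology UpperHalfPlane ModularGroup Set Metric
open scoped MatrixGroups Modular ENNReal ComplexConjugate ContDiff
open Pool.Agent.JO (QN red FamH)

/-- twice continuously differentiable functions on the upper half plane, with their derivatives -/
structure C2H (ψ ψx ψxx ψy ψyy : ℝ → ℝ → ℂ) : Prop where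
  dx : ∀ x y, 0 < y → HasDerivAt (fun t => ψ t y) (ψx x y) x
  dxx : ∀ x y, 0 < y → HasDerivAt (fun t => ψx t y) (ψxx x y) x
  dy : ∀ x y, 0 < y → HasDerivAt (fun t => ψ x t) (ψy x y) y
  dyy : ∀ x y, 0 < y → HasDerivAt (fun t => ψy x t) (ψyy x y) y
  c : ContinuousOn (fun p : ℝ × ℝ => ψ p.1 p.2) {p | 0 < p.2}
  cx : ContinuousOn (fun p : ℝ × ℝ => ψx p.1 p.2) {p | 0 < p.2}
  cxx : ContinuousOn (fun p : ℝ × ℝ => ψxx p.1 p.2) {p | 0 < p.2}
  cy : ContinuousOn (fun p : ℝ × ℝ => ψy p.1 p.2) {p | 0 < p.2}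
  cyy : ContinuousOn (fun p : ℝ × ℝ => ψyy p.1 p.2) {p | 0 < p.2}

/-- the eigenvalue of `R_k` on `(Im w)^s` -/
noncomputable def hk (k : ℝ → ℝ) (s : ℂ) : ℂ :=
  ∫ w : ℍ, (kz k UpperHalfPlane.I w : ℂ) * (w.im : ℂ) ^ s

/-- the transform -/
noncomputable def Dt (θ₀ : ℝ) (g : ℝ → ℂ) (s : ℂ) : ℂ :=
  ∫ t in Ioo 0 θ₀, Pool.Agent.SP.ff s t * g t / ((Real.sin t ^ 2 : ℝ) : ℂ)

/-- the sum over the group -/
noncomputable def PO (N : ℕ) (U : ℍ → ℂ) (s : QN N) (z : ℍ) : ℂ :=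
  open scoped Classical in ∑' γ : SL(2, ℤ), if red N γ * s = 1 then U (γ • z) else 0

end Pool.Agent.JOS
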