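import Pool.Agent.Lib_helper58.JOSF.PIA

/-! # JO, part S, block ODX: linear second order equations on convex domains -/

namespace Pool.Agent.JOS

open Complex MeasureTheory Filter Topology UpperHalfPlane ModularGroup Set Metric
open scoped MatrixGroups Modular ENNReal ComplexConjugate ContDiff
open Pool.Agent.JO (QN red FamH)

/-- primitives on convex sets, normalised at `x` -/
lemma odx_prim {U : Set ℂ} (hU : IsOpen U) (hc : Convex ℝ U) (x : ℂ) :
    ∃ P : (ℂ → ℂ) → (ℂ → ℂ), ∀ F : ℂ → ℂ, DifferentiableOn ℂ F U →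
      (∀ z ∈ U, HasDerivAt (P F) (F z) z) ∧ P F x = 0 := by
  have key : ∀ F : ℂ → ℂ, ∃ G : ℂ → ℂ, DifferentiableOn ℂ F U →
      (∀ z ∈ U, HasDerivAt G (F z) z) ∧ G x = 0 := by
    intro F
    by_cases hF : DifferentiableOn ℂ F U
    · obtain ⟨g, hg⟩ := hc.exists_forall_hasDerivWithinAt hF
      refine ⟨fun z => g z - g x, fun _ => ⟨fun z hz => ?_, by simp⟩⟩
      exact ((hg z hz).hasDerivAt (hU.mem_nhds hz)).sub_const _
    · exact ⟨0, fun h => absurd h hF⟩
  choose P hP using key
  exact ⟨P, hP⟩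

/-- growth of a primitive along a segment -/
lemma odx_bound {U : Set ℂ} (hc : Convex ℝ U) {x z : ℂ} (hx : x ∈ U) (hz : z ∈ U) {F G : ℂ → ℂ}
    (hG : ∀ w ∈ U, HasDerivAt G (F w) w) (h0 : G x = 0) {C r : ℝ} (hr : ‖z - x‖ ≤ r) (hC : 0 ≤ C)
    (k : ℕ) (hF : ∀ s ∈ Icc (0 : ℝ) 1, ‖F (x + s * (z - x))‖ ≤ C * (s ^ k / k.factorial)) :
    ∀ s ∈ Icc (0 : ℝ) 1, ‖G (x + s * (z - x))‖ ≤ C * r * (s ^ (k + 1) / (k + 1).factorial) := by
  have hmem : ∀ s ∈ Icc (0 : ℝ) 1, x + (s : ℂ) * (z - x) ∈ U := by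
    intro s hs
    have := hc.add_smul_sub_mem hx hz hs
    rwa [Complex.real_smul] at this
  have hd : ∀ s ∈ Icc (0 : ℝ) 1, HasDerivAt (fun t : ℝ => G (x + t * (z - x)))
      (F (x + s * (z - x)) * (z - x)) s := by
    intro s hs
    have h1 : HasDerivAt (fun t : ℝ => x + (t : ℂ) * (z - x)) (z - x) s := by
      have := ((Complex.ofRealCLM.hasDerivAt (x := s)).mul_const (z - x)).const_add x
      simpa using this
    exact (hG _ (hmem s hs)).comp s h1
  have hB : ∀ s : ℝ, HasDerivAt (fun t : ℝ => C * r * (t ^ (k + 1) / (k + 1).factorial))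
      (C * r * (s ^ k / k.factorial)) s := by
    intro s
    have h1 := ((hasDerivAt_pow (k + 1) s).div_const ((k + 1).factorial : ℝ)).const_mul (C * r)
    refine h1.congr_deriv ?_
    rw [Nat.factorial_succ]
    push_cast
    have h2 : ((k : ℝ) + 1) ≠ 0 := by positivity
    have h3 : ((k.factorial : ℕ) : ℝ) ≠ 0 := by positivity
    field_simp
  refine image_norm_le_of_norm_deriv_right_le_deriv_boundary
    (f := fun t : ℝ => G (x + t * (z - x))) (f' := fun s => F (x + s * (z - x)) * (z - x))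
    (B' := fun s => C * r * (s ^ k / k.factorial)) ?_ ?_ ?_ hB ?_
  · exact fun s hs => (hd s hs).continuousAt.continuousWithinAt
  · exact fun s hs => (hd s ⟨hs.1, hs.2.le⟩).hasDerivWithinAt
  · simp [h0]
  · intro s hs
    rw [norm_mul]
    calc ‖F (x + s * (z - x))‖ * ‖z - x‖ ≤ (C * (s ^ k / k.factorial)) * r := by
          refine mul_le_mul (hF s ⟨hs.1, hs.2.le⟩) hr (norm_nonneg _) ?_
          have : 0 ≤ s := hs.1
          positivity
      _ = C * r * (s ^ k / k.factorial) := by ring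

theorem odx {U : Set ℂ} (hU : IsOpen U) (hc : Convex ℝ U) {q g : ℂ → ℂ}
    (hq : DifferentiableOn ℂ q U)
    (hg : DifferentiableOn ℂ g U) {x : ℂ} (hx : x ∈ U) (a b : ℂ) : ∃ y y' : ℂ → ℂ,
      (∀ z ∈ U, HasDerivAt y (y' z) z) ∧ (∀ z ∈ U, HasDerivAt y' (q z * y z + g z) z) ∧
      y x = a ∧ y' x = b := by
  obtain ⟨P, hP⟩ := odx_prim hU hc x
  -- the sequence
  let u0 : ℂ → ℂ := fun z => a + (b * (z - x) + P (P g) z)
  let u : ℕ → ℂ → ℂ := fun n => Nat.rec u0 (fun _ f => P (P (fun z => q z * f z))) n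
  let du : ℕ → ℂ → ℂ := fun n => match n with
    | 0 => fun z => b + P g z
    | n + 1 => P (fun z => q z * u n z)
  let ddu : ℕ → ℂ → ℂ := fun n => match n with
    | 0 => g
    | n + 1 => fun z => q z * u n z
  have hPg := hP g hg
  have hPgd : DifferentiableOn ℂ (P g) U := fun z hz => (hPg.1 z hz).differentiableAt.differentiableWithinAt
  have hPPg := hP (P g) hPgd
  have hsucc : ∀ n, u (n + 1) = P (P (fun z => q z * u n z)) := fun n => rfl
  have hudiff : ∀ n, DifferentiableOn ℂ (u n) U := by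
    intro n
    induction n with
    | zero =>
      intro z hz
      refine DifferentiableAt.differentiableWithinAt ?_
      have h1 : DifferentiableAt ℂ (P (P g)) z := (hPPg.1 z hz).differentiableAt
      show DifferentiableAt ℂ (fun z => a + (b * (z - x) + P (P g) z)) z
      fun_prop
    | succ n ih =>
      have h1 := hP _ (hq.mul ih)
      have h2 : DifferentiableOn ℂ (P (fun z => q z * u n z)) U := fun z hz =>
        (h1.1 z hz).differentiableAt.differentiableWithinAt
      have h3 := hP _ h2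
      exact fun z hz => (h3.1 z hz).differentiableAt.differentiableWithinAt
  have hqu : ∀ n, (∀ z ∈ U, HasDerivAt (P (fun z => q z * u n z)) (q z * u n z) z) ∧
      P (fun z => q z * u n z) x = 0 := fun n => hP _ (hq.mul (hudiff n))
  have hPqu : ∀ n, (∀ z ∈ U, HasDerivAt (u (n + 1)) (P (fun z => q z * u n z) z) z) ∧
      u (n + 1) x = 0 := fun n => hP _
        (fun z hz => ((hqu n).1 z hz).differentiableAt.differentiableWithinAt)
  have hu' : ∀ n, ∀ z ∈ U, HasDerivAt (u n) (du n z) z := by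
    intro n z hz
    cases n with
    | zero =>
      have h1 : HasDerivAt (fun z => a + (b * (z - x) + P (P g) z)) (b * 1 + P g z) z :=
        ((((hasDerivAt_id z).sub_const x).const_mul b).add (hPPg.1 z hz)).const_add a
      refine h1.congr_deriv ?_
      show b * 1 + P g z = b + P g z
      ring
    | succ n => exact (hPqu n).1 z hz
  have hdu' : ∀ n, ∀ z ∈ U, HasDerivAt (du n) (ddu n z) z := by
    intro n z hz
    cases n with
    | zero => exact (hPg.1 z hz).const_add b
    | succ n => exact (hqu n).1 z hz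
  -- the bounds
  have main : ∀ z0 ∈ U, ∃ δ > 0, ball z0 δ ⊆ U ∧ ∃ B : ℕ → ℝ, Summable B ∧
      (∀ n, ∀ z ∈ ball z0 δ, ‖u n z‖ ≤ B n ∧ ‖du n z‖ ≤ B n ∧ ‖ddu n z‖ ≤ B n) := by
    intro z0 hz0
    obtain ⟨δ, hδ, hball⟩ := Metric.nhds_basis_closedBall.mem_iff.1 (hU.mem_nhds hz0)
    refine ⟨δ, hδ, ball_subset_closedBall.trans hball, ?_⟩
    let K : Set ℂ := (fun p : ℝ × ℂ => x + (p.1 : ℂ) * (p.2 - x)) '' (Icc 0 1 ×ˢ closedBall z0 δ)
    have hK : IsCompact K := by
      refine (isCompact_Icc.prod (isCompact_closedBall z0 δ)).image ?_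
      fun_prop
    have hKU : K ⊆ U := by
      rintro _ ⟨⟨s, w⟩, ⟨hs, hw⟩, rfl⟩
      have := hc.add_smul_sub_mem hx (hball hw) hs
      rwa [Complex.real_smul] at this
    have hsup : ∀ f : ℂ → ℂ, DifferentiableOn ℂ f U → ∃ C : ℝ, 0 ≤ C ∧ ∀ w ∈ K, ‖f w‖ ≤ C := by
      intro f hf
      obtain ⟨C, hC⟩ := hK.exists_bound_of_continuousOn (hf.continuousOn.mono hKU)
      exact ⟨max C 0, le_max_right _ _, fun w hw => (hC w hw).trans (le_max_left _ _)⟩
    obtain ⟨M, hM0, hM⟩ := hsup q hq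
    obtain ⟨A, hA0, hA⟩ := hsup (u 0) (hudiff 0)
    obtain ⟨D, hD0, hD⟩ := hsup (du 0)
      (fun z hz => (hdu' 0 z hz).differentiableAt.differentiableWithinAt)
    obtain ⟨G, hG0, hG⟩ := hsup g hg
    obtain ⟨r, hr1, hr⟩ : ∃ r : ℝ, 1 ≤ r ∧ ∀ w ∈ closedBall z0 δ, ‖w - x‖ ≤ r := by
      refine ⟨max 1 (δ + ‖z0 - x‖), le_max_left _ _, fun w hw => ?_⟩
      refine le_trans ?_ (le_max_right _ _)
      calc ‖w - x‖ = ‖(w - z0) + (z0 - x)‖ := by ring_nf
        _ ≤ ‖w - z0‖ + ‖z0 - x‖ := norm_add_le _ _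
        _ ≤ δ + ‖z0 - x‖ := by
          gcongr
          exact mem_closedBall_iff_norm.1 hw
    have hr0 : 0 ≤ r := by linarith
    -- growth
    have grow : ∀ z ∈ closedBall z0 δ, ∀ n : ℕ, ∀ s ∈ Icc (0 : ℝ) 1,
        ‖u n (x + s * (z - x))‖ ≤ A * (M * r * r) ^ n * (s ^ (2 * n) / (2 * n).factorial) := by
      intro z hz n
      have hzU := hball hz
      have hmemK : ∀ s ∈ Icc (0 : ℝ) 1, x + (s : ℂ) * (z - x) ∈ K := fun s hs =>
        ⟨(s, z), ⟨hs, hz⟩, rfl⟩
      induction n with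
      | zero =>
        intro s hs
        simpa using hA _ (hmemK s hs)
      | succ n ih =>
        have h1 := odx_bound hc hx hzU (hqu n).1 (hqu n).2 (hr z hz)
          (C := M * (A * (M * r * r) ^ n)) (by positivity) (2 * n) (by
            intro s hs
            rw [norm_mul, mul_assoc]
            exact mul_le_mul (hM _ (hmemK s hs)) (ih s hs) (norm_nonneg _) hM0)
        have h2 := odx_bound hc hx hzU (hPqu n).1 (hPqu n).2 (hr z hz)
          (C := M * (A * (M * r * r) ^ n) * r) (by positivity) (2 * n + 1) h1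
        intro s hs
        refine (h2 s hs).trans (le_of_eq ?_)
        rw [show 2 * (n + 1) = 2 * n + 1 + 1 by ring]
        ring
    have grow2 : ∀ z ∈ closedBall z0 δ, ∀ n : ℕ,
        ‖u n z‖ ≤ A * ((M * r * r) ^ n / n.factorial) ∧
        ‖q z * u n z‖ ≤ M * A * ((M * r * r) ^ n / n.factorial) ∧
        ‖P (fun z => q z * u n z) z‖ ≤ M * A * r * ((M * r * r) ^ n / n.factorial) := by
      intro z hz n
      have hzU := hball hz
      have hmemK : ∀ s ∈ Icc (0 : ℝ) 1, x + (s : ℂ) * (z - x) ∈ K := fun s hs =>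
        ⟨(s, z), ⟨hs, hz⟩, rfl⟩
      have e1 : x + ((1 : ℝ) : ℂ) * (z - x) = z := by push_cast; ring
      have f1 : (1 : ℝ) / (2 * n).factorial ≤ 1 / n.factorial := by
        apply one_div_le_one_div_of_le (by positivity)
        exact_mod_cast Nat.factorial_le (by omega)
      have f2 : (1 : ℝ) / (2 * n + 1).factorial ≤ 1 / n.factorial := by
        apply one_div_le_one_div_of_le (by positivity)
        exact_mod_cast Nat.factorial_le (by omega)
      have g0 := grow z hz n 1 ⟨zero_le_one, le_rfl⟩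
      rw [e1] at g0
      have g1 : ‖u n z‖ ≤ A * ((M * r * r) ^ n / n.factorial) := by
        calc ‖u n z‖ ≤ A * (M * r * r) ^ n * (1 / (2 * n).factorial) := by simpa using g0
          _ ≤ A * (M * r * r) ^ n * (1 / n.factorial) := by gcongr
          _ = _ := by ring
      refine ⟨g1, ?_, ?_⟩
      · rw [norm_mul, mul_assoc]
        have := hmemK 1 ⟨zero_le_one, le_rfl⟩
        rw [e1] at this
        exact mul_le_mul (hM _ this) g1 (norm_nonneg _) hM0
      · have h1 := odx_bound hc hx hzU (hqu n).1 (hqu n).2 (hr z hz)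
          (C := M * (A * (M * r * r) ^ n)) (by positivity) (2 * n) (by
            intro s hs
            rw [norm_mul, mul_assoc]
            exact mul_le_mul (hM _ (hmemK s hs)) (grow z hz n s hs) (norm_nonneg _) hM0)
          1 ⟨zero_le_one, le_rfl⟩
        rw [e1] at h1
        calc ‖P (fun z => q z * u n z) z‖ ≤ M * (A * (M * r * r) ^ n) * r *
              (1 / (2 * n + 1).factorial) := by simpa using h1
          _ ≤ M * (A * (M * r * r) ^ n) * r * (1 / n.factorial) := by gcongr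
          _ = _ := by ring
    -- the majorant
    let c : ℝ := A + M * A + M * A * r
    have hc0 : 0 ≤ c := by positivity
    have hs0 : Summable (fun n : ℕ => (M * r * r) ^ n / (n.factorial : ℝ)) :=
      Real.summable_pow_div_factorial _
    let B : ℕ → ℝ := fun n => match n with
      | 0 => A + D + G
      | n + 1 => c * ((M * r * r) ^ n / n.factorial) +
          A * ((M * r * r) ^ (n + 1) / (n + 1).factorial)
    have hB : Summable B := by
      rw [← summable_nat_add_iff 1]
      exact (hs0.mul_left c).add (((summable_nat_add_iff 1).2 hs0).mul_left A)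
    refine ⟨B, hB, fun n z hz => ?_⟩
    have hz' := ball_subset_closedBall hz
    have hzK : z ∈ K := ⟨(1, z), ⟨⟨zero_le_one, le_rfl⟩, hz'⟩, by push_cast; ring⟩
    cases n with
    | zero =>
      refine ⟨?_, ?_, ?_⟩
      · have := hA z hzK
        show _ ≤ A + D + G
        linarith
      · have := hD z hzK
        show _ ≤ A + D + G
        linarith
      · have := hG z hzK
        show _ ≤ A + D + G
        show ‖g z‖ ≤ _
        linarith
    | succ n =>
      have g1 := grow2 z hz' n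
      have g2 := (grow2 z hz' (n + 1)).1
      have p1 : 0 ≤ (M * r * r) ^ n / (n.factorial : ℝ) := by positivity
      have p2 : 0 ≤ (M * r * r) ^ (n + 1) / ((n + 1).factorial : ℝ) := by positivity
      have p3 : 0 ≤ A * ((M * r * r) ^ n / (n.factorial : ℝ)) := by positivity
      have p4 : 0 ≤ M * A * ((M * r * r) ^ n / (n.factorial : ℝ)) := by positivity
      have p5 : 0 ≤ M * A * r * ((M * r * r) ^ n / (n.factorial : ℝ)) := by positivity
      have p6 : 0 ≤ A * ((M * r * r) ^ (n + 1) / ((n + 1).factorial : ℝ)) := by positivity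
      have e : c * ((M * r * r) ^ n / (n.factorial : ℝ)) = A * ((M * r * r) ^ n / n.factorial) +
          M * A * ((M * r * r) ^ n / n.factorial) +
          M * A * r * ((M * r * r) ^ n / n.factorial) := by
        show (A + M * A + M * A * r) * _ = _
        ring
      refine ⟨?_, ?_, ?_⟩
      · show _ ≤ c * ((M * r * r) ^ n / n.factorial) +
          A * ((M * r * r) ^ (n + 1) / (n + 1).factorial)
        rw [e]
        linarith
      · show ‖P (fun z => q z * u n z) z‖ ≤ c * ((M * r * r) ^ n / n.factorial) +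
          A * ((M * r * r) ^ (n + 1) / (n + 1).factorial)
        rw [e]
        linarith [g1.2.2]
      · show ‖q z * u n z‖ ≤ c * ((M * r * r) ^ n / n.factorial) +
          A * ((M * r * r) ^ (n + 1) / (n + 1).factorial)
        rw [e]
        linarith [g1.2.1]
  refine ⟨fun z => ∑' n, u n z, fun z => ∑' n, du n z, ?_, ?_, ?_, ?_⟩
  · intro z hz
    obtain ⟨δ, hδ, hsub, B, hB, hb⟩ := main z hz
    exact hasDerivAt_tsum_of_isPreconnected hB isOpen_ball (convex_ball z δ).isPreconnected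
      (fun n y hy => hu' n y (hsub hy)) (fun n y hy => (hb n y hy).2.1) (mem_ball_self hδ)
      (Summable.of_norm_bounded hB fun n => (hb n z (mem_ball_self hδ)).1) (mem_ball_self hδ)
  · intro z hz
    obtain ⟨δ, hδ, hsub, B, hB, hb⟩ := main z hz
    have h1 := hasDerivAt_tsum_of_isPreconnected hB isOpen_ball (convex_ball z δ).isPreconnected
      (fun n y hy => hdu' n y (hsub hy)) (fun n y hy => (hb n y hy).2.2) (mem_ball_self hδ)
      (Summable.of_norm_bounded hB fun n => (hb n z (mem_ball_self hδ)).2.1) (mem_ball_self hδ)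
    refine h1.congr_deriv ?_
    have hsd : Summable (fun n => ddu n z) :=
      Summable.of_norm_bounded hB fun n => (hb n z (mem_ball_self hδ)).2.2
    rw [hsd.tsum_eq_zero_add]
    have : ∀ n, ddu (n + 1) z = q z * u n z := fun n => rfl
    simp_rw [this]
    rw [tsum_mul_left]
    show g z + _ = _
    ring
  · show ∑' n, u n x = a
    rw [tsum_eq_single 0]
    · show a + (b * (x - x) + P (P g) x) = a
      rw [hPPg.2]
      ring
    · intro n hn
      obtain ⟨m, rfl⟩ := Nat.exists_eq_succ_of_ne_zero hn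
      exact (hPqu m).2
  · show ∑' n, du n x = b
    rw [tsum_eq_single 0]
    · show b + P g x = b
      rw [hPg.2]
      ring
    · intro n hn
      obtain ⟨m, rfl⟩ := Nat.exists_eq_succ_of_ne_zero hn
      exact (hqu m).2

theorem odx_uniq {α β : ℝ} {q g : ℝ → ℂ} (hq : ContinuousOn q (Ioo α β))
    {y₁ y₁' y₂ y₂' : ℝ → ℂ} (h1 : ∀ t ∈ Ioo α β, HasDerivAt y₁ (y₁' t) t)
    (h1' : ∀ t ∈ Ioo α β, HasDerivAt y₁' (q t * y₁ t + g t) t)
    (h2 : ∀ t ∈ Ioo α β, HasDerivAt y₂ (y₂' t) t)
    (h2' : ∀ t ∈ Ioo α β, HasDerivAt y₂' (q t * y₂ t + g t) t) {x : ℝ} (hx : x ∈ Ioo α β)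
    (e : y₁ x = y₂ x) (e' : y₁' x = y₂' x) : ∀ t ∈ Ioo α β, y₁ t = y₂ t := by
  intro t ht
  obtain ⟨c, hc1, hc2⟩ : ∃ c, α < c ∧ c < min x t := exists_between (lt_min hx.1 ht.1)
  obtain ⟨d, hd1, hd2⟩ : ∃ d, max x t < d ∧ d < β := exists_between (max_lt hx.2 ht.2)
  have hsub : Icc c d ⊆ Ioo α β := fun s hs => ⟨hc1.trans_le hs.1, hs.2.trans_lt hd2⟩
  obtain ⟨M, hM⟩ := isCompact_Icc.exists_bound_of_continuousOn (hq.mono hsub)
  let v : ℝ → ℂ × ℂ → ℂ × ℂ := fun s p => (p.2, q s * p.1 + g s)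
  have hM0 : ∀ s ∈ Icc c d, ‖q s‖ ≤ max M 1 := fun s hs => (hM s hs).trans (le_max_left _ _)
  have hv : ∀ s ∈ Ioo c d, LipschitzOnWith (Real.toNNReal (max M 1)) (v s) univ := by
    intro s hs
    refine LipschitzWith.lipschitzOnWith ?_
    refine LipschitzWith.of_dist_le_mul fun p p' => ?_
    rw [Real.coe_toNNReal _ (le_trans zero_le_one (le_max_right _ _)), Prod.dist_eq, Prod.dist_eq]
    refine max_le ?_ ?_
    · show dist p.2 p'.2 ≤ _
      calc dist p.2 p'.2 ≤ 1 * max (dist p.1 p'.1) (dist p.2 p'.2) := by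
            rw [one_mul]; exact le_max_right _ _
        _ ≤ _ := by
          gcongr
          exact le_max_right _ _
    · show dist (q s * p.1 + g s) (q s * p'.1 + g s) ≤ _
      rw [dist_add_right, dist_eq_norm, ← mul_sub, norm_mul, ← dist_eq_norm]
      exact mul_le_mul (hM0 s ⟨hs.1.le, hs.2.le⟩) (le_max_left _ _) dist_nonneg
        (le_trans zero_le_one (le_max_right _ _))
  have hxcd : x ∈ Ioo c d := ⟨hc2.trans_le (min_le_left _ _), (le_max_left _ _).trans_lt hd1⟩
  have htcd : t ∈ Ioo c d := ⟨hc2.trans_le (min_le_right _ _), (le_max_right _ _).trans_lt hd1⟩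
  have key := ODE_solution_unique_of_mem_Ioo (v := v) (s := fun _ => univ)
    (f := fun s => (y₁ s, y₁' s)) (g := fun s => (y₂ s, y₂' s)) hv hxcd
    (fun s hs => ⟨(h1 s (hsub ⟨hs.1.le, hs.2.le⟩)).prodMk (h1' s (hsub ⟨hs.1.le, hs.2.le⟩)),
      mem_univ _⟩)
    (fun s hs => ⟨(h2 s (hsub ⟨hs.1.le, hs.2.le⟩)).prodMk (h2' s (hsub ⟨hs.1.le, hs.2.le⟩)),
      mem_univ _⟩)
    (by simp only [e, e']) htcd
  exact congrArg Prod.fst key

end Pool.Agent.JOS
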