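import Pool.Agent.Lib_helper58.JOS.Pai

/-! # JO, part S: holomorphic extension, definition -/

namespace Pool.Agent.JOS

open Complex Set

/-- holomorphic extension to every convex domain without zeros of `sin` containing `π/2` -/
def Ext (f : ℝ → ℂ) : Prop := ∀ U : Set ℂ, IsOpen U → Convex ℝ U → ((Real.pi / 2 : ℝ) : ℂ) ∈ U →
  (∀ z ∈ U, Complex.sin z ≠ 0) → ∃ F : ℂ → ℂ, DifferentiableOn ℂ F U ∧
    ∀ t : ℝ, (t : ℂ) ∈ U → F t = f t

end Pool.Agent.JOS
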