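import Pool.Agent.Lib_helper58.JOSF.BaseT

/-!
# JOS block EIG (helper37): `HJ` is an eigenfunction of `K_k`.
Cites `ray_gen`, `pt_im`, `pt_coe`, `hk_DD`, `cc_supp2`, `kap_cont`, `kk_int`. Parts adapted from the
block KFF of helper25.
-/

namespace Pool.Agent.JOS

open Complex MeasureTheory Filter Topology UpperHalfPlane ModularGroup Set Metric
open scoped MatrixGroups Modular ENNReal ComplexConjugate ContDiff
open Pool.Agent.JO (QN red FamH PV bot cH)
open Pool.Agent.Lib_helper37.JO (HJ)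

/-! ### the eigenfunctions -/

theorem eig_mp (g : SL(2, ℝ)) : MeasurePreserving (fun z : ℍ => g • z) volume volume := by
  have := measurePreserving_smul (Matrix.SpecialLinearGroup.mapGL ℝ g) (volume : Measure ℍ)
  exact this

theorem eig_emb (g : SL(2, ℝ)) : MeasurableEmbedding (fun z : ℍ => g • z) := by
  let e : ℍ ≃ᵐ ℍ :=
    { toEquiv := MulAction.toPerm g
      measurable_toFun := (eig_mp g).measurable
      measurable_invFun := (eig_mp g⁻¹).measurable }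
  exact e.measurableEmbedding

theorem eig_im (g : SL(2, ℝ)) (z : ℍ) :
    (g • z).im = z.im / Complex.normSq ((g 1 0 : ℂ) * z + g 1 1) := by
  have h := UpperHalfPlane.im_smul_eq_div_normSq (Matrix.SpecialLinearGroup.mapGL ℝ g) z
  have h1 : (g • z) = (Matrix.SpecialLinearGroup.mapGL ℝ g) • z := rfl
  rw [h1, h]
  simp [denom]

/-- the matrix `(1 0; σ 1)` -/
noncomputable def eig_gm (σ : ℝ) : SL(2, ℝ) := ⟨!![1, 0; σ, 1], by simp⟩

theorem eig_g_im (σ : ℝ) (z : ℍ) :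
    (eig_gm σ • z).im = z.im / Complex.normSq ((σ : ℂ) * (z : ℂ) + 1) := by
  rw [eig_im]
  simp [eig_gm]

theorem eig_sl_im (z w : ℍ) : (z.toSL2R • w).im = z.im * w.im := by
  rw [eig_im]
  simp only [UpperHalfPlane.coe_toSL2R]
  have h : (0 : ℝ) < √z.im := Real.sqrt_pos.2 z.im_pos
  have h2 : √z.im * √z.im = z.im := Real.mul_self_sqrt z.im_pos.le
  simp
  rw [← mul_inv, h2, div_inv_eq_mul, mul_comm]

/-- the function `(Im w/|σ w+1|²)^s` -/
noncomputable def eig_phi (σ : ℝ) (s : ℂ) (w : ℍ) : ℂ := ((eig_gm σ • w).im : ℂ) ^ s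

theorem eig_eig (k : ℝ → ℝ) (σ : ℝ) (s : ℂ) (z : ℍ) :
    RR k (eig_phi σ s) z = hk k s * eig_phi σ s z := by
  unfold RR eig_phi
  have h1 : ∫ w : ℍ, (kz k z w : ℂ) * ((eig_gm σ • w).im : ℂ) ^ s =
      ∫ w : ℍ, (kz k (eig_gm σ • z) w : ℂ) * (w.im : ℂ) ^ s := by
    rw [← (eig_mp (eig_gm σ)).integral_comp (eig_emb (eig_gm σ))
      (fun w : ℍ => (kz k (eig_gm σ • z) w : ℂ) * (w.im : ℂ) ^ s)]
    refine integral_congr_ae (ae_of_all _ fun w => ?_)
    simp only [kz]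
    rw [dist_smul]
  have h2 : ∀ z : ℍ, ∫ w : ℍ, (kz k z w : ℂ) * (w.im : ℂ) ^ s = hk k s * (z.im : ℂ) ^ s := by
    intro z
    rw [← (eig_mp z.toSL2R).integral_comp (eig_emb z.toSL2R)]
    unfold hk
    rw [← integral_mul_const]
    refine integral_congr_ae (ae_of_all _ fun w => ?_)
    simp only [kz]
    have h3 : dist z (z.toSL2R • w) = dist UpperHalfPlane.I w := by
      have h4 : dist (z.toSL2R • UpperHalfPlane.I) (z.toSL2R • w) = dist UpperHalfPlane.I w :=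
        dist_smul _ _ _
      rwa [UpperHalfPlane.toSL2R_smul_I] at h4
    rw [h3, eig_sl_im, Complex.ofReal_mul,
      Complex.mul_cpow_ofReal_nonneg z.im_pos.le w.im_pos.le]
    ring
  rw [h1, h2]

/-- the base `sin θ/(2 (cosh τ + σ cos θ))` -/
noncomputable def eig_h (σ τ θ : ℝ) : ℝ := Real.sin θ / (2 * (Real.cosh τ + σ * Real.cos θ))

theorem eig_abs {σ : ℝ} (hσ : σ ^ 2 = 1) : |σ| = 1 := by
  rw [← abs_one, ← sq_eq_sq_iff_abs_eq_abs, hσ, one_pow]

theorem eig_cos_lt {θ : ℝ} (h : θ ∈ Ioo 0 Real.pi) : |Real.cos θ| < 1 := by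
  rw [abs_lt]
  constructor
  · rw [← Real.cos_pi]
    exact Real.cos_lt_cos_of_nonneg_of_le_pi h.1.le le_rfl h.2
  · rw [← Real.cos_zero]
    exact Real.cos_lt_cos_of_nonneg_of_le_pi le_rfl h.2.le h.1

theorem eig_den {σ : ℝ} (hσ : σ ^ 2 = 1) {θ : ℝ} (h : θ ∈ Ioo 0 Real.pi) (τ : ℝ) :
    0 < Real.cosh τ + σ * Real.cos θ := by
  have h1 := Real.one_le_cosh τ
  have h2 : |σ * Real.cos θ| < 1 := by rw [abs_mul, eig_abs hσ, one_mul]; exact eig_cos_lt h
  have h3 := (abs_lt.1 h2).1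
  linarith

theorem eig_pt {σ : ℝ} (hσ : σ ^ 2 = 1) {τ θ : ℝ} (h : θ ∈ Ioo 0 Real.pi) :
    (eig_gm σ • pt τ θ).im = eig_h σ τ θ := by
  rw [eig_g_im, pt_im h, pt_coe h]
  have h1 : Complex.normSq ((σ : ℂ) * cexp (τ + θ * Complex.I) + 1) =
      2 * Real.exp τ * (Real.cosh τ + σ * Real.cos θ) := by
    have e1 : cexp (τ + θ * Complex.I) =
        ((Real.exp τ * Real.cos θ : ℝ) : ℂ) + ((Real.exp τ * Real.sin θ : ℝ) : ℂ) * Complex.I := by
      rw [Complex.exp_add, Complex.exp_mul_I]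
      push_cast
      ring
    have e2 : ((σ : ℂ) * cexp (τ + θ * Complex.I) + 1) =
        ((σ * (Real.exp τ * Real.cos θ) + 1 : ℝ) : ℂ) +
          ((σ * (Real.exp τ * Real.sin θ) : ℝ) : ℂ) * Complex.I := by
      rw [e1]
      push_cast
      ring
    rw [e2, Complex.normSq_add_mul_I, Real.cosh_eq]
    have e3 : Real.exp τ * Real.exp (-τ) = 1 := by
      rw [← Real.exp_add, add_neg_cancel, Real.exp_zero]
    have e4 := Real.sin_sq_add_cos_sq θ
    linear_combination σ ^ 2 * (Real.exp τ) ^ 2 * e4 - e3 + (Real.exp τ) ^ 2 * hσ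
  rw [h1, eig_h]
  have h2 := (Real.exp_pos τ).ne'
  have h3 := (eig_den hσ h τ).ne'
  field_simp

theorem eig_cont (σ : ℝ) (s : ℂ) : Continuous (eig_phi σ s) := by
  unfold eig_phi
  refine Continuous.cpow (Complex.continuous_ofReal.comp (UpperHalfPlane.continuous_im.comp
    (isometry_smul ℍ (eig_gm σ)).continuous)) continuous_const (fun w => ?_)
  exact Or.inl (by simpa using (eig_gm σ • w).im_pos)

theorem eig_norm {σ : ℝ} (hσ : σ ^ 2 = 1) (s : ℂ) {τ θ : ℝ} (h : θ ∈ Ioo 0 Real.pi) :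
    ‖eig_phi σ s (pt τ θ)‖ = eig_h σ τ θ ^ s.re := by
  unfold eig_phi
  rw [Complex.norm_cpow_eq_rpow_re_of_pos (eig_gm σ • pt τ θ).im_pos, eig_pt hσ h]

theorem eig_h_pos {σ : ℝ} (hσ : σ ^ 2 = 1) {τ θ : ℝ} (h : θ ∈ Ioo 0 Real.pi) : 0 < eig_h σ τ θ := by
  unfold eig_h
  have := eig_den hσ h τ
  have := Real.sin_pos_of_pos_of_lt_pi h.1 h.2
  positivity

/-- the ray integral is `2^{-s} HJ` -/
theorem eig_PT {σ : ℝ} (hσ : σ ^ 2 = 1) (κ : ℝ) {θ : ℝ} (h : θ ∈ Ioo 0 Real.pi) :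
    HJ σ κ θ = (2 : ℂ) ^ (1 / 2 + Complex.I * κ) * PT (eig_phi σ (1 / 2 + Complex.I * κ)) θ := by
  unfold PT HJ eig_phi
  rw [← integral_const_mul]
  refine integral_congr_ae (ae_of_all _ fun τ => ?_)
  simp only
  rw [eig_pt hσ h]
  have h1 := eig_h_pos hσ (τ := τ) h
  have h2 : Complex.sin (θ : ℂ) / ((Real.cosh τ : ℂ) + σ * Complex.cos (θ : ℂ)) =
      ((2 : ℝ) : ℂ) * ((eig_h σ τ θ : ℝ) : ℂ) := by
    rw [← Complex.ofReal_sin, ← Complex.ofReal_cos, ← Complex.ofReal_mul, ← Complex.ofReal_mul,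
      ← Complex.ofReal_add, ← Complex.ofReal_div]
    congr 1
    unfold eig_h
    have h3 := (eig_den hσ h τ).ne'
    field_simp
  rw [h2, Complex.mul_cpow_ofReal_nonneg zero_le_two h1.le]
  norm_num

theorem kk_HJ (k : TKs) {σ : ℝ} (hσ : σ ^ 2 = 1) (κ : ℝ) {θ : ℝ} (hθ : θ ∈ Ioo 0 Real.pi) :
    KK k.1 (fun t : ℝ => HJ σ κ t) θ = hk k.1 (1 / 2 + Complex.I * κ) * HJ σ κ θ := by
  set s : ℂ := 1 / 2 + Complex.I * κ with hs
  have hsre : s.re = 1 / 2 := by rw [hs]; simp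
  have key := (ray_gen k.2 (eig_cont σ s) (fun a b ha hb => ?_)).2.2.2 θ hθ
  · have h1 : KK k.1 (fun t : ℝ => HJ σ κ t) θ = (2 : ℂ) ^ s * KK k.1 (PT (eig_phi σ s)) θ := by
      unfold KK
      rw [← integral_const_mul]
      refine setIntegral_congr_fun measurableSet_Ioo fun t ht => ?_
      simp only
      rw [eig_PT hσ κ ht]
      ring
    rw [h1, ← key, eig_PT hσ κ hθ]
    have h2 : PT (RR k.1 (eig_phi σ s)) θ = hk k.1 s * PT (eig_phi σ s) θ := by
      unfold PT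
      rw [← integral_const_mul]
      refine integral_congr_ae (ae_of_all _ fun τ => ?_)
      simp only
      rw [eig_eig]
    rw [h2]
    ring
  · rcases lt_or_ge b a with hab | hab
    · refine ⟨0, 1, one_pos, fun θ hθ => ?_⟩
      exact absurd (hθ.1.trans hθ.2) (not_le.2 hab)
    have haI : a ∈ Ioo 0 Real.pi := ⟨ha, by linarith⟩
    have hbI : b ∈ Ioo 0 Real.pi := ⟨by linarith, hb⟩
    set M : ℝ := max |Real.cos a| |Real.cos b| with hM
    have hM1 : M < 1 := max_lt (eig_cos_lt haI) (eig_cos_lt hbI)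
    have hM0 : 0 ≤ M := (abs_nonneg _).trans (le_max_left _ _)
    set m : ℝ := 1 - M with hm
    have hm0 : 0 < m := by rw [hm]; linarith
    refine ⟨(1 / m) ^ (1 / 2 : ℝ), 1 / 2, by norm_num, fun θ hθ τ => ?_⟩
    have hθ' : θ ∈ Ioo 0 Real.pi := ⟨by linarith [hθ.1], by linarith [hθ.2]⟩
    rw [eig_norm hσ s hθ', hsre]
    have h3 : |Real.cos θ| ≤ M := by
      have h4 : Real.cos b ≤ Real.cos θ :=
        Real.cos_le_cos_of_nonneg_of_le_pi hθ'.1.le hb.le hθ.2
      have h5 : Real.cos θ ≤ Real.cos a :=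
        Real.cos_le_cos_of_nonneg_of_le_pi haI.1.le hθ'.2.le hθ.1
      rw [abs_le]
      constructor
      · have := neg_abs_le (Real.cos b)
        have := le_max_right |Real.cos a| |Real.cos b|
        linarith
      · exact (h5.trans (le_abs_self _)).trans (le_max_left _ _)
    have h6 : |σ * Real.cos θ| ≤ M := by rw [abs_mul, eig_abs hσ, one_mul]; exact h3
    have h4 : eig_h σ τ θ ≤ (1 / m) * Real.exp (-|τ|) := by
      unfold eig_h
      have h5 := Pool.Agent.SP.exp_le_two_cosh τ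
      have h7 := Real.one_le_cosh τ
      have h8 := eig_den hσ hθ' τ
      have h9 := (abs_le.1 h6).1
      have h10 : m * Real.exp |τ| ≤ 2 * (Real.cosh τ + σ * Real.cos θ) := by
        have h11 : m * Real.cosh τ ≤ Real.cosh τ + σ * Real.cos θ := by
          rw [hm]
          nlinarith
        have h14 : m * Real.exp |τ| ≤ m * (2 * Real.cosh τ) := mul_le_mul_of_nonneg_left h5 hm0.le
        linarith
      rw [Real.exp_neg, div_le_iff₀ (by linarith)]
      have h15 : 1 ≤ 1 / m * (Real.exp |τ|)⁻¹ * (2 * (Real.cosh τ + σ * Real.cos θ)) := by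
        have h16 := Real.exp_pos |τ|
        rw [one_div, ← mul_inv, inv_mul_eq_div, le_div_iff₀ (by positivity), one_mul]
        exact h10
      exact (Real.sin_le_one θ).trans h15
    calc eig_h σ τ θ ^ (1 / 2 : ℝ) ≤ ((1 / m) * Real.exp (-|τ|)) ^ (1 / 2 : ℝ) :=
          Real.rpow_le_rpow (eig_h_pos hσ hθ').le h4 (by norm_num)
      _ = (1 / m) ^ (1 / 2 : ℝ) * Real.exp (-(1 / 2 * |τ|)) := by
          rw [Real.mul_rpow (by positivity) (Real.exp_pos _).le, ← Real.exp_mul]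
          congr 2
          ring

/-! ### decay of the multiplier -/

theorem hk_decay (k : TKs) (n : ℕ) : ∃ C : ℝ, 0 ≤ C ∧ ∀ κ : ℝ,
    ‖hk k.1 (1 / 2 + Complex.I * κ)‖ ≤ C * ((1 + κ ^ 2) ^ n)⁻¹ := by
  induction n generalizing k with
  | zero =>
    refine ⟨∫ w : ℍ, ‖(kz k.1 UpperHalfPlane.I w : ℂ)‖ * w.im ^ (1 / 2 : ℝ),
      integral_nonneg fun w => mul_nonneg (norm_nonneg _) (Real.rpow_nonneg w.im_pos.le _),
      fun κ => ?_⟩
    rw [pow_zero, inv_one, mul_one]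
    unfold hk
    refine (norm_integral_le_integral_norm _).trans (le_of_eq ?_)
    refine integral_congr_ae (ae_of_all _ fun w => ?_)
    simp only
    rw [norm_mul, Complex.norm_cpow_eq_rpow_re_of_pos w.im_pos]
    congr 2
    simp
  | succ n ih =>
    obtain ⟨C, hC, h⟩ := ih (Dk k)
    refine ⟨4 * C, by positivity, fun κ => ?_⟩
    have h1 := h κ
    have h2 : hk (Dk k).1 (1 / 2 + Complex.I * κ) = hk (DD k.1) (1 / 2 + Complex.I * κ) := rfl
    rw [h2, hk_DD k.2] at h1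
    have h3 : ((1 / 2 + Complex.I * κ) * (1 - (1 / 2 + Complex.I * κ)) : ℂ) =
        ((1 / 4 + κ ^ 2 : ℝ) : ℂ) := by
      push_cast
      linear_combination (-(κ : ℂ) ^ 2) * Complex.I_sq
    have h4 : (0 : ℝ) < 1 / 4 + κ ^ 2 := by positivity
    rw [h3, norm_mul, Complex.norm_real, Real.norm_of_nonneg h4.le] at h1
    set x := ‖hk k.1 (1 / 2 + Complex.I * κ)‖ with hx
    have hx0 : 0 ≤ x := norm_nonneg _
    have h5 : (1 + κ ^ 2) * x ≤ 4 * C * ((1 + κ ^ 2) ^ n)⁻¹ := by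
      nlinarith
    have h6 : (0 : ℝ) < 1 + κ ^ 2 := by positivity
    rw [pow_succ, mul_inv, ← mul_assoc, ← div_eq_mul_inv, le_div_iff₀ h6]
    linarith

/-! ### Fubini -/

theorem eig_LG_cont : ContinuousOn (fun t : ℝ => Pool.Agent.Lib_helper37.JO.LG t) (Ioo 0 Real.pi) := by
  unfold Pool.Agent.Lib_helper37.JO.LG
  have hs : ∀ t ∈ Ioo (0 : ℝ) Real.pi, Real.sin t ≠ 0 := fun t ht =>
    (Real.sin_pos_of_pos_of_lt_pi ht.1 ht.2).ne'
  refine ContinuousOn.mul ?_ ?_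
  · exact Real.continuous_sin.continuousOn.rpow_const (fun t ht => Or.inl (hs t ht))
  · refine ContinuousOn.add (continuousOn_const.mul (continuousOn_const.add ?_)) continuousOn_const
    refine ContinuousOn.log (continuousOn_const.div Real.continuous_sin.continuousOn hs)
      (fun t ht => ?_)
    exact div_ne_zero two_ne_zero (hs t ht)

theorem eig_strip {t : ℝ} (ht : t ∈ Ioo 0 Real.pi) : (t : ℂ) ∈ Pool.Agent.Lib_helper37.JO.strip := by
  constructor
  · rw [Complex.ofReal_re]; exact ht.1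
  · rw [Complex.ofReal_re]; exact ht.2

theorem kk_Fc (k : TKs) {σ : ℝ} (hσ : σ ^ 2 = 1) {m : ℝ → ℂ} (hm : Integrable m) {θ : ℝ}
    (hθ : θ ∈ Ioo 0 Real.pi) :
    KK k.1 (fun t : ℝ => ∫ κ : ℝ, m κ * HJ σ κ t) θ =
      ∫ κ : ℝ, (m κ * hk k.1 (1 / 2 + Complex.I * κ)) * HJ σ κ θ := by
  have hσ1 : |σ| ≤ 1 := (eig_abs hσ).le
  set f : ℝ → ℝ → ℂ := fun t κ => ((kap k.1 θ t / Real.sin t ^ 2 : ℝ) : ℂ) * (m κ * HJ σ κ t) with hf
  have hmeas : AEStronglyMeasurable (Function.uncurry f)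
      ((volume.restrict (Ioo 0 Real.pi)).prod (volume : Measure ℝ)) := by
    have hrest : (volume.restrict (Ioo 0 Real.pi)).prod (volume : Measure ℝ) =
        ((volume : Measure ℝ).prod (volume : Measure ℝ)).restrict
          (Ioo 0 Real.pi ×ˢ (univ : Set ℝ)) := by
      rw [← Measure.prod_restrict, Measure.restrict_univ]
    have h1 : AEStronglyMeasurable (fun p : ℝ × ℝ => ((kap k.1 θ p.1 / Real.sin p.1 ^ 2 : ℝ) : ℂ))
        ((volume.restrict (Ioo 0 Real.pi)).prod (volume : Measure ℝ)) := by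
      rw [hrest]
      refine ContinuousOn.aestronglyMeasurable ?_ (measurableSet_Ioo.prod MeasurableSet.univ)
      refine Complex.continuous_ofReal.comp_continuousOn ?_
      refine ContinuousOn.div ?_ ?_ ?_
      · refine (kap_cont k.2).comp (f := fun p : ℝ × ℝ => (θ, p.1)) ?_ ?_
        · exact (continuous_const.prodMk continuous_fst).continuousOn
        · intro p hp
          exact ⟨hθ, hp.1⟩
      · exact ((Real.continuous_sin.comp continuous_fst).pow 2).continuousOn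
      · intro p hp
        have := Real.sin_pos_of_pos_of_lt_pi hp.1.1 hp.1.2
        positivity
    have h2 : AEStronglyMeasurable (fun p : ℝ × ℝ => m p.2)
        ((volume.restrict (Ioo 0 Real.pi)).prod (volume : Measure ℝ)) :=
      hm.aestronglyMeasurable.comp_snd
    have h3 : AEStronglyMeasurable (fun p : ℝ × ℝ => HJ σ p.2 p.1)
        ((volume.restrict (Ioo 0 Real.pi)).prod (volume : Measure ℝ)) := by
      rw [hrest]
      refine ContinuousOn.aestronglyMeasurable ?_ (measurableSet_Ioo.prod MeasurableSet.univ)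
      refine (Pool.Agent.Lib_helper37.JO.HJ_continuousOn hσ1).comp
        (f := fun p : ℝ × ℝ => (p.2, (p.1 : ℂ))) ?_ ?_
      · exact (continuous_snd.prodMk (Complex.continuous_ofReal.comp continuous_fst)).continuousOn
      · intro p hp
        exact ⟨mem_univ _, eig_strip hp.1⟩
    exact h1.mul (h2.mul h3)
  have hG : Integrable (fun t : ℝ => ‖((kap k.1 θ t / Real.sin t ^ 2 : ℝ) : ℂ) *
      ((Pool.Agent.Lib_helper37.JO.LG t : ℝ) : ℂ)‖) (volume.restrict (Ioo 0 Real.pi)) := by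
    have h1 := kk_int k.2 (g := fun t => ((Pool.Agent.Lib_helper37.JO.LG t : ℝ) : ℂ))
      (Complex.continuous_ofReal.comp_continuousOn eig_LG_cont) hθ
    exact h1.norm
  have hint : Integrable (Function.uncurry f)
      ((volume.restrict (Ioo 0 Real.pi)).prod (volume : Measure ℝ)) := by
    refine (hG.mul_prod hm.norm).mono' hmeas ?_
    have hae : ∀ᵐ p ∂((volume.restrict (Ioo 0 Real.pi)).prod (volume : Measure ℝ)),
        p.1 ∈ Ioo 0 Real.pi := by
      have h1 : ∀ᵐ t ∂(volume.restrict (Ioo 0 Real.pi)), t ∈ Ioo 0 Real.pi :=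
        ae_restrict_mem measurableSet_Ioo
      exact Measure.quasiMeasurePreserving_fst.ae h1
    filter_upwards [hae] with p hp
    show ‖((kap k.1 θ p.1 / Real.sin p.1 ^ 2 : ℝ) : ℂ) * (m p.2 * HJ σ p.2 p.1)‖ ≤
      ‖((kap k.1 θ p.1 / Real.sin p.1 ^ 2 : ℝ) : ℂ) *
        ((Pool.Agent.Lib_helper37.JO.LG p.1 : ℝ) : ℂ)‖ * ‖m p.2‖
    have h1 := Pool.Agent.Lib_helper37.JO.HJ_log hσ1 p.2 hp.1 hp.2
    have h2 : ‖((Pool.Agent.Lib_helper37.JO.LG p.1 : ℝ) : ℂ)‖ = Pool.Agent.Lib_helper37.JO.LG p.1 := by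
      rw [Complex.norm_real, Real.norm_of_nonneg ((norm_nonneg _).trans h1)]
    rw [norm_mul, norm_mul, norm_mul, h2]
    have h3 : ‖m p.2‖ * ‖HJ σ p.2 p.1‖ ≤ ‖m p.2‖ * Pool.Agent.Lib_helper37.JO.LG p.1 :=
      mul_le_mul_of_nonneg_left h1 (norm_nonneg _)
    calc _ ≤ ‖((kap k.1 θ p.1 / Real.sin p.1 ^ 2 : ℝ) : ℂ)‖ *
          (‖m p.2‖ * Pool.Agent.Lib_helper37.JO.LG p.1) :=
          mul_le_mul_of_nonneg_left h3 (norm_nonneg _)
      _ = _ := by ring
  have h1 : KK k.1 (fun t : ℝ => ∫ κ : ℝ, m κ * HJ σ κ t) θ =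
      ∫ t in Ioo 0 Real.pi, ∫ κ : ℝ, f t κ := by
    unfold KK
    refine integral_congr_ae (ae_of_all _ fun t => ?_)
    simp only [hf]
    rw [integral_const_mul]
  rw [h1, integral_integral_swap hint]
  refine integral_congr_ae (ae_of_all _ fun κ => ?_)
  simp only [hf]
  have h2 : ∀ t : ℝ, ((kap k.1 θ t / Real.sin t ^ 2 : ℝ) : ℂ) * (m κ * HJ σ κ t) =
      m κ * (((kap k.1 θ t / Real.sin t ^ 2 : ℝ) : ℂ) * HJ σ κ t) := fun t => by ring
  simp_rw [h2]
  rw [integral_const_mul]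
  have h3 := kk_HJ k hσ κ hθ
  unfold KK at h3
  rw [h3]
  ring

end Pool.Agent.JOS
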