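import Pool.Agent.Lib_helper58.JOSF.BaseT

namespace Pool.Agent.JOS

open Complex MeasureTheory Filter Topology UpperHalfPlane ModularGroup Set Metric
open scoped MatrixGroups Modular ENNReal ComplexConjugate ContDiff
open Pool.Agent.JO (QN red FamH PV bot cH)
open Pool.Agent.Lib_helper37.JO (HJ)

theorem ext_ord {U : Set ℂ} (hc : Convex ℝ U) : OrdConnected {x : ℝ | (x : ℂ) ∈ U} := by
  have h1 : Convex ℝ {x : ℝ | (x : ℂ) ∈ U} := by
    have h2 := hc.linear_preimage (Complex.ofRealCLM.toLinearMap)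
    exact h2
  exact h1.ordConnected

theorem ext_real {U : Set ℂ} (hc : Convex ℝ U) (hp : ((Real.pi / 2 : ℝ) : ℂ) ∈ U)
    (hs : ∀ z ∈ U, Complex.sin z ≠ 0) {t : ℝ} (ht : (t : ℂ) ∈ U) : t ∈ Ioo 0 Real.pi := by
  have ho := ext_ord hc
  have hpi := Real.pi_pos
  constructor
  · by_contra h
    push Not at h
    have h0 : (0 : ℝ) ∈ {x : ℝ | (x : ℂ) ∈ U} :=
      ho.out (x := t) (y := Real.pi / 2) ht hp ⟨h, by linarith⟩
    exact hs _ h0 (by simp)
  · by_contra h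
    push Not at h
    have h0 : Real.pi ∈ {x : ℝ | (x : ℂ) ∈ U} :=
      ho.out (x := Real.pi / 2) (y := t) hp ht ⟨by linarith, h⟩
    exact hs _ h0 (by simp)

/-- EXT -/
theorem ext_add {f g : ℝ → ℂ} (hf : Ext f) (hg : Ext g) : Ext (fun t => f t + g t) := by
  intro U hU hc hp hs
  obtain ⟨F, hF, hF2⟩ := hf U hU hc hp hs
  obtain ⟨G, hG, hG2⟩ := hg U hU hc hp hs
  exact ⟨fun z => F z + G z, hF.add hG, fun t ht => by
    show F t + G t = f t + g t
    rw [hF2 t ht, hG2 t ht]⟩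

/-- EXT -/
theorem ext_smul {f : ℝ → ℂ} (hf : Ext f) (c : ℂ) : Ext (fun t => c * f t) := by
  intro U hU hc hp hs
  obtain ⟨F, hF, hF2⟩ := hf U hU hc hp hs
  exact ⟨fun z => c * F z, hF.const_mul c, fun t ht => by
    show c * F t = c * f t
    rw [hF2 t ht]⟩

/-- EXT -/
theorem ext_congr {f g : ℝ → ℂ} (hf : Ext f) (h : ∀ t ∈ Ioo 0 Real.pi, f t = g t) :
    Ext g := by
  intro U hU hc hp hs
  obtain ⟨F, hF, hF2⟩ := hf U hU hc hp hs
  exact ⟨F, hF, fun t ht => by rw [hF2 t ht, h t (ext_real hc hp hs ht)]⟩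

theorem ext_int {V : Set ℝ} (hV : IsOpen V) (ho : OrdConnected V) {x t : ℝ} (hx : x ∈ V)
    (ht : t ∈ V) : ∃ α β : ℝ, x ∈ Ioo α β ∧ t ∈ Ioo α β ∧ Ioo α β ⊆ V := by
  have key : ∀ p ∈ V, ∃ δ : ℝ, 0 < δ ∧ p - δ ∈ V ∧ p + δ ∈ V := by
    intro p hp
    obtain ⟨ε, hε, hb⟩ := Metric.isOpen_iff.mp hV p hp
    refine ⟨ε / 2, by positivity, hb ?_, hb ?_⟩
    · rw [Metric.mem_ball, Real.dist_eq]
      have : p - ε / 2 - p = -(ε / 2) := by ring
      rw [this, abs_neg, abs_of_pos (by positivity)]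
      linarith
    · rw [Metric.mem_ball, Real.dist_eq]
      have : p + ε / 2 - p = ε / 2 := by ring
      rw [this, abs_of_pos (by positivity)]
      linarith
  obtain ⟨δ, hδ, hx1, hx2⟩ := key x hx
  obtain ⟨δ', hδ', ht1, ht2⟩ := key t ht
  rcases le_total x t with h | h
  · refine ⟨x - δ, t + δ', ⟨by linarith, by linarith⟩, ⟨by linarith, by linarith⟩, ?_⟩
    intro p hp
    exact ho.out hx1 ht2 ⟨hp.1.le, hp.2.le⟩
  · refine ⟨t - δ', x + δ, ⟨by linarith, by linarith⟩, ⟨by linarith, by linarith⟩, ?_⟩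
    intro p hp
    exact ho.out ht1 hx2 ⟨hp.1.le, hp.2.le⟩

/-- EXT: solutions of linear second order equations -/
theorem ext_ode {f f1 g : ℝ → ℂ} {l : ℂ} (hg : Ext g)
    (h1 : ∀ t ∈ Ioo 0 Real.pi, HasDerivAt f (f1 t) t)
    (h2 : ∀ t ∈ Ioo 0 Real.pi,
      HasDerivAt f1 (-(l * f t + g t) / ((Real.sin t ^ 2 : ℝ) : ℂ)) t) : Ext f := by
  intro U hU hc hp hs
  obtain ⟨G, hG, hG2⟩ := hg U hU hc hp hs
  have hsin : DifferentiableOn ℂ (fun z : ℂ => Complex.sin z ^ 2) U := by fun_prop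
  have hsin0 : ∀ z ∈ U, Complex.sin z ^ 2 ≠ 0 := fun z hz => pow_ne_zero 2 (hs z hz)
  obtain ⟨y, y', hy, hy', ha, hb⟩ := odx hU hc (q := fun z => -l / Complex.sin z ^ 2)
    (g := fun z => -G z / Complex.sin z ^ 2)
    ((differentiableOn_const _).div hsin hsin0) (hG.neg.div hsin hsin0) hp
    (f (Real.pi / 2)) (f1 (Real.pi / 2))
  refine ⟨y, fun z hz => (hy z hz).differentiableAt.differentiableWithinAt, fun t ht => ?_⟩
  have hV : IsOpen {x : ℝ | (x : ℂ) ∈ U} := hU.preimage Complex.continuous_ofReal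
  obtain ⟨α, β, hx, ht', hsub⟩ := ext_int hV (ext_ord hc) (x := Real.pi / 2) (t := t) hp ht
  have hI : ∀ x ∈ Ioo α β, x ∈ Ioo 0 Real.pi := fun x hx => ext_real hc hp hs (hsub hx)
  have hsr : ∀ x ∈ Ioo α β, ((Real.sin x ^ 2 : ℝ) : ℂ) ≠ 0 := by
    intro x hx
    have h3 : 0 < Real.sin x := Real.sin_pos_of_pos_of_lt_pi (hI x hx).1 (hI x hx).2
    have h4 : (0 : ℝ) < Real.sin x ^ 2 := by positivity
    exact_mod_cast h4.ne'
  have hq : ContinuousOn (fun x : ℝ => -l / ((Real.sin x ^ 2 : ℝ) : ℂ)) (Ioo α β) := by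
    refine ContinuousOn.div continuousOn_const ?_ hsr
    exact (Complex.continuous_ofReal.comp (by fun_prop)).continuousOn
  refine odx_uniq hq (y₁ := fun x : ℝ => y (x : ℂ)) (y₁' := fun x : ℝ => y' (x : ℂ))
    (y₂ := f) (y₂' := f1) (g := fun x : ℝ => -g x / ((Real.sin x ^ 2 : ℝ) : ℂ)) (x := Real.pi / 2)
    ?_ ?_ ?_ ?_ hx ha hb t ht'
  · intro x hx
    exact (hy x (hsub hx)).comp_ofReal
  · intro x hx
    have h3 := (hy' x (hsub hx)).comp_ofReal
    refine h3.congr_deriv ?_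
    rw [hG2 x (hsub hx)]
    push_cast
    rfl
  · intro x hx
    exact h1 x (hI x hx)
  · intro x hx
    refine (h2 x (hI x hx)).congr_deriv ?_
    ring

theorem ext_pi {a : ℂ} (h : Complex.sin a = 0) (h1 : -Real.pi < a.re) (h2 : a.re < Real.pi) :
    a = 0 := by
  obtain ⟨n, hn⟩ := Complex.sin_eq_zero_iff.mp h
  have hre : a.re = n * Real.pi := by
    rw [hn]
    simp
  rw [hre] at h1 h2
  have hpi := Real.pi_pos
  have h3 : (-1 : ℝ) < n := by nlinarith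
  have h4 : (n : ℝ) < 1 := by nlinarith
  have h5 : -1 < n := by exact_mod_cast h3
  have h6 : n < 1 := by exact_mod_cast h4
  have h7 : n = 0 := by omega
  rw [hn, h7]
  simp

/-- EXT: the conclusion in the form needed later -/
theorem ext_concl {f : ℝ → ℂ} (hf : Ext f) : ∃ R : ℂ → ℂ,
    DifferentiableOn ℂ R Pool.Agent.Lib_helper37.JO.strip ∧
    (∀ θ : ℝ, θ ∈ Ioo (0 : ℝ) Real.pi → R θ = f θ) ∧
    ∀ η₁ η₂ : ℝ, 0 < η₁ → ∃ C : ℝ, ∀ ε η : ℝ, 0 < ε → ε ≤ 1 → η₁ ≤ η → η ≤ η₂ →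
      ‖R (ε + η * Complex.I)‖ ≤ C := by
  have hpi := Real.pi_pos
  have hpi3 := Real.pi_gt_three
  have hSo := Pool.Agent.Lib_helper37.JO.isOpen_strip
  have hSc : Convex ℝ Pool.Agent.Lib_helper37.JO.strip := by
    have e1 : Convex ℝ {z : ℂ | 0 < z.re} := convex_halfSpace_re_gt 0
    have e2 : Convex ℝ {z : ℂ | z.re < Real.pi} := convex_halfSpace_re_lt Real.pi
    exact e1.inter e2
  have hSp : ((Real.pi / 2 : ℝ) : ℂ) ∈ Pool.Agent.Lib_helper37.JO.strip := by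
    constructor
    · rw [Complex.ofReal_re]; linarith
    · rw [Complex.ofReal_re]; linarith
  have hSs : ∀ z ∈ Pool.Agent.Lib_helper37.JO.strip, Complex.sin z ≠ 0 := by
    intro z hz h0
    have h3 := ext_pi h0 (by linarith [hz.1]) hz.2
    have h4 := hz.1
    rw [h3] at h4
    simp at h4
  obtain ⟨R, hR, hR2⟩ := hf _ hSo hSc hSp hSs
  refine ⟨R, hR, fun θ hθ => hR2 θ ⟨by simpa using hθ.1, by simpa using hθ.2⟩, ?_⟩
  intro η₁ η₂ hη₁
  set U₁ : Set ℂ := {z : ℂ | -Real.pi < z.re} ∩ {z : ℂ | z.re < Real.pi} ∩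
    {z : ℂ | 1 / 2 < 2 * z.re / Real.pi + z.im / η₁} with hU₁
  have hUo : IsOpen U₁ := by
    refine (((isOpen_lt continuous_const Complex.continuous_re).inter
      (isOpen_lt Complex.continuous_re continuous_const)).inter ?_)
    refine isOpen_lt continuous_const ?_
    exact ((continuous_const.mul Complex.continuous_re).div_const _).add
      (Complex.continuous_im.div_const _)
  have hUc : Convex ℝ U₁ := by
    refine ((convex_halfSpace_re_gt _).inter (convex_halfSpace_re_lt _)).inter ?_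
    intro z hz w hw a b ha hb hab
    simp only [mem_ofPred_eq] at hz hw ⊢
    have e1 : (a • z + b • w).re = a * z.re + b * w.re := by simp
    have e2 : (a • z + b • w).im = a * z.im + b * w.im := by simp
    rw [e1, e2]
    have e3 : 2 * (a * z.re + b * w.re) / Real.pi + (a * z.im + b * w.im) / η₁ =
        a * (2 * z.re / Real.pi + z.im / η₁) + b * (2 * w.re / Real.pi + w.im / η₁) := by ring
    rw [e3]
    rcases ha.eq_or_lt with h0 | h0
    · have hb1 : b = 1 := by linarith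
      rw [← h0, hb1]
      linarith
    · nlinarith [mul_lt_mul_of_pos_left hz h0, mul_le_mul_of_nonneg_left hw.le hb]
  have hUp : ((Real.pi / 2 : ℝ) : ℂ) ∈ U₁ := by
    refine ⟨⟨?_, ?_⟩, ?_⟩
    · show -Real.pi < ((Real.pi / 2 : ℝ) : ℂ).re
      rw [Complex.ofReal_re]; linarith
    · show ((Real.pi / 2 : ℝ) : ℂ).re < Real.pi
      rw [Complex.ofReal_re]; linarith
    · show 1 / 2 < 2 * ((Real.pi / 2 : ℝ) : ℂ).re / Real.pi + ((Real.pi / 2 : ℝ) : ℂ).im / η₁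
      rw [Complex.ofReal_re, Complex.ofReal_im]
      have : 2 * (Real.pi / 2) / Real.pi = 1 := by field_simp
      rw [this]
      norm_num
  have hUs : ∀ z ∈ U₁, Complex.sin z ≠ 0 := by
    intro z hz h0
    have h3 := ext_pi h0 hz.1.1 hz.1.2
    have h4 : 1 / 2 < 2 * z.re / Real.pi + z.im / η₁ := hz.2
    rw [h3] at h4
    norm_num at h4
  obtain ⟨F, hF, hF2⟩ := hf U₁ hUo hUc hUp hUs
  have hK : IsCompact (Icc (0 : ℝ) 1 ×ℂ Icc η₁ η₂) := isCompact_Icc.reProdIm isCompact_Icc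
  have hKU : (Icc (0 : ℝ) 1 ×ℂ Icc η₁ η₂) ⊆ U₁ := by
    intro z hz
    obtain ⟨⟨h3, h4⟩, h5, h6⟩ := hz
    refine ⟨⟨?_, ?_⟩, ?_⟩
    · show -Real.pi < z.re
      linarith
    · show z.re < Real.pi
      linarith
    · show 1 / 2 < 2 * z.re / Real.pi + z.im / η₁
      have h7 : 0 ≤ 2 * z.re / Real.pi := by positivity
      have h8 : 1 ≤ z.im / η₁ := by rw [le_div_iff₀ hη₁]; linarith
      linarith
  obtain ⟨C, hC⟩ := hK.exists_bound_of_continuousOn (hF.continuousOn.mono hKU)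
  have heq : EqOn F R (U₁ ∩ Pool.Agent.Lib_helper37.JO.strip) := by
    have hFa : AnalyticOnNhd ℂ F (U₁ ∩ Pool.Agent.Lib_helper37.JO.strip) :=
      (hF.mono inter_subset_left).analyticOnNhd (hUo.inter hSo)
    have hRa : AnalyticOnNhd ℂ R (U₁ ∩ Pool.Agent.Lib_helper37.JO.strip) :=
      (hR.mono inter_subset_right).analyticOnNhd (hUo.inter hSo)
    refine hFa.eqOn_of_preconnected_of_frequently_eq hRa (hUc.inter hSc).isPreconnected
      (z₀ := ((Real.pi / 2 : ℝ) : ℂ)) ⟨hUp, hSp⟩ ?_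
    have htend : Tendsto (fun x : ℝ => (x : ℂ)) (𝓝[≠] (Real.pi / 2)) (𝓝[≠] ((Real.pi / 2 : ℝ) : ℂ)) := by
      refine tendsto_nhdsWithin_iff.mpr ⟨?_, ?_⟩
      · exact (Complex.continuous_ofReal.tendsto _).mono_left nhdsWithin_le_nhds
      · filter_upwards [self_mem_nhdsWithin] with x hx
        intro h
        exact hx (Complex.ofReal_injective h)
    refine htend.frequently ?_
    have hev : ∀ᶠ x : ℝ in 𝓝[≠] (Real.pi / 2), (x : ℂ) ∈ U₁ ∩ Pool.Agent.Lib_helper37.JO.strip := by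
      have h3 : ∀ᶠ x : ℝ in 𝓝 (Real.pi / 2), (x : ℂ) ∈ U₁ ∩ Pool.Agent.Lib_helper37.JO.strip :=
        Complex.continuous_ofReal.continuousAt ((hUo.inter hSo).mem_nhds ⟨hUp, hSp⟩)
      exact h3.filter_mono nhdsWithin_le_nhds
    refine (hev.mono fun x hx => ?_).frequently
    show F (x : ℂ) = R (x : ℂ)
    rw [hF2 x hx.1, hR2 x hx.2]
  refine ⟨C, fun ε η h0 h1 h2 h3 => ?_⟩
  have hre : ((ε : ℂ) + η * Complex.I).re = ε := by simp
  have him : ((ε : ℂ) + η * Complex.I).im = η := by simp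
  have hzK : ((ε : ℂ) + η * Complex.I) ∈ (Icc (0 : ℝ) 1 ×ℂ Icc η₁ η₂) := by
    refine ⟨?_, ?_⟩
    · show ((ε : ℂ) + η * Complex.I).re ∈ Icc (0 : ℝ) 1
      rw [hre]
      exact ⟨h0.le, h1⟩
    · show ((ε : ℂ) + η * Complex.I).im ∈ Icc η₁ η₂
      rw [him]
      exact ⟨h2, h3⟩
  have hzS : ((ε : ℂ) + η * Complex.I) ∈ Pool.Agent.Lib_helper37.JO.strip := by
    refine ⟨?_, ?_⟩
    · rw [hre]; exact h0
    · rw [hre]; linarith
  rw [← heq ⟨hKU hzK, hzS⟩]
  exact hC _ hzK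

end Pool.Agent.JOS
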