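import Pool.Agent.Lib_helper58.JOSF.EXT

/-! # JO, part S, block FDC -/

namespace Pool.Agent.JOS

open Complex MeasureTheory Filter Topology UpperHalfPlane ModularGroup Set Metric
open scoped MatrixGroups Modular ENNReal ComplexConjugate ContDiff
open Pool.Agent.JO (QN red FamH PV bot cH)
open Pool.Agent.Lib_helper37.JO (HJ)

/-- `g` is in the span of the finite family `F` on `(0, π)` -/
def fdc_Sp {ι : Type} [Fintype ι] (F : ι → ℝ → ℂ) (g : ℝ → ℂ) : Prop :=
  ∃ c : ι → ℂ, ∀ t ∈ Ioo 0 Real.pi, g t = ∑ i, c i * F i t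

theorem fdc_pi2 : Real.pi / 2 ∈ Ioo 0 Real.pi := ⟨by positivity, by linarith [Real.pi_pos]⟩

theorem fdc_ext_zero : Ext fun _ => 0 := fun _ _ _ _ _ => ⟨fun _ => 0, by fun_prop, fun _ _ => rfl⟩

theorem fdc_prim {g : ℝ → ℂ} (hg : ContinuousOn g (Ioo 0 Real.pi)) :
    ∃ G : ℝ → ℂ, ∀ t ∈ Ioo 0 Real.pi, HasDerivAt G (g t) t := by
  refine ⟨fun t => ∫ x in (Real.pi / 2)..t, g x, fun t ht => ?_⟩
  have hsub : uIcc (Real.pi / 2) t ⊆ Ioo 0 Real.pi := by
    have : OrdConnected (Ioo 0 Real.pi) := ordConnected_Ioo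
    exact this.uIcc_subset fdc_pi2 ht
  refine intervalIntegral.integral_hasDerivAt_right ((hg.mono hsub).intervalIntegrable) ?_ ?_
  · exact hg.stronglyMeasurableAtFilter isOpen_Ioo t ht
  · exact hg.continuousAt (isOpen_Ioo.mem_nhds ht)

theorem fdc_sin {t : ℝ} (ht : t ∈ Ioo 0 Real.pi) : ((Real.sin t ^ 2 : ℝ) : ℂ) ≠ 0 := by
  have := Real.sin_pos_of_pos_of_lt_pi ht.1 ht.2
  exact_mod_cast (by positivity : Real.sin t ^ 2 ≠ 0)

theorem fdc_sin_cont : ContinuousOn (fun t : ℝ => ((Real.sin t ^ 2 : ℝ) : ℂ)) (Ioo 0 Real.pi) := by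
  fun_prop

theorem fdc_part {g : ℝ → ℂ} (hg : ContinuousOn g (Ioo 0 Real.pi)) :
    ∃ p p1 : ℝ → ℂ, ∀ t ∈ Ioo 0 Real.pi, HasDerivAt p (p1 t) t ∧
      HasDerivAt p1 (-g t / ((Real.sin t ^ 2 : ℝ) : ℂ)) t := by
  have h1 : ContinuousOn (fun t => -g t / ((Real.sin t ^ 2 : ℝ) : ℂ)) (Ioo 0 Real.pi) :=
    hg.neg.div fdc_sin_cont fun t ht => fdc_sin ht
  obtain ⟨p1, hp1⟩ := fdc_prim h1
  have h2 : ContinuousOn p1 (Ioo 0 Real.pi) := fun t ht => (hp1 t ht).continuousAt.continuousWithinAt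
  obtain ⟨p, hp⟩ := fdc_prim h2
  exact ⟨p, p1, fun t ht => ⟨hp t ht, hp1 t ht⟩⟩

open scoped Classical in
/-- a particular solution of `p'' = -g/sin²` -/
noncomputable def fdc_p (g : ℝ → ℂ) : ℝ → ℂ :=
  if hg : ContinuousOn g (Ioo 0 Real.pi) then (fdc_part hg).choose else fun _ => 0

theorem fdc_p_spec {g : ℝ → ℂ} (hg : ContinuousOn g (Ioo 0 Real.pi)) :
    ∃ p1 : ℝ → ℂ, ∀ t ∈ Ioo 0 Real.pi, HasDerivAt (fdc_p g) (p1 t) t ∧
      HasDerivAt p1 (-g t / ((Real.sin t ^ 2 : ℝ) : ℂ)) t := by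
  unfold fdc_p
  rw [dif_pos hg]
  exact (fdc_part hg).choose_spec

/-- the next family -/
noncomputable def fdc_next {ι : Type} (F : ι → ℝ → ℂ) : ι ⊕ Bool → ℝ → ℂ :=
  Sum.elim (fun i => fdc_p (F i)) (fun b => if b then fun _ => 1 else fun t => (t : ℂ))

/-- the families used -/
def fdc_Gd {ι : Type} (F : ι → ℝ → ℂ) : Prop :=
  ∀ i, Ext (F i) ∧ ContinuousOn (F i) (Ioo 0 Real.pi)

theorem fdc_next_gd {ι : Type} {F : ι → ℝ → ℂ} (hF : fdc_Gd F) : fdc_Gd (fdc_next F) := by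
  rintro (i | b)
  · obtain ⟨p1, hp⟩ := fdc_p_spec (hF i).2
    refine ⟨?_, fun t ht => (hp t ht).1.continuousAt.continuousWithinAt⟩
    refine ext_ode (l := 0) (hF i).1 (fun t ht => (hp t ht).1) fun t ht => ?_
    have := (hp t ht).2
    simpa using this
  · cases b
    · refine ⟨?_, Complex.continuous_ofReal.continuousOn⟩
      refine ext_ode (l := 0) (f1 := fun _ => 1) fdc_ext_zero (fun t _ => ?_) fun t ht => ?_
      · exact Complex.ofRealCLM.hasDerivAt
      · simpa using hasDerivAt_const t (1 : ℂ)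
    · refine ⟨?_, continuousOn_const⟩
      refine ext_ode (l := 0) (f1 := fun _ => 0) fdc_ext_zero (fun t _ => ?_) fun t ht => ?_
      · exact hasDerivAt_const t (1 : ℂ)
      · simpa using hasDerivAt_const t (0 : ℂ)

/-- one integration step -/
theorem fdc_step {ι : Type} [Fintype ι] {F : ι → ℝ → ℂ} (hF : fdc_Gd F) {f f1 g : ℝ → ℂ}
    (hg : fdc_Sp F g) (h1 : ∀ t ∈ Ioo 0 Real.pi, HasDerivAt f (f1 t) t)
    (h2 : ∀ t ∈ Ioo 0 Real.pi, HasDerivAt f1 (-g t / ((Real.sin t ^ 2 : ℝ) : ℂ)) t) :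
    fdc_Sp (fdc_next F) f := by
  obtain ⟨c, hc⟩ := hg
  choose p1 hp using fun i => fdc_p_spec (hF i).2
  set P : ℝ → ℂ := fun t => ∑ i, c i * fdc_p (F i) t with hP
  set P1 : ℝ → ℂ := fun t => ∑ i, c i * p1 i t with hP1
  set B : ℂ := f1 (Real.pi / 2) - P1 (Real.pi / 2) with hB
  set A : ℂ := f (Real.pi / 2) - P (Real.pi / 2) - B * ((Real.pi / 2 : ℝ) : ℂ) with hA
  have hPd : ∀ t ∈ Ioo 0 Real.pi, HasDerivAt P (P1 t) t := by
    intro t ht
    exact HasDerivAt.fun_sum fun i _ => ((hp i t ht).1.const_mul (c i))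
  have hP1d : ∀ t ∈ Ioo 0 Real.pi, HasDerivAt P1 (-g t / ((Real.sin t ^ 2 : ℝ) : ℂ)) t := by
    intro t ht
    have h3 : HasDerivAt P1 (∑ i, c i * (-F i t / ((Real.sin t ^ 2 : ℝ) : ℂ))) t :=
      HasDerivAt.fun_sum fun i _ => ((hp i t ht).2.const_mul (c i))
    convert h3 using 1
    rw [hc t ht, neg_div, Finset.sum_div, ← Finset.sum_neg_distrib]
    refine Finset.sum_congr rfl fun i _ => ?_
    ring
  refine ⟨Sum.elim c (fun b => if b then A else B), fun t ht => ?_⟩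
  have huniq := odx_uniq (α := 0) (β := Real.pi) (q := fun _ => 0)
    (g := fun t => -g t / ((Real.sin t ^ 2 : ℝ) : ℂ)) continuousOn_const
    (y₁ := f) (y₁' := f1) (y₂ := fun t => P t + (A + B * (t : ℂ))) (y₂' := fun t => P1 t + B)
    h1 (fun t ht => by simpa using h2 t ht)
    (fun t ht => by
      have h3 : HasDerivAt (fun t : ℝ => A + B * (t : ℂ)) B t := by
        have := (Complex.ofRealCLM.hasDerivAt (x := t)).const_mul B
        have h4 := this.const_add A
        simpa using h4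
      exact (hPd t ht).add h3)
    (fun t ht => by
      have := (hP1d t ht).add_const B
      simpa using this)
    fdc_pi2 (by simp only [hA]; ring) (by simp only [hB]; ring) t ht
  rw [huniq, Fintype.sum_sum_type, Fintype.sum_bool]
  simp only [fdc_next, Sum.elim_inl, Sum.elim_inr, if_true, Bool.false_eq_true, if_false, hP]
  ring

/-- closedness -/
theorem fdc_closed {ι : Type} [Fintype ι] {F : ι → ℝ → ℂ} {g : ℝ → ℂ}
    (hg : ContinuousOn g (Ioo 0 Real.pi)) (h : ∀ k : TKs, fdc_Sp F (KK k.1 g)) : fdc_Sp F g := by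
  obtain ⟨m, kk, hm, hkk, -⟩ := apx
  set res : (ℝ → ℂ) → (Ioo 0 Real.pi → ℂ) := fun f t => f t with hres
  set W : Submodule ℂ (Ioo 0 Real.pi → ℂ) := Submodule.span ℂ (range fun i => res (F i)) with hW
  have hfd : FiniteDimensional ℂ W := FiniteDimensional.span_of_finite ℂ (finite_range _)
  have hcl : IsClosed (W : Set (Ioo 0 Real.pi → ℂ)) := W.closed_of_finiteDimensional
  have hin : ∀ f : ℝ → ℂ, fdc_Sp F f ↔ res f ∈ W := by
    intro f
    rw [hW, Submodule.mem_span_range_iff_exists_fun]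
    constructor
    · rintro ⟨c, hc⟩
      refine ⟨c, ?_⟩
      funext t
      rw [Finset.sum_apply]
      simp only [Pi.smul_apply, smul_eq_mul, hres]
      exact (hc t t.2).symm
    · rintro ⟨c, hc⟩
      refine ⟨c, fun t ht => ?_⟩
      have := congrFun hc ⟨t, ht⟩
      rw [Finset.sum_apply] at this
      simp only [Pi.smul_apply, smul_eq_mul, hres] at this
      exact this.symm
  rw [hin]
  have hmem : ∀ n, ((m : ℂ)⁻¹) • res (KK (kk n) g) ∈ W := fun n =>
    W.smul_mem _ ((hin _).1 (h ⟨kk n, (hkk n).1⟩))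
  have hlim : Tendsto (fun n => ((m : ℂ)⁻¹) • res (KK (kk n) g)) atTop (𝓝 (res g)) := by
    rw [tendsto_pi_nhds]
    intro t
    rw [Metric.tendsto_atTop]
    intro ε hε
    obtain ⟨δ, hδ, hd⟩ := kk_app hg t.2 (half_pos hε)
    obtain ⟨n₀, hn₀⟩ := exists_nat_one_div_lt hδ
    refine ⟨n₀, fun n hn => ?_⟩
    obtain ⟨h1, h2, h3, h4⟩ := hkk n
    have h5 := hd (kk n) h1 h2 fun c hc => h3 c (by
      have h6 : 1 / ((n : ℝ) + 1) ≤ 1 / ((n₀ : ℝ) + 1) := by
        have : (n₀ : ℝ) ≤ n := by exact_mod_cast hn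
        gcongr
      linarith)
    rw [h4] at h5
    have hmc : (m : ℂ) ≠ 0 := by exact_mod_cast hm.ne'
    have e1 : (((m : ℂ)⁻¹) • res (KK (kk n) g)) t - res g t =
        (m : ℂ)⁻¹ * (KK (kk n) g t - m * g t) := by
      simp only [Pi.smul_apply, smul_eq_mul, hres]
      field_simp
    rw [dist_eq_norm, e1, norm_mul, norm_inv, Complex.norm_real, Real.norm_of_nonneg hm.le]
    calc m⁻¹ * ‖KK (kk n) g t - m * g t‖ ≤ m⁻¹ * (ε / 2 * m) := by gcongr
      _ = ε / 2 := by field_simp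
      _ < ε := half_lt_self hε
  exact hcl.mem_of_tendsto hlim (Eventually.of_forall hmem)

/-- solutions of the homogeneous equation -/
theorem fdc_sol (m : ℝ) (a b : ℂ) : ∃ y y1 : ℝ → ℂ, (∀ t ∈ Ioo 0 Real.pi, HasDerivAt y (y1 t) t ∧
    HasDerivAt y1 (-((m / Real.sin t ^ 2 : ℝ) : ℂ) * y t) t) ∧ y (Real.pi / 2) = a ∧
      y1 (Real.pi / 2) = b := by
  set U : Set ℂ := {z | 0 < z.re} ∩ {z | z.re < Real.pi} with hU
  have hUo : IsOpen U := (isOpen_lt continuous_const Complex.continuous_re).inter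
    (isOpen_lt Complex.continuous_re continuous_const)
  have hUc : Convex ℝ U := (convex_halfSpace_re_gt 0).inter (convex_halfSpace_re_lt Real.pi)
  have hsin : ∀ z ∈ U, Complex.sin z ≠ 0 := by
    rintro z ⟨h1, h2⟩ h
    obtain ⟨k, hk⟩ := Complex.sin_eq_zero_iff.1 h
    have h3 : z.re = k * Real.pi := by
      rw [hk]
      simp
    rw [Set.mem_ofPred_eq, h3] at h1 h2
    have hpi := Real.pi_pos
    have h4 : (0 : ℝ) < k := by
      by_contra h5
      push Not at h5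
      nlinarith
    have h5 : (k : ℝ) < 1 := by
      by_contra h6
      push Not at h6
      nlinarith
    have h6 : 0 < k := by exact_mod_cast h4
    have h7 : k < 1 := by exact_mod_cast h5
    omega
  have hx : ((Real.pi / 2 : ℝ) : ℂ) ∈ U := by
    constructor
    · show 0 < ((Real.pi / 2 : ℝ) : ℂ).re
      rw [Complex.ofReal_re]
      positivity
    · show ((Real.pi / 2 : ℝ) : ℂ).re < Real.pi
      rw [Complex.ofReal_re]
      linarith [Real.pi_pos]
  obtain ⟨y, y', h1, h2, h3, h4⟩ := odx hUo hUc (q := fun z => -(m / Complex.sin z ^ 2))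
    (g := fun _ => 0) (by
      refine DifferentiableOn.neg (DifferentiableOn.div (by fun_prop) (by fun_prop) ?_)
      exact fun z hz => pow_ne_zero 2 (hsin z hz)) (by fun_prop) hx a b
  have hmem : ∀ t ∈ Ioo 0 Real.pi, (t : ℂ) ∈ U := fun t ht => ⟨ht.1, ht.2⟩
  refine ⟨fun t => y t, fun t => y' t, fun t ht => ⟨?_, ?_⟩, h3, h4⟩
  · exact (h1 _ (hmem t ht)).comp_ofReal
  · have := (h2 _ (hmem t ht)).comp_ofReal
    convert this using 1
    push_cast
    ring

theorem ext_fin {h : ℝ → ℂ} (hh : ContinuousOn h (Ioo 0 Real.pi)) (S : Finset ℝ)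
    (H : ∀ k l : TKs, ∃ y y1 : ℝ → ℝ → ℂ,
      (∀ m ∈ S, ∀ t ∈ Ioo 0 Real.pi, HasDerivAt (y m) (y1 m t) t ∧
        HasDerivAt (y1 m) (-((m / Real.sin t ^ 2 : ℝ) : ℂ) * y m t) t) ∧
      ∀ θ ∈ Ioo 0 Real.pi, KK k.1 (KK (D3 l).1 h) θ = ∑ m ∈ S, y m θ) : Ext h := by
  classical
  choose Y Y' hY hYa hYb using fun (m : ℝ) (b : Bool) =>
    fdc_sol m (if b then 1 else 0) (if b then 0 else 1)
  set F₀ : S × Bool → ℝ → ℂ := fun i => Y i.1 i.2 with hF₀
  have hF₀g : fdc_Gd F₀ := by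
    rintro ⟨m, b⟩
    refine ⟨?_, fun t ht => (hY m b t ht).1.continuousAt.continuousWithinAt⟩
    refine ext_ode (l := ((m : ℝ) : ℂ)) fdc_ext_zero (fun t ht => (hY m b t ht).1) fun t ht => ?_
    have h1 := (hY m b t ht).2
    convert h1 using 1
    push_cast
    ring
  have hcont : ∀ l : TKs, ContinuousOn (KK l.1 h) (Ioo 0 Real.pi) := fun l t ht =>
    (kk_deriv l.2 hh ht).1.continuousAt.continuousWithinAt
  -- the smoothings of third derivatives
  have s0 : ∀ l : TKs, fdc_Sp F₀ (KK (D3 l).1 h) := by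
    intro l
    refine fdc_closed (hcont (D3 l)) fun k => ?_
    obtain ⟨y, y1, hy, hs⟩ := H k l
    refine ⟨fun i => if i.2 then y i.1 (Real.pi / 2) else y1 i.1 (Real.pi / 2), fun t ht => ?_⟩
    rw [hs t ht, Fintype.sum_prod_type, ← Finset.sum_coe_sort S]
    refine Finset.sum_congr rfl fun m _ => ?_
    rw [Fintype.sum_bool]
    simp only [if_true, Bool.false_eq_true, if_false, hF₀]
    have hq : ContinuousOn (fun t : ℝ => -(((m : ℝ) / Real.sin t ^ 2 : ℝ) : ℂ))
        (Ioo 0 Real.pi) := by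
      refine ContinuousOn.neg ?_
      refine Complex.continuous_ofReal.comp_continuousOn ?_
      refine continuousOn_const.div (by fun_prop) fun t ht => ?_
      have := Real.sin_pos_of_pos_of_lt_pi ht.1 ht.2
      positivity
    refine odx_uniq (α := 0) (β := Real.pi) (g := fun _ => 0) hq
      (y₁ := y m) (y₁' := y1 m)
      (y₂ := fun t => y m (Real.pi / 2) * Y m true t + y1 m (Real.pi / 2) * Y m false t)
      (y₂' := fun t => y m (Real.pi / 2) * Y' m true t + y1 m (Real.pi / 2) * Y' m false t)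
      (fun t ht => (hy m m.2 t ht).1) (fun t ht => by simpa using (hy m m.2 t ht).2)
      (fun t ht => ((hY m true t ht).1.const_mul _).add ((hY m false t ht).1.const_mul _))
      (fun t ht => by
        have h1 := ((hY m true t ht).2.const_mul (y m (Real.pi / 2))).add
          ((hY m false t ht).2.const_mul (y1 m (Real.pi / 2)))
        have h2 : HasDerivAt (fun t => y m (Real.pi / 2) * Y' m true t +
          y1 m (Real.pi / 2) * Y' m false t) _ t := h1
        refine h2.congr_deriv ?_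
        ring) fdc_pi2 ?_ ?_ t ht
    · simp [hYa]
    · simp [hYb]
  have step : ∀ {ι : Type} [Fintype ι] {F : ι → ℝ → ℂ}, fdc_Gd F → ∀ l : TKs,
      fdc_Sp F (KK (Dk l).1 h) → fdc_Sp (fdc_next F) (KK l.1 h) := by
    intro ι _ F hF l hl
    refine fdc_step hF hl (f1 := KK1 l.1 h) (fun t ht => (kk_deriv l.2 hh ht).1) fun t ht => ?_
    exact (kk_deriv l.2 hh ht).2
  have g1 := fdc_next_gd hF₀g
  have g2 := fdc_next_gd g1
  have g3 := fdc_next_gd g2
  have s3 : ∀ l : TKs, fdc_Sp (fdc_next (fdc_next (fdc_next F₀))) (KK l.1 h) := fun l =>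
    step g2 l (step g1 (Dk l) (step hF₀g (Dk (Dk l)) (s0 l)))
  obtain ⟨c, hc⟩ := fdc_closed hh s3
  have hsum : ∀ T : Finset ((((S × Bool) ⊕ Bool) ⊕ Bool) ⊕ Bool), Ext fun t =>
      ∑ i ∈ T, c i * fdc_next (fdc_next (fdc_next F₀)) i t := by
    intro T
    induction T using Finset.induction_on with
    | empty => simpa using fdc_ext_zero
    | insert a T ha ih =>
      simp only [Finset.sum_insert ha]
      exact ext_add (ext_smul (g3 a).1 (c a)) ih
  exact ext_congr (hsum Finset.univ) fun t ht => (hc t ht).symm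

end Pool.Agent.JOS
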