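import Pool.Agent.Lib_helper58.JOSF.BaseT

/-! # JO, part S, block FUB (helper47) -/

set_option autoImplicit false

namespace Pool.Agent.JOS

open Complex MeasureTheory Filter Topology UpperHalfPlane ModularGroup Set Metric
open scoped MatrixGroups Modular ENNReal ComplexConjugate ContDiff
open Pool.Agent.JO (QN red FamH PV bot cH)
open Pool.Agent.Lib_helper37.JO (HJ)

theorem fub_sig {σ : ℝ} (hσ : σ ^ 2 = 1) : |σ| ≤ 1 := by
  rw [← sq_abs] at hσ
  nlinarith [abs_nonneg σ]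

theorem fub_LG : ContinuousOn Pool.Agent.Lib_helper37.JO.LG (Ioo 0 Real.pi) := by
  intro θ hθ
  have hs := Real.sin_pos_of_pos_of_lt_pi hθ.1 hθ.2
  refine ContinuousAt.continuousWithinAt ?_
  unfold Pool.Agent.Lib_helper37.JO.LG
  have h1 : ContinuousAt (fun t : ℝ => Real.sin t) θ := Real.continuous_sin.continuousAt
  refine (h1.rpow_const (Or.inl hs.ne')).mul (((continuousAt_const.add
    ((continuousAt_const.div h1 hs.ne').log (div_pos two_pos hs).ne')).const_mul _).add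
      continuousAt_const)

theorem fub_HJ {σ : ℝ} (hσ : |σ| ≤ 1) :
    ContinuousOn (fun p : ℝ × ℝ => HJ σ p.1 ((p.2 : ℝ) : ℂ)) (univ ×ˢ Ioo 0 Real.pi) := by
  refine (Pool.Agent.Lib_helper37.JO.HJ_continuousOn hσ).comp
    (f := fun p : ℝ × ℝ => ((p.1, ((p.2 : ℝ) : ℂ)) : ℝ × ℂ)) ?_ ?_
  · exact (continuous_fst.prodMk (Complex.continuous_ofReal.comp continuous_snd)).continuousOn
  · intro p hp
    exact ⟨mem_univ _, Pool.Agent.Lib_helper37.JO.ofReal_strip hp.2.1 hp.2.2⟩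

theorem fc_cont {σ : ℝ} (hσ : σ ^ 2 = 1) {m : ℝ → ℂ} (hm : Integrable m) :
    ContinuousOn (fun t : ℝ => ∫ κ : ℝ, m κ * HJ σ κ t) (Ioo 0 Real.pi) := by
  have hσ' := fub_sig hσ
  intro t₀ ht₀
  refine ContinuousAt.continuousWithinAt ?_
  have hLG := (fub_LG.continuousAt (isOpen_Ioo.mem_nhds ht₀))
  have hev : ∀ᶠ t in 𝓝 t₀, t ∈ Ioo 0 Real.pi ∧
      Pool.Agent.Lib_helper37.JO.LG t < Pool.Agent.Lib_helper37.JO.LG t₀ + 1 :=
    (show ∀ᶠ t in 𝓝 t₀, t ∈ Ioo 0 Real.pi from isOpen_Ioo.mem_nhds ht₀).and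
      (hLG.eventually (gt_mem_nhds (lt_add_one _)))
  refine continuousAt_of_dominated (bound := fun κ => ‖m κ‖ * (Pool.Agent.Lib_helper37.JO.LG t₀ + 1))
    ?_ ?_ (hm.norm.mul_const _) ?_
  · filter_upwards [hev] with t ht
    exact hm.1.mul (Pool.Agent.Lib_helper37.JO.HJ_continuous_kappa hσ'
      (Pool.Agent.Lib_helper37.JO.ofReal_strip ht.1.1 ht.1.2)).aestronglyMeasurable
  · filter_upwards [hev] with t ht
    refine Eventually.of_forall fun κ => ?_
    rw [norm_mul]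
    exact mul_le_mul_of_nonneg_left
      ((Pool.Agent.Lib_helper37.JO.HJ_log hσ' κ ht.1.1 ht.1.2).trans ht.2.le) (norm_nonneg _)
  · refine Eventually.of_forall fun κ => ?_
    refine continuousAt_const.mul ?_
    have h1 := (fub_HJ hσ').continuousAt (x := (κ, t₀))
      ((isOpen_univ.prod isOpen_Ioo).mem_nhds ⟨mem_univ _, ht₀⟩)
    exact ContinuousAt.comp (g := fun p : ℝ × ℝ => HJ σ p.1 ((p.2 : ℝ) : ℂ))
      (f := fun t : ℝ => (κ, t)) h1 (continuousAt_const.prodMk continuousAt_id)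

theorem fc_pair {σ : ℝ} (hσ : σ ^ 2 = 1) {m : ℝ → ℂ} (hm : Integrable m) {b : ℝ → ℂ} (hb : TA b) :
    ∫ κ : ℝ, m κ * (∫ t in Ioo 0 Real.pi, HJ σ κ t * conj (b t) / ((Real.sin t ^ 2 : ℝ) : ℂ)) =
      PR (fun t : ℝ => ∫ κ : ℝ, m κ * HJ σ κ t) b := by
  have hσ' := fub_sig hσ
  obtain ⟨a, c, ha, hc, hs⟩ := hb.supp
  have hsub : Icc a c ⊆ Ioo 0 Real.pi := fun t ht => ⟨ha.trans_le ht.1, ht.2.trans_lt hc⟩
  have hbc : Continuous b := hb.smooth.continuous
  -- the bound of the test factor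
  have hcont : ContinuousOn (fun t : ℝ => Pool.Agent.Lib_helper37.JO.LG t *
      (‖b t‖ / Real.sin t ^ 2)) (Icc a c) := by
    refine (fub_LG.mono hsub).mul (hbc.norm.continuousOn.div
      (Real.continuous_sin.pow 2).continuousOn fun t ht => ?_)
    have h := Real.sin_pos_of_pos_of_lt_pi (hsub ht).1 (hsub ht).2
    positivity
  obtain ⟨B, hB⟩ := isCompact_Icc.exists_bound_of_continuousOn hcont
  set w : ℝ → ℂ := fun t => conj (b t) / ((Real.sin t ^ 2 : ℝ) : ℂ) with hw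
  have hint : Integrable (fun p : ℝ × ℝ => m p.1 * (HJ σ p.1 ((p.2 : ℝ) : ℂ) * w p.2))
      ((volume : Measure ℝ).prod (volume.restrict (Ioo 0 Real.pi))) := by
    have hdom : Integrable (fun p : ℝ × ℝ => ‖m p.1‖ * |B|)
        ((volume : Measure ℝ).prod (volume.restrict (Ioo 0 Real.pi))) := by
      have : Integrable (fun _ : ℝ => |B|) (volume.restrict (Ioo 0 Real.pi)) :=
        integrable_const _
      exact hm.norm.mul_prod this
    refine hdom.mono' ?_ ?_
    · refine AEStronglyMeasurable.mul (hm.1.comp_fst) ?_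
      have e : (volume : Measure ℝ).prod (volume.restrict (Ioo 0 Real.pi)) =
          ((volume : Measure ℝ).prod volume).restrict (univ ×ˢ Ioo 0 Real.pi) := by
        rw [← Measure.prod_restrict, Measure.restrict_univ]
      rw [e]
      refine ContinuousOn.aestronglyMeasurable ?_ (MeasurableSet.univ.prod measurableSet_Ioo)
      refine (fub_HJ hσ').mul ?_
      have h1 : ContinuousOn w (Ioo 0 Real.pi) := by
        refine (Complex.continuous_conj.comp hbc).continuousOn.div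
          (Complex.continuous_ofReal.comp (Real.continuous_sin.pow 2)).continuousOn fun t ht => ?_
        have h := Real.sin_pos_of_pos_of_lt_pi ht.1 ht.2
        have h2 : Real.sin t ^ 2 ≠ 0 := by positivity
        exact_mod_cast h2
      exact h1.comp continuousOn_snd fun p hp => hp.2
    · have hae : ∀ᵐ p ∂((volume : Measure ℝ).prod (volume.restrict (Ioo 0 Real.pi))),
          p.2 ∈ Ioo 0 Real.pi := by
        have e : (volume : Measure ℝ).prod (volume.restrict (Ioo 0 Real.pi)) =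
            ((volume : Measure ℝ).prod volume).restrict (univ ×ˢ Ioo 0 Real.pi) := by
          rw [← Measure.prod_restrict, Measure.restrict_univ]
        rw [e]
        filter_upwards [ae_restrict_mem (MeasurableSet.univ.prod measurableSet_Ioo)] with p hp
        exact hp.2
      filter_upwards [hae] with p hp
      rw [norm_mul]
      refine mul_le_mul_of_nonneg_left ?_ (norm_nonneg _)
      by_cases h0 : b p.2 = 0
      · simp only [hw, h0, map_zero, zero_div, mul_zero, norm_zero]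
        exact abs_nonneg _
      · have h1 := hs _ h0
        have h2 := hB _ h1
        have h3 := Pool.Agent.Lib_helper37.JO.HJ_log hσ' p.1 hp.1 hp.2
        have h4 := Real.sin_pos_of_pos_of_lt_pi hp.1 hp.2
        have h5 : ‖w p.2‖ = ‖b p.2‖ / Real.sin p.2 ^ 2 := by
          simp only [hw]
          rw [norm_div, Complex.norm_conj, Complex.norm_real, Real.norm_eq_abs,
            abs_of_pos (by positivity)]
        rw [norm_mul, h5]
        calc ‖HJ σ p.1 ((p.2 : ℝ) : ℂ)‖ * (‖b p.2‖ / Real.sin p.2 ^ 2) ≤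
            Pool.Agent.Lib_helper37.JO.LG p.2 * (‖b p.2‖ / Real.sin p.2 ^ 2) :=
              mul_le_mul_of_nonneg_right h3 (by positivity)
          _ ≤ B := (le_abs_self _).trans h2
          _ ≤ |B| := le_abs_self _
  have hswap := integral_integral_swap (f := fun (κ t : ℝ) => m κ * (HJ σ κ ((t : ℝ) : ℂ) * w t)) hint
  have hL : ∫ κ : ℝ, m κ * (∫ t in Ioo 0 Real.pi, HJ σ κ t * conj (b t) / ((Real.sin t ^ 2 : ℝ) : ℂ)) =
      ∫ κ : ℝ, ∫ t in Ioo 0 Real.pi, m κ * (HJ σ κ ((t : ℝ) : ℂ) * w t) := by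
    refine integral_congr_ae (Eventually.of_forall fun κ => ?_)
    simp only
    rw [← integral_const_mul]
    refine setIntegral_congr_fun measurableSet_Ioo fun t _ => ?_
    simp only [hw]
    ring
  rw [hL, hswap]
  unfold PR
  refine setIntegral_congr_fun measurableSet_Ioo fun t _ => ?_
  simp only [hw]
  have e : ∀ κ : ℝ, m κ * (HJ σ κ (t : ℂ) * (conj (b t) / ((Real.sin t ^ 2 : ℝ) : ℂ))) =
      (m κ * HJ σ κ (t : ℂ)) * (conj (b t) / ((Real.sin t ^ 2 : ℝ) : ℂ)) := fun κ => by ring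
  simp_rw [e]
  rw [integral_mul_const]
  ring

theorem fub_bd {G : ℝ → ℂ} {b K : ℝ} {θ₀ : ℝ} (h0 : θ₀ ∈ Pool.Agent.SP.II)
    (hK : ∀ θ ∈ Ioo 0 θ₀, ‖G θ‖ ≤ K * θ ^ b) {z : ℂ} {σ₀ σ₁ : ℝ} (hσ₀ : 0 < σ₀) (h1 : σ₀ ≤ z.re)
    (h2 : z.re ≤ σ₁) {t : ℝ} (ht : t ∈ Ioo 0 θ₀) :
    ‖Pool.Agent.SP.ff z t * G t / ((Real.sin t ^ 2 : ℝ) : ℂ)‖ ≤
      (8 * |K| / σ₀) * (t ^ (σ₀ + b - 2) + t ^ (σ₁ + b - 2)) := by
  have hII := Pool.Agent.SP.sub_II h0 ht
  have hs := Pool.Agent.SP.sin_pos' hII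
  have hz : 0 < z.re := hσ₀.trans_le h1
  have hsl : Real.sin t ≤ t := Real.sin_le ht.1.le
  have hsg := Pool.Agent.SP.sin_ge hII
  have hff := Pool.Agent.SP.ff_norm_le hII hz
  have hG := hK t ht
  have htp : 0 < t := ht.1
  have hf2 : ‖Pool.Agent.SP.ff z t‖ ≤ 2 / σ₀ * (t ^ σ₀ + t ^ σ₁) := by
    refine hff.trans ?_
    have e1 : 2 / z.re ≤ 2 / σ₀ := div_le_div_of_nonneg_left (by norm_num) hσ₀ h1
    have e2 : Real.sin t ^ z.re ≤ t ^ z.re := Real.rpow_le_rpow hs.le hsl hz.le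
    have e3 : t ^ z.re ≤ t ^ σ₀ + t ^ σ₁ := by
      have p0 : 0 < t ^ σ₀ := Real.rpow_pos_of_pos htp _
      have p1 : 0 < t ^ σ₁ := Real.rpow_pos_of_pos htp _
      rcases le_total t 1 with h | h
      · have := Real.rpow_le_rpow_of_exponent_ge htp h h1
        linarith
      · have := Real.rpow_le_rpow_of_exponent_le h h2
        linarith
    have e4 : 0 ≤ Real.sin t ^ z.re := Real.rpow_nonneg hs.le _
    exact mul_le_mul e1 (e2.trans e3) e4 (by positivity)
  have hG2 : ‖G t‖ ≤ |K| * t ^ b := hG.trans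
    (mul_le_mul_of_nonneg_right (le_abs_self K) (Real.rpow_nonneg htp.le _))
  have hinv : 1 / Real.sin t ^ 2 ≤ 4 / t ^ 2 := by
    rw [div_le_div_iff₀ (by positivity) (by positivity)]
    nlinarith
  rw [norm_div, norm_mul, Complex.norm_real, Real.norm_eq_abs, abs_of_pos (by positivity : (0 : ℝ) < Real.sin t ^ 2),
    div_eq_mul_one_div]
  have hq0 : 0 ≤ t ^ σ₀ + t ^ σ₁ := add_nonneg (Real.rpow_nonneg htp.le _) (Real.rpow_nonneg htp.le _)
  have hqb : 0 ≤ t ^ b := Real.rpow_nonneg htp.le _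
  calc ‖Pool.Agent.SP.ff z t‖ * ‖G t‖ * (1 / Real.sin t ^ 2) ≤
      (2 / σ₀ * (t ^ σ₀ + t ^ σ₁)) * (|K| * t ^ b) * (4 / t ^ 2) := by
        have hp1 : 0 ≤ 2 / σ₀ * (t ^ σ₀ + t ^ σ₁) := by positivity
        have hp2 : 0 ≤ |K| * t ^ b := by positivity
        refine mul_le_mul (mul_le_mul hf2 hG2 (norm_nonneg _) hp1) hinv (by positivity)
          (mul_nonneg hp1 hp2)
    _ = (8 * |K| / σ₀) * (t ^ (σ₀ + b - 2) + t ^ (σ₁ + b - 2)) := by
        rw [Real.rpow_sub htp, Real.rpow_sub htp, Real.rpow_add htp, Real.rpow_add htp]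
        have e5 : t ^ (2 : ℝ) = t ^ 2 := by
          rw [← Real.rpow_natCast]
          norm_num
        rw [e5]
        field_simp
        ring

theorem fub_meas {G : ℝ → ℂ} (hc : ContinuousOn G Pool.Agent.SP.II) {θ₀ : ℝ}
    (h0 : θ₀ ∈ Pool.Agent.SP.II) {s : ℂ} (hs : 0 < s.re) :
    AEStronglyMeasurable (fun t : ℝ => Pool.Agent.SP.ff s t * G t / ((Real.sin t ^ 2 : ℝ) : ℂ))
      (volume.restrict (Ioo 0 θ₀)) := by
  refine ContinuousOn.aestronglyMeasurable ?_ measurableSet_Ioo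
  refine ContinuousOn.mono ?_ (fun θ h => Pool.Agent.SP.sub_II h0 h)
  refine ((Pool.Agent.SP.cont_ff hs).mul hc).div ?_ (fun θ h => ?_)
  · exact (Complex.continuous_ofReal.comp (Real.continuous_sin.pow 2)).continuousOn
  · have h2 : Real.sin θ ^ 2 ≠ 0 := pow_ne_zero 2 (Pool.Agent.SP.sin_pos' h).ne'
    exact_mod_cast h2

theorem dt_diff {G : ℝ → ℂ} (hc : ContinuousOn G Pool.Agent.SP.II) {b : ℝ} {θ₀ : ℝ}
    (h0 : θ₀ ∈ Pool.Agent.SP.II) (hb : ∃ K : ℝ, ∀ θ ∈ Ioo 0 θ₀, ‖G θ‖ ≤ K * θ ^ b) :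
    (∀ s : ℂ, 0 < s.re → 1 - b < s.re → IntegrableOn (fun t : ℝ => Pool.Agent.SP.ff s t * G t /
      ((Real.sin t ^ 2 : ℝ) : ℂ)) (Ioo 0 θ₀)) ∧
    DifferentiableOn ℂ (Dt θ₀ G) {s | 0 < s.re ∧ 1 - b < s.re} := by
  obtain ⟨K, hK⟩ := hb
  have hdom : ∀ σ₀ σ₁ : ℝ, 1 - b < σ₀ → σ₀ ≤ σ₁ → IntegrableOn (fun t : ℝ =>
      (8 * |K| / σ₀) * (t ^ (σ₀ + b - 2) + t ^ (σ₁ + b - 2))) (Ioo 0 θ₀) := by
    intro σ₀ σ₁ h1 h2
    exact ((Pool.Agent.SP.integ_rpow (by linarith) h0.1).add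
      (Pool.Agent.SP.integ_rpow (by linarith) h0.1)).const_mul _
  refine ⟨fun s hs hs1 => ?_, ?_⟩
  · refine Integrable.mono' (hdom s.re s.re hs1 le_rfl) (fub_meas hc h0 hs) ?_
    refine (ae_restrict_iff' measurableSet_Ioo).2 (Eventually.of_forall fun t ht => ?_)
    exact fub_bd h0 hK hs le_rfl le_rfl ht
  · refine Pool.Agent.SP.hol_int (volume.restrict (Ioo 0 θ₀))
      (fun s t => Pool.Agent.SP.ff s t * G t / ((Real.sin t ^ 2 : ℝ) : ℂ))
      {s | 0 < s.re ∧ 1 - b < s.re} ?_ ?_ ?_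
    · intro s hs
      exact fub_meas hc h0 hs.1
    · refine (ae_restrict_iff' measurableSet_Ioo).2 (Eventually.of_forall fun t ht => ?_)
      have hII := Pool.Agent.SP.sub_II h0 ht
      have h1 : DifferentiableOn ℂ (fun s => Pool.Agent.SP.ff s t) {s | 0 < s.re ∧ 1 - b < s.re} :=
        (Pool.Agent.SP.ff_diff hII).mono (fun s hs => hs.1)
      exact (h1.mul_const _).div_const _
    · intro s hs
      obtain ⟨hs1, hs2⟩ := hs
      set r : ℝ := min (s.re / 2) ((s.re - (1 - b)) / 2) with hr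
      have hr0 : 0 < r := lt_min (by linarith) (by linarith)
      have hr1 : r ≤ s.re / 2 := min_le_left _ _
      have hr2 : r ≤ (s.re - (1 - b)) / 2 := min_le_right _ _
      have hre : ∀ z ∈ Metric.ball s r, s.re - r < z.re ∧ z.re < s.re + r := by
        intro z hz
        rw [Metric.mem_ball, dist_eq_norm] at hz
        have h1 := (Complex.abs_re_le_norm (z - s)).trans_lt hz
        rw [Complex.sub_re] at h1
        have h3 := abs_lt.mp h1
        constructor <;> linarith [h3.1, h3.2]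
      refine ⟨r, hr0, fun z hz => ?_, _, hdom (s.re - r) (s.re + r) (by linarith) (by linarith), ?_⟩
      · have := (hre z hz).1
        exact ⟨by linarith, by linarith⟩
      · refine (ae_restrict_iff' measurableSet_Ioo).2 (Eventually.of_forall fun t ht z hz => ?_)
        exact fub_bd h0 hK (by linarith) (hre z hz).1.le (hre z hz).2.le ht

end Pool.Agent.JOS
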