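import Pool.Agent.Lib_helper58.JOSF.BaseT

/-! # JO, part S, block LNK (helper47): constant terms and cuspidality -/

set_option autoImplicit false

namespace Pool.Agent.JOS

open Complex MeasureTheory Filter Topology UpperHalfPlane ModularGroup Set Metric
open scoped MatrixGroups Modular ENNReal ComplexConjugate ContDiff
open Pool.Agent.JO (QN red FamH PV bot cH)
open Pool.Agent.Lib_helper37.JO (HJ)

/-! ## The invariant measure in coordinates -/

/-- the coordinates -/
noncomputable def lnk_E (w : ℍ) : ℝ × ℝ := Complex.measurableEquivRealProd (w : ℂ)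

theorem lnk_E_apply (w : ℍ) : lnk_E w = (w.re, w.im) := rfl

theorem lnk_emb : MeasurableEmbedding lnk_E :=
  Complex.measurableEquivRealProd.measurableEmbedding.comp measurableEmbedding_coe

theorem lnk_map : Measure.map lnk_E (volume.comap UpperHalfPlane.coe) =
    (volume : Measure (ℝ × ℝ)).restrict ((univ : Set ℝ) ×ˢ Ioi (0 : ℝ)) := by
  have hrange : Set.range UpperHalfPlane.coe =
      Complex.measurableEquivRealProd ⁻¹' ((univ : Set ℝ) ×ˢ Ioi (0 : ℝ)) := by
    ext z
    constructor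
    · rintro ⟨w, rfl⟩
      exact ⟨mem_univ _, w.im_pos⟩
    · intro hz
      exact ⟨⟨z, hz.2⟩, rfl⟩
  have h1 := Complex.volume_preserving_equiv_real_prod.restrict_preimage_emb
    Complex.measurableEquivRealProd.measurableEmbedding ((univ : Set ℝ) ×ˢ Ioi (0 : ℝ))
  have h2 : lnk_E = Complex.measurableEquivRealProd ∘ UpperHalfPlane.coe := rfl
  rw [h2, ← Measure.map_map Complex.measurableEquivRealProd.measurable
    measurableEmbedding_coe.measurable, measurableEmbedding_coe.map_comap, hrange]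
  exact h1.map_eq

theorem lnk_dens : Continuous (fun z : ℍ => (1 / NNReal.mk z.im z.im_pos.le : NNReal) ^ 2) := by
  refine .pow (.div₀ continuous_const ?_ ?_) _
  · exact continuous_im.subtype_mk _
  · exact fun x ↦ NNReal.ne_iff.mp x.im_ne_zero

theorem lnk_pt (w : ℍ) : UpperHalfPlane.ofComplex ((w.re : ℂ) + w.im * Complex.I) = w := by
  have : ((w.re : ℂ) + w.im * Complex.I) = (w : ℂ) := by
    apply Complex.ext <;> simp
  rw [this, UpperHalfPlane.ofComplex_apply]

/-- the integrand in coordinates -/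
noncomputable def lnk_F (f : ℍ → ℂ) (p : ℝ × ℝ) : ℂ :=
  ((1 / p.2 ^ 2 : ℝ) : ℂ) * f (UpperHalfPlane.ofComplex ((p.1 : ℂ) + p.2 * Complex.I))

theorem lnk_smul (f : ℍ → ℂ) (w : ℍ) :
    ((1 / NNReal.mk w.im w.im_pos.le : NNReal) ^ 2) • f w = lnk_F f (lnk_E w) := by
  rw [lnk_E_apply]
  unfold lnk_F
  simp only
  rw [lnk_pt, NNReal.smul_def, Complex.real_smul]
  congr 2
  push_cast
  rw [div_pow, one_pow]

theorem lnk_integrable (f : ℍ → ℂ) : Integrable f ↔
    IntegrableOn (lnk_F f) ((univ : Set ℝ) ×ˢ Ioi (0 : ℝ)) := by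
  unfold IntegrableOn
  rw [← lnk_map, lnk_emb.integrable_map_iff, volume_def,
    integrable_withDensity_iff_integrable_smul lnk_dens.measurable]
  exact integrable_congr (Eventually.of_forall fun w => lnk_smul f w)

theorem lnk_integral (f : ℍ → ℂ) : ∫ w : ℍ, f w =
    ∫ p in (univ : Set ℝ) ×ˢ Ioi (0 : ℝ), lnk_F f p := by
  rw [← lnk_map, lnk_emb.integral_map, volume_def,
    integral_withDensity_eq_integral_smul lnk_dens.measurable]
  exact integral_congr_ae (Eventually.of_forall fun w => lnk_smul f w)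

/-! ## The rows -/

variable {N : ℕ}

/-- the elements with the same bottom row -/
noncomputable def lnk_U (s : QN N) (j : ℕ) : QN N := red N (ModularGroup.T ^ (-(j : ℤ))) * s

theorem lnk_red (n : ℤ) : ((red N (ModularGroup.T ^ n) : QN N) : Matrix (Fin 2) (Fin 2) (ZMod N)) =
    !![1, (n : ZMod N); 0, 1] := by
  unfold red
  rw [Matrix.SpecialLinearGroup.map_apply_coe, RingHom.mapMatrix_apply, ModularGroup.coe_T_zpow]
  ext i j
  fin_cases i <;> fin_cases j <;> simp

theorem lnk_U_coe (s : QN N) (j : ℕ) : ((lnk_U s j : QN N) : Matrix (Fin 2) (Fin 2) (ZMod N)) =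
    !![s 0 0 - (j : ZMod N) * s 1 0, s 0 1 - (j : ZMod N) * s 1 1; s 1 0, s 1 1] := by
  unfold lnk_U
  rw [Matrix.SpecialLinearGroup.coe_mul, lnk_red]
  ext a c
  fin_cases a <;> fin_cases c <;> simp [Matrix.mul_apply, Fin.sum_univ_two] <;> ring

theorem lnk_U_bot (s : QN N) (j : ℕ) : bot (lnk_U s j) = bot s := by
  unfold bot
  rw [lnk_U_coe]
  simp

theorem lnk_U_inj (s : QN N) [NeZero N] : Set.InjOn (lnk_U s) (Finset.range N : Set ℕ) := by
  intro i hi j hj h
  rw [Finset.coe_range] at hi hj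
  have h1 : red N (ModularGroup.T ^ (-(i : ℤ))) = red N (ModularGroup.T ^ (-(j : ℤ))) :=
    mul_right_cancel h
  have h2 : (((-(i : ℤ) : ℤ)) : ZMod N) = (((-(j : ℤ) : ℤ)) : ZMod N) := by
    have h3 := congrArg (fun x : QN N => (x : Matrix (Fin 2) (Fin 2) (ZMod N)) 0 1) h1
    simp only [lnk_red] at h3
    simpa using h3
  have h4 : ((i : ℕ) : ZMod N) = ((j : ℕ) : ZMod N) := by
    push_cast at h2
    exact neg_injective h2
  rw [ZMod.natCast_eq_natCast_iff'] at h4
  rwa [Nat.mod_eq_of_lt hi, Nat.mod_eq_of_lt hj] at h4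

theorem lnk_U_surj (s : QN N) [NeZero N] {s' : QN N} (h : bot s' = bot s) :
    ∃ j ∈ Finset.range N, lnk_U s j = s' := by
  unfold bot at h
  have h10 : s' 1 0 = s 1 0 := congrArg Prod.fst h
  have h11 : s' 1 1 = s 1 1 := congrArg Prod.snd h
  have hd : s 0 0 * s 1 1 - s 0 1 * s 1 0 = 1 := by
    have := s.det_coe
    rwa [Matrix.det_fin_two] at this
  have hd' : s' 0 0 * s 1 1 - s' 0 1 * s 1 0 = 1 := by
    have := s'.det_coe
    rwa [Matrix.det_fin_two, h10, h11] at this
  -- the difference of the first rows is a multiple of the second row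
  set x : ZMod N := s 0 0 * s' 0 1 - s 0 1 * s' 0 0 with hx
  have e0 : s' 0 0 = s 0 0 + x * s 1 0 := by
    rw [hx]
    linear_combination (s 0 0) * hd' - (s' 0 0) * hd
  have e1 : s' 0 1 = s 0 1 + x * s 1 1 := by
    rw [hx]
    linear_combination (s 0 1) * hd' - (s' 0 1) * hd
  refine ⟨(-x).val, Finset.mem_range.2 (ZMod.val_lt _), ?_⟩
  apply Matrix.SpecialLinearGroup.ext
  intro a c
  rw [lnk_U_coe, ZMod.natCast_zmod_val]
  fin_cases a <;> fin_cases c
  · show s 0 0 - -x * s 1 0 = s' 0 0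
    rw [e0]
    ring
  · show s 0 1 - -x * s 1 1 = s' 0 1
    rw [e1]
    ring
  · exact h10.symm
  · exact h11.symm

theorem lnk_sum [NeZero N] (s : QN N) (Q : QN N → ℂ) :
    (∑ s' : QN N, if bot s' = bot s then Q s' else 0) = ∑ j ∈ Finset.range N, Q (lnk_U s j) := by
  rw [← Finset.sum_filter]
  symm
  refine Finset.sum_nbij (lnk_U s) ?_ (lnk_U_inj s) ?_ (fun _ _ => rfl)
  · intro j _
    exact Finset.mem_filter.2 ⟨Finset.mem_univ _, lnk_U_bot s j⟩
  · intro s' hs'
    have h := (Finset.mem_filter.1 (Finset.mem_coe.1 hs')).2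
    obtain ⟨j, hj, e⟩ := lnk_U_surj s h
    exact ⟨j, Finset.mem_coe.2 hj, e⟩

/-- translation -/
theorem lnk_tr {g : QN N → ℍ → ℂ} (hg : FamH g) (s : QN N) (j : ℕ) {y : ℝ} (hy : 0 < y) (t : ℝ) :
    g (lnk_U s j) (UpperHalfPlane.ofComplex ((t : ℂ) + y * Complex.I)) =
      g s (UpperHalfPlane.ofComplex (((t + j : ℝ) : ℂ) + y * Complex.I)) := by
  have h := hg (ModularGroup.T ^ (-(j : ℤ))) s
    (UpperHalfPlane.ofComplex (((t + j : ℝ) : ℂ) + y * Complex.I))
  unfold lnk_U
  rw [← h]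
  congr 1
  rw [UpperHalfPlane.modular_T_zpow_smul]
  apply UpperHalfPlane.ext
  rw [UpperHalfPlane.coe_vadd, UpperHalfPlane.ofComplex_apply_of_im_pos (by simpa using hy),
    UpperHalfPlane.ofComplex_apply_of_im_pos (by simpa using hy)]
  simp only
  push_cast
  ring

theorem lnk_cH [NeZero N] {g : QN N → ℍ → ℂ} (hg : FamH g) (s : QN N) {y : ℝ} (hy : 0 < y)
    (hi : IntegrableOn (fun t : ℝ => g s (UpperHalfPlane.ofComplex ((t : ℂ) + y * Complex.I)))
      (Ioc 0 (N : ℝ))) :
    ∫ t in Ioc 0 (N : ℝ), g s (UpperHalfPlane.ofComplex ((t : ℂ) + y * Complex.I)) =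
      N * cH g (bot s) y := by
  have hN : (N : ℂ) ≠ 0 := Nat.cast_ne_zero.2 (NeZero.ne N)
  unfold cH
  rw [lnk_sum s (fun s' => ∫ t in (0 : ℝ)..1,
    g s' (UpperHalfPlane.ofComplex ((t : ℂ) + y * Complex.I))), ← mul_assoc, mul_inv_cancel₀ hN,
    one_mul, ← intervalIntegral.integral_of_le (Nat.cast_nonneg N)]
  have h1 : ∀ j ∈ Finset.range N, ∫ t in (0 : ℝ)..1,
      g (lnk_U s j) (UpperHalfPlane.ofComplex ((t : ℂ) + y * Complex.I)) =
      ∫ t in ((j : ℕ) : ℝ)..(((j + 1 : ℕ)) : ℝ),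
        g s (UpperHalfPlane.ofComplex ((t : ℂ) + y * Complex.I)) := by
    intro j _
    have h2 := intervalIntegral.integral_comp_add_right (a := 0) (b := 1)
      (fun t : ℝ => g s (UpperHalfPlane.ofComplex ((t : ℂ) + y * Complex.I))) (j : ℝ)
    rw [zero_add] at h2
    have e : (((j + 1 : ℕ)) : ℝ) = 1 + (j : ℝ) := by
      push_cast
      ring
    rw [e, ← h2]
    refine intervalIntegral.integral_congr fun t _ => ?_
    exact lnk_tr hg s j hy t
  rw [Finset.sum_congr rfl h1, intervalIntegral.sum_integral_adjacent_intervals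
    (a := fun k : ℕ => (k : ℝ))]
  · rw [Nat.cast_zero]
  · intro k hk
    rw [intervalIntegrable_iff_integrableOn_Ioc_of_le (by
      show ((k : ℕ) : ℝ) ≤ ((k + 1 : ℕ) : ℝ)
      exact_mod_cast Nat.le_succ k)]
    refine hi.mono_set ?_
    intro t ht
    refine ⟨lt_of_le_of_lt (Nat.cast_nonneg k) ht.1, ht.2.trans ?_⟩
    exact_mod_cast hk

theorem cusp_of_cH {N : ℕ} [NeZero N] {g : QN N → ℍ → ℂ} (hg : SqH g)
    (h : ∀ v ∈ PV N, ∀ᵐ y : ℝ ∂(volume.restrict (Ioi 0)), cH g v y = 0) : CuspH g := by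
  intro s G hG
  have hms : MeasurableSet (strip N) := by
    have e : strip N = (fun w : ℍ => w.re) ⁻¹' (Set.Ioc 0 (N : ℝ)) := rfl
    rw [e]
    exact UpperHalfPlane.continuous_re.measurable measurableSet_Ioc
  have hint := strip_int hg hG s
  set Φ : ℍ → ℂ := (strip N).indicator (fun w => G w.im * g s w) with hΦ
  have hΦi : Integrable Φ := (integrable_indicator_iff hms).2 hint
  have hFi := (lnk_integrable Φ).1 hΦi
  have hprod : (volume : Measure (ℝ × ℝ)).restrict ((univ : Set ℝ) ×ˢ Ioi (0 : ℝ)) =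
      (volume : Measure ℝ).prod (volume.restrict (Ioi (0 : ℝ))) := by
    rw [Measure.volume_eq_prod, ← Measure.prod_restrict, Measure.restrict_univ]
  unfold IntegrableOn at hFi
  rw [hprod] at hFi
  rw [← integral_indicator hms, lnk_integral, hprod, integral_prod_symm _ hFi]
  have hv : bot s ∈ PV N := Finset.mem_image_of_mem _ (Finset.mem_univ s)
  -- the integrand
  have hpt : ∀ y : ℝ, 0 < y → ∀ x : ℝ, lnk_F Φ (x, y) = (Ioc 0 (N : ℝ)).indicator (fun t : ℝ =>
      (((1 / y ^ 2 : ℝ) : ℂ) * G y) *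
        g s (UpperHalfPlane.ofComplex ((t : ℂ) + y * Complex.I))) x := by
    intro y hy x
    have him : (UpperHalfPlane.ofComplex ((x : ℂ) + y * Complex.I)).im = y := by
      rw [← UpperHalfPlane.coe_im, UpperHalfPlane.ofComplex_apply_of_im_pos (by simpa using hy)]
      simp
    have hre : (UpperHalfPlane.ofComplex ((x : ℂ) + y * Complex.I)).re = x := by
      rw [← UpperHalfPlane.coe_re, UpperHalfPlane.ofComplex_apply_of_im_pos (by simpa using hy)]
      simp
    unfold lnk_F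
    simp only [hΦ]
    by_cases hx : x ∈ Ioc 0 (N : ℝ)
    · have hx' : UpperHalfPlane.ofComplex ((x : ℂ) + y * Complex.I) ∈ strip N := by
        show 0 < (UpperHalfPlane.ofComplex ((x : ℂ) + y * Complex.I)).re ∧
          (UpperHalfPlane.ofComplex ((x : ℂ) + y * Complex.I)).re ≤ N
        rw [hre]
        exact hx
      rw [Set.indicator_of_mem hx', Set.indicator_of_mem hx, him]
      ring
    · have hx' : UpperHalfPlane.ofComplex ((x : ℂ) + y * Complex.I) ∉ strip N := by
        intro hcon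
        apply hx
        have hcon' : 0 < (UpperHalfPlane.ofComplex ((x : ℂ) + y * Complex.I)).re ∧
          (UpperHalfPlane.ofComplex ((x : ℂ) + y * Complex.I)).re ≤ N := hcon
        rw [hre] at hcon'
        exact hcon'
      rw [Set.indicator_of_notMem hx', Set.indicator_of_notMem hx, mul_zero]
  rw [← integral_zero ℝ ℂ (μ := volume.restrict (Ioi (0 : ℝ)))]
  refine integral_congr_ae ?_
  filter_upwards [h _ hv, hFi.prod_left_ae, ae_restrict_mem measurableSet_Ioi] with y h1 h2 hy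
  have hy' : (0 : ℝ) < y := hy
  have h3 : (fun x : ℝ => lnk_F Φ (x, y)) = (Ioc 0 (N : ℝ)).indicator (fun t : ℝ =>
      (((1 / y ^ 2 : ℝ) : ℂ) * G y) *
        g s (UpperHalfPlane.ofComplex ((t : ℂ) + y * Complex.I))) := funext (hpt y hy')
  show ∫ x : ℝ, lnk_F Φ (x, y) = 0
  rw [h3] at h2 ⊢
  rw [integral_indicator measurableSet_Ioc, integral_const_mul]
  by_cases hG0 : G y = 0
  · rw [hG0, mul_zero, zero_mul]
  · have hne : ((1 / y ^ 2 : ℝ) : ℂ) * G y ≠ 0 := by
      refine mul_ne_zero ?_ hG0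
      have : (1 / y ^ 2 : ℝ) ≠ 0 := by positivity
      exact_mod_cast this
    have h4 := ((integrable_indicator_iff measurableSet_Ioc).1 h2).const_mul
      (((1 / y ^ 2 : ℝ) : ℂ) * G y)⁻¹
    have h5 : IntegrableOn (fun t : ℝ => g s (UpperHalfPlane.ofComplex ((t : ℂ) + y * Complex.I)))
        (Ioc 0 (N : ℝ)) := by
      refine h4.congr (Eventually.of_forall fun t => ?_)
      simp only
      rw [← mul_assoc, inv_mul_cancel₀ hne, one_mul]
    rw [lnk_cH hg.fam s hy' h5, h1, mul_zero, mul_zero]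

end Pool.Agent.JOS
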