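import Pool.Agent.Lib_helper58.JOSF.BaseT

/-! # JO, part S: block UNP (unfolding in polar coordinates for `|u|²`) -/

namespace Pool.Agent.JOS

open Complex MeasureTheory Filter Topology UpperHalfPlane ModularGroup Set Metric
open scoped MatrixGroups Modular ENNReal ComplexConjugate ContDiff
open Pool.Agent.JO (QN red FamH PV bot cH)
open Pool.Agent.Lib_helper37.JO (HJ)

/-- decay in polar coordinates, `τ ≥ 0` direction and `τ ≤ 0` direction -/
theorem unp_decay {N : ℕ} [NeZero N] {χ : DirichletCharacter ℂ N} {k : ℕ} {lam : ℕ → ℂ}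
    {u : ℍ → ℂ} (hu : Pool.Agent.JO.WForm N χ k lam u) : ∃ C c : ℝ, 0 ≤ C ∧ 0 < c ∧
      ∀ τ θ : ℝ, θ ∈ Ioo 0 Real.pi → 1 / 2 ≤ Real.exp |τ| * Real.sin θ →
        ‖u (pt τ θ)‖ ≤ C * Real.exp (-c * (Real.exp |τ| * Real.sin θ)) := by
  obtain ⟨C, c, hc, hd⟩ := hu.decay
  refine ⟨|C|, c, abs_nonneg _, hc, fun τ θ hθ h => ?_⟩
  have hle : ∀ x : ℝ, C * Real.exp x ≤ |C| * Real.exp x := fun x =>
    mul_le_mul_of_nonneg_right (le_abs_self _) (Real.exp_nonneg _)
  rcases le_total 0 τ with h0 | h0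
  · rw [abs_of_nonneg h0] at h ⊢
    have h1 := hd 1 (pt τ θ) (by rw [pt_im hθ]; exact h)
    rw [one_smul, pt_im hθ] at h1
    exact h1.trans (hle _)
  · rw [abs_of_nonpos h0] at h ⊢
    have him : (ModularGroup.S • pt τ θ).im = Real.exp (-τ) * Real.sin θ := by
      rw [UpperHalfPlane.modular_S_smul]
      have h2 : ((⟨(-(pt τ θ : ℂ))⁻¹, by exact (pt τ θ).im_inv_neg_coe_pos⟩ : ℍ)).im =
          ((-(pt τ θ : ℂ))⁻¹).im := rfl
      have h3 : (-(pt τ θ : ℂ))⁻¹ = -cexp (-(τ : ℂ) - θ * Complex.I) := by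
        rw [pt_coe hθ, inv_neg, ← Complex.exp_neg]
        congr 2
        ring
      rw [h2, h3, Complex.neg_im, Complex.exp_im]
      have h4 : (-(τ : ℂ) - θ * Complex.I).re = -τ := by simp
      have h5 : (-(τ : ℂ) - θ * Complex.I).im = -θ := by simp
      rw [h4, h5, Real.sin_neg]
      ring
    have h1 := hd ModularGroup.S (ModularGroup.S • pt τ θ) (by rw [him]; exact h)
    have hss : ModularGroup.S • ModularGroup.S • pt τ θ = pt τ θ := by
      have hS : (ModularGroup.S * ModularGroup.S : SL(2, ℤ)) = -1 := by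
        ext i j
        have := congrFun (congrFun ModularGroup.S_mul_S_eq i) j
        simpa using this
      rw [smul_smul, hS, ModularGroup.SL_neg_smul, one_smul]
    rw [hss, him] at h1
    exact h1.trans (hle _)

/-- domination on compact sets of angles -/
theorem unp_bd {N : ℕ} [NeZero N] {χ : DirichletCharacter ℂ N} {k : ℕ} {lam : ℕ → ℂ}
    {u : ℍ → ℂ} (hu : Pool.Agent.JO.WForm N χ k lam u) :
    ∀ a b : ℝ, 0 < a → b < Real.pi → ∃ C c : ℝ, 0 < c ∧ ∀ θ ∈ Icc a b, ∀ τ : ℝ,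
      ‖((‖u (pt τ θ)‖ ^ 2 : ℝ) : ℂ)‖ ≤ C * Real.exp (-(c * |τ|)) := by
  intro a b ha hb
  obtain ⟨C, c, hC, hc, hd⟩ := unp_decay hu
  have hsub : Icc a b ⊆ Ioo 0 Real.pi := fun t ht =>
    ⟨lt_of_lt_of_le ha ht.1, lt_of_le_of_lt ht.2 hb⟩
  -- lower bound for the sine
  obtain ⟨m, hm, hmb⟩ : ∃ m : ℝ, 0 < m ∧ ∀ θ ∈ Icc a b, m ≤ Real.sin θ := by
    rcases (Icc a b).eq_empty_or_nonempty with he | hne
    · exact ⟨1, one_pos, fun θ hθ => by rw [he] at hθ; exact absurd hθ (notMem_empty _)⟩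
    · obtain ⟨x, hx, hmin⟩ := isCompact_Icc.exists_isMinOn hne Real.continuous_sin.continuousOn
      exact ⟨Real.sin x, sin_pos_pi (hsub hx), fun θ hθ => hmin hθ⟩
  obtain ⟨T, hT⟩ : ∃ T : ℝ, 1 / (2 * m) ≤ Real.exp T := ⟨1 / (2 * m), by
    have := Real.add_one_le_exp (1 / (2 * m))
    linarith⟩
  obtain ⟨B, hB⟩ := (isCompact_Icc (a := -T) (b := T)).prod (isCompact_Icc (a := a) (b := b))
    |>.exists_bound_of_continuousOn (f := fun p : ℝ × ℝ => u (pt p.1 p.2)) (by
      refine hu.cont.comp_continuousOn (pt_cont.mono ?_)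
      exact fun p hp => ⟨mem_univ _, hsub hp.2⟩)
  refine ⟨(C + |B| * Real.exp (c * m * T)) ^ 2, 2 * (c * m), by positivity, fun θ hθ τ => ?_⟩
  have hkey : ‖u (pt τ θ)‖ ≤ (C + |B| * Real.exp (c * m * T)) * Real.exp (-(c * m * |τ|)) := by
    have hB0 : 0 ≤ |B| * Real.exp (c * m * T) := by positivity
    by_cases h : 1 / 2 ≤ Real.exp |τ| * Real.sin θ
    · refine (hd τ θ (hsub hθ) h).trans ?_
      refine mul_le_mul (by linarith) (Real.exp_le_exp.2 ?_) (Real.exp_nonneg _) (by linarith)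
      have h1 : |τ| ≤ Real.exp |τ| := by
        have := Real.add_one_le_exp |τ|
        linarith
      have h2 : m * |τ| ≤ Real.exp |τ| * Real.sin θ := by
        have := mul_le_mul h1 (hmb θ hθ) hm.le (Real.exp_nonneg _)
        linarith
      nlinarith
    · push Not at h
      have hτT : |τ| ≤ T := by
        by_contra hcon
        push Not at hcon
        have h1 := Real.exp_lt_exp.2 hcon
        have h2 : 1 / (2 * m) * m < Real.exp |τ| * Real.sin θ :=
          mul_lt_mul (hT.trans_lt h1) (hmb θ hθ) hm (Real.exp_nonneg _)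
        have h3 : 1 / (2 * m) * m = 1 / 2 := by
          field_simp
        linarith
      have h1 := hB (τ, θ) ⟨abs_le.1 hτT, hθ⟩
      refine (h1.trans (le_abs_self _)).trans ?_
      have h2 : |B| ≤ |B| * Real.exp (c * m * T) * Real.exp (-(c * m * |τ|)) := by
        rw [mul_assoc, ← Real.exp_add]
        have h3 : 1 ≤ Real.exp (c * m * T + -(c * m * |τ|)) := by
          apply Real.one_le_exp
          have := mul_le_mul_of_nonneg_left hτT (mul_pos hc hm).le
          linarith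
        exact le_mul_of_one_le_right (abs_nonneg _) h3
      refine h2.trans (mul_le_mul_of_nonneg_right (by linarith) (Real.exp_nonneg _))
  rw [Complex.norm_real, Real.norm_of_nonneg (by positivity)]
  calc ‖u (pt τ θ)‖ ^ 2 ≤ ((C + |B| * Real.exp (c * m * T)) * Real.exp (-(c * m * |τ|))) ^ 2 :=
        pow_le_pow_left₀ (norm_nonneg _) hkey 2
    _ = _ := by
        rw [mul_pow, ← Real.exp_nat_mul]
        congr 2
        push_cast
        ring

/-- continuity of `|u|²` -/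
theorem unp_cont {N : ℕ} [NeZero N] {χ : DirichletCharacter ℂ N} {k : ℕ} {lam : ℕ → ℂ}
    {u : ℍ → ℂ} (hu : Pool.Agent.JO.WForm N χ k lam u) :
    Continuous (fun z : ℍ => ((‖u z‖ ^ 2 : ℝ) : ℂ)) :=
  Complex.continuous_ofReal.comp (hu.cont.norm.pow 2)

theorem unp_tk0 : TK (fun _ : ℝ => (0 : ℝ)) := ⟨contDiff_const, ⟨0, fun _ _ => rfl⟩⟩

/-- UNP: continuity of the ray function -/
theorem rayF_cont {N : ℕ} [NeZero N] {χ : DirichletCharacter ℂ N} {k : ℕ} {lam : ℕ → ℂ}
    {u : ℍ → ℂ} (hu : Pool.Agent.JO.WForm N χ k lam u) :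
    ContinuousOn (Pool.Agent.JO.rayF u) (Ioo 0 Real.pi) := by
  have h := (ray_gen unp_tk0 (unp_cont hu) (unp_bd hu)).1
  refine h.congr (fun θ hθ => ?_)
  unfold Pool.Agent.JO.rayF
  exact ray_eq _ hθ

/-- the function on `ℝ × (0, π)` -/
theorem unp_int {N : ℕ} [NeZero N] {χ : DirichletCharacter ℂ N} {k : ℕ} {lam : ℕ → ℂ}
    {u : ℍ → ℂ} (hu : Pool.Agent.JO.WForm N χ k lam u) {v : ℝ → ℂ} (hv : TA v) :
    IntegrableOn (fun p : ℝ × ℝ => ((1 / Real.sin p.2 ^ 2 : ℝ) : ℂ) *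
      (((‖u (pt p.1 p.2)‖ ^ 2 : ℝ) : ℂ) * conj (ag v (pt p.1 p.2))))
      ((univ : Set ℝ) ×ˢ Ioo 0 Real.pi) := by
  obtain ⟨a, c, ha, hc, hs⟩ := hv.supp
  obtain ⟨C, c', hc', hb⟩ := unp_bd hu a c ha hc
  have hsub : Icc a c ⊆ Ioo 0 Real.pi := fun t ht =>
    ⟨lt_of_lt_of_le ha ht.1, lt_of_le_of_lt ht.2 hc⟩
  obtain ⟨B, hB⟩ := (isCompact_Icc (a := a) (b := c)).exists_bound_of_continuousOn
    (f := fun t => ((1 / Real.sin t ^ 2 : ℝ) : ℂ) * conj (v t)) (by
      refine ContinuousOn.mul ?_ (Complex.continuous_conj.comp hv.cont).continuousOn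
      refine Complex.continuous_ofReal.comp_continuousOn ?_
      refine continuousOn_const.div (Real.continuous_sin.pow 2).continuousOn (fun t ht => ?_)
      have := sin_pos_pi (hsub ht)
      positivity)
  have hmaj : Integrable (fun p : ℝ × ℝ => Real.exp (-(c' * |p.1|)) * (|B| * |C|))
      ((volume : Measure ℝ).prod (volume.restrict (Ioo 0 Real.pi))) := by
    refine Integrable.mul_prod (f := fun τ : ℝ => Real.exp (-(c' * |τ|))) (g := fun _ : ℝ => |B| * |C|) ?_ ?_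
    · have h1 := Pool.Agent.SP.f2_int (σ := c') hc'
      exact h1
    · exact integrable_const _
  have hrest : (volume : Measure (ℝ × ℝ)).restrict ((univ : Set ℝ) ×ˢ Ioo 0 Real.pi) =
      (volume : Measure ℝ).prod (volume.restrict (Ioo 0 Real.pi)) := by
    rw [Measure.volume_eq_prod, ← Measure.prod_restrict, Measure.restrict_univ]
  unfold IntegrableOn
  rw [hrest]
  refine hmaj.mono' ?_ ?_
  · rw [← hrest]
    have hm : ContinuousOn (fun p : ℝ × ℝ => ((1 / Real.sin p.2 ^ 2 : ℝ) : ℂ) *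
      (((‖u (pt p.1 p.2)‖ ^ 2 : ℝ) : ℂ) * conj (v p.2))) ((univ : Set ℝ) ×ˢ Ioo 0 Real.pi) := by
      refine ContinuousOn.mul ?_ (ContinuousOn.mul ?_ ?_)
      · refine Complex.continuous_ofReal.comp_continuousOn ?_
        refine continuousOn_const.div ((Real.continuous_sin.comp continuous_snd).pow 2).continuousOn
          (fun p hp => ?_)
        have := sin_pos_pi hp.2
        exact (pow_pos this 2).ne'
      · exact (unp_cont hu).comp_continuousOn pt_cont
      · exact (Complex.continuous_conj.comp (hv.cont.comp continuous_snd)).continuousOn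
    refine (hm.congr (fun p hp => ?_)).aestronglyMeasurable
      (MeasurableSet.univ.prod measurableSet_Ioo)
    simp only [ag]
    rw [pt_arg hp.2]
  · rw [← hrest, ae_restrict_iff' (MeasurableSet.univ.prod measurableSet_Ioo)]
    refine Eventually.of_forall (fun p hp => ?_)
    have hag : ag v (pt p.1 p.2) = v p.2 := by
      unfold ag
      rw [pt_arg hp.2]
    rw [hag]
    by_cases hin : p.2 ∈ Icc a c
    · have h1 := hb p.2 hin p.1
      have h2 := hB p.2 hin
      calc ‖((1 / Real.sin p.2 ^ 2 : ℝ) : ℂ) * (((‖u (pt p.1 p.2)‖ ^ 2 : ℝ) : ℂ) * conj (v p.2))‖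
          = ‖((1 / Real.sin p.2 ^ 2 : ℝ) : ℂ) * conj (v p.2)‖ * ‖((‖u (pt p.1 p.2)‖ ^ 2 : ℝ) : ℂ)‖ := by
            rw [← norm_mul]; congr 1; ring
        _ ≤ |B| * (|C| * Real.exp (-(c' * |p.1|))) := by
            refine mul_le_mul (h2.trans (le_abs_self _)) (h1.trans ?_) (norm_nonneg _) (abs_nonneg _)
            exact mul_le_mul_of_nonneg_right (le_abs_self _) (Real.exp_nonneg _)
        _ = _ := by ring
    · have : v p.2 = 0 := by
        by_contra hne
        exact hin (hs _ hne)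
      rw [this]
      simp only [map_zero, mul_zero, norm_zero]
      positivity

/-- UNP: unfolding -/
theorem ip_phi {N : ℕ} [NeZero N] {χ : DirichletCharacter ℂ N} {k : ℕ} {lam : ℕ → ℂ}
    {u : ℍ → ℂ} (hu : Pool.Agent.JO.WForm N χ k lam u) {b : ℝ → ℂ} (hb : TA b) :
    ipH (Pool.Agent.JO.phiF (N := N) u) (PO N (ag b)) = 2 * PR (Pool.Agent.JO.rayF u) b := by
  have hI := unp_int hu hb
  have h1w : ∀ w : ℍ, Pool.Agent.JO.phiF u (1 : QN N) w = ((‖u w‖ ^ 2 : ℝ) : ℂ) :=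
    fun w => Pool.Agent.JO.phiF_one hu w
  have hint : Integrable (fun w => Pool.Agent.JO.phiF u (1 : QN N) w * conj (ag b w)) := by
    simp_rw [h1w]
    exact (pol_integrable (fun w => ((‖u w‖ ^ 2 : ℝ) : ℂ) * conj (ag b w))).2 hI
  rw [po_unf (Pool.Agent.JO.famH_phiF hu) hint]
  simp_rw [h1w]
  rw [pol_int (fun w => ((‖u w‖ ^ 2 : ℝ) : ℂ) * conj (ag b w))]
  congr 1
  have hrest : (volume : Measure (ℝ × ℝ)).restrict ((univ : Set ℝ) ×ˢ Ioo 0 Real.pi) =
      (volume : Measure ℝ).prod (volume.restrict (Ioo 0 Real.pi)) := by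
    rw [Measure.volume_eq_prod, ← Measure.prod_restrict, Measure.restrict_univ]
  rw [hrest, integral_prod_symm _ (by
    unfold IntegrableOn at hI
    rwa [hrest] at hI)]
  unfold PR
  refine setIntegral_congr_fun measurableSet_Ioo (fun θ hθ => ?_)
  simp only
  have h1 : ∀ τ : ℝ, ((1 / Real.sin θ ^ 2 : ℝ) : ℂ) * (((‖u (pt τ θ)‖ ^ 2 : ℝ) : ℂ) *
      conj (ag b (pt τ θ))) =
      (((1 / Real.sin θ ^ 2 : ℝ) : ℂ) * conj (b θ)) * ((‖u (pt τ θ)‖ ^ 2 : ℝ) : ℂ) := by
    intro τ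
    unfold ag
    rw [pt_arg hθ]
    ring
  simp_rw [h1]
  rw [integral_const_mul]
  unfold Pool.Agent.JO.rayF
  rw [ray_eq _ hθ]
  unfold PT
  push_cast
  ring

/-- UNP: the family of `|u|²` is square integrable -/
theorem sqH_phi {N : ℕ} [NeZero N] {χ : DirichletCharacter ℂ N} {k : ℕ} {lam : ℕ → ℂ}
    {u : ℍ → ℂ} (hu : Pool.Agent.JO.WForm N χ k lam u) :
    SqH (Pool.Agent.JO.phiF (N := N) u) := by
  have hcont : ∀ s : QN N, Continuous (Pool.Agent.JO.phiF (N := N) u s) := by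
    intro s
    unfold Pool.Agent.JO.phiF
    have h1 : Continuous (fun z : ℍ => (Pool.Agent.JO.lft s)⁻¹ • z) :=
      continuous_const_smul (Matrix.SpecialLinearGroup.mapGL ℝ (Pool.Agent.JO.lft s)⁻¹)
    exact (unp_cont hu).comp h1
  refine ⟨Pool.Agent.JO.famH_phiF hu, fun s => (hcont s).measurable, fun s => ?_⟩
  obtain ⟨C, c, hc, hd⟩ := hu.decay
  have hfd : ∀ z ∈ (𝒟ᵒ : Set ℍ), 1 / 2 ≤ z.im := by
    intro z hz
    have h1 := ModularGroup.three_lt_four_mul_im_sq_of_mem_fdo hz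
    have h2 := z.im_pos
    nlinarith
  have hmeas : MeasurableSet (𝒟ᵒ : Set ℍ) := by
    have ho : IsOpen (𝒟ᵒ : Set ℍ) := ModularGroup.isOpen_fdo
    exact ho.measurableSet
  refine Measure.integrableOn_of_bounded (M := (|C| ^ 2) ^ 2) vol_fdo.ne
    (((hcont s).norm.pow 2).aestronglyMeasurable) ?_
  rw [ae_restrict_iff' hmeas]
  refine Eventually.of_forall (fun z hz => ?_)
  have h1 := hd (Pool.Agent.JO.lft s)⁻¹ z (hfd z hz)
  have h2 : ‖u ((Pool.Agent.JO.lft s)⁻¹ • z)‖ ≤ |C| := by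
    refine h1.trans ?_
    have h3 : Real.exp (-c * z.im) ≤ 1 := by
      apply Real.exp_le_one_iff.2
      have := mul_pos hc z.im_pos
      linarith
    calc C * Real.exp (-c * z.im) ≤ |C| * Real.exp (-c * z.im) :=
          mul_le_mul_of_nonneg_right (le_abs_self _) (Real.exp_nonneg _)
      _ ≤ |C| * 1 := mul_le_mul_of_nonneg_left h3 (abs_nonneg _)
      _ = |C| := mul_one _
  have h3 : ‖Pool.Agent.JO.phiF (N := N) u s z‖ ≤ |C| ^ 2 := by
    unfold Pool.Agent.JO.phiF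
    rw [Complex.norm_real, Real.norm_of_nonneg (by positivity)]
    exact pow_le_pow_left₀ (norm_nonneg _) h2 2
  rw [Real.norm_of_nonneg (by positivity)]
  exact pow_le_pow_left₀ (norm_nonneg _) h3 2

end Pool.Agent.JOS
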