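import Pool.Agent.Lib_helper58.JOSF.APX

/-! # JO, part S, block AP2 (helper47) -/

set_option autoImplicit false

namespace Pool.Agent.JOS

open Complex MeasureTheory Filter Topology UpperHalfPlane ModularGroup Set Metric
open scoped MatrixGroups Modular ENNReal ComplexConjugate ContDiff
open Pool.Agent.JO (QN red FamH)

theorem ap2_bdd {k : ℝ → ℝ} (hk : TK k) : ∃ B : ℝ, ∀ c, 1 ≤ c → |k c| ≤ B := by
  obtain ⟨R, hR⟩ := hk.supp
  obtain ⟨B, hB⟩ := (isCompact_Icc (a := (1 : ℝ)) (b := R)).exists_bound_of_continuousOn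
    hk.smooth.continuous.continuousOn
  refine ⟨max B 0, fun c hc => ?_⟩
  rcases le_or_gt c R with h | h
  · exact (hB c ⟨hc, h⟩).trans (le_max_left _ _)
  · rw [hR c h.le, abs_zero]
    exact le_max_right _ _

theorem ap2_cosh (x : ℝ) : |x| < Real.cosh x := by
  rw [← Real.cosh_abs]
  exact (Real.self_le_sinh_iff.2 (abs_nonneg x)).trans_lt (Real.sinh_lt_cosh _)

theorem apx_rr {l : ℝ → ℝ} (hl : TK l) {ε : ℝ} (hε : 0 < ε) : ∃ δ > 0, ∀ k : ℝ → ℝ, TK k →
    (∀ c, 0 ≤ k c) → (∀ c, 1 + δ ≤ c → k c = 0) → ∀ (N : ℕ) [NeZero N] (f : QN N → ℍ → ℂ), SqH f →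
      nH (fun s z => RR k (RR l (f s)) z - ms k * RR l (f s) z) ≤ ε * ms k * nH f := by
  obtain ⟨R, hR⟩ := hl.supp
  set φ : ℝ → ℝ := fun r => l (Real.cosh r) with hφ
  have hφc : Continuous φ := hl.smooth.continuous.comp Real.continuous_cosh
  have hφ0 : ∀ r, R ≤ |r| → φ r = 0 := fun r hr => hR _ (hr.trans (ap2_cosh r).le)
  have hcs : HasCompactSupport φ := by
    apply HasCompactSupport.intro (isCompact_Icc (a := -|R|) (b := |R|))
    intro x hx
    apply hφ0
    by_contra hcon
    rw [not_le] at hcon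
    exact hx (abs_le.1 (hcon.le.trans (le_abs_self R)))
  have huc : UniformContinuous φ := hcs.uniformContinuous_of_continuous hφc
  -- the majorant
  set R₂ : ℝ := Real.cosh (|R| + 1) with hR₂
  set q : ℝ → ℝ := fun c => Real.smoothTransition (R₂ + 1 - c) with hq
  have hqTK : TK q := by
    refine ⟨?_, R₂ + 1, fun c hc => ?_⟩
    · exact Real.smoothTransition.contDiff.comp (contDiff_const.sub contDiff_id)
    · exact Real.smoothTransition.zero_of_nonpos (by linarith)
  have hq0 : ∀ c, 0 ≤ q c := fun c => Real.smoothTransition.nonneg _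
  have hq1 : ∀ c, c ≤ R₂ → q c = 1 := fun c hc => Real.smoothTransition.one_of_one_le (by linarith)
  have hmsq : 0 ≤ ms q := integral_nonneg fun w => hq0 _
  set η : ℝ := ε / (ms q + 1) with hη
  have hη0 : 0 < η := by positivity
  obtain ⟨d₁, hd₁, hd⟩ := Metric.uniformContinuous_iff.1 huc η hη0
  set d₀ : ℝ := min d₁ 1 with hd₀
  have hd₀0 : 0 < d₀ := lt_min hd₁ one_pos
  have hcosh : 1 < Real.cosh d₀ := Real.one_lt_cosh.2 hd₀0.ne'
  refine ⟨Real.cosh d₀ - 1, by linarith, fun k hk hk0 hkδ N _ f hf => ?_⟩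
  have hkδ' : ∀ z u : ℍ, kz k z u ≠ 0 → dist u z < d₀ := by
    intro z u h
    by_contra hcon
    rw [not_lt] at hcon
    apply h
    apply hkδ
    rw [add_sub_cancel, Real.cosh_le_cosh, abs_of_pos hd₀0, abs_of_nonneg dist_nonneg, dist_comm]
    exact hcon
  -- comparison of the kernels
  have hker : ∀ z u w : ℍ, dist u z < d₀ → |kz l u w - kz l z w| ≤ η * kz q z w := by
    intro z u w hzu
    have htri : |dist u w - dist z w| < d₀ := (abs_dist_sub_le u z w).trans_lt hzu
    by_cases hfar : |R| + 1 ≤ dist z w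
    · have e1 : kz l z w = 0 := by
        apply hφ0
        rw [abs_of_nonneg dist_nonneg]
        linarith [le_abs_self R]
      have e2 : kz l u w = 0 := by
        apply hφ0
        rw [abs_of_nonneg dist_nonneg]
        have := (abs_lt.1 htri).1
        have : d₀ ≤ 1 := min_le_right _ _
        linarith [le_abs_self R]
      rw [e1, e2, sub_zero, abs_zero]
      exact mul_nonneg hη0.le (hq0 _)
    · rw [not_le] at hfar
      have e3 : kz q z w = 1 := by
        apply hq1
        rw [hR₂, Real.cosh_le_cosh, abs_of_nonneg dist_nonneg, abs_of_nonneg (by positivity)]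
        exact hfar.le
      rw [e3, mul_one]
      have h5 := hd (a := dist u w) (b := dist z w) (by
        rw [Real.dist_eq]
        exact htri.trans_le (min_le_left _ _))
      rw [Real.dist_eq] at h5
      exact h5.le
  have hqi : ∀ (s : QN N) (z : ℍ), Integrable (fun w => kz q z w * ‖f s w‖) := by
    intro s z
    have := (rr_int hqTK hf s z).norm
    refine this.congr (Eventually.of_forall fun w => ?_)
    simp only [norm_mul, Complex.norm_real, Real.norm_eq_abs]
    rw [abs_of_nonneg (show 0 ≤ kz q z w from hq0 _)]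
  have hRR : ∀ (s : QN N) (z u : ℍ), dist u z < d₀ →
      ‖RR l (f s) u - RR l (f s) z‖ ≤ η * ∫ w : ℍ, kz q z w * ‖f s w‖ := by
    intro s z u hzu
    unfold RR
    rw [← integral_sub (rr_int hl hf s u) (rr_int hl hf s z), ← integral_const_mul]
    apply norm_integral_le_of_norm_le ((hqi s z).const_mul η)
    refine Eventually.of_forall fun w => ?_
    rw [← sub_mul, norm_mul, ← Complex.ofReal_sub, Complex.norm_real, Real.norm_eq_abs, ← mul_assoc]
    exact mul_le_mul_of_nonneg_right (hker z u w hzu) (norm_nonneg _)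
  have hkm : Measurable k := hk.smooth.continuous.measurable
  have hkint := fun z => kz_int hkm (ap2_bdd hk) hk.supp z
  have hD : ∀ (s : QN N) (z : ℍ), ‖RR k (RR l (f s)) z - ms k * RR l (f s) z‖ ≤
      ms k * η * ∫ w : ℍ, kz q z w * ‖f s w‖ := by
    intro s z
    have e1 : (ms k : ℂ) * RR l (f s) z = ∫ u : ℍ, (kz k z u : ℂ) * RR l (f s) z := by
      rw [integral_mul_const, ← (hkint z).2, integral_complex_ofReal]
    have i1 : Integrable (fun u => (kz k z u : ℂ) * RR l (f s) u) := rr_int hk (rr_sq hl hf) s z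
    have i2 : Integrable (fun u => (kz k z u : ℂ) * RR l (f s) z) := (hkint z).1.ofReal.mul_const _
    have e2 : RR k (RR l (f s)) z = ∫ u : ℍ, (kz k z u : ℂ) * RR l (f s) u := rfl
    rw [e1, e2, ← integral_sub i1 i2]
    set Q : ℝ := ∫ w : ℍ, kz q z w * ‖f s w‖ with hQ
    have e3 : ms k * η * Q = ∫ u : ℍ, kz k z u * (η * Q) := by
      rw [integral_mul_const, (hkint z).2]
      ring
    rw [e3]
    apply norm_integral_le_of_norm_le ((hkint z).1.mul_const _)
    refine Eventually.of_forall fun u => ?_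
    rw [← mul_sub, norm_mul, Complex.norm_real, Real.norm_eq_abs,
      abs_of_nonneg (show 0 ≤ kz k z u from hk0 _)]
    by_cases h0 : kz k z u = 0
    · rw [h0, zero_mul, zero_mul]
    · exact mul_le_mul_of_nonneg_left (hRR s z u (hkδ' z u h0)) (hk0 _)
  have hmsk : 0 ≤ ms k := integral_nonneg fun w => hk0 _
  have hsch := sch hqTK.smooth.continuous.measurable (fun c _ => hq0 c)
    ⟨1, fun c _ => Real.smoothTransition.le_one _⟩ hqTK.supp hf
  have hnf : 0 ≤ nH f := Real.sqrt_nonneg _
  calc nH (fun s z => RR k (RR l (f s)) z - ms k * RR l (f s) z) ≤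
        √(∑ s : QN N, ∫ z in (𝒟ᵒ : Set ℍ), (ms k * η * ∫ w : ℍ, kz q z w * ‖f s w‖) ^ 2) := by
        unfold nH
        apply Real.sqrt_le_sqrt
        apply Finset.sum_le_sum
        intro s _
        apply integral_mono_of_nonneg
        · exact Eventually.of_forall fun z => by positivity
        · simp_rw [mul_pow _ (∫ w : ℍ, kz q _ w * ‖f s w‖)]
          exact (hsch.1 s).const_mul _
        · refine Eventually.of_forall fun z => ?_
          exact pow_le_pow_left₀ (norm_nonneg _) (hD s z) 2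
    _ = ms k * η * √(∑ s : QN N, ∫ z in (𝒟ᵒ : Set ℍ), (∫ w : ℍ, kz q z w * ‖f s w‖) ^ 2) := by
        simp_rw [mul_pow _ (∫ w : ℍ, kz q _ w * ‖f _ w‖), integral_const_mul]
        rw [← Finset.mul_sum, Real.sqrt_mul (by positivity), Real.sqrt_sq (by positivity)]
    _ ≤ ms k * η * (ms q * nH f) := mul_le_mul_of_nonneg_left hsch.2 (by positivity)
    _ ≤ ε * ms k * nH f := by
        have h1 : η * ms q ≤ ε := by
          rw [hη, div_mul_eq_mul_div, div_le_iff₀ (by positivity)]
          nlinarith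
        calc ms k * η * (ms q * nH f) = (η * ms q) * (ms k * nH f) := by ring
          _ ≤ ε * (ms k * nH f) := mul_le_mul_of_nonneg_right h1 (by positivity)
          _ = _ := by ring

end Pool.Agent.JOS
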