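import Pool.Agent.Lib_helper58.JOSF.DTR

/-! # JO, part S, block APX: approximate identities -/

namespace Pool.Agent.JOS

open Complex MeasureTheory Filter Topology UpperHalfPlane ModularGroup Set Metric
open scoped MatrixGroups Modular ENNReal ComplexConjugate ContDiff
open Pool.Agent.JO (QN red FamH)

/-- the bump functions -/
noncomputable def apx_B (n : ℕ) : ContDiffBump (1 + 3 / (4 * ((n : ℝ) + 1))) where
  rIn := 1 / (8 * ((n : ℝ) + 1))
  rOut := 1 / (4 * ((n : ℝ) + 1))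
  rIn_pos := by positivity
  rIn_lt_rOut := by
    apply one_div_lt_one_div_of_lt (by positivity)
    have : (0 : ℝ) < (n : ℝ) + 1 := by positivity
    linarith

/-- the kernels -/
noncomputable def apx_K (n : ℕ) : ℝ → ℝ := (apx_B n).normed volume

theorem apx_K_smooth (n : ℕ) : ContDiff ℝ ∞ (apx_K n) := (apx_B n).contDiff_normed

theorem apx_K_nonneg (n : ℕ) (c : ℝ) : 0 ≤ apx_K n c := (apx_B n).nonneg_normed c

theorem apx_K_supp (n : ℕ) : Function.support (apx_K n) =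
    ball (1 + 3 / (4 * ((n : ℝ) + 1))) (1 / (4 * ((n : ℝ) + 1))) := (apx_B n).support_normed_eq

theorem apx_K_mem {n : ℕ} {u : ℝ} (h : apx_K n u ≠ 0) :
    1 + 1 / (2 * ((n : ℝ) + 1)) < u ∧ u < 1 + 1 / ((n : ℝ) + 1) := by
  have h1 : u ∈ Function.support (apx_K n) := h
  rw [apx_K_supp, Real.ball_eq_Ioo] at h1
  obtain ⟨h2, h3⟩ := h1
  have hn : (0 : ℝ) < (n : ℝ) + 1 := by positivity
  have e1 : 1 + 3 / (4 * ((n : ℝ) + 1)) - 1 / (4 * ((n : ℝ) + 1)) = 1 + 1 / (2 * ((n : ℝ) + 1)) := by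
    field_simp; ring
  have e2 : 1 + 3 / (4 * ((n : ℝ) + 1)) + 1 / (4 * ((n : ℝ) + 1)) = 1 + 1 / ((n : ℝ) + 1) := by
    field_simp; ring
  rw [e1] at h2
  rw [e2] at h3
  exact ⟨h2, h3⟩

theorem apx_K_left {n : ℕ} {u : ℝ} (h : u ≤ 1 + 1 / (2 * ((n : ℝ) + 1))) : apx_K n u = 0 := by
  by_contra hc
  exact absurd (apx_K_mem hc).1 (not_lt.mpr h)

theorem apx_K_right {n : ℕ} {u : ℝ} (h : 1 + 1 / ((n : ℝ) + 1) ≤ u) : apx_K n u = 0 := by
  by_contra hc
  exact absurd (apx_K_mem hc).2 (not_lt.mpr h)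

theorem apx_K_TK (n : ℕ) : TK (apx_K n) :=
  ⟨apx_K_smooth n, 1 + 1 / ((n : ℝ) + 1), fun _ hc => apx_K_right hc⟩

/-- the primitive -/
noncomputable def apx_M (n : ℕ) (u : ℝ) : ℝ := ∫ t in (1 : ℝ)..u, apx_K n t

theorem apx_M_deriv (n : ℕ) (u : ℝ) : HasDerivAt (apx_M n) (apx_K n u) u :=
  ((apx_K_smooth n).continuous.integral_hasStrictDerivAt 1 u).hasDerivAt

theorem apx_M_smooth (n : ℕ) : ContDiff ℝ ∞ (apx_M n) := by
  rw [contDiff_infty_iff_deriv]
  refine ⟨fun u => (apx_M_deriv n u).differentiableAt, ?_⟩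
  have : deriv (apx_M n) = apx_K n := funext fun u => (apx_M_deriv n u).deriv
  rw [this]
  exact apx_K_smooth n

theorem apx_M_mono (n : ℕ) : Monotone (apx_M n) := by
  refine monotone_of_deriv_nonneg (fun u => (apx_M_deriv n u).differentiableAt) fun u => ?_
  rw [(apx_M_deriv n u).deriv]
  exact apx_K_nonneg n u

theorem apx_M_left {n : ℕ} {u : ℝ} (h : u ≤ 1 + 1 / (2 * ((n : ℝ) + 1))) : apx_M n u = 0 := by
  have h0 : (0 : ℝ) < 1 / (2 * ((n : ℝ) + 1)) := by positivity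
  unfold apx_M
  rw [intervalIntegral.integral_congr (g := fun _ => (0 : ℝ)), intervalIntegral.integral_zero]
  intro t ht
  rw [mem_uIcc] at ht
  apply apx_K_left
  rcases ht with ht | ht
  · exact ht.2.trans h
  · linarith [ht.2]

theorem apx_M_right {n : ℕ} {u : ℝ} (h : 1 + 1 / ((n : ℝ) + 1) ≤ u) : apx_M n u = 1 := by
  unfold apx_M
  rw [intervalIntegral.integral_eq_integral_of_support_subset, apx_K,
    (apx_B n).integral_normed]
  intro t ht
  have h1 := apx_K_mem (by exact ht : apx_K n t ≠ 0)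
  have h0 : (0 : ℝ) < 1 / (2 * ((n : ℝ) + 1)) := by positivity
  exact ⟨by linarith [h1.1], by linarith [h1.2]⟩

theorem apx_M_nonneg (n : ℕ) (u : ℝ) : 0 ≤ apx_M n u := by
  have h0 : (0 : ℝ) < 1 / (2 * ((n : ℝ) + 1)) := by positivity
  rcases le_total u 1 with h | h
  · rw [apx_M_left (by linarith)]
  · have h1 : apx_M n 1 = 0 := apx_M_left (by linarith)
    rw [← h1]
    exact apx_M_mono n h

theorem apx_M_le_one (n : ℕ) (u : ℝ) : apx_M n u ≤ 1 := by
  have h1 : apx_M n (max u (1 + 1 / ((n : ℝ) + 1))) = 1 := apx_M_right (le_max_right _ _)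
  rw [← h1]
  exact apx_M_mono n (le_max_left _ _)

/-- the quotient -/
noncomputable def apx_h (n j : ℕ) (u : ℝ) : ℝ := (apx_M n u - apx_M j u) / (u ^ 2 - 1)

theorem apx_h_mul (n j : ℕ) (u : ℝ) : (u ^ 2 - 1) * apx_h n j u = apx_M n u - apx_M j u := by
  unfold apx_h
  by_cases hu : u ^ 2 - 1 = 0
  · rw [hu, zero_mul]
    have h1 : u ≤ 1 := by nlinarith
    have hn : (0 : ℝ) < 1 / (2 * ((n : ℝ) + 1)) := by positivity
    have hj : (0 : ℝ) < 1 / (2 * ((j : ℝ) + 1)) := by positivity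
    rw [apx_M_left (by linarith), apx_M_left (by linarith), sub_zero]
  · field_simp

theorem apx_h_smooth (n j : ℕ) : ContDiff ℝ ∞ (apx_h n j) := by
  have hn : (0 : ℝ) < 1 / (2 * ((n : ℝ) + 1)) := by positivity
  have hj : (0 : ℝ) < 1 / (2 * ((j : ℝ) + 1)) := by positivity
  rw [contDiff_iff_contDiffAt]
  intro u
  rcases lt_or_ge 1 u with h | h
  · refine ContDiffAt.div ?_ ?_ ?_
    · exact ((apx_M_smooth n).sub (apx_M_smooth j)).contDiffAt
    · fun_prop
    · nlinarith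
  · have h1 : apx_h n j =ᶠ[𝓝 u] fun _ => (0 : ℝ) := by
      have h2 : Iio (1 + min (1 / (2 * ((n : ℝ) + 1))) (1 / (2 * ((j : ℝ) + 1)))) ∈ 𝓝 u := by
        apply Iio_mem_nhds
        have := lt_min hn hj
        linarith
      filter_upwards [h2] with v hv
      rw [mem_Iio] at hv
      have h3 := min_le_left (1 / (2 * ((n : ℝ) + 1))) (1 / (2 * ((j : ℝ) + 1)))
      have h4 := min_le_right (1 / (2 * ((n : ℝ) + 1))) (1 / (2 * ((j : ℝ) + 1)))
      unfold apx_h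
      rw [apx_M_left (by linarith), apx_M_left (by linarith), sub_zero, zero_div]
    exact contDiffAt_const.congr_of_eventuallyEq h1

theorem apx_h_right {n j : ℕ} {u : ℝ} (h1 : 1 + 1 / ((n : ℝ) + 1) ≤ u)
    (h2 : 1 + 1 / ((j : ℝ) + 1) ≤ u) : apx_h n j u = 0 := by
  unfold apx_h
  rw [apx_M_right h1, apx_M_right h2, sub_self, zero_div]

/-- the Green kernel -/
noncomputable def apx_g (n j : ℕ) (c : ℝ) : ℝ := ∫ u in c..2, apx_h n j u

theorem apx_g_deriv (n j : ℕ) (c : ℝ) : HasDerivAt (apx_g n j) (-apx_h n j c) c := by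
  have h1 := ((apx_h_smooth n j).continuous.integral_hasStrictDerivAt 2 c).hasDerivAt.neg
  refine h1.congr_of_eventuallyEq (Eventually.of_forall fun x => ?_)
  show apx_g n j x = -∫ u in (2 : ℝ)..x, apx_h n j u
  unfold apx_g
  rw [intervalIntegral.integral_symm]

theorem apx_g_smooth (n j : ℕ) : ContDiff ℝ ∞ (apx_g n j) := by
  rw [contDiff_infty_iff_deriv]
  refine ⟨fun u => (apx_g_deriv n j u).differentiableAt, ?_⟩
  have : deriv (apx_g n j) = fun u => -apx_h n j u := funext fun u => (apx_g_deriv n j u).deriv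
  rw [this]
  exact (apx_h_smooth n j).neg

theorem apx_g_right {n j : ℕ} {c : ℝ} (h1 : 1 + 1 / ((n : ℝ) + 1) ≤ c)
    (h2 : 1 + 1 / ((j : ℝ) + 1) ≤ c) : apx_g n j c = 0 := by
  have hn : 1 / ((n : ℝ) + 1) ≤ 1 := by
    rw [div_le_one (by positivity)]
    linarith [(Nat.cast_nonneg n : (0 : ℝ) ≤ n)]
  have hj : 1 / ((j : ℝ) + 1) ≤ 1 := by
    rw [div_le_one (by positivity)]
    linarith [(Nat.cast_nonneg j : (0 : ℝ) ≤ j)]
  unfold apx_g
  rw [intervalIntegral.integral_congr (g := fun _ => (0 : ℝ)), intervalIntegral.integral_zero]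
  intro t ht
  rw [mem_uIcc] at ht
  rcases ht with ht | ht
  · exact apx_h_right (h1.trans ht.1) (h2.trans ht.1)
  · exact apx_h_right (by linarith [ht.1]) (by linarith [ht.1])

theorem apx_g_TK (n j : ℕ) : TK (apx_g n j) := by
  refine ⟨apx_g_smooth n j, 2, fun c hc => apx_g_right ?_ ?_⟩
  · have hn : 1 / ((n : ℝ) + 1) ≤ 1 := by
      rw [div_le_one (by positivity)]
      linarith [(Nat.cast_nonneg n : (0 : ℝ) ≤ n)]
    linarith
  · have hj : 1 / ((j : ℝ) + 1) ≤ 1 := by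
      rw [div_le_one (by positivity)]
      linarith [(Nat.cast_nonneg j : (0 : ℝ) ≤ j)]
    linarith

theorem apx_g_DD (n j : ℕ) (c : ℝ) : DD (apx_g n j) c = apx_K n c - apx_K j c := by
  have h1 : deriv (apx_g n j) = fun u => -apx_h n j u := funext fun u => (apx_g_deriv n j u).deriv
  have hd : DifferentiableAt ℝ (apx_h n j) c :=
    ((apx_h_smooth n j).differentiable (by simp)).differentiableAt
  have h2 : deriv (deriv (apx_g n j)) c = -deriv (apx_h n j) c := by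
    rw [h1]
    exact deriv.fun_neg
  have h3 : HasDerivAt (fun u : ℝ => (u ^ 2 - 1) * apx_h n j u)
      ((2 * c) * apx_h n j c + (c ^ 2 - 1) * deriv (apx_h n j) c) c := by
    have e1 : HasDerivAt (fun u : ℝ => u ^ 2 - 1) (2 * c) c := by
      simpa using (hasDerivAt_pow 2 c).sub_const 1
    exact e1.mul hd.hasDerivAt
  have h4 : (fun u : ℝ => (u ^ 2 - 1) * apx_h n j u) = fun u => apx_M n u - apx_M j u :=
    funext fun u => apx_h_mul n j u
  rw [h4] at h3
  have h5 := h3.unique ((apx_M_deriv n c).sub (apx_M_deriv j c))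
  unfold DD
  rw [h2, h1, ← h5]
  ring

/-- test kernels are bounded and measurable -/
theorem apx_bdd {k : ℝ → ℝ} (hk : TK k) : ∃ B : ℝ, ∀ c, 1 ≤ c → |k c| ≤ B := by
  obtain ⟨R, hR⟩ := hk.supp
  obtain ⟨B, hB⟩ := (isCompact_Icc (a := (1 : ℝ)) (b := max R 1)).exists_bound_of_continuousOn
    hk.smooth.continuous.continuousOn
  refine ⟨B, fun c hc => ?_⟩
  rcases le_total c (max R 1) with h | h
  · exact hB c ⟨hc, h⟩
  · rw [hR c ((le_max_left _ _).trans h), abs_zero]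
    exact (norm_nonneg _).trans (hB 1 ⟨le_refl _, le_max_right _ _⟩)

theorem apx_int {k : ℝ → ℝ} (hk : TK k) : Integrable (fun w => kz k UpperHalfPlane.I w) :=
  (kz_int hk.smooth.continuous.measurable (apx_bdd hk) hk.supp UpperHalfPlane.I).1

theorem apx_ms (n j : ℕ) : ms (apx_K n) = ms (apx_K j) := by
  have h1 := grn_one (apx_g_TK n j) UpperHalfPlane.I
  have h2 : (fun w => kz (DD (apx_g n j)) UpperHalfPlane.I w) =
      fun w => kz (apx_K n) UpperHalfPlane.I w - kz (apx_K j) UpperHalfPlane.I w := by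
    funext w
    unfold kz
    rw [apx_g_DD]
  rw [h2, integral_sub (apx_int (apx_K_TK n)) (apx_int (apx_K_TK j))] at h1
  unfold ms
  linarith

theorem apx_kz_cont {k : ℝ → ℝ} (hk : Continuous k) (z : ℍ) : Continuous (fun w => kz k z w) := by
  unfold kz
  fun_prop

theorem apx_open {S : Set ℍ} (hS : IsOpen S) (hne : S.Nonempty) : 0 < (volume : Measure ℍ) S := by
  rw [pos_iff_ne_zero]
  intro h0
  have hac : (volume.comap UpperHalfPlane.coe : Measure ℍ) ≪ (volume : Measure ℍ) := by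
    rw [volume_def]
    apply withDensity_absolutelyContinuous'
    · have h2 : Continuous (fun z : ℍ => (1 / NNReal.mk z.im z.im_pos.le : NNReal) ^ 2) := by
        refine .pow (.div₀ continuous_const ?_ ?_) _
        · exact UpperHalfPlane.continuous_im.subtype_mk _
        · exact fun x ↦ NNReal.ne_iff.mp x.im_ne_zero
      exact h2.measurable.coe_nnreal_ennreal.aemeasurable
    · refine Eventually.of_forall fun z => ?_
      have h3 : NNReal.mk z.im z.im_pos.le ≠ 0 := NNReal.ne_iff.mp z.im_ne_zero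
      rw [ENNReal.coe_ne_zero]
      exact pow_ne_zero 2 (one_div_ne_zero h3)
  have h1 := hac h0
  rw [measurableEmbedding_coe.comap_apply] at h1
  have ho : IsOpen (UpperHalfPlane.coe '' S) := isOpenEmbedding_coe.isOpenMap _ hS
  exact (ho.measure_pos volume (hne.image _)).ne' h1

theorem apx_pos (n : ℕ) : 0 < ms (apx_K n) := by
  unfold ms
  rw [integral_pos_iff_support_of_nonneg (f := fun w => kz (apx_K n) UpperHalfPlane.I w)
    (fun w => apx_K_nonneg n _) (apx_int (apx_K_TK n))]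
  have ho : IsOpen (Function.support fun w => kz (apx_K n) UpperHalfPlane.I w) :=
    (apx_kz_cont (apx_K_smooth n).continuous _).isOpen_support
  refine apx_open ho ?_
  have hn : (0 : ℝ) < (n : ℝ) + 1 := by positivity
  set c₀ : ℝ := 1 + 3 / (4 * ((n : ℝ) + 1)) with hc₀
  have hc1 : 1 ≤ c₀ := by
    have : 0 ≤ 3 / (4 * ((n : ℝ) + 1)) := by positivity
    linarith
  obtain ⟨t, -, ht⟩ := Real.cosh_surjOn (by exact hc1 : c₀ ∈ Ici (1 : ℝ))
  set w₀ : ℍ := ⟨Complex.mk 0 (Real.exp t), Real.exp_pos t⟩ with hw₀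
  refine ⟨w₀, ?_⟩
  have h1 : dist UpperHalfPlane.I w₀ = |t| := by
    rw [UpperHalfPlane.dist_of_re_eq (by simp [hw₀, UpperHalfPlane.re]), Real.dist_eq]
    have e1 : UpperHalfPlane.I.im = 1 := UpperHalfPlane.I_im
    have e2 : w₀.im = Real.exp t := rfl
    rw [e1, e2, Real.log_one, Real.log_exp, zero_sub, abs_neg]
  show kz (apx_K n) UpperHalfPlane.I w₀ ≠ 0
  unfold kz
  rw [h1, Real.cosh_abs, ht]
  show c₀ ∈ Function.support (apx_K n)
  rw [apx_K_supp]
  exact mem_ball_self (by positivity)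

theorem apx_im {D : ℝ} {w : ℍ} (h : dist UpperHalfPlane.I w ≤ D) :
    Real.exp (-D) ≤ w.im ∧ w.im ≤ Real.exp D := by
  have e1 : UpperHalfPlane.I.im = 1 := UpperHalfPlane.I_im
  have h1 := UpperHalfPlane.dist_log_im_le UpperHalfPlane.I w
  rw [e1, Real.log_one, Real.dist_eq, zero_sub, abs_neg] at h1
  have h2 := abs_le.mp (h1.trans h)
  rw [← Real.exp_log w.im_pos]
  exact ⟨Real.exp_le_exp.mpr h2.1, Real.exp_le_exp.mpr h2.2⟩

theorem apx_dist {x d : ℝ} (hd : 0 ≤ d) (h : Real.cosh d ≤ 1 + x) : d ≤ √(2 * x) := by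
  apply Real.le_sqrt_of_sq_le
  have h1 : Real.cosh d = 1 + 2 * Real.sinh (d / 2) ^ 2 := by
    have := Real.cosh_two_mul (d / 2)
    have h2 := Real.cosh_sq (d / 2)
    rw [mul_div_cancel₀ d two_ne_zero] at this
    rw [this, h2]; ring
  have h2 : d / 2 ≤ Real.sinh (d / 2) := Real.self_le_sinh_iff.mpr (by linarith)
  have h3 : (d / 2) ^ 2 ≤ Real.sinh (d / 2) ^ 2 := pow_le_pow_left₀ (by linarith) h2 2
  nlinarith

theorem apx_h_nonneg {n j : ℕ} (h : 1 + 1 / ((n : ℝ) + 1) ≤ 1 + 1 / (2 * ((j : ℝ) + 1))) (u : ℝ) :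
    0 ≤ apx_h n j u := by
  have hn : (0 : ℝ) < 1 / (2 * ((n : ℝ) + 1)) := by positivity
  have hj : (0 : ℝ) < 1 / (2 * ((j : ℝ) + 1)) := by positivity
  unfold apx_h
  rcases le_or_gt u 1 with hu | hu
  · rw [apx_M_left (by linarith), apx_M_left (by linarith), sub_zero, zero_div]
  · apply div_nonneg _ (by nlinarith)
    rcases le_total u (1 + 1 / (2 * ((j : ℝ) + 1))) with h1 | h1
    · rw [apx_M_left h1, sub_zero]
      exact apx_M_nonneg n u
    · rw [apx_M_right (h.trans h1)]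
      linarith [apx_M_le_one j u]

theorem apx_g_nonneg {n j : ℕ} (h : 1 + 1 / ((n : ℝ) + 1) ≤ 1 + 1 / (2 * ((j : ℝ) + 1))) (c : ℝ) :
    0 ≤ apx_g n j c := by
  rcases le_total c 2 with hc | hc
  · exact intervalIntegral.integral_nonneg hc fun u _ => apx_h_nonneg h u
  · rw [apx_g_right]
    · have hn : 1 / ((n : ℝ) + 1) ≤ 1 := by
        rw [div_le_one (by positivity)]
        linarith [(Nat.cast_nonneg n : (0 : ℝ) ≤ n)]
      linarith
    · have hj : 1 / ((j : ℝ) + 1) ≤ 1 := by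
        rw [div_le_one (by positivity)]
        linarith [(Nat.cast_nonneg j : (0 : ℝ) ≤ j)]
      linarith

/-- the lower bound of the Green kernel -/
theorem apx_g_lower {n j : ℕ} (h : 1 + 1 / ((n : ℝ) + 1) ≤ 1 + 1 / (4 * ((j : ℝ) + 1))) {c : ℝ}
    (hc : c ≤ 1 + 1 / (4 * ((j : ℝ) + 1))) : 1 / (12 * ((j : ℝ) + 1)) ≤ apx_g n j c := by
  have hj0 : (0 : ℝ) < (j : ℝ) + 1 := by positivity
  have hj1 : (1 : ℝ) ≤ (j : ℝ) + 1 := by linarith [(Nat.cast_nonneg j : (0 : ℝ) ≤ j)]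
  set a₁ : ℝ := 1 + 1 / (4 * ((j : ℝ) + 1)) with ha₁
  set b₁ : ℝ := 1 + 1 / (2 * ((j : ℝ) + 1)) with hb₁
  have hab : a₁ ≤ b₁ := by
    have : 1 / (4 * ((j : ℝ) + 1)) ≤ 1 / (2 * ((j : ℝ) + 1)) :=
      one_div_le_one_div_of_le (by positivity) (by linarith)
    linarith
  have ha0 : 1 < a₁ := by
    have : 0 < 1 / (4 * ((j : ℝ) + 1)) := by positivity
    linarith
  have hb2 : b₁ ≤ 2 := by
    have : 1 / (2 * ((j : ℝ) + 1)) ≤ 1 := by
      rw [div_le_one (by positivity)]; linarith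
    linarith
  have hnn := apx_h_nonneg (h.trans hab)
  have hcont := (apx_h_smooth n j).continuous
  have h1 : ∫ u in a₁..b₁, apx_h n j u ≤ apx_g n j c := by
    refine intervalIntegral.integral_mono_interval hc hab hb2 ?_ (hcont.intervalIntegrable _ _)
    exact Eventually.of_forall hnn
  have h2 : ∫ _u in a₁..b₁, (1 / 3 : ℝ) ≤ ∫ u in a₁..b₁, apx_h n j u := by
    refine intervalIntegral.integral_mono_on hab (by simp) (hcont.intervalIntegrable _ _) ?_
    intro u hu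
    unfold apx_h
    rw [apx_M_right (h.trans hu.1), apx_M_left hu.2, sub_zero]
    have hu1 : 1 < u := ha0.trans_le hu.1
    have hu2 : u ≤ 2 := hu.2.trans hb2
    apply one_div_le_one_div_of_le <;> nlinarith
  rw [intervalIntegral.integral_const, smul_eq_mul] at h2
  have h3 : (b₁ - a₁) * (1 / 3) = 1 / (12 * ((j : ℝ) + 1)) := by
    rw [ha₁, hb₁]; field_simp; ring
  linarith

/-- comparison of masses -/
theorem apx_ms_le {p q : ℝ → ℝ} (hp : TK p) (hq : TK q) {a : ℝ} (h : ∀ c, 1 ≤ c → a * p c ≤ q c) :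
    a * ms p ≤ ms q := by
  unfold ms
  rw [← integral_const_mul]
  refine integral_mono ((apx_int hp).const_mul a) (apx_int hq) fun w => ?_
  exact h _ (Real.one_le_cosh _)

theorem apx_root {k : ℝ → ℝ} (hk : TK k) : Integrable (fun w : ℍ =>
    kz k UpperHalfPlane.I w * w.im ^ (1 / 2 : ℝ)) := by
  obtain ⟨R, hR⟩ := hk.supp
  set D : ℝ := √(2 * |R - 1|) with hD
  have hm : AEStronglyMeasurable (fun w : ℍ => kz k UpperHalfPlane.I w * w.im ^ (1 / 2 : ℝ)) := by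
    refine Continuous.aestronglyMeasurable ?_
    refine (apx_kz_cont hk.smooth.continuous _).mul ?_
    exact UpperHalfPlane.continuous_im.rpow_const fun w => Or.inl w.im_ne_zero
  refine ((apx_int hk).norm.mul_const (Real.exp D ^ (1 / 2 : ℝ))).mono' hm ?_
  refine Eventually.of_forall fun w => ?_
  rw [norm_mul]
  by_cases h0 : kz k UpperHalfPlane.I w = 0
  · rw [h0]; simp
  · have h1 : Real.cosh (dist UpperHalfPlane.I w) ≤ 1 + |R - 1| := by
      by_contra hc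
      rw [not_le] at hc
      exact h0 (hR _ (by linarith [le_abs_self (R - 1)]))
    have h2 := apx_im (apx_dist dist_nonneg h1)
    rw [Real.norm_eq_abs (w.im ^ (1 / 2 : ℝ)), abs_of_nonneg (by have := w.im_pos; positivity)]
    refine mul_le_mul_of_nonneg_left ?_ (norm_nonneg _)
    exact Real.rpow_le_rpow w.im_pos.le h2.2 (by norm_num)

/-- the upper bound -/
theorem apx_upper {k l g : ℝ → ℝ} (hk : TK k) (hl : TK l) (hg : TK g) (hk0 : ∀ c, 0 ≤ k c)
    (hl0 : ∀ c, 0 ≤ l c) (hg0 : ∀ c, 0 ≤ g c) {x : ℝ} (hks : ∀ c, 1 + x ≤ c → k c = 0)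
    (hls : ∀ c, 1 + x ≤ c → l c = 0) (hgs : ∀ c, 1 + x ≤ c → g c = 0) (hm : ms k = ms l)
    (hDD : ∀ c, 1 ≤ c → DD g c = k c - l c) :
    ms g ≤ 4 * ms l * (Real.exp (√(2 * x)) - 1) := by
  set D : ℝ := √(2 * x) with hD
  set E : ℝ := Real.exp D ^ (1 / 2 : ℝ) with hE
  have hE0 : 0 < E := by positivity
  -- pointwise bounds
  have up : ∀ p : ℝ → ℝ, (∀ c, 0 ≤ p c) → (∀ c, 1 + x ≤ c → p c = 0) → ∀ w : ℍ,
      kz p UpperHalfPlane.I w * w.im ^ (1 / 2 : ℝ) ≤ kz p UpperHalfPlane.I w * E ∧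
      kz p UpperHalfPlane.I w * E⁻¹ ≤ kz p UpperHalfPlane.I w * w.im ^ (1 / 2 : ℝ) := by
    intro p hp hps w
    by_cases h0 : kz p UpperHalfPlane.I w = 0
    · rw [h0]; simp
    · have h1 : Real.cosh (dist UpperHalfPlane.I w) ≤ 1 + x := by
        by_contra hc
        rw [not_le] at hc
        exact h0 (hps _ hc.le)
      have h2 := apx_im (apx_dist dist_nonneg h1)
      have h3 : 0 ≤ kz p UpperHalfPlane.I w := hp _
      refine ⟨mul_le_mul_of_nonneg_left (Real.rpow_le_rpow w.im_pos.le h2.2 (by norm_num)) h3,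
        mul_le_mul_of_nonneg_left ?_ h3⟩
      have h4 : E⁻¹ = Real.exp (-D) ^ (1 / 2 : ℝ) := by
        rw [hE, ← Real.inv_rpow (Real.exp_pos _).le, Real.exp_neg]
      rw [h4]
      exact Real.rpow_le_rpow (Real.exp_pos _).le h2.1 (by norm_num)
  have h1 := grn_rpow hg UpperHalfPlane.I (1 / 2)
  have h2 : ∫ w : ℍ, kz (DD g) UpperHalfPlane.I w * w.im ^ (1 / 2 : ℝ) =
      (∫ w : ℍ, kz k UpperHalfPlane.I w * w.im ^ (1 / 2 : ℝ)) -
        ∫ w : ℍ, kz l UpperHalfPlane.I w * w.im ^ (1 / 2 : ℝ) := by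
    rw [← integral_sub (apx_root hk) (apx_root hl)]
    refine integral_congr_ae (Eventually.of_forall fun w => ?_)
    simp only [kz]
    rw [hDD _ (Real.one_le_cosh _)]
    ring
  rw [h2] at h1
  have h3 : ∫ w : ℍ, kz k UpperHalfPlane.I w * w.im ^ (1 / 2 : ℝ) ≤ ms k * E := by
    unfold ms
    rw [← integral_mul_const]
    exact integral_mono (apx_root hk) ((apx_int hk).mul_const E) fun w => (up k hk0 hks w).1
  have h4 : ms l * E⁻¹ ≤ ∫ w : ℍ, kz l UpperHalfPlane.I w * w.im ^ (1 / 2 : ℝ) := by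
    unfold ms
    rw [← integral_mul_const]
    exact integral_mono ((apx_int hl).mul_const _) (apx_root hl) fun w => (up l hl0 hls w).2
  have h5 : ms g * E⁻¹ ≤ ∫ w : ℍ, kz g UpperHalfPlane.I w * w.im ^ (1 / 2 : ℝ) := by
    unfold ms
    rw [← integral_mul_const]
    exact integral_mono ((apx_int hg).mul_const _) (apx_root hg) fun w => (up g hg0 hgs w).2
  have h6 : (1 / 2 : ℝ) * (1 - 1 / 2) = 1 / 4 := by norm_num
  rw [h6] at h1
  have h7 : ms g * E⁻¹ ≤ 4 * (ms l * E - ms l * E⁻¹) := by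
    rw [hm] at h3
    linarith
  have h8 : E * E = Real.exp D := by
    rw [hE, ← Real.rpow_add (Real.exp_pos _)]
    norm_num
  have h9 : ms g * E⁻¹ * E ≤ 4 * (ms l * E - ms l * E⁻¹) * E :=
    mul_le_mul_of_nonneg_right h7 hE0.le
  have h10 : ms g * E⁻¹ * E = ms g := by field_simp
  have h11 : 4 * (ms l * E - ms l * E⁻¹) * E = 4 * ms l * (E * E - 1) := by field_simp
  rw [h10, h11, h8] at h9
  exact h9

theorem apx : ∃ (m : ℝ) (kk : ℕ → ℝ → ℝ), 0 < m ∧
    (∀ n, TK (kk n) ∧ (∀ c, 0 ≤ kk n c) ∧ (∀ c, 1 + 1 / ((n : ℝ) + 1) ≤ c → kk n c = 0) ∧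
      ms (kk n) = m) ∧
    ∀ ε > 0, ∃ m₀ : ℕ, ∀ j ≥ m₀, ∃ n₀ : ℕ, ∃ e > 0, ∀ n ≥ n₀, ∃ g : ℝ → ℝ, TK g ∧
      (∀ c, 0 ≤ g c) ∧ (∀ c, 1 + 1 / ((j : ℝ) + 1) ≤ c → g c = 0) ∧
      (∀ c, 1 ≤ c → DD g c = kk n c - kk j c) ∧ e ≤ ms g ∧ ms g ≤ ε := by
  refine ⟨ms (apx_K 0), apx_K, apx_pos 0, fun n => ⟨apx_K_TK n, apx_K_nonneg n,
    fun c hc => apx_K_right hc, apx_ms n 0⟩, ?_⟩
  intro ε hε
  have hlim : Tendsto (fun j : ℕ => 4 * ms (apx_K 0) * (Real.exp (√(2 * (1 / ((j : ℝ) + 1)))) - 1))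
      atTop (𝓝 0) := by
    have h1 : Continuous (fun x : ℝ => 4 * ms (apx_K 0) * (Real.exp (√(2 * x)) - 1)) := by fun_prop
    have h2 := (h1.tendsto 0).comp (tendsto_one_div_add_atTop_nhds_zero_nat (𝕜 := ℝ))
    have h3 : 4 * ms (apx_K 0) * (Real.exp (√(2 * (0 : ℝ))) - 1) = 0 := by simp
    rw [h3] at h2
    exact h2
  obtain ⟨m₀, hm₀⟩ := (hlim.eventually (ge_mem_nhds hε)).exists_forall_of_atTop
  refine ⟨m₀, fun j hj => ?_⟩
  have hj0 : (0 : ℝ) < (j : ℝ) + 1 := by positivity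
  obtain ⟨B, hB⟩ := apx_bdd (apx_K_TK (4 * j + 3))
  have hB0 : 0 ≤ B := (abs_nonneg _).trans (hB 1 le_rfl)
  have hN : (((4 * j + 3 : ℕ) : ℝ) + 1) = 4 * ((j : ℝ) + 1) := by push_cast; ring
  refine ⟨4 * j + 3, 1 / (12 * ((j : ℝ) + 1)) / (B + 1) * ms (apx_K 0), ?_, ?_⟩
  · have := apx_pos 0
    positivity
  intro n hn
  have hn1 : 1 + 1 / ((n : ℝ) + 1) ≤ 1 + 1 / (4 * ((j : ℝ) + 1)) := by
    rw [← hN]
    have : ((4 * j + 3 : ℕ) : ℝ) ≤ n := by exact_mod_cast hn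
    have h0 : (0 : ℝ) < ((4 * j + 3 : ℕ) : ℝ) + 1 := by positivity
    have := one_div_le_one_div_of_le h0 (by linarith : ((4 * j + 3 : ℕ) : ℝ) + 1 ≤ (n : ℝ) + 1)
    linarith
  have hab : 1 + 1 / (4 * ((j : ℝ) + 1)) ≤ 1 + 1 / (2 * ((j : ℝ) + 1)) := by
    have : 1 / (4 * ((j : ℝ) + 1)) ≤ 1 / (2 * ((j : ℝ) + 1)) :=
      one_div_le_one_div_of_le (by positivity) (by linarith)
    linarith
  have hbc : 1 + 1 / (2 * ((j : ℝ) + 1)) ≤ 1 + 1 / ((j : ℝ) + 1) := by
    have : 1 / (2 * ((j : ℝ) + 1)) ≤ 1 / ((j : ℝ) + 1) :=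
      one_div_le_one_div_of_le (by positivity) (by linarith)
    linarith
  have hgs : ∀ c, 1 + 1 / ((j : ℝ) + 1) ≤ c → apx_g n j c = 0 := fun c hc =>
    apx_g_right (hn1.trans (hab.trans (hbc.trans hc))) hc
  refine ⟨apx_g n j, apx_g_TK n j, apx_g_nonneg (hn1.trans hab), hgs,
    fun c _ => apx_g_DD n j c, ?_, ?_⟩
  · rw [← apx_ms (4 * j + 3) 0]
    refine apx_ms_le (apx_K_TK _) (apx_g_TK n j) fun c hc => ?_
    rcases le_total c (1 + 1 / (4 * ((j : ℝ) + 1))) with h | h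
    · have h1 := apx_g_lower hn1 h
      have h2 : apx_K (4 * j + 3) c ≤ B + 1 := by
        have := hB c hc
        have := le_abs_self (apx_K (4 * j + 3) c)
        linarith
      calc 1 / (12 * ((j : ℝ) + 1)) / (B + 1) * apx_K (4 * j + 3) c ≤
            1 / (12 * ((j : ℝ) + 1)) / (B + 1) * (B + 1) :=
            mul_le_mul_of_nonneg_left h2 (by positivity)
        _ = 1 / (12 * ((j : ℝ) + 1)) := by field_simp
        _ ≤ _ := h1
    · rw [apx_K_right (by rw [hN]; exact h), mul_zero]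
      exact apx_g_nonneg (hn1.trans hab) c
  · refine le_trans (apx_upper (apx_K_TK n) (apx_K_TK j) (apx_g_TK n j) (apx_K_nonneg n)
      (apx_K_nonneg j) (apx_g_nonneg (hn1.trans hab)) (x := 1 / ((j : ℝ) + 1))
      (fun c hc => apx_K_right (hn1.trans (hab.trans (hbc.trans hc))))
      (fun c hc => apx_K_right hc) hgs (apx_ms n j) (fun c _ => apx_g_DD n j c)) ?_
    rw [apx_ms j 0]
    exact hm₀ j hj


end Pool.Agent.JOS
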