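import Pool.Agent.Lib_helper58.JOSF.CNT

/-! JOS, block BAL: square integrable families on balls -/

namespace Pool.Agent.JOS

open Complex MeasureTheory Filter Topology UpperHalfPlane ModularGroup Set Metric
open scoped MatrixGroups Modular ENNReal ComplexConjugate ContDiff
open Pool.Agent.JO (QN red FamH)

theorem bal_iso (g : SL(2, ℤ)) (z w : ℍ) : dist (g • z) (g • w) = dist z w := by
  have h : ∀ z : ℍ, g • z = (Matrix.SpecialLinearGroup.map (Int.castRingHom ℝ) g : SL(2, ℝ)) • z := by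
    intro z
    apply UpperHalfPlane.ext
    rw [coe_specialLinearGroup_apply, coe_specialLinearGroup_apply]
    simp
  rw [h, h, dist_smul]

theorem bal_red_inv {N : ℕ} (g : SL(2, ℤ)) (s : QN N) : red N g * (red N g⁻¹ * s) = s := by
  unfold red
  rw [← mul_assoc, ← map_mul, mul_inv_cancel, map_one, one_mul]

/-- the counting inequality -/
theorem bal_count {Y R : ℝ} {M : ℕ} (hM : ∀ z : ℍ, z ∈ (𝒟 : Set ℍ) → z.im ≤ Y → ∀ w : ℍ,
    ∑' g : SL(2, ℤ), (if dist z (g • w) ≤ R then (1 : ℝ≥0∞) else 0) ≤ M) {N : ℕ} [NeZero N]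
    {F : QN N → ℍ → ℝ≥0∞} (hF : ∀ (γ : SL(2, ℤ)) (s : QN N) (z : ℍ), F (red N γ * s) (γ • z) = F s z)
    (hm : ∀ s, Measurable (F s)) {z : ℍ} (hz : z ∈ (𝒟 : Set ℍ)) (hY : z.im ≤ Y) (s : QN N) :
    2 * ∫⁻ w in closedBall z R, F s w ≤ M * ∑ t : QN N, ∫⁻ w in (𝒟ᵒ : Set ℍ), F t w := by
  have hmb : MeasurableSet (closedBall z R : Set ℍ) := isClosed_closedBall.measurableSet
  have hG : Measurable ((closedBall z R).indicator (F s)) := (hm s).indicator hmb
  rw [← lintegral_indicator hmb, ← unf_lint _ hG.aemeasurable,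
    ← lintegral_tsum (f := fun (g : SL(2, ℤ)) (w : ℍ) => (closedBall z R).indicator (F s) (g • w))
      (fun g => (hG.comp (mp_smul g).measurable).aemeasurable),
    ← lintegral_finsetSum _ (fun t _ => hm t), ← lintegral_const_mul _
      (Finset.measurable_sum _ (fun t _ => hm t))]
  apply lintegral_mono
  intro w
  calc ∑' g : SL(2, ℤ), (closedBall z R).indicator (F s) (g • w)
      ≤ ∑' g : SL(2, ℤ), (if dist z (g • w) ≤ R then (1 : ℝ≥0∞) else 0) * ∑ t : QN N, F t w := by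
        apply ENNReal.tsum_le_tsum
        intro g
        by_cases hg : g • w ∈ closedBall z R
        · rw [Set.indicator_of_mem hg, if_pos (by rw [dist_comm]; exact hg), one_mul]
          have h1 : F s (g • w) = F (red N g⁻¹ * s) w := by
            conv_lhs => rw [← bal_red_inv g s]
            exact hF g _ w
          rw [h1]
          exact Finset.single_le_sum (f := fun t => F t w) (fun t _ => zero_le) (Finset.mem_univ _)
        · rw [Set.indicator_of_notMem hg]; exact zero_le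
    _ = (∑' g : SL(2, ℤ), (if dist z (g • w) ≤ R then (1 : ℝ≥0∞) else 0)) * ∑ t : QN N, F t w :=
        ENNReal.tsum_mul_right
    _ ≤ M * ∑ t : QN N, F t w := mul_le_mul_left (hM z hz hY w) _

/-- balls have finite volume, uniformly in the compact part -/
theorem bal_vol {Y R : ℝ} {M : ℕ} (hM : ∀ z : ℍ, z ∈ (𝒟 : Set ℍ) → z.im ≤ Y → ∀ w : ℍ,
    ∑' g : SL(2, ℤ), (if dist z (g • w) ≤ R then (1 : ℝ≥0∞) else 0) ≤ M) {z : ℍ}
    (hz : z ∈ (𝒟 : Set ℍ)) (hY : z.im ≤ Y) :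
    volume (closedBall z R) ≤ M * (Fintype.card (QN 1) * volume (𝒟ᵒ : Set ℍ)) := by
  have h := bal_count hM (N := 1) (F := fun _ _ => 1) (fun _ _ _ => rfl) (fun _ => measurable_const)
    hz hY 1
  rw [setLIntegral_one, setLIntegral_one, Finset.sum_const, Finset.card_univ, nsmul_eq_mul] at h
  refine le_trans ?_ h
  calc volume (closedBall z R) = 1 * volume (closedBall z R) := (one_mul _).symm
    _ ≤ 2 * volume (closedBall z R) := mul_le_mul_left (by norm_num) _

theorem bal_nH {N : ℕ} [NeZero N] {f : QN N → ℍ → ℂ} (hf : SqH f) :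
    ∑ t : QN N, ∫⁻ w in (𝒟ᵒ : Set ℍ), ‖f t w‖ₑ ^ 2 = ENNReal.ofReal (nH f ^ 2) := by
  have h0 : ∀ t : QN N, 0 ≤ ∫ z in (𝒟ᵒ : Set ℍ), ‖f t z‖ ^ 2 := fun t =>
    integral_nonneg (fun z => by positivity)
  unfold nH
  rw [Real.sq_sqrt (Finset.sum_nonneg (fun t _ => h0 t)), ENNReal.ofReal_sum_of_nonneg (fun t _ => h0 t)]
  refine Finset.sum_congr rfl fun t _ => ?_
  rw [ofReal_integral_eq_lintegral_ofReal (hf.sq t) (Eventually.of_forall fun z => by positivity)]
  refine lintegral_congr fun z => ?_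
  rw [ENNReal.ofReal_pow (norm_nonneg _), ofReal_norm]

/-- square integrability on balls around points of the fundamental domain -/
theorem bal_sq {Y R : ℝ} {M : ℕ} (hM : ∀ z : ℍ, z ∈ (𝒟 : Set ℍ) → z.im ≤ Y → ∀ w : ℍ,
    ∑' g : SL(2, ℤ), (if dist z (g • w) ≤ R then (1 : ℝ≥0∞) else 0) ≤ M) {N : ℕ} [NeZero N]
    {f : QN N → ℍ → ℂ} (hf : SqH f) {z : ℍ} (hz : z ∈ (𝒟 : Set ℍ)) (hY : z.im ≤ Y) (s : QN N) :
    ∫⁻ w in closedBall z R, ‖f s w‖ₑ ^ 2 ≤ M * ENNReal.ofReal (nH f ^ 2) := by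
  have h := bal_count hM (N := N) (F := fun s z => ‖f s z‖ₑ ^ 2)
    (fun γ s z => by simp only [hf.fam γ s z]) (fun s => (hf.meas s).enorm.pow_const 2) hz hY s
  rw [bal_nH hf] at h
  refine le_trans ?_ h
  calc _ = 1 * ∫⁻ w in closedBall z R, ‖f s w‖ₑ ^ 2 := (one_mul _).symm
    _ ≤ _ := mul_le_mul_left (by norm_num) _

theorem bal_fin {N : ℕ} [NeZero N] {f : QN N → ℍ → ℂ} (hf : SqH f) (z : ℍ) (R : ℝ) (s : QN N) :
    ∫⁻ w in closedBall z R, ‖f s w‖ₑ ^ 2 < ⊤ ∧ volume (closedBall z R) < ⊤ := by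
  obtain ⟨g, hg⟩ := exists_smul_mem_fd z
  obtain ⟨M, hM⟩ := cnt (g • z).im R
  have hpre : (fun w : ℍ => g • w) ⁻¹' (closedBall (g • z) R) = closedBall z R := by
    ext w
    simp only [Set.mem_preimage, mem_closedBall, bal_iso]
  have hmb : MeasurableSet (closedBall (g • z) R : Set ℍ) := isClosed_closedBall.measurableSet
  constructor
  · have h1 := bal_sq hM hf hg le_rfl (red N g * s)
    have h2 : ∫⁻ w in closedBall z R, ‖f s w‖ₑ ^ 2 =
        ∫⁻ w in closedBall (g • z) R, ‖f (red N g * s) w‖ₑ ^ 2 := by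
      rw [← (mp_smul g).setLIntegral_comp_preimage hmb
        ((hf.meas (red N g * s)).enorm.pow_const 2), hpre]
      refine lintegral_congr fun w => ?_
      rw [hf.fam]
    rw [h2]
    exact lt_of_le_of_lt h1 (ENNReal.mul_lt_top (ENNReal.natCast_lt_top M) ENNReal.ofReal_lt_top)
  · have h1 := bal_vol hM hg le_rfl
    have h2 : volume (closedBall z R) = volume (closedBall (g • z) R) := by
      rw [← hpre, (mp_smul g).measure_preimage hmb.nullMeasurableSet]
    rw [h2]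
    refine lt_of_le_of_lt h1 (ENNReal.mul_lt_top (ENNReal.natCast_lt_top M)
      (ENNReal.mul_lt_top (ENNReal.natCast_lt_top _) vol_fdo))

theorem bal_memLp {N : ℕ} [NeZero N] {f : QN N → ℍ → ℂ} (hf : SqH f) (z : ℍ) (R : ℝ) (s : QN N) :
    MemLp (f s) 2 (volume.restrict (closedBall z R)) := by
  refine ⟨(hf.meas s).aestronglyMeasurable, ?_⟩
  rw [eLpNorm_lt_top_iff_lintegral_rpow_enorm_lt_top (by norm_num) (by norm_num)]
  simpa using (bal_fin hf z R s).1

theorem bal_int {N : ℕ} [NeZero N] {f : QN N → ℍ → ℂ} (hf : SqH f) (z : ℍ) (R : ℝ) (s : QN N) :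
    IntegrableOn (fun w => ‖f s w‖ ^ 2) (closedBall z R) ∧ IntegrableOn (f s) (closedBall z R) := by
  have h := bal_memLp hf z R s
  have : IsFiniteMeasure (volume.restrict (closedBall z R)) :=
    ⟨by rw [Measure.restrict_apply_univ]; exact (bal_fin hf z R s).2⟩
  refine ⟨?_, h.integrable (by norm_num)⟩
  exact (memLp_two_iff_integrable_sq_norm h.1).1 h

theorem bal (Y R : ℝ) : ∃ C : ℝ, 0 ≤ C ∧ ∀ (N : ℕ) [NeZero N] (f : QN N → ℍ → ℂ), SqH f →
    ∀ z : ℍ, z ∈ (𝒟 : Set ℍ) → z.im ≤ Y → ∀ s : QN N,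
      ∫ w in closedBall z R, ‖f s w‖ ≤ C * nH f := by
  obtain ⟨M, hM⟩ := cnt Y R
  set V : ℝ≥0∞ := M * (Fintype.card (QN 1) * volume (𝒟ᵒ : Set ℍ)) with hV
  have hVt : V < ⊤ := ENNReal.mul_lt_top (ENNReal.natCast_lt_top M)
      (ENNReal.mul_lt_top (ENNReal.natCast_lt_top _) vol_fdo)
  refine ⟨√V.toReal * √M, by positivity, fun N _ f hf z hz hY s => ?_⟩
  have hn0 : 0 ≤ nH f := Real.sqrt_nonneg _
  have h1 := (bal_int hf z R s).1
  have h2 : ∫ w in closedBall z R, ‖f s w‖ ^ 2 ≤ M * nH f ^ 2 := by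
    have h3 := bal_sq hM hf hz hY s
    have h4 : ENNReal.ofReal (∫ w in closedBall z R, ‖f s w‖ ^ 2) =
        ∫⁻ w in closedBall z R, ‖f s w‖ₑ ^ 2 := by
      rw [ofReal_integral_eq_lintegral_ofReal h1 (Eventually.of_forall fun z => by positivity)]
      refine lintegral_congr fun z => ?_
      rw [ENNReal.ofReal_pow (norm_nonneg _), ofReal_norm]
    rw [← h4, ← ENNReal.ofReal_natCast, ← ENNReal.ofReal_mul (Nat.cast_nonneg _)] at h3
    exact (ENNReal.ofReal_le_ofReal_iff (by positivity)).1 h3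
  have hvol : (volume (closedBall z R)).toReal ≤ V.toReal :=
    ENNReal.toReal_mono hVt.ne (bal_vol hM hz hY)
  have : IsFiniteMeasure (volume.restrict (closedBall z R)) :=
    ⟨by rw [Measure.restrict_apply_univ]; exact (bal_fin hf z R s).2⟩
  -- Cauchy-Schwarz
  have hcs : ∫ w in closedBall z R, ‖f s w‖ ≤
      √(∫ w in closedBall z R, ‖f s w‖ ^ 2) * √(volume (closedBall z R)).toReal := by
    have h5 := integral_mul_le_Lp_mul_Lq_of_nonneg (μ := volume.restrict (closedBall z R))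
      Real.HolderConjugate.two_two (f := fun w => ‖f s w‖) (g := fun _ => (1 : ℝ))
      (Eventually.of_forall fun _ => norm_nonneg _) (Eventually.of_forall fun _ => zero_le_one)
      (by simpa using (bal_memLp hf z R s).norm) (memLp_const _)
    simp only [mul_one, Real.rpow_two, one_pow, integral_const, smul_eq_mul,
      measureReal_restrict_apply_univ] at h5
    rw [← Real.sqrt_eq_rpow, ← Real.sqrt_eq_rpow] at h5
    exact h5
  refine hcs.trans ?_
  calc √(∫ w in closedBall z R, ‖f s w‖ ^ 2) * √(volume (closedBall z R)).toReal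
      ≤ √(M * nH f ^ 2) * √V.toReal :=
        mul_le_mul (Real.sqrt_le_sqrt h2) (Real.sqrt_le_sqrt hvol) (Real.sqrt_nonneg _)
          (Real.sqrt_nonneg _)
    _ = √V.toReal * √M * nH f := by
        rw [Real.sqrt_mul (Nat.cast_nonneg _), Real.sqrt_sq hn0]; ring

theorem bal_strip {N : ℕ} {a b : ℝ} (ha : 0 < a) {w : ℍ} (hw : w ∈ strip N) (h1 : a ≤ w.im)
    (h2 : w.im ≤ b) : w ∈ closedBall UpperHalfPlane.I (2 * (1 + ((N : ℝ) ^ 2 + (b + 1) ^ 2) / (2 * a))) := by
  rw [mem_closedBall]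
  have h3 : Real.cosh (dist w UpperHalfPlane.I) ≤ 1 + ((N : ℝ) ^ 2 + (b + 1) ^ 2) / (2 * a) := by
    rw [UpperHalfPlane.cosh_dist]
    have h4 : dist (w : ℂ) (UpperHalfPlane.I : ℍ) ^ 2 = w.re ^ 2 + (w.im - 1) ^ 2 := by
      rw [Complex.dist_eq, ← Complex.normSq_eq_norm_sq, Complex.normSq_apply]
      simp
      ring
    rw [h4, UpperHalfPlane.I_im, mul_one]
    have hw1 : 0 < w.re := hw.1
    have hw2 : w.re ≤ N := hw.2
    have hb : 0 < w.im := w.im_pos
    have h5 : w.re ^ 2 + (w.im - 1) ^ 2 ≤ (N : ℝ) ^ 2 + (b + 1) ^ 2 := by nlinarith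
    have h6 : (w.re ^ 2 + (w.im - 1) ^ 2) / (2 * w.im) ≤ ((N : ℝ) ^ 2 + (b + 1) ^ 2) / (2 * a) :=
      div_le_div₀ (by positivity) h5 (by positivity) (by linarith)
    linarith
  have h7 : dist w UpperHalfPlane.I ≤ 2 * Real.cosh (dist w UpperHalfPlane.I) := by
    rw [Real.cosh_eq]
    have h8 := Real.add_one_le_exp (dist w UpperHalfPlane.I)
    have h9 := Real.exp_pos (-dist w UpperHalfPlane.I)
    linarith
  linarith

theorem strip_int {N : ℕ} [NeZero N] {f : QN N → ℍ → ℂ} (hf : SqH f) {g : ℝ → ℂ} (hg : TG g)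
    (s : QN N) : IntegrableOn (fun w : ℍ => g w.im * f s w) (strip N) := by
  obtain ⟨C, hC⟩ := hg.bdd
  obtain ⟨a, b, ha, hab⟩ := hg.supp
  have h1 := (bal_int hf UpperHalfPlane.I
    (2 * (1 + ((N : ℝ) ^ 2 + (b + 1) ^ 2) / (2 * a))) s).2
  have h2 : IntegrableOn (fun w : ℍ => g w.im * f s w) (closedBall UpperHalfPlane.I
      (2 * (1 + ((N : ℝ) ^ 2 + (b + 1) ^ 2) / (2 * a)))) := by
    apply Integrable.bdd_mul (c := C) h1
    · exact (hg.meas.comp UpperHalfPlane.continuous_im.measurable).aestronglyMeasurable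
    · exact Eventually.of_forall fun w => hC _
  have hms : MeasurableSet (strip N) := by
    have e : strip N = (fun w : ℍ => w.re) ⁻¹' (Set.Ioc 0 (N : ℝ)) := rfl
    rw [e]
    exact UpperHalfPlane.continuous_re.measurable measurableSet_Ioc
  refine h2.of_forall_sdiff_eq_zero hms ?_
  rintro w ⟨hw, hw'⟩
  by_cases h0 : g w.im = 0
  · rw [h0, zero_mul]
  · obtain ⟨h3, h4⟩ := hab _ h0
    exact absurd (bal_strip ha hw h3 h4) hw'

end Pool.Agent.JOS
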