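import Pool.Agent.Lib_helper58.JOSF.DefsT
import Pool.Agent.Lib_helper37.JO.A12
import Pool.Agent.Lib_helper63.JO.Defs2
import Pool.Agent.Lib_helper97.JO.HK

/-! # JO, part S: imports of the second call -/
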