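import Pool.Agent.Lib_helper58.JOSF.CUS

/-! # JO, part S, block CB1: `R_k f` is small in the cusp for cuspidal `f` -/

namespace Pool.Agent.JOS

open Complex MeasureTheory Filter Topology UpperHalfPlane ModularGroup Set Metric
open scoped MatrixGroups Modular ENNReal ComplexConjugate ContDiff
open Pool.Agent.JO (QN red FamH)

/-- the argument of the kernel -/
noncomputable def cb1_c (x y v t : ℝ) : ℝ := 1 + ((x - t) ^ 2 + (y - v) ^ 2) / (2 * y * v)

theorem cb1_kz (k : ℝ → ℝ) (z w : ℍ) : kz k z w = k (cb1_c z.re z.im w.im w.re) := by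
  unfold kz cb1_c
  rw [UpperHalfPlane.cosh_dist, Complex.dist_eq, Complex.sq_norm, Complex.normSq_apply]
  simp only [Complex.sub_re, Complex.sub_im, UpperHalfPlane.coe_re, UpperHalfPlane.coe_im]
  ring_nf

theorem cb1_dc (x y v t : ℝ) : HasDerivAt (fun t => cb1_c x y v t) ((t - x) / (y * v)) t := by
  unfold cb1_c
  have h1 : HasDerivAt (fun t : ℝ => (x - t) ^ 2 + (y - v) ^ 2) (2 * (t - x)) t := by
    refine ((((hasDerivAt_id t).const_sub x).fun_pow 2).add_const ((y - v) ^ 2)).congr_deriv ?_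
    simp
    ring
  refine ((h1.div_const (2 * y * v)).const_add 1).congr_deriv ?_
  rw [mul_assoc, mul_div_mul_left _ _ (two_ne_zero)]

theorem cb1_c_ge {x y v : ℝ} (t : ℝ) (hy : 0 < y) (hv : 0 < v) : 1 ≤ cb1_c x y v t := by
  unfold cb1_c
  have : 0 ≤ ((x - t) ^ 2 + (y - v) ^ 2) / (2 * y * v) := by positivity
  linarith

theorem cb1_c_cont (x y v : ℝ) : Continuous (fun t => cb1_c x y v t) := by
  unfold cb1_c
  fun_prop

/-- support -/
theorem cb1_supp {x y v t R : ℝ} (hy : 0 < y) (hv : 0 < v) (h : cb1_c x y v t ≤ R) :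
    y ≤ 2 * R * v ∧ v ≤ 2 * R * y ∧ |t - x| ≤ √(2 * R * (y * v)) := by
  unfold cb1_c at h
  have hp : 0 < 2 * y * v := by positivity
  have h1 : ((x - t) ^ 2 + (y - v) ^ 2) / (2 * y * v) ≤ R - 1 := by linarith
  rw [div_le_iff₀ hp] at h1
  have h2 : (y - v) ^ 2 ≤ (R - 1) * (2 * y * v) := by nlinarith [sq_nonneg (x - t)]
  refine ⟨?_, ?_, ?_⟩
  · by_contra h3
    push Not at h3
    nlinarith [mul_pos hy hv, mul_pos (sub_pos.2 h3) hy]
  · by_contra h3
    push Not at h3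
    nlinarith [mul_pos hy hv, mul_pos (sub_pos.2 h3) hv]
  · apply Real.abs_le_sqrt
    nlinarith [mul_pos hy hv, sq_nonneg (y - v)]

/-- bounds of a kernel -/
theorem cb1_ker {k : ℝ → ℝ} (hk : TK k) : ∃ R K : ℝ, 1 ≤ R ∧ 0 ≤ K ∧
    (∀ c, R ≤ c → k c = 0 ∧ deriv k c = 0) ∧
    ∀ c, 1 ≤ c → |k c| ≤ K ∧ |deriv k c| ≤ K := by
  obtain ⟨hs, R₀, h0⟩ := hk
  have hd := contDiff_infty_iff_deriv.1 hs
  have h1 : ∀ c, R₀ < c → deriv k c = 0 := by
    intro c hc
    have : k =ᶠ[𝓝 c] fun _ => 0 := by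
      filter_upwards [lt_mem_nhds hc] with x hx using h0 x hx.le
    rw [this.deriv_eq]
    simp
  obtain ⟨K1, hK1⟩ := (isCompact_Icc (a := (1 : ℝ)) (b := max 1 (R₀ + 1))).exists_bound_of_continuousOn
    hs.continuous.continuousOn
  obtain ⟨K2, hK2⟩ := (isCompact_Icc (a := (1 : ℝ)) (b := max 1 (R₀ + 1))).exists_bound_of_continuousOn
    hd.2.continuous.continuousOn
  refine ⟨max 1 (R₀ + 1), max 0 (max K1 K2), le_max_left _ _, le_max_left _ _, ?_, ?_⟩
  · intro c hc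
    have hc' : R₀ < c := by
      have := (le_max_right 1 (R₀ + 1)).trans hc
      linarith
    exact ⟨h0 c hc'.le, h1 c hc'⟩
  · intro c hc
    rcases le_or_gt c (max 1 (R₀ + 1)) with h | h
    · exact ⟨(hK1 c ⟨hc, h⟩).trans (by simp), (hK2 c ⟨hc, h⟩).trans (by simp)⟩
    · have hc' : R₀ < c := by
        have := (le_max_right 1 (R₀ + 1)).trans h.le
        linarith
      rw [h1 c hc', h0 c hc'.le]
      simp

/-- the derivative of the kernel along horizontal lines -/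
noncomputable def cb1_F' (k : ℝ → ℝ) (x y v t : ℝ) : ℝ :=
  deriv k (cb1_c x y v t) * ((t - x) / (y * v))

theorem cb1_dF {k : ℝ → ℝ} (hk : TK k) (x y v t : ℝ) :
    HasDerivAt (fun t => k (cb1_c x y v t)) (cb1_F' k x y v t) t :=
  ((contDiff_infty_iff_deriv.1 hk.smooth).1 _).hasDerivAt.comp t (cb1_dc x y v t)

theorem cb1_F'_cont {k : ℝ → ℝ} (hk : TK k) (x y v : ℝ) : Continuous (cb1_F' k x y v) := by
  have hd := contDiff_infty_iff_deriv.1 hk.smooth
  exact (hd.2.continuous.comp (cb1_c_cont x y v)).mul (by fun_prop)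

/-- total variation of the kernel on horizontal lines -/
theorem cb1_tv {k : ℝ → ℝ} {R K : ℝ} (hR : 1 ≤ R) (hK : 0 ≤ K)
    (h0 : ∀ c, R ≤ c → k c = 0 ∧ deriv k c = 0)
    (h1 : ∀ c, 1 ≤ c → |k c| ≤ K ∧ |deriv k c| ≤ K) {x y v : ℝ} (hy : 0 < y) (hv : 0 < v) :
    ∫⁻ t, ‖cb1_F' k x y v t‖ₑ ≤
      if y ≤ 2 * R * v then ENNReal.ofReal (4 * K * R) else 0 := by
  split_ifs with h
  · set L := √(2 * R * (y * v)) with hL
    have hL0 : 0 ≤ L := Real.sqrt_nonneg _
    have hL2 : L ^ 2 = 2 * R * (y * v) := Real.sq_sqrt (by positivity)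
    have hle : ∀ t, ‖cb1_F' k x y v t‖ₑ ≤
        (Icc (x - L) (x + L)).indicator (fun _ => ENNReal.ofReal (K * (L / (y * v)))) t := by
      intro t
      rcases lt_or_ge R (cb1_c x y v t) with h2 | h2
      · unfold cb1_F'
        rw [(h0 _ h2.le).2, zero_mul, enorm_zero]
        exact bot_le
      · have h3 := (cb1_supp hy hv h2).2.2
        rw [← hL] at h3
        have h4 : t ∈ Icc (x - L) (x + L) := by
          have := abs_le.1 h3
          exact ⟨by linarith [this.1], by linarith [this.2]⟩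
        rw [indicator_of_mem h4, ← ofReal_norm]
        apply ENNReal.ofReal_le_ofReal
        unfold cb1_F'
        rw [norm_mul, Real.norm_eq_abs, Real.norm_eq_abs, abs_div,
          abs_of_pos (mul_pos hy hv)]
        exact mul_le_mul (h1 _ (cb1_c_ge t hy hv)).2 (by gcongr) (by positivity) hK
    refine (lintegral_mono hle).trans ?_
    rw [lintegral_indicator measurableSet_Icc, setLIntegral_const, Real.volume_Icc,
      ← ENNReal.ofReal_mul (by positivity)]
    apply ENNReal.ofReal_le_ofReal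
    apply le_of_eq
    have : K * (L / (y * v)) * (x + L - (x - L)) = 2 * K * (L ^ 2 / (y * v)) := by ring
    rw [this, hL2]
    field_simp
    ring
  · rw [nonpos_iff_eq_zero, ← lintegral_zero (μ := (volume : Measure ℝ))]
    apply lintegral_congr
    intro t
    have h2 : R < cb1_c x y v t := by
      by_contra h2
      exact h (cb1_supp hy hv (not_lt.1 h2)).1
    unfold cb1_F'
    rw [(h0 _ h2.le).2, zero_mul, enorm_zero]

/-- a function is near its mean value -/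
theorem cb1_mean {F F' : ℝ → ℝ} {a b u : ℝ} (hab : a < b) (hu : u ∈ Icc a b)
    (h1 : ∀ t, HasDerivAt F (F' t) t) (h2 : Continuous F') :
    ‖F u - (b - a)⁻¹ * ∫ t in Ioc a b, F t‖ₑ ≤ ∫⁻ t in Ioc a b, ‖F' t‖ₑ := by
  have hba : 0 < b - a := sub_pos.2 hab
  have hi : IntegrableOn F' (Ioc a b) := (h2.integrableOn_Icc).mono_set Ioc_subset_Icc_self
  have hF : Continuous F := continuous_iff_continuousAt.2 fun t => (h1 t).continuousAt
  have hFi : IntegrableOn F (Ioc a b) := (hF.integrableOn_Icc).mono_set Ioc_subset_Icc_self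
  have hkey : ∀ t ∈ Ioc a b, ‖F u - F t‖ ≤ ∫ t in Ioc a b, ‖F' t‖ := by
    intro t ht
    rw [← intervalIntegral.integral_eq_sub_of_hasDerivAt (fun x _ => h1 x)
      (h2.intervalIntegrable t u)]
    refine (intervalIntegral.norm_integral_le_integral_norm_uIoc).trans ?_
    apply setIntegral_mono_set hi.norm (Eventually.of_forall fun _ => norm_nonneg _)
    apply LE.le.eventuallyLE
    rw [uIoc]
    apply Ioc_subset_Ioc
    · exact le_min ht.1.le hu.1
    · exact max_le ht.2 hu.2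
  have e : F u - (b - a)⁻¹ * ∫ t in Ioc a b, F t =
      (b - a)⁻¹ * ∫ t in Ioc a b, (F u - F t) := by
    have hc : Integrable (fun _ : ℝ => F u) (volume.restrict (Ioc a b)) :=
      integrableOn_const (by simp)
    rw [integral_sub hc hFi, setIntegral_const, measureReal_def,
      Real.volume_Ioc, ENNReal.toReal_ofReal hba.le, smul_eq_mul]
    field_simp
  rw [e, ← ofReal_integral_norm_eq_lintegral_enorm hi, ← ofReal_norm]
  apply ENNReal.ofReal_le_ofReal
  rw [norm_mul, norm_inv, Real.norm_of_nonneg hba.le, inv_mul_le_iff₀ hba]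
  refine (norm_setIntegral_le_of_norm_le_const (by simp) hkey).trans ?_
  rw [measureReal_def, Real.volume_Ioc, ENNReal.toReal_ofReal hba.le, mul_comm]

/-! ### Translations -/

theorem cb1_red (N : ℕ) (n : ℤ) : red N (ModularGroup.T ^ (n * N)) = 1 := by
  unfold red
  ext i j
  rw [Matrix.SpecialLinearGroup.map_apply_coe, RingHom.mapMatrix_apply, Matrix.map_apply,
    ModularGroup.coe_T_zpow]
  fin_cases i <;> fin_cases j <;> simp

theorem cb1_per {N : ℕ} {f : QN N → ℍ → ℂ} (hf : FamH f) (n : ℤ) (s : QN N) (w : ℍ) :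
    f s (ModularGroup.T ^ (n * N) • w) = f s w := by
  have := hf (ModularGroup.T ^ (n * N)) s w
  rwa [cb1_red, one_mul] at this

/-- the translated strips -/
def cb1_S (N : ℕ) (n : ℤ) : Set ℍ := {w : ℍ | (n : ℝ) * N < w.re ∧ w.re ≤ ((n : ℝ) + 1) * N}

theorem cb1_S_meas (N : ℕ) (n : ℤ) : MeasurableSet (cb1_S N n) :=
  (measurableSet_lt measurable_const UpperHalfPlane.continuous_re.measurable).inter
    (measurableSet_le UpperHalfPlane.continuous_re.measurable measurable_const)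

theorem cb1_strip_meas (N : ℕ) : MeasurableSet (strip N) :=
  (measurableSet_lt measurable_const UpperHalfPlane.continuous_re.measurable).inter
    (measurableSet_le UpperHalfPlane.continuous_re.measurable measurable_const)

theorem cb1_pre (N : ℕ) (n : ℤ) :
    (fun w : ℍ => ModularGroup.T ^ (n * N) • w) ⁻¹' (cb1_S N n) = strip N := by
  ext w
  simp only [mem_preimage, cb1_S, strip, mem_ofPred_eq, ModularGroup.re_T_zpow_smul]
  push_cast
  constructor
  · rintro ⟨h1, h2⟩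
    exact ⟨by linarith, by linarith⟩
  · rintro ⟨h1, h2⟩
    exact ⟨by linarith, by linarith⟩

theorem cb1_ex (N : ℕ) [NeZero N] (x : ℝ) : ∃ n : ℤ, (n : ℝ) * N < x ∧ x ≤ ((n : ℝ) + 1) * N := by
  have hN : (0 : ℝ) < N := Nat.cast_pos.2 (NeZero.pos N)
  refine ⟨⌈x / N⌉ - 1, ?_, ?_⟩
  · push_cast
    rw [← lt_div_iff₀ hN]
    linarith [Int.ceil_lt_add_one (x / N)]
  · push_cast
    rw [← div_le_iff₀ hN]
    linarith [Int.le_ceil (x / N)]

theorem cb1_disj {N : ℕ} [NeZero N] {x : ℝ} {m n : ℤ} (h1 : (m : ℝ) * N < x) (h2 : x ≤ ((m : ℝ) + 1) * N)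
    (h3 : (n : ℝ) * N < x) (h4 : x ≤ ((n : ℝ) + 1) * N) : m = n := by
  have hN : (0 : ℝ) < N := Nat.cast_pos.2 (NeZero.pos N)
  have h5 : (m : ℝ) < n + 1 := lt_of_mul_lt_mul_right (h1.trans_le h4) hN.le
  have h6 : (n : ℝ) < m + 1 := lt_of_mul_lt_mul_right (h3.trans_le h2) hN.le
  have h5' : m < n + 1 := by exact_mod_cast h5
  have h6' : n < m + 1 := by exact_mod_cast h6
  omega

/-- decomposition into strips -/
theorem cb1_sum {N : ℕ} [NeZero N] {Φ : ℍ → ℂ} (h : Integrable Φ) :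
    HasSum (fun n : ℤ => ∫ w in strip N, Φ (ModularGroup.T ^ (n * N) • w)) (∫ w, Φ w) := by
  have hU : (⋃ n : ℤ, cb1_S N n) = univ := by
    rw [iUnion_eq_univ_iff]
    intro w
    exact cb1_ex N w.re
  have hd : Pairwise (Function.onFun Disjoint (cb1_S N)) := by
    intro m n hmn
    rw [Function.onFun, Set.disjoint_left]
    intro w h1 h2
    exact hmn (cb1_disj h1.1 h1.2 h2.1 h2.2)
  have h1 := hasSum_integral_iUnion (μ := (volume : Measure ℍ)) (f := Φ)
    (fun n : ℤ => cb1_S_meas N n) hd h.integrableOn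
  rw [hU, setIntegral_univ] at h1
  have e : (fun n : ℤ => ∫ w in strip N, Φ (ModularGroup.T ^ (n * N) • w)) =
      fun n : ℤ => ∫ w in cb1_S N n, Φ w := by
    funext n
    rw [← (mp_smul (ModularGroup.T ^ (n * N))).setIntegral_preimage_emb (emb_smul _) Φ, cb1_pre]
  rw [e]
  exact h1

/-- decomposition of the line -/
theorem cb1_lsum (N : ℕ) [NeZero N] (φ : ℝ → ℝ≥0∞) :
    ∑' n : ℤ, ∫⁻ t in Ioc ((n : ℝ) * N) (((n : ℝ) + 1) * N), φ t = ∫⁻ t, φ t := by
  rw [← lintegral_iUnion (fun n : ℤ => measurableSet_Ioc)]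
  · have hU : (⋃ n : ℤ, Ioc ((n : ℝ) * N) (((n : ℝ) + 1) * N)) = univ := by
      rw [iUnion_eq_univ_iff]
      intro x
      exact cb1_ex N x
    rw [hU, Measure.restrict_univ]
  · intro m n hmn
    rw [Function.onFun, Set.disjoint_left]
    intro w h1 h2
    exact hmn (cb1_disj h1.1 h1.2 h2.1 h2.2)

/-! ### The mean values of the kernel -/

theorem cb1_meas {k : ℝ → ℝ} (hk : TK k) (x y : ℝ) :
    Measurable (fun p : ℝ × ℝ => k (cb1_c x y p.1 p.2)) := by
  apply hk.smooth.continuous.measurable.comp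
  unfold cb1_c
  fun_prop

theorem cb1_meas' {k : ℝ → ℝ} (hk : TK k) (x y : ℝ) :
    Measurable (fun p : ℝ × ℝ => ‖cb1_F' k x y p.1 p.2‖ₑ) := by
  have hd := contDiff_infty_iff_deriv.1 hk.smooth
  unfold cb1_F'
  apply Measurable.enorm
  apply Measurable.mul
  · apply hd.2.continuous.measurable.comp
    unfold cb1_c
    fun_prop
  · fun_prop

/-- the mean value of the kernel over the translates of the strip -/
noncomputable def cb1_g (k : ℝ → ℝ) (R : ℝ) (N : ℕ) (x y : ℝ) (n : ℤ) (v : ℝ) : ℂ :=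
  {v : ℝ | y ≤ 2 * R * v ∧ v ≤ 2 * R * y}.indicator
    (fun v => (((N : ℝ)⁻¹ * ∫ t in Ioc ((n : ℝ) * N) (((n : ℝ) + 1) * N), k (cb1_c x y v t) : ℝ) : ℂ))
    v

theorem cb1_TG {k : ℝ → ℝ} (hk : TK k) {R K : ℝ} (hR : 1 ≤ R) (hK : 0 ≤ K)
    (h1 : ∀ c, 1 ≤ c → |k c| ≤ K ∧ |deriv k c| ≤ K) (N : ℕ) [NeZero N] (x : ℝ) {y : ℝ} (hy : 0 < y)
    (n : ℤ) : TG (cb1_g k R N x y n) := by
  have hN : (0 : ℝ) < N := Nat.cast_pos.2 (NeZero.pos N)
  refine ⟨?_, ⟨K, ?_⟩, ⟨y / (2 * R), 2 * R * y, by positivity, ?_⟩⟩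
  · unfold cb1_g
    apply Measurable.indicator
    · apply Complex.measurable_ofReal.comp
      apply Measurable.const_mul
      exact ((cb1_meas hk x y).stronglyMeasurable.integral_prod_right).measurable
    · exact (measurableSet_le measurable_const (measurable_id.const_mul (2 * R))).inter
        (measurableSet_le measurable_id measurable_const)
  · intro v
    unfold cb1_g
    by_cases hv : v ∈ {v : ℝ | y ≤ 2 * R * v ∧ v ≤ 2 * R * y}
    · rw [indicator_of_mem hv, Complex.norm_real, norm_mul, norm_inv, Real.norm_of_nonneg hN.le,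
        inv_mul_le_iff₀ hN]
      have hv0 : 0 < v := by
        by_contra h
        have h2 : 2 * R * v ≤ 0 := mul_nonpos_of_nonneg_of_nonpos (by positivity) (not_lt.1 h)
        linarith [hv.1]
      refine (norm_setIntegral_le_of_norm_le_const (C := K) (by simp)
        (fun t _ => (h1 _ (cb1_c_ge t hy hv0)).1)).trans ?_
      rw [measureReal_def, Real.volume_Ioc, ENNReal.toReal_ofReal (by nlinarith)]
      apply le_of_eq
      ring
    · rw [indicator_of_notMem hv, norm_zero]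
      exact hK
  · intro v hv
    unfold cb1_g at hv
    have := mem_of_indicator_ne_zero hv
    refine ⟨?_, this.2⟩
    rw [div_le_iff₀ (by positivity)]
    linarith [this.1]

/-- the value for positive heights -/
theorem cb1_g_eq {k : ℝ → ℝ} {R : ℝ}
    (h0 : ∀ c, R ≤ c → k c = 0 ∧ deriv k c = 0) (N : ℕ) (x : ℝ) {y v : ℝ} (hy : 0 < y) (hv : 0 < v)
    (n : ℤ) : cb1_g k R N x y n v =
      (((N : ℝ)⁻¹ * ∫ t in Ioc ((n : ℝ) * N) (((n : ℝ) + 1) * N), k (cb1_c x y v t) : ℝ) : ℂ) := by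
  unfold cb1_g
  by_cases h : v ∈ {v : ℝ | y ≤ 2 * R * v ∧ v ≤ 2 * R * y}
  · rw [indicator_of_mem h]
  · rw [indicator_of_notMem h]
    have e : ∀ t, k (cb1_c x y v t) = 0 := by
      intro t
      have h2 : R < cb1_c x y v t := by
        by_contra h2
        exact h ⟨(cb1_supp hy hv (not_lt.1 h2)).1, (cb1_supp hy hv (not_lt.1 h2)).2.1⟩
      exact (h0 _ h2.le).1
    simp only [e, integral_zero, mul_zero, Complex.ofReal_zero]

/-- one strip -/
theorem cb1_one {k : ℝ → ℝ} (hk : TK k) {R K : ℝ} (hR : 1 ≤ R) (hK : 0 ≤ K)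
    (h0 : ∀ c, R ≤ c → k c = 0 ∧ deriv k c = 0)
    (h1 : ∀ c, 1 ≤ c → |k c| ≤ K ∧ |deriv k c| ≤ K) {N : ℕ} [NeZero N] {f : QN N → ℍ → ℂ}
    (hf : SqH f) (hc : CuspH f) (s : QN N) (z : ℍ) (n : ℤ) :
    ‖∫ w in strip N, (kz k z (ModularGroup.T ^ (n * N) • w) : ℂ) *
        f s (ModularGroup.T ^ (n * N) • w)‖ₑ ≤
      ∫⁻ w in strip N, (∫⁻ t in Ioc ((n : ℝ) * N) (((n : ℝ) + 1) * N),
        ‖cb1_F' k z.re z.im w.im t‖ₑ) * ‖f s w‖ₑ := by
  have hN : (0 : ℝ) < N := Nat.cast_pos.2 (NeZero.pos N)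
  have hi1 : IntegrableOn (fun w => (kz k z (ModularGroup.T ^ (n * N) • w) : ℂ) *
      f s (ModularGroup.T ^ (n * N) • w)) (strip N) := by
    have h2 := (rr_int hk hf s z).integrableOn (s := cb1_S N n)
    have h3 := ((mp_smul (ModularGroup.T ^ (n * N))).restrict_preimage_emb (emb_smul _)
      (cb1_S N n)).integrable_comp_emb (emb_smul _) (g := fun w => (kz k z w : ℂ) * f s w)
    rw [cb1_pre] at h3
    exact h3.2 h2
  have hg := cb1_TG hk hR hK h1 N z.re z.im_pos n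
  have hi2 := strip_int hf hg s
  have e : ∫ w in strip N, (kz k z (ModularGroup.T ^ (n * N) • w) : ℂ) *
        f s (ModularGroup.T ^ (n * N) • w) =
      ∫ w in strip N, ((kz k z (ModularGroup.T ^ (n * N) • w) : ℂ) *
        f s (ModularGroup.T ^ (n * N) • w) - cb1_g k R N z.re z.im n w.im * f s w) := by
    rw [integral_sub hi1 hi2, hc s _ hg, sub_zero]
  rw [e]
  refine (enorm_integral_le_lintegral_enorm _).trans ?_
  apply setLIntegral_mono' (cb1_strip_meas N)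
  intro w hw
  rw [cb1_per hf.fam, ← sub_mul, enorm_mul]
  gcongr
  rw [cb1_kz, ModularGroup.im_T_zpow_smul, ModularGroup.re_T_zpow_smul,
    cb1_g_eq h0 N z.re z.im_pos w.im_pos n, ← Complex.ofReal_sub]
  have h4 := cb1_mean (F := fun t => k (cb1_c z.re z.im w.im t)) (a := (n : ℝ) * N)
    (b := ((n : ℝ) + 1) * N) (u := w.re + ((n * N : ℤ) : ℝ)) (by nlinarith) (by
      push_cast
      exact ⟨by linarith [hw.1], by linarith [hw.2]⟩) (cb1_dF hk z.re z.im w.im)
    (cb1_F'_cont hk z.re z.im w.im)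
  have e2 : ((n : ℝ) + 1) * N - (n : ℝ) * N = N := by ring
  rw [e2] at h4
  refine le_trans (le_of_eq ?_) h4
  rw [← ofReal_norm, ← ofReal_norm, Complex.norm_real]

/-- sum over the strips -/
theorem cb1_all {k : ℝ → ℝ} (hk : TK k) {R K : ℝ} (hR : 1 ≤ R) (hK : 0 ≤ K)
    (h0 : ∀ c, R ≤ c → k c = 0 ∧ deriv k c = 0)
    (h1 : ∀ c, 1 ≤ c → |k c| ≤ K ∧ |deriv k c| ≤ K) {N : ℕ} [NeZero N] {f : QN N → ℍ → ℂ}
    (hf : SqH f) (hc : CuspH f) (s : QN N) (z : ℍ) :
    ‖RR k (f s) z‖ₑ ≤ ENNReal.ofReal (4 * K * R) *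
      ∫⁻ w in strip N ∩ {w | z.im ≤ 2 * R * w.im}, ‖f s w‖ₑ := by
  have h2 := cb1_sum (N := N) (rr_int hk hf s z)
  unfold RR
  rw [← h2.tsum_eq]
  refine enorm_tsum_le_tsum_enorm.trans ?_
  refine (ENNReal.tsum_le_tsum fun n => cb1_one hk hR hK h0 h1 hf hc s z n).trans ?_
  have hmw : ∀ n : ℤ, Measurable (fun w : ℍ => ∫⁻ t in Ioc ((n : ℝ) * N) (((n : ℝ) + 1) * N),
        ‖cb1_F' k z.re z.im w.im t‖ₑ) := by
    intro n
    exact ((cb1_meas' hk z.re z.im).lintegral_prod_right').comp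
      UpperHalfPlane.continuous_im.measurable
  rw [← lintegral_tsum (f := fun (n : ℤ) (w : ℍ) =>
    (∫⁻ t in Ioc ((n : ℝ) * N) (((n : ℝ) + 1) * N), ‖cb1_F' k z.re z.im w.im t‖ₑ) * ‖f s w‖ₑ)
    (fun n => ((hmw n).mul (hf.meas s).enorm).aemeasurable)]
  have hms : MeasurableSet {w : ℍ | z.im ≤ 2 * R * w.im} :=
    measurableSet_le measurable_const
      (UpperHalfPlane.continuous_im.measurable.const_mul (2 * R))
  rw [← lintegral_const_mul _ (hf.meas s).enorm, inter_comm, ← Measure.restrict_restrict hms,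
    ← lintegral_indicator hms]
  apply lintegral_mono
  intro w
  beta_reduce
  rw [ENNReal.tsum_mul_right, cb1_lsum]
  have h3 := cb1_tv hR hK h0 h1 (x := z.re) z.im_pos w.im_pos
  split_ifs at h3 with h4
  · rw [indicator_of_mem (by exact h4)]
    gcongr
  · rw [nonpos_iff_eq_zero] at h3
    rw [h3, zero_mul]
    exact bot_le

/-! ### Cauchy–Schwarz and the fundamental domain -/

/-- the volume of the upper part of the strip -/
theorem cb1_vol (N : ℕ) {a : ℝ} (ha : 0 < a) :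
    volume (strip N ∩ {w : ℍ | a ≤ w.im}) ≤ ENNReal.ofReal (N / a) := by
  have hms : MeasurableSet (strip N ∩ {w : ℍ | a ≤ w.im}) :=
    (cb1_strip_meas N).inter (measurableSet_le measurable_const
      UpperHalfPlane.continuous_im.measurable)
  have e1 : volume (strip N ∩ {w : ℍ | a ≤ w.im}) =
      ∫⁻ w : ℍ, (fun z : ℂ => ({z : ℂ | (0 < z.re ∧ z.re ≤ N) ∧ a ≤ z.im}.indicator
        (fun _ => (1 : ℝ≥0∞)) z)) (w : ℂ) := by
    rw [← lintegral_indicator_one hms]
    apply lintegral_congr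
    intro w
    rfl
  rw [e1, lint_H, ← lintegral_indicator (measurableSet_lt measurable_const Complex.measurable_im),
    (Complex.volume_preserving_equiv_real_prod.symm).lintegral_map_equiv]
  have h2 : ∀ p : ℝ × ℝ, {z : ℂ | 0 < z.im}.indicator
      (fun z : ℂ => ({z : ℂ | (0 < z.re ∧ z.re ≤ N) ∧ a ≤ z.im}.indicator
        (fun _ => (1 : ℝ≥0∞)) z) * ENNReal.ofReal (1 / z.im ^ 2))
        (Complex.measurableEquivRealProd.symm p) ≤
      (Set.Ioc (0 : ℝ) N).indicator (fun _ => (1 : ℝ≥0∞)) p.1 *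
      (Set.Ici a).indicator (fun y => ENNReal.ofReal (1 / y ^ 2)) p.2 := by
    rintro ⟨x, y⟩
    have e : Complex.measurableEquivRealProd.symm (x, y) = (⟨x, y⟩ : ℂ) := rfl
    rw [e]
    by_cases h3 : (⟨x, y⟩ : ℂ) ∈ {z : ℂ | (0 < z.re ∧ z.re ≤ N) ∧ a ≤ z.im}
    · have h4 : x ∈ Ioc (0 : ℝ) N := h3.1
      have h5 : y ∈ Ici a := h3.2
      have h6 : (⟨x, y⟩ : ℂ) ∈ {z : ℂ | 0 < z.im} := ha.trans_le h3.2
      rw [indicator_of_mem h6, indicator_of_mem h3, indicator_of_mem h4, indicator_of_mem h5]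
    · rw [show {z : ℂ | 0 < z.im}.indicator
        (fun z : ℂ => ({z : ℂ | (0 < z.re ∧ z.re ≤ N) ∧ a ≤ z.im}.indicator
        (fun _ => (1 : ℝ≥0∞)) z) * ENNReal.ofReal (1 / z.im ^ 2)) (⟨x, y⟩ : ℂ) = 0 by
          rw [indicator_apply]
          split_ifs
          · rw [indicator_of_notMem h3, zero_mul]
          · rfl]
      exact bot_le
  refine (lintegral_mono h2).trans ?_
  rw [Measure.volume_eq_prod, lintegral_prod_mul
    (measurable_const.indicator measurableSet_Ioc).aemeasurable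
    ((by fun_prop : Measurable (fun y : ℝ => ENNReal.ofReal (1 / y ^ 2))).indicator
      measurableSet_Ici).aemeasurable, lintegral_indicator measurableSet_Ioc,
    lintegral_indicator measurableSet_Ici, setLIntegral_one, Real.volume_Ioc, sub_zero,
    div_eq_mul_inv (N : ℝ), ENNReal.ofReal_mul (Nat.cast_nonneg N)]
  gcongr
  have h3 : IntegrableOn (fun y : ℝ => y ^ (-2 : ℝ)) (Set.Ioi a) :=
    integrableOn_Ioi_rpow_of_lt (by norm_num) ha
  have h5 : ∀ y ∈ Ioi a, 1 / y ^ 2 = y ^ (-2 : ℝ) := by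
    intro y hy
    have hy0 : (0 : ℝ) < y := lt_trans ha hy
    rw [Real.rpow_neg hy0.le, one_div]
    norm_cast
  have h4 : IntegrableOn (fun y : ℝ => 1 / y ^ 2) (Set.Ioi a) :=
    h3.congr_fun (fun y hy => (h5 y hy).symm) measurableSet_Ioi
  rw [setLIntegral_congr Ioi_ae_eq_Ici.symm, ← ofReal_integral_eq_lintegral_ofReal h4
    (Eventually.of_forall fun y => by positivity)]
  apply ENNReal.ofReal_le_ofReal
  rw [setIntegral_congr_fun measurableSet_Ioi h5, integral_Ioi_rpow_of_lt (by norm_num) ha]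
  apply le_of_eq
  norm_num
  rw [Real.rpow_neg_one]

/-- the strip above height one is covered by translates of the fundamental domain -/
theorem cb1_cov {N : ℕ} [NeZero N] {f : QN N → ℍ → ℂ} (hf : SqH f) (s : QN N) :
    ∫⁻ w in strip N ∩ {w : ℍ | 1 ≤ w.im}, ‖f s w‖ₑ ^ (2 : ℝ) ≤
      ENNReal.ofReal (((N : ℝ) + 1) * nH f ^ 2) := by
  set A : Fin (N + 1) → Set ℍ := fun m =>
    (fun w : ℍ => ModularGroup.T ^ (-((m : ℕ) : ℤ)) • w) ⁻¹' (𝒟 : Set ℍ) with hA
  have hsub : strip N ∩ {w : ℍ | 1 ≤ w.im} ⊆ ⋃ m, A m := by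
    rintro w ⟨⟨h1, h2⟩, h3⟩
    have h3' : 1 ≤ w.im := h3
    have h4 : 0 ≤ round w.re := by
      rw [round_eq]
      exact Int.floor_nonneg.2 (by linarith)
    have h5 : round w.re < N + 1 := by
      rw [round_eq, Int.floor_lt]
      push_cast
      linarith
    obtain ⟨m, hm⟩ := Int.eq_ofNat_of_zero_le h4
    have hm' : m < N + 1 := by omega
    refine mem_iUnion.2 ⟨⟨m, hm'⟩, ?_⟩
    have h6 : |w.re - m| ≤ 1 / 2 := by
      have := abs_sub_round w.re
      rw [hm] at this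
      exact_mod_cast this
    show ModularGroup.T ^ (-(m : ℤ)) • w ∈ (𝒟 : Set ℍ)
    constructor
    · rw [Complex.normSq_apply]
      have e1 : ((ModularGroup.T ^ (-(m : ℤ)) • w : ℍ) : ℂ).im = w.im :=
        ModularGroup.im_T_zpow_smul w _
      rw [e1]
      nlinarith [mul_self_nonneg ((ModularGroup.T ^ (-(m : ℤ)) • w : ℍ) : ℂ).re]
    · rw [ModularGroup.re_T_zpow_smul]
      push_cast
      rw [← sub_eq_add_neg]
      exact h6
  have hone : ∀ s' : QN N, ∫⁻ w in (𝒟 : Set ℍ), ‖f s' w‖ₑ ^ (2 : ℝ) ≤ ENNReal.ofReal (nH f ^ 2) := by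
    intro s'
    have h1 : ∫⁻ w in (𝒟 : Set ℍ), ‖f s' w‖ₑ ^ (2 : ℝ) ≤
        ∫⁻ w in (𝒟ᵒ : Set ℍ), ‖f s' w‖ₑ ^ (2 : ℝ) := by
      have h2 : (𝒟 : Set ℍ) ⊆ 𝒟ᵒ ∪ (𝒟 \ 𝒟ᵒ) := by
        intro w hw
        by_cases h : w ∈ (𝒟ᵒ : Set ℍ)
        · exact Or.inl h
        · exact Or.inr ⟨hw, h⟩
      refine (lintegral_mono_set h2).trans ((lintegral_union_le _ _ _).trans ?_)
      rw [setLIntegral_measure_zero _ _ null_frontier, add_zero]
    refine h1.trans ?_
    have h3 : ∫⁻ w in (𝒟ᵒ : Set ℍ), ‖f s' w‖ₑ ^ (2 : ℝ) =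
        ENNReal.ofReal (∫ w in (𝒟ᵒ : Set ℍ), ‖f s' w‖ ^ 2) := by
      rw [ofReal_integral_eq_lintegral_ofReal (hf.sq s') (Eventually.of_forall fun w => by positivity)]
      apply lintegral_congr
      intro w
      rw [← ofReal_norm, ENNReal.ofReal_rpow_of_nonneg (norm_nonneg _) (by norm_num)]
      norm_num
    rw [h3]
    apply ENNReal.ofReal_le_ofReal
    unfold nH
    rw [Real.sq_sqrt (Finset.sum_nonneg fun s _ => integral_nonneg fun w => by positivity)]
    exact Finset.single_le_sum (f := fun s : QN N => ∫ w in (𝒟ᵒ : Set ℍ), ‖f s w‖ ^ 2)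
      (fun s _ => integral_nonneg fun w => by positivity) (Finset.mem_univ s')
  have htr : ∀ m : Fin (N + 1), ∫⁻ w in A m, ‖f s w‖ₑ ^ (2 : ℝ) ≤ ENNReal.ofReal (nH f ^ 2) := by
    intro m
    refine le_trans (le_of_eq ?_) (hone (red N (ModularGroup.T ^ (-((m : ℕ) : ℤ))) * s))
    rw [← (mp_smul (ModularGroup.T ^ (-((m : ℕ) : ℤ)))).setLIntegral_comp_preimage_emb (emb_smul _)
      (fun w => ‖f (red N (ModularGroup.T ^ (-((m : ℕ) : ℤ))) * s) w‖ₑ ^ (2 : ℝ))]
    apply lintegral_congr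
    intro w
    rw [hf.fam]
  refine (lintegral_mono_set hsub).trans ((lintegral_iUnion_le _ _).trans ?_)
  rw [tsum_fintype]
  refine (Finset.sum_le_sum fun m _ => htr m).trans ?_
  rw [Finset.sum_const, Finset.card_univ, Fintype.card_fin, nsmul_eq_mul,
    ENNReal.ofReal_mul (by positivity)]
  gcongr
  rw [ENNReal.ofReal_add (by positivity) (by positivity)]
  simp

/-- CB1: in the cusp, `R_k f` is small for cuspidal `f` -/
theorem cb1 {k : ℝ → ℝ} (hk : TK k) (N : ℕ) [NeZero N] : ∃ C Y : ℝ, 0 ≤ C ∧ 1 ≤ Y ∧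
    ∀ f : QN N → ℍ → ℂ, SqH f → CuspH f → ∀ (s : QN N) (z : ℍ), Y ≤ z.im →
      ‖RR k (f s) z‖ * √z.im ≤ C * nH f := by
  obtain ⟨R, K, hR, hK, h0, h1⟩ := cb1_ker hk
  have hN : (0 : ℝ) < N := Nat.cast_pos.2 (NeZero.pos N)
  refine ⟨4 * K * R * √(N * (2 * R)) * √((N : ℝ) + 1), 2 * R, by positivity, by linarith, ?_⟩
  intro f hf hc s z hz
  have hy : 0 < z.im := z.im_pos
  have hnH : 0 ≤ nH f := Real.sqrt_nonneg _
  have h2 := cb1_all hk hR hK h0 h1 hf hc s z
  set S := strip N ∩ {w : ℍ | z.im ≤ 2 * R * w.im} with hS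
  have hSa : S ⊆ strip N ∩ {w : ℍ | 1 ≤ w.im} := by
    rintro w ⟨hw1, hw2⟩
    refine ⟨hw1, ?_⟩
    have h3 : z.im ≤ 2 * R * w.im := hw2
    show 1 ≤ w.im
    have h4 : 2 * R * 1 ≤ 2 * R * w.im := by linarith
    exact le_of_mul_le_mul_left h4 (by positivity)
  have hSb : S ⊆ strip N ∩ {w : ℍ | z.im / (2 * R) ≤ w.im} := by
    rintro w ⟨hw1, hw2⟩
    refine ⟨hw1, ?_⟩
    have h3 : z.im ≤ 2 * R * w.im := hw2
    show z.im / (2 * R) ≤ w.im
    rw [div_le_iff₀ (by positivity)]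
    linarith
  have h3 : ∫⁻ w in S, ‖f s w‖ₑ ≤ ENNReal.ofReal (√(N * (2 * R) / z.im) *
      √(((N : ℝ) + 1) * nH f ^ 2)) := by
    have h4 := ENNReal.lintegral_mul_le_Lp_mul_Lq ((volume : Measure ℍ).restrict S)
      Real.HolderConjugate.two_two (f := fun _ => 1) (g := fun w => ‖f s w‖ₑ)
      aemeasurable_const (hf.meas s).enorm.aemeasurable
    have e1 : ∫⁻ w in S, ‖f s w‖ₑ =
        ∫⁻ w in S, ((fun _ : ℍ => (1 : ℝ≥0∞)) * fun w : ℍ => ‖f s w‖ₑ) w := by
      apply lintegral_congr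
      intro w
      simp
    rw [e1]
    refine h4.trans ?_
    rw [ENNReal.ofReal_mul (by positivity), Real.sqrt_eq_rpow, Real.sqrt_eq_rpow,
      ← ENNReal.ofReal_rpow_of_nonneg (by positivity) (by norm_num),
      ← ENNReal.ofReal_rpow_of_nonneg (by positivity) (by norm_num)]
    gcongr
    · simp only [ENNReal.one_rpow]
      rw [setLIntegral_one]
      refine (measure_mono hSb).trans ((cb1_vol N (by positivity)).trans ?_)
      apply ENNReal.ofReal_le_ofReal
      apply le_of_eq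
      rw [div_div_eq_mul_div]
    · exact (lintegral_mono_set hSa).trans (cb1_cov hf s)
  have h5 : ‖RR k (f s) z‖ₑ ≤ ENNReal.ofReal (4 * K * R * (√(N * (2 * R) / z.im) *
      √(((N : ℝ) + 1) * nH f ^ 2))) := by
    refine h2.trans ?_
    rw [ENNReal.ofReal_mul (p := 4 * K * R) (by positivity)]
    gcongr
  rw [← ofReal_norm, ENNReal.ofReal_le_ofReal_iff (by positivity)] at h5
  calc ‖RR k (f s) z‖ * √z.im ≤ 4 * K * R * (√(N * (2 * R) / z.im) *
      √(((N : ℝ) + 1) * nH f ^ 2)) * √z.im := by gcongr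
    _ = 4 * K * R * √(N * (2 * R)) * √((N : ℝ) + 1) * nH f := by
      rw [Real.sqrt_div (by positivity), Real.sqrt_mul (by positivity : (0 : ℝ) ≤ (N : ℝ) + 1),
        Real.sqrt_sq hnH]
      have : √z.im ≠ 0 := (Real.sqrt_pos.2 hy).ne'
      field_simp

end Pool.Agent.JOS
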