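import Pool.Agent.Lib_helper58.JOSF.CB1

/-! Block CB2: the bound of `R_k f` everywhere and along rays (helper12). -/

namespace Pool.Agent.JOS

open Complex MeasureTheory Filter Topology UpperHalfPlane ModularGroup Set Metric
open scoped MatrixGroups Modular ENNReal ComplexConjugate ContDiff
open Pool.Agent.JO (QN red FamH)

theorem cb2_kbd {k : ℝ → ℝ} (hk : TK k) : ∃ K R : ℝ, 0 ≤ K ∧ (∀ c, 1 ≤ c → |k c| ≤ K) ∧
    ∀ c, R ≤ c → k c = 0 := by
  obtain ⟨R, hR⟩ := hk.supp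
  have hcont : ContinuousOn k (Icc 1 R) := hk.smooth.continuous.continuousOn
  obtain ⟨K, hK⟩ := isCompact_Icc.exists_bound_of_continuousOn hcont
  refine ⟨max K 0, R, le_max_right _ _, fun c hc => ?_, hR⟩
  by_cases h : c ≤ R
  · exact (hK c ⟨hc, h⟩).trans (le_max_left _ _)
  · rw [hR c (not_le.1 h).le, abs_zero]
    exact le_max_right _ _

theorem cb2_ball {k : ℝ → ℝ} {K R : ℝ} (hK : ∀ c, 1 ≤ c → |k c| ≤ K)
    (hR : ∀ c, R ≤ c → k c = 0) (F : ℍ → ℂ) (z : ℍ)
    (hF : IntegrableOn F (closedBall z R)) :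
    ‖RR k F z‖ ≤ K * ∫ w in closedBall z R, ‖F w‖ := by
  unfold RR
  have h0 : ∀ w : ℍ, w ∉ closedBall z R → (kz k z w : ℂ) * F w = 0 := by
    intro w hw
    rw [mem_closedBall, not_le, dist_comm] at hw
    have h1 : R ≤ Real.cosh (dist z w) := by
      have h2 : dist z w ≤ Real.sinh (dist z w) := Real.self_le_sinh_iff.2 dist_nonneg
      have h3 := Real.sinh_lt_cosh (dist z w)
      linarith
    have h4 : kz k z w = 0 := hR _ h1
    rw [h4]
    simp
  rw [← setIntegral_eq_integral_of_forall_compl_eq_zero h0]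
  refine (norm_integral_le_integral_norm _).trans ?_
  rw [← integral_const_mul]
  refine integral_mono_of_nonneg (Eventually.of_forall fun w => norm_nonneg _)
    (hF.norm.const_mul K) (Eventually.of_forall fun w => ?_)
  show ‖(kz k z w : ℂ) * F w‖ ≤ K * ‖F w‖
  rw [norm_mul, Complex.norm_real, Real.norm_eq_abs]
  exact mul_le_mul_of_nonneg_right (hK _ (Real.one_le_cosh _)) (norm_nonneg _)

theorem cb2_nH {N : ℕ} [NeZero N] (f : QN N → ℍ → ℂ) : 0 ≤ nH f := Real.sqrt_nonneg _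

theorem cb2 {k : ℝ → ℝ} (hk : TK k) (N : ℕ) [NeZero N] : ∃ C : ℝ, 0 ≤ C ∧
    ∀ f : QN N → ℍ → ℂ, SqH f → CuspH f → ∀ (s : QN N) (z : ℍ),
      ‖RR k (f s) z‖ * √(1 + z.im) ≤ C * nH f := by
  obtain ⟨C₁, Y, hC₁, hY, h1⟩ := cb1 hk N
  obtain ⟨K, R, hK0, hK, hR⟩ := cb2_kbd hk
  obtain ⟨C₂, hC₂, h2⟩ := bal Y R
  refine ⟨√(1 + Y) * (C₁ + K * C₂) + 2 * C₁, by positivity, fun f hf hc s z => ?_⟩
  have hn := cb2_nH f
  have hfam : FamH (RF k f) := (rr_sq hk hf).fam
  by_cases hz : Y ≤ z.im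
  · have h3 := h1 f hf hc s z hz
    have h4 : √(1 + z.im) ≤ 2 * √z.im := by
      rw [show (2 : ℝ) * √z.im = √(4 * z.im) by
        rw [Real.sqrt_mul (by norm_num), show (4 : ℝ) = 2 ^ 2 by norm_num,
          Real.sqrt_sq (by norm_num)]]
      apply Real.sqrt_le_sqrt
      linarith
    calc ‖RR k (f s) z‖ * √(1 + z.im) ≤ ‖RR k (f s) z‖ * (2 * √z.im) :=
          mul_le_mul_of_nonneg_left h4 (norm_nonneg _)
      _ = 2 * (‖RR k (f s) z‖ * √z.im) := by ring
      _ ≤ 2 * (C₁ * nH f) := by linarith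
      _ ≤ (√(1 + Y) * (C₁ + K * C₂) + 2 * C₁) * nH f := by
          have : 0 ≤ √(1 + Y) * (C₁ + K * C₂) * nH f := by positivity
          linarith
  · rw [not_le] at hz
    obtain ⟨g, hg⟩ := exists_smul_mem_fd z
    have h5 : RR k (f s) z = RR k (f (red N g * s)) (g • z) := (hfam g s z).symm
    have h6 : ‖RR k (f (red N g * s)) (g • z)‖ ≤ (C₁ + K * C₂) * nH f := by
      by_cases hz' : Y ≤ (g • z).im
      · have h3 := h1 f hf hc (red N g * s) (g • z) hz'
        have h4 : 1 ≤ √(g • z).im := Real.one_le_sqrt.2 (hY.trans hz')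
        have h7 : ‖RR k (f (red N g * s)) (g • z)‖ * 1 ≤
            ‖RR k (f (red N g * s)) (g • z)‖ * √(g • z).im :=
          mul_le_mul_of_nonneg_left h4 (norm_nonneg _)
        have : 0 ≤ K * C₂ * nH f := by positivity
        linarith
      · rw [not_le] at hz'
        have h3 := cb2_ball hK hR (f (red N g * s)) (g • z) (bal_int hf (g • z) R _).2
        have h4 := h2 N f hf (g • z) hg hz'.le (red N g * s)
        have h7 := mul_le_mul_of_nonneg_left h4 hK0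
        have : 0 ≤ C₁ * nH f := by positivity
        linarith
    rw [h5]
    have h8 : √(1 + z.im) ≤ √(1 + Y) := Real.sqrt_le_sqrt (by linarith)
    calc ‖RR k (f (red N g * s)) (g • z)‖ * √(1 + z.im)
        ≤ ((C₁ + K * C₂) * nH f) * √(1 + Y) :=
          mul_le_mul h6 h8 (Real.sqrt_nonneg _) (by positivity)
      _ ≤ (√(1 + Y) * (C₁ + K * C₂) + 2 * C₁) * nH f := by
          have : 0 ≤ 2 * C₁ * nH f := by positivity
          linarith

theorem cb2_ray {k : ℝ → ℝ} (hk : TK k) (N : ℕ) [NeZero N] : ∃ C : ℝ, 0 ≤ C ∧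
    ∀ f : QN N → ℍ → ℂ, SqH f → CuspH f → ∀ (s : QN N) (τ θ : ℝ), θ ∈ Ioo 0 Real.pi →
      ‖RR k (f s) (pt τ θ)‖ * √(Real.sin θ) ≤ C * nH f * Real.exp (-(|τ| / 2)) := by
  obtain ⟨C, hC, h⟩ := cb2 hk N
  refine ⟨C, hC, fun f hf hc s τ θ hθ => ?_⟩
  have hfam : FamH (RF k f) := (rr_sq hk hf).fam
  have hsin : 0 < Real.sin θ := Real.sin_pos_of_pos_of_lt_pi hθ.1 hθ.2
  -- a point `z'` with height `e^|τ| sin θ` and the same value
  obtain ⟨s', z', hz', he⟩ : ∃ (s' : QN N) (z' : ℍ), z'.im = Real.exp |τ| * Real.sin θ ∧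
      RR k (f s) (pt τ θ) = RR k (f s') z' := by
    by_cases hτ : 0 ≤ τ
    · exact ⟨s, pt τ θ, by rw [pt_im hθ, abs_of_nonneg hτ], rfl⟩
    · rw [not_le] at hτ
      refine ⟨red N ModularGroup.S * s, ModularGroup.S • pt τ θ, ?_,
        (hfam ModularGroup.S s (pt τ θ)).symm⟩
      rw [ModularGroup.im_smul_eq_div_normSq, ModularGroup.denom_apply, pt_im hθ, pt_coe hθ,
        abs_of_neg hτ]
      have h1 : Complex.normSq (((ModularGroup.S 1 0 : ℤ) : ℂ) * cexp (τ + θ * Complex.I) +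
          ((ModularGroup.S 1 1 : ℤ) : ℂ)) = Real.exp τ * Real.exp τ := by
        have : ((ModularGroup.S 1 0 : ℤ) : ℂ) * cexp (τ + θ * Complex.I) +
          ((ModularGroup.S 1 1 : ℤ) : ℂ) = cexp (τ + θ * Complex.I) := by
          simp [ModularGroup.S]
        rw [this, Complex.normSq_eq_norm_sq, Complex.norm_exp]
        simp [sq]
      rw [h1, Real.exp_neg]
      field_simp
  rw [he]
  have h3 := h f hf hc s' z'
  have h4 : √(Real.sin θ) * Real.exp (|τ| / 2) ≤ √(1 + z'.im) := by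
    have : √(Real.sin θ) * Real.exp (|τ| / 2) = √(z'.im) := by
      rw [hz', Real.sqrt_mul (Real.exp_pos _).le, mul_comm, ← Real.exp_half]
    rw [this]
    exact Real.sqrt_le_sqrt (by linarith)
  have h5 : ‖RR k (f s') z'‖ * (√(Real.sin θ) * Real.exp (|τ| / 2)) ≤ C * nH f :=
    (mul_le_mul_of_nonneg_left h4 (norm_nonneg _)).trans h3
  have h6 : Real.exp (|τ| / 2) * Real.exp (-(|τ| / 2)) = 1 := by
    rw [← Real.exp_add, add_neg_cancel, Real.exp_zero]
  calc ‖RR k (f s') z'‖ * √(Real.sin θ)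
      = (‖RR k (f s') z'‖ * (√(Real.sin θ) * Real.exp (|τ| / 2))) * Real.exp (-(|τ| / 2)) := by
        rw [mul_assoc, mul_assoc, h6, mul_one]
    _ ≤ C * nH f * Real.exp (-(|τ| / 2)) :=
        mul_le_mul_of_nonneg_right h5 (Real.exp_pos _).le

end Pool.Agent.JOS
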