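import Pool.Agent.Lib_helper58.JOSF.Defs2

/-! JOS, block CNT: counting elements of the modular group -/

namespace Pool.Agent.JOS

open Complex MeasureTheory Filter Topology UpperHalfPlane ModularGroup Set Metric
open scoped MatrixGroups Modular ENNReal ComplexConjugate ContDiff
open Pool.Agent.JO (QN red FamH)

theorem cnt_iso (g : SL(2, ℤ)) (z w : ℍ) : dist (g • z) (g • w) = dist z w := by
  have h : ∀ z : ℍ, g • z = (Matrix.SpecialLinearGroup.map (Int.castRingHom ℝ) g : SL(2, ℝ)) • z := by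
    intro z
    apply UpperHalfPlane.ext
    rw [coe_specialLinearGroup_apply, coe_specialLinearGroup_apply]
    simp
  rw [h, h, dist_smul]

/-- the bound of the entries -/
noncomputable def cntB (Y E : ℝ) : ℝ :=
  ((1 / 2 + Y * E) * (2 * E) + Y * E * E * 2) + ((1 / 2 + Y * E) * E + Y * E * E) + 2 * E

theorem cnt_bd {Y ρ : ℝ} {z : ℍ} (hz : z ∈ (𝒟 : Set ℍ)) (hY : z.im ≤ Y) {h : SL(2, ℤ)}
    (hd : dist z (h • z) ≤ ρ) (i j : Fin 2) : |((h i j : ℤ) : ℝ)| ≤ cntB Y (Real.exp ρ) := by
  set E := Real.exp ρ with hE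
  have hE1 : 1 ≤ E := by
    rw [hE]; exact Real.one_le_exp (dist_nonneg.trans hd)
  have hdE : Real.exp (dist z (h • z)) ≤ E := Real.exp_le_exp.2 hd
  have hdE' : Real.exp (dist (h • z) z) ≤ E := by rw [dist_comm]; exact hdE
  set y := z.im with hy
  set x := z.re with hx
  have hy0 : 0 < y := z.im_pos
  have hyh : 1 / 2 ≤ y := by
    have := three_le_four_mul_im_sq_of_mem_fd hz
    nlinarith
  have hxh : |x| ≤ 1 / 2 := hz.2
  have hY0 : 0 < Y := lt_of_lt_of_le hy0 hY
  set a : ℝ := ((h 0 0 : ℤ) : ℝ) with ha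
  set b : ℝ := ((h 0 1 : ℤ) : ℝ) with hb
  set c : ℝ := ((h 1 0 : ℤ) : ℝ) with hc
  set d : ℝ := ((h 1 1 : ℤ) : ℝ) with hdd
  set n : ℝ := (c * x + d) ^ 2 + (c * y) ^ 2 with hn
  have hden : Complex.normSq (denom (Matrix.SpecialLinearGroup.toGL
      ((Matrix.SpecialLinearGroup.map (Int.castRingHom ℝ)) h)) ↑z) = n := by
    rw [ModularGroup.denom_apply, Complex.normSq_apply]
    simp only [Complex.add_re, Complex.mul_re, Complex.intCast_re, Complex.intCast_im,
      Complex.add_im, Complex.mul_im, coe_re, coe_im]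
    rw [hn]
    ring
  have hn0 : 0 < n := by
    rw [← hden]
    exact Complex.normSq_pos.2 (denom_ne_zero _ _)
  have him : (h • z).im = y / n := by
    rw [ModularGroup.im_smul_eq_div_normSq, hden]
  set X := (h • z).re with hX
  set V := (h • z).im with hV
  have hV0 : 0 < V := (h • z).im_pos
  -- the norm of the denominator
  have hnE : n ≤ E := by
    have h1 := im_le_im_mul_exp_dist z (h • z)
    rw [← hV, him] at h1
    have h2 : y ≤ y / n * E := h1.trans (mul_le_mul_of_nonneg_left hdE (by positivity))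
    have h3 : y * n ≤ y * E := by
      have h4 := mul_le_mul_of_nonneg_right h2 hn0.le
      have e : y / n * E * n = y * E := by field_simp
      rw [e] at h4
      exact h4
    exact le_of_mul_le_mul_left h3 hy0
  have hEE : E ≤ E ^ 2 := by nlinarith
  have hcy : |c * y| ≤ E := by
    apply abs_le_of_sq_le_sq _ (by linarith)
    nlinarith [sq_nonneg (c * x + d)]
  have hcd : |c * x + d| ≤ E := by
    apply abs_le_of_sq_le_sq _ (by linarith)
    nlinarith [sq_nonneg (c * y)]
  have hcb : |c| ≤ 2 * E := by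
    rw [abs_mul, abs_of_pos hy0] at hcy
    nlinarith [abs_nonneg c]
  have hcx : |c * x| ≤ E := by
    rw [abs_mul]
    nlinarith [abs_nonneg c, abs_nonneg x]
  have hdb : |d| ≤ 2 * E := by
    have e : d = (c * x + d) - c * x := by ring
    rw [e]
    exact (abs_sub _ _).trans (by linarith)
  -- the point h z
  have hVb : V ≤ Y * E := by
    have h1 := im_le_im_mul_exp_dist (h • z) z
    exact h1.trans (mul_le_mul hY hdE' (Real.exp_pos _).le hY0.le)
  have hXb : |X| ≤ 1 / 2 + Y * E := by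
    have h1 := dist_coe_le (h • z) z
    have h2 : |X - x| ≤ dist ((h • z : ℍ) : ℂ) (z : ℂ) := by
      rw [Complex.dist_eq]
      have := Complex.abs_re_le_norm (((h • z : ℍ) : ℂ) - (z : ℂ))
      rw [Complex.sub_re, coe_re, coe_re] at this
      exact this
    have h3 : z.im * (Real.exp (dist (h • z) z) - 1) ≤ Y * E := by
      have h4 : Real.exp (dist (h • z) z) - 1 ≤ E := by linarith
      exact mul_le_mul hY h4 (by linarith [Real.one_le_exp (dist_nonneg (x := h • z) (y := z))]) hY0.le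
    have e : X = (X - x) + x := by ring
    rw [e]
    exact (abs_add_le _ _).trans (by linarith)
  -- a z + b = (h z) (c z + d)
  have hmul : ((h • z : ℍ) : ℂ) * ((c : ℂ) * z + d) = a * z + b := by
    have h1 := coe_specialLinearGroup_apply h z
    simp only [eq_intCast] at h1
    have h2 : ((c : ℂ) * (z : ℂ) + d) ≠ 0 := by
      intro h0
      have h3 := congrArg Complex.normSq h0
      rw [map_zero, Complex.normSq_apply] at h3
      simp only [Complex.add_re, Complex.mul_re, Complex.ofReal_re, Complex.ofReal_im,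
        Complex.add_im, Complex.mul_im, coe_re, coe_im] at h3
      have h4 : n = 0 := by rw [hn]; linarith
      linarith
    rw [h1, div_mul_cancel₀]
    exact h2
  have hre := congrArg Complex.re hmul
  have him' := congrArg Complex.im hmul
  simp only [Complex.add_re, Complex.mul_re, Complex.ofReal_re, Complex.ofReal_im,
    Complex.add_im, Complex.mul_im, coe_re, coe_im] at hre him'
  have hab : |a| ≤ (1 / 2 + Y * E) * (2 * E) + Y * E * E * 2 := by
    have e : a * y = X * (c * y) + V * (c * x + d) := by linarith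
    have h1 : |a| * y ≤ (1 / 2 + Y * E) * (|c| * y) + Y * E * E := by
      calc |a| * y = |a * y| := by rw [abs_mul, abs_of_pos hy0]
        _ = |X * (c * y) + V * (c * x + d)| := by rw [e]
        _ ≤ |X * (c * y)| + |V * (c * x + d)| := abs_add_le _ _
        _ = |X| * (|c| * y) + V * |c * x + d| := by
            rw [abs_mul, abs_mul, abs_mul, abs_of_pos hy0, abs_of_pos hV0]
        _ ≤ (1 / 2 + Y * E) * (|c| * y) + Y * E * E := by
            apply add_le_add
            · exact mul_le_mul_of_nonneg_right hXb (by positivity)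
            · exact mul_le_mul hVb hcd (abs_nonneg _) (by positivity)
    have h2 : Y * E * E ≤ Y * E * E * 2 * y := by nlinarith [mul_pos (mul_pos hY0 (by linarith : 0 < E)) (by linarith : 0 < E)]
    have h3 : (1 / 2 + Y * E) * (|c| * y) ≤ (1 / 2 + Y * E) * (2 * E * y) := by
      apply mul_le_mul_of_nonneg_left _ (by positivity)
      exact mul_le_mul_of_nonneg_right hcb hy0.le
    have h4 : |a| * y ≤ ((1 / 2 + Y * E) * (2 * E) + Y * E * E * 2) * y := by nlinarith
    exact le_of_mul_le_mul_right h4 hy0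
  have hbb : |b| ≤ ((1 / 2 + Y * E) * E + Y * E * E) + ((1 / 2 + Y * E) * (2 * E) + Y * E * E * 2) := by
    have e : b = X * (c * x + d) - V * (c * y) - a * x := by linarith
    rw [e]
    have h1 : |X * (c * x + d)| ≤ (1 / 2 + Y * E) * E := by
      rw [abs_mul]; exact mul_le_mul hXb hcd (abs_nonneg _) (by positivity)
    have h2 : |V * (c * y)| ≤ Y * E * E := by
      rw [abs_mul, abs_of_pos hV0]; exact mul_le_mul hVb hcy (abs_nonneg _) (by positivity)
    have h3 : |a * x| ≤ |a| := by
      rw [abs_mul]; nlinarith [abs_nonneg a, abs_nonneg x]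
    calc |X * (c * x + d) - V * (c * y) - a * x|
        ≤ |X * (c * x + d) - V * (c * y)| + |a * x| := abs_sub _ _
      _ ≤ |X * (c * x + d)| + |V * (c * y)| + |a * x| := by
          linarith [abs_sub (X * (c * x + d)) (V * (c * y))]
      _ ≤ _ := by linarith
  have hp1 : 0 ≤ (1 / 2 + Y * E) * (2 * E) + Y * E * E * 2 := by positivity
  have hp2 : 0 ≤ (1 / 2 + Y * E) * E + Y * E * E := by positivity
  have hp3 : 0 ≤ 2 * E := by positivity
  unfold cntB
  fin_cases i <;> fin_cases j
  · show |a| ≤ _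
    linarith
  · show |b| ≤ _
    linarith
  · show |c| ≤ _
    linarith
  · show |d| ≤ _
    linarith

theorem cnt_fin (B : ℝ) : {h : SL(2, ℤ) | ∀ i j, |((h i j : ℤ) : ℝ)| ≤ B}.Finite := by
  have h1 : (Set.univ.pi (fun _ : Fin 2 => Set.univ.pi (fun _ : Fin 2 => Set.Icc (-⌈B⌉) ⌈B⌉))).Finite :=
    Set.Finite.pi' (fun _ => Set.Finite.pi' (fun _ => Set.finite_Icc _ _)) |>.subset (by
      intro f hf i j
      exact hf i (Set.mem_univ _) j (Set.mem_univ _))
  refine Set.Finite.of_injOn (f := fun (h : SL(2, ℤ)) i j => h i j) ?_ ?_ h1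
  · intro h hh i _ j _
    have h2 := hh i j
    rw [abs_le] at h2
    have h3 := Int.le_ceil B
    constructor
    · have h4 : ((-⌈B⌉ : ℤ) : ℝ) ≤ (h i j : ℝ) := by push_cast; linarith
      exact_mod_cast h4
    · have h4 : ((h i j : ℤ) : ℝ) ≤ (⌈B⌉ : ℝ) := by linarith
      exact_mod_cast h4
  · intro h _ h' _ he
    apply Subtype.ext
    funext i j
    exact congrFun (congrFun he i) j

theorem cnt (Y R : ℝ) : ∃ M : ℕ, ∀ z : ℍ, z ∈ (𝒟 : Set ℍ) → z.im ≤ Y → ∀ w : ℍ,
    ∑' g : SL(2, ℤ), (if dist z (g • w) ≤ R then (1 : ℝ≥0∞) else 0) ≤ M := by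
  classical
  set K := (cnt_fin (cntB Y (Real.exp (2 * R)))).toFinset with hK
  refine ⟨K.card, fun z hz hY w => ?_⟩
  by_cases hex : ∃ g₀ : SL(2, ℤ), dist z (g₀ • w) ≤ R
  · obtain ⟨g₀, hg₀⟩ := hex
    have h1 : ∀ g : SL(2, ℤ), (if dist z (g • w) ≤ R then (1 : ℝ≥0∞) else 0) ≤
        (if g * g₀⁻¹ ∈ K then (1 : ℝ≥0∞) else 0) := by
      intro g
      by_cases hg : dist z (g • w) ≤ R
      · rw [if_pos hg, if_pos]
        rw [hK, Set.Finite.mem_toFinset]
        intro i j
        apply cnt_bd hz hY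
        calc dist z ((g * g₀⁻¹) • z) ≤ dist z (g • w) + dist (g • w) ((g * g₀⁻¹) • z) :=
              dist_triangle _ _ _
          _ = dist z (g • w) + dist w (g₀⁻¹ • z) := by rw [mul_smul, cnt_iso]
          _ = dist z (g • w) + dist (g₀ • w) z := by
              rw [← cnt_iso g₀ w, smul_inv_smul]
          _ ≤ 2 * R := by rw [dist_comm (g₀ • w)]; linarith
      · rw [if_neg hg]; exact zero_le
    calc ∑' g : SL(2, ℤ), (if dist z (g • w) ≤ R then (1 : ℝ≥0∞) else 0)
        ≤ ∑' g : SL(2, ℤ), (if g * g₀⁻¹ ∈ K then (1 : ℝ≥0∞) else 0) := ENNReal.tsum_le_tsum h1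
      _ = ∑' h : SL(2, ℤ), (if h ∈ K then (1 : ℝ≥0∞) else 0) :=
          (Equiv.mulRight g₀⁻¹).tsum_eq (fun h : SL(2, ℤ) => if h ∈ K then (1 : ℝ≥0∞) else 0)
      _ = ∑ h ∈ K, (if h ∈ K then (1 : ℝ≥0∞) else 0) :=
          tsum_eq_sum (fun h hh => if_neg hh)
      _ = K.card := by
          rw [Finset.sum_congr rfl (fun h hh => if_pos hh)]
          simp
      _ ≤ _ := le_rfl
  · have h1 : ∀ g : SL(2, ℤ), (if dist z (g • w) ≤ R then (1 : ℝ≥0∞) else 0) = 0 := fun g =>
      if_neg (fun h => hex ⟨g, h⟩)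
    simp only [h1, tsum_zero]
    exact zero_le

end Pool.Agent.JOS
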