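import Pool.Agent.Lib_helper58.JOSF.SYM

/-! # JO, part S, block COM (helper48): convolutions of point pair invariants commute.
Uses `bal_int` (BAL). -/

namespace Pool.Agent.JOS

open Complex MeasureTheory Filter Topology UpperHalfPlane ModularGroup Set Metric
open scoped MatrixGroups Modular ENNReal ComplexConjugate ContDiff
open Pool.Agent.JO (QN red FamH)

theorem com_bdd {k : ℝ → ℝ} (hk : TK k) : ∃ B : ℝ, 0 ≤ B ∧ ∀ c, 1 ≤ c → |k c| ≤ B := by
  obtain ⟨R, hR⟩ := hk.supp
  obtain ⟨B, hB⟩ := (isCompact_Icc (a := (1 : ℝ)) (b := max R 1)).exists_bound_of_continuousOn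
    (f := k) hk.smooth.continuous.continuousOn
  refine ⟨max B 0, le_max_right _ _, fun c hc => ?_⟩
  by_cases h : c ≤ max R 1
  · exact (hB c ⟨hc, h⟩).trans (le_max_left _ _)
  · have h1 : R ≤ c := (le_max_left _ _).trans (not_le.1 h).le
    rw [hR c h1, abs_zero]
    exact le_max_right _ _

theorem com_supp {k : ℝ → ℝ} (hk : TK k) : ∃ R : ℝ, ∀ z w : ℍ, R < dist z w → kz k z w = 0 := by
  obtain ⟨R, hR⟩ := hk.supp
  refine ⟨R, fun z w h => hR _ ?_⟩
  have h1 : dist z w ≤ Real.cosh (dist z w) := by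
    have h2 := Real.quadratic_le_exp_of_nonneg (dist_nonneg (x := z) (y := w))
    have h3 := Real.exp_pos (-dist z w)
    rw [Real.cosh_eq]
    nlinarith [sq_nonneg (dist z w - 1)]
  linarith

theorem com_kz_cont {k : ℝ → ℝ} (hk : TK k) : Continuous (fun p : ℍ × ℍ => kz k p.1 p.2) :=
  hk.smooth.continuous.comp (Real.continuous_cosh.comp (continuous_fst.dist continuous_snd))

/-- an isometry which exchanges two points -/
theorem com_swap (z w : ℍ) : ∃ g : SL(2, ℝ), g • z = w ∧ g • w = z := by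
  obtain ⟨x, y, hy, hx, hy'⟩ : ∃ x y : ℝ, 0 < y ∧ z.re = x ∧ z.im = y := ⟨_, _, z.im_pos, rfl, rfl⟩
  obtain ⟨u, v, hv, hu, hv'⟩ : ∃ x y : ℝ, 0 < y ∧ w.re = x ∧ w.im = y := ⟨_, _, w.im_pos, rfl, rfl⟩
  have hz : (z : ℂ) = x + y * Complex.I := by
    rw [← hx, ← hy']
    exact (Complex.re_add_im _).symm
  have hw : (w : ℂ) = u + v * Complex.I := by
    rw [← hu, ← hv']
    exact (Complex.re_add_im _).symm
  obtain ⟨c, hc⟩ : ∃ c, c = y + v := ⟨_, rfl⟩
  obtain ⟨a, ha⟩ : ∃ a, a = x * v + u * y := ⟨_, rfl⟩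
  obtain ⟨b, hb⟩ : ∃ b, b = c * (x * u - y * v) - a * (x + u) := ⟨_, rfl⟩
  have hD : -(a * a) - b * c = y * v * ((x - u) ^ 2 + (y + v) ^ 2) := by
    rw [hb, ha, hc]
    ring
  have hD0 : 0 < -(a * a) - b * c := by
    rw [hD]
    have : 0 < (y + v) ^ 2 := by positivity
    have h2 : 0 ≤ (x - u) ^ 2 := sq_nonneg _
    have h3 : 0 < (x - u) ^ 2 + (y + v) ^ 2 := by linarith
    positivity
  obtain ⟨s, hs⟩ : ∃ s, s = √(-(a * a) - b * c) := ⟨_, rfl⟩
  have hs0 : 0 < s := by
    rw [hs]
    exact Real.sqrt_pos.2 hD0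
  have hs2 : s * s = -(a * a) - b * c := by
    rw [hs]
    exact Real.mul_self_sqrt hD0.le
  have hc0 : 0 < c := by rw [hc]; linarith
  let g : SL(2, ℝ) := ⟨!![a / s, b / s; c / s, -a / s], by
    rw [Matrix.det_fin_two_of]
    field_simp
    linarith⟩
  have hsc : (s : ℂ) ≠ 0 := Complex.ofReal_ne_zero.2 hs0.ne'
  have key : ∀ (z w : ℍ), (a : ℂ) * z + b = w * (c * z - a) → ((c : ℂ) * z - a ≠ 0) → g • z = w := by
    intro z w h h0
    refine UpperHalfPlane.ext ?_
    rw [coe_specialLinearGroup_apply]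
    have e1 : (algebraMap ℝ ℝ (g 0 0) : ℂ) = (a : ℂ) / s := by
      show (((a / s : ℝ)) : ℂ) = _
      push_cast
      rfl
    have e2 : (algebraMap ℝ ℝ (g 0 1) : ℂ) = (b : ℂ) / s := by
      show (((b / s : ℝ)) : ℂ) = _
      push_cast
      rfl
    have e3 : (algebraMap ℝ ℝ (g 1 0) : ℂ) = (c : ℂ) / s := by
      show (((c / s : ℝ)) : ℂ) = _
      push_cast
      rfl
    have e4 : (algebraMap ℝ ℝ (g 1 1) : ℂ) = -(a : ℂ) / s := by
      show (((-a / s : ℝ)) : ℂ) = _
      push_cast
      rfl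
    rw [e1, e2, e3, e4]
    have h1 : (a : ℂ) / s * z + b / s = (w * (c * z - a)) / s := by
      rw [← h]
      ring
    have h2 : (c : ℂ) / s * z + -(a : ℂ) / s = (c * z - a) / s := by ring
    rw [h1, h2, div_div_div_cancel_right₀ hsc, mul_div_assoc, div_self h0, mul_one]
  have hne : ∀ z : ℍ, (c : ℂ) * z - a ≠ 0 := by
    intro z h
    have h1 := congrArg Complex.im h
    simp at h1
    rcases h1 with h1 | h1
    · exact hc0.ne' h1
    · exact z.im_pos.ne' h1
  refine ⟨g, key z w ?_ (hne z), key w z ?_ (hne w)⟩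
  · rw [hz, hw]
    apply Complex.ext
    · simp
      rw [hb]
      ring_nf
    · simp
      rw [ha, hc]
      ring
  · rw [hz, hw]
    apply Complex.ext
    · simp
      rw [hb]
      ring_nf
    · simp
      rw [ha, hc]
      ring

theorem com_mp (g : SL(2, ℝ)) : MeasurePreserving (fun z : ℍ => g • z) volume volume :=
  measurePreserving_smul (Matrix.SpecialLinearGroup.mapGL ℝ g) (volume : Measure ℍ)

theorem com_emb (g : SL(2, ℝ)) : MeasurableEmbedding (fun z : ℍ => g • z) := by
  let e : ℍ ≃ᵐ ℍ :=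
    { toEquiv := MulAction.toPerm g
      measurable_toFun := (com_mp g).measurable
      measurable_invFun := (com_mp g⁻¹).measurable }
  exact e.measurableEmbedding

/-- COM: convolutions of point pair invariants commute -/
theorem com_kz {k l : ℝ → ℝ} (hk : TK k) (hl : TK l) (z w : ℍ) :
    ∫ u : ℍ, kz k z u * kz l u w = ∫ u : ℍ, kz l z u * kz k u w := by
  obtain ⟨g, h1, h2⟩ := com_swap z w
  rw [← (com_mp g).integral_comp (com_emb g)]
  refine integral_congr_ae (Eventually.of_forall fun u => ?_)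
  show kz k z (g • u) * kz l (g • u) w = kz l z u * kz k u w
  have e1 : kz k z (g • u) = kz k u w := by
    unfold kz
    have : dist z (g • u) = dist u w := by
      conv_lhs => rw [← h2]
      rw [dist_smul, dist_comm]
    rw [this]
  have e2 : kz l (g • u) w = kz l z u := by
    unfold kz
    have : dist (g • u) w = dist z u := by
      conv_lhs => rw [← h1]
      rw [dist_smul, dist_comm]
    rw [this]
  rw [e1, e2, mul_comm]

/-- COM: composition of two operators -/
theorem rr_comp {k l : ℝ → ℝ} (hk : TK k) (hl : TK l) {N : ℕ} [NeZero N] {f : QN N → ℍ → ℂ}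
    (hf : SqH f) (s : QN N) (z : ℍ) :
    RR k (RR l (f s)) z = ∫ w : ℍ, ((∫ u : ℍ, kz k z u * kz l u w : ℝ) : ℂ) * f s w := by
  obtain ⟨Bk, hBk0, hBk⟩ := com_bdd hk
  obtain ⟨Bl, hBl0, hBl⟩ := com_bdd hl
  obtain ⟨Rk, hRk⟩ := com_supp hk
  obtain ⟨Rl, hRl⟩ := com_supp hl
  have hL : RR k (RR l (f s)) z = ∫ u : ℍ, ∫ w : ℍ, (kz k z u : ℂ) * ((kz l u w : ℂ) * f s w) := by
    unfold RR
    refine integral_congr_ae (Eventually.of_forall fun u => ?_)
    show (kz k z u : ℂ) * (∫ w : ℍ, (kz l u w : ℂ) * f s w) = _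
    rw [← integral_const_mul]
  have hR : ∫ w : ℍ, ((∫ u : ℍ, kz k z u * kz l u w : ℝ) : ℂ) * f s w =
      ∫ w : ℍ, ∫ u : ℍ, (kz k z u : ℂ) * ((kz l u w : ℂ) * f s w) := by
    refine integral_congr_ae (Eventually.of_forall fun w => ?_)
    show ((∫ u : ℍ, kz k z u * kz l u w : ℝ) : ℂ) * f s w =
      ∫ u : ℍ, (kz k z u : ℂ) * ((kz l u w : ℂ) * f s w)
    rw [← integral_complex_ofReal, ← integral_mul_const]
    refine integral_congr_ae (Eventually.of_forall fun u => ?_)
    show ((kz k z u * kz l u w : ℝ) : ℂ) * f s w = _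
    push_cast
    ring
  rw [hL, hR]
  refine integral_integral_swap ?_
  have hmeas : AEStronglyMeasurable (Function.uncurry fun (u w : ℍ) =>
      (kz k z u : ℂ) * ((kz l u w : ℂ) * f s w)) (volume.prod volume) := by
    refine Measurable.aestronglyMeasurable ?_
    have h1 : Measurable (fun p : ℍ × ℍ => (kz k z p.1 : ℂ)) :=
      (Complex.continuous_ofReal.comp ((com_kz_cont hk).comp
        (continuous_const.prodMk continuous_fst))).measurable
    have h2 : Measurable (fun p : ℍ × ℍ => (kz l p.1 p.2 : ℂ)) :=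
      (Complex.continuous_ofReal.comp (com_kz_cont hl)).measurable
    exact h1.mul (h2.mul ((hf.meas s).comp measurable_snd))
  have hg1 : Integrable (fun u : ℍ => (closedBall z Rk).indicator (fun _ => (1 : ℝ)) u) := by
    rw [integrable_indicator_iff isClosed_closedBall.measurableSet]
    exact (continuousOn_const).integrableOn_compact (isCompact_closedBall z Rk)
  have hg2 : Integrable (fun w : ℍ => (closedBall z (Rk + Rl)).indicator (fun w => ‖f s w‖) w) := by
    rw [integrable_indicator_iff isClosed_closedBall.measurableSet]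
    exact (bal_int hf z (Rk + Rl) s).2.norm
  have hg : Integrable (fun p : ℍ × ℍ => Bk * Bl *
      ((closedBall z Rk).indicator (fun _ => (1 : ℝ)) p.1 *
        (closedBall z (Rk + Rl)).indicator (fun w => ‖f s w‖) p.2)) (volume.prod volume) :=
    (hg1.mul_prod hg2).const_mul _
  refine hg.mono' hmeas (Eventually.of_forall fun p => ?_)
  obtain ⟨u, w⟩ := p
  show ‖(kz k z u : ℂ) * ((kz l u w : ℂ) * f s w)‖ ≤ Bk * Bl *
      ((closedBall z Rk).indicator (fun _ => (1 : ℝ)) u *
        (closedBall z (Rk + Rl)).indicator (fun w => ‖f s w‖) w)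
  by_cases h1 : Rk < dist z u
  · rw [hRk z u h1, Complex.ofReal_zero, zero_mul, norm_zero]
    have : 0 ≤ (closedBall z Rk).indicator (fun _ => (1 : ℝ)) u :=
      indicator_nonneg (fun _ _ => zero_le_one) _
    have h' : 0 ≤ (closedBall z (Rk + Rl)).indicator (fun w => ‖f s w‖) w :=
      indicator_nonneg (fun _ _ => norm_nonneg _) _
    positivity
  · by_cases h2 : Rl < dist u w
    · rw [hRl u w h2, Complex.ofReal_zero, zero_mul, mul_zero, norm_zero]
      have : 0 ≤ (closedBall z Rk).indicator (fun _ => (1 : ℝ)) u :=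
        indicator_nonneg (fun _ _ => zero_le_one) _
      have h' : 0 ≤ (closedBall z (Rk + Rl)).indicator (fun w => ‖f s w‖) w :=
        indicator_nonneg (fun _ _ => norm_nonneg _) _
      positivity
    · have hu : u ∈ closedBall z Rk := by
        rw [mem_closedBall, dist_comm]
        exact not_lt.1 h1
      have hw : w ∈ closedBall z (Rk + Rl) := by
        rw [mem_closedBall, dist_comm]
        have := dist_triangle z u w
        have := not_lt.1 h1
        have := not_lt.1 h2
        linarith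
      rw [indicator_of_mem hu, indicator_of_mem hw, norm_mul, norm_mul, one_mul,
        Complex.norm_real, Complex.norm_real, Real.norm_eq_abs, Real.norm_eq_abs, mul_assoc]
      have b1 : |kz k z u| ≤ Bk := hBk _ (Real.one_le_cosh _)
      have b2 : |kz l u w| ≤ Bl := hBl _ (Real.one_le_cosh _)
      gcongr

end Pool.Agent.JOS
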