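import Pool.Agent.Lib_helper58.JOSF.GRN

/-! # JO, part S, block CUS: `R_k` preserves cuspidal families -/

namespace Pool.Agent.JOS

open Complex MeasureTheory Filter Topology UpperHalfPlane ModularGroup Set Metric
open scoped MatrixGroups Modular ENNReal ComplexConjugate ContDiff
open Pool.Agent.JO (QN red FamH)

/-- translation by `n N` -/
def cus_T (N : ℕ) (n : ℤ) : SL(2, ℤ) := T ^ (n * (N : ℤ))

theorem cus_T_zero (N : ℕ) : cus_T N 0 = 1 := by simp [cus_T]

theorem cus_T_add (N : ℕ) (m n : ℤ) : cus_T N (m + n) = cus_T N m * cus_T N n := by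
  unfold cus_T
  rw [add_mul, zpow_add]

theorem cus_re (N : ℕ) (n : ℤ) (z : ℍ) : (cus_T N n • z).re = z.re + n * N := by
  unfold cus_T
  rw [re_T_zpow_smul]
  push_cast
  ring

theorem cus_im (N : ℕ) (n : ℤ) (z : ℍ) : (cus_T N n • z).im = z.im := by
  unfold cus_T
  rw [im_T_zpow_smul]

theorem cus_red (N : ℕ) (n : ℤ) : red N (cus_T N n) = 1 := by
  ext i j
  unfold red cus_T
  rw [Matrix.SpecialLinearGroup.map_apply_coe, RingHom.mapMatrix_apply, Matrix.map_apply,
    coe_T_zpow]
  fin_cases i <;> fin_cases j <;> simp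

theorem cus_dist (g : SL(2, ℤ)) (z w : ℍ) : dist (g • z) (g • w) = dist z w := by
  have := dist_smul (Matrix.SpecialLinearGroup.map (Int.castRingHom ℝ) g) z w
  exact this

theorem cus_per {N : ℕ} {f : QN N → ℍ → ℂ} (hf : FamH f) (s : QN N) (n : ℤ) (w : ℍ) :
    f s (cus_T N n • w) = f s w := by
  have := hf (cus_T N n) s w
  rwa [cus_red, one_mul] at this

/-- the action of `ℤ` on pairs -/
@[reducible] noncomputable def cus_act (N : ℕ) : AddAction ℤ (ℍ × ℍ) where
  vadd n p := (cus_T N n • p.1, cus_T N n • p.2)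
  zero_vadd p := by
    show (cus_T N 0 • p.1, cus_T N 0 • p.2) = p
    rw [cus_T_zero, one_smul, one_smul]
  add_vadd m n p := by
    show (cus_T N (m + n) • p.1, cus_T N (m + n) • p.2) =
      (cus_T N m • (cus_T N n • p.1), cus_T N m • (cus_T N n • p.2))
    rw [cus_T_add, mul_smul, mul_smul]

theorem cus_mp (N : ℕ) (n : ℤ) : MeasurePreserving
    (fun p : ℍ × ℍ => (cus_T N n • p.1, cus_T N n • p.2)) (volume.prod volume)
      (volume.prod volume) :=
  (mp_smul (cus_T N n)).prod (mp_smul (cus_T N n))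

theorem cus_strip_meas (N : ℕ) : MeasurableSet (strip N) := by
  unfold strip
  have h : Measurable (fun w : ℍ => w.re) := UpperHalfPlane.continuous_re.measurable
  exact (measurableSet_lt measurable_const h).inter (measurableSet_le h measurable_const)

theorem cus_strip_ex {N : ℕ} [NeZero N] (w : ℍ) : ∃! n : ℤ, cus_T N n • w ∈ strip N := by
  have hN : (0 : ℝ) < N := by exact_mod_cast NeZero.pos N
  have h := existsUnique_add_zsmul_mem_Ioc hN w.re 0
  obtain ⟨n, h1, h2⟩ := h
  refine ⟨n, ?_, fun m hm => h2 m ?_⟩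
  · simp only [zsmul_eq_mul, zero_add] at h1
    show 0 < (cus_T N n • w).re ∧ (cus_T N n • w).re ≤ N
    rw [cus_re]
    exact h1
  · have hm' : 0 < (cus_T N m • w).re ∧ (cus_T N m • w).re ≤ N := hm
    rw [cus_re] at hm'
    simp only [zsmul_eq_mul, zero_add]
    exact hm'

/-- the exchange of the two strips -/
theorem cus_exch {N : ℕ} [NeZero N] {F : ℍ × ℍ → ℂ}
    (hF : ∀ (n : ℤ) (z w : ℍ), F (cus_T N n • z, cus_T N n • w) = F (z, w))
    (hi : IntegrableOn F (univ ×ˢ strip N) (volume.prod volume)) :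
    IntegrableOn F (strip N ×ˢ univ) (volume.prod volume) ∧
      ∫ p in strip N ×ˢ univ, F p ∂(volume.prod volume) =
        ∫ p in univ ×ˢ strip N, F p ∂(volume.prod volume) := by
  let A : AddAction ℤ (ℍ × ℍ) := cus_act N
  have hmc : MeasurableConstVAdd ℤ (ℍ × ℍ) := ⟨fun n => (cus_mp N n).measurable⟩
  have hinv : VAddInvariantMeasure ℤ (ℍ × ℍ) (volume.prod volume) :=
    ⟨fun n s hs => (cus_mp N n).measure_preimage hs.nullMeasurableSet⟩
  have h1 : IsAddFundamentalDomain ℤ (strip N ×ˢ (univ : Set ℍ)) (volume.prod volume) := by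
    refine IsAddFundamentalDomain.mk' ((cus_strip_meas N).prod MeasurableSet.univ).nullMeasurableSet ?_
    rintro ⟨z, w⟩
    obtain ⟨n, hn, hn'⟩ := cus_strip_ex (N := N) z
    exact ⟨n, ⟨hn, mem_univ _⟩, fun m hm => hn' m hm.1⟩
  have h2 : IsAddFundamentalDomain ℤ ((univ : Set ℍ) ×ˢ strip N) (volume.prod volume) := by
    refine IsAddFundamentalDomain.mk' (MeasurableSet.univ.prod (cus_strip_meas N)).nullMeasurableSet ?_
    rintro ⟨z, w⟩
    obtain ⟨n, hn, hn'⟩ := cus_strip_ex (N := N) w
    exact ⟨n, ⟨mem_univ _, hn⟩, fun m hm => hn' m hm.2⟩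
  have hF' : ∀ (n : ℤ) (p : ℍ × ℍ), F (n +ᵥ p) = F p := fun n p => hF n p.1 p.2
  exact ⟨(h1.integrableOn_iff h2 hF').mpr hi, h1.setIntegral_eq h2 hF'⟩

/-- real translations preserve the measure -/
theorem cus_shift (x : ℝ) : ∃ e : ℍ → ℍ, MeasurePreserving e volume volume ∧ MeasurableEmbedding e ∧
    ∀ z, (e z).re = z.re + x ∧ (e z).im = z.im := by
  set u : SL(2, ℝ) := ⟨!![1, x; 0, 1], by simp⟩ with hu
  have hmp : ∀ v : SL(2, ℝ), MeasurePreserving (fun z : ℍ => v • z) volume volume := by
    intro v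
    have := measurePreserving_smul (Matrix.SpecialLinearGroup.mapGL ℝ v) (volume : Measure ℍ)
    exact this
  have he : MeasurableEmbedding (fun z : ℍ => u • z) := by
    let e : ℍ ≃ᵐ ℍ :=
      { toEquiv := MulAction.toPerm u
        measurable_toFun := (hmp u).measurable
        measurable_invFun := (hmp u⁻¹).measurable }
    exact e.measurableEmbedding
  refine ⟨fun z => u • z, hmp u, he, fun z => ?_⟩
  have h1 : ((u • z : ℍ) : ℂ) = (z : ℂ) + x := by
    rw [UpperHalfPlane.specialLinearGroup_apply]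
    simp [hu]
  constructor
  · rw [← UpperHalfPlane.coe_re, h1]; simp
  · rw [← UpperHalfPlane.coe_im, h1]; simp

/-- the formula for the kernel -/
theorem cus_kz (k : ℝ → ℝ) (z w : ℍ) : kz k z w =
    k (1 + ((z.re - w.re) ^ 2 + (z.im - w.im) ^ 2) / (2 * z.im * w.im)) := by
  unfold kz
  rw [UpperHalfPlane.cosh_dist]
  congr 3
  rw [Complex.dist_eq, ← Complex.normSq_eq_norm_sq, Complex.normSq_apply]
  simp only [Complex.sub_re, Complex.sub_im, UpperHalfPlane.coe_re, UpperHalfPlane.coe_im]
  ring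

theorem cus_kz_symm (k : ℝ → ℝ) (z w : ℍ) : kz k z w = kz k w z := by
  unfold kz
  rw [dist_comm]

/-- the new test function -/
noncomputable def cus_G (k : ℝ → ℝ) (g : ℝ → ℂ) (v : ℝ) : ℂ :=
  if 0 < v then ∫ z : ℍ, g z.im *
    ((k (1 + (z.re ^ 2 + (z.im - v) ^ 2) / (2 * z.im * v)) : ℝ) : ℂ) else 0

theorem cus_G_eq (k : ℝ → ℝ) (g : ℝ → ℂ) (w : ℍ) :
    ∫ z : ℍ, g z.im * (kz k z w : ℂ) = cus_G k g w.im := by
  obtain ⟨e, he, hem, hz⟩ := cus_shift w.re
  unfold cus_G
  rw [if_pos w.im_pos, ← he.integral_comp hem]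
  refine integral_congr_ae (Eventually.of_forall fun z => ?_)
  simp only
  rw [cus_kz, (hz z).1, (hz z).2, add_sub_cancel_right]

theorem cus_bdd {k : ℝ → ℝ} (hk : TK k) : ∃ B : ℝ, ∀ c, 1 ≤ c → |k c| ≤ B := by
  obtain ⟨R, hR⟩ := hk.supp
  obtain ⟨B, hB⟩ := (isCompact_Icc (a := (1 : ℝ)) (b := max R 1)).exists_bound_of_continuousOn
    hk.smooth.continuous.continuousOn
  refine ⟨B, fun c hc => ?_⟩
  rcases le_total c (max R 1) with h | h
  · exact hB c ⟨hc, h⟩
  · rw [hR c ((le_max_left _ _).trans h), abs_zero]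
    exact (norm_nonneg _).trans (hB 1 ⟨le_refl _, le_max_right _ _⟩)

/-- the integral of the absolute value of the kernel -/
theorem cus_abs {k : ℝ → ℝ} (hk : TK k) (w : ℍ) : Integrable (fun z => kz (fun c => |k c|) z w) ∧
    ∫ z : ℍ, kz (fun c => |k c|) z w = ms (fun c => |k c|) := by
  obtain ⟨B, hB⟩ := cus_bdd hk
  obtain ⟨R, hR⟩ := hk.supp
  have h := kz_int (q := fun c => |k c|) (hk.smooth.continuous.abs.measurable)
    ⟨B, fun c hc => by rw [abs_abs]; exact hB c hc⟩ ⟨R, fun c hc => by rw [hR c hc, abs_zero]⟩ w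
  have e : (fun z => kz (fun c => |k c|) w z) = fun z => kz (fun c => |k c|) z w := by
    funext z
    exact cus_kz_symm _ _ _
  rw [e] at h
  exact h

/-- the support: heights of points at bounded distance -/
theorem cus_supp {k : ℝ → ℝ} {R a b : ℝ} (hR : ∀ c, R ≤ c → k c = 0) {z w : ℍ}
    (h : kz k z w ≠ 0) (hz : a ≤ z.im ∧ z.im ≤ b) :
    a / (2 * |R| + 2) ≤ w.im ∧ w.im ≤ b * (2 * |R| + 2) := by
  have h1 : Real.cosh (dist z w) < R := by
    by_contra hc
    exact h (hR _ (not_lt.mp hc))
  have h2 : Real.exp (dist z w) ≤ 2 * |R| + 2 := by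
    have h3 : Real.cosh (dist z w) = (Real.exp (dist z w) + Real.exp (-dist z w)) / 2 :=
      Real.cosh_eq _
    have h4 := Real.exp_pos (-dist z w)
    have h5 := le_abs_self R
    linarith
  have h3 := UpperHalfPlane.im_le_im_mul_exp_dist z w
  have h4 := UpperHalfPlane.im_le_im_mul_exp_dist w z
  rw [dist_comm w z] at h4
  have hp : (0 : ℝ) < 2 * |R| + 2 := by positivity
  constructor
  · rw [div_le_iff₀ hp]
    calc a ≤ z.im := hz.1
      _ ≤ w.im * Real.exp (dist z w) := h3
      _ ≤ w.im * (2 * |R| + 2) := mul_le_mul_of_nonneg_left h2 w.im_pos.le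
  · calc w.im ≤ z.im * Real.exp (dist z w) := h4
      _ ≤ z.im * (2 * |R| + 2) := mul_le_mul_of_nonneg_left h2 z.im_pos.le
      _ ≤ b * (2 * |R| + 2) := mul_le_mul_of_nonneg_right hz.2 hp.le

/-- the integral of the product with `g` -/
theorem cus_gk {k : ℝ → ℝ} (hk : TK k) {g : ℝ → ℂ} {C : ℝ} (hC : ∀ y, ‖g y‖ ≤ C) (w : ℍ) :
    ∫ z : ℍ, ‖g z.im * (kz k z w : ℂ)‖ ≤ C * ms (fun c => |k c|) := by
  rw [← (cus_abs hk w).2, ← integral_const_mul]
  refine integral_mono_of_nonneg (Eventually.of_forall fun z => norm_nonneg _)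
    ((cus_abs hk w).1.const_mul C) (Eventually.of_forall fun z => ?_)
  simp only
  rw [norm_mul, Complex.norm_real]
  exact mul_le_mul_of_nonneg_right (hC _) (norm_nonneg _)

theorem cus_TG {k : ℝ → ℝ} (hk : TK k) {g : ℝ → ℂ} (hg : TG g) : TG (cus_G k g) := by
  obtain ⟨R, hR⟩ := hk.supp
  obtain ⟨C, hC⟩ := hg.bdd
  obtain ⟨a, b, ha, hab⟩ := hg.supp
  have hC0 : 0 ≤ C := (norm_nonneg _).trans (hC 0)
  -- a point of height `v`
  have hpt : ∀ v : ℝ, 0 < v → ∃ w : ℍ, w.im = v := fun v hv => ⟨⟨Complex.mk 0 v, hv⟩, rfl⟩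
  refine ⟨?_, ?_, ?_⟩
  · unfold cus_G
    refine Measurable.ite (measurableSet_lt measurable_const measurable_id) ?_ measurable_const
    refine StronglyMeasurable.measurable ?_
    refine StronglyMeasurable.integral_prod_right ?_
    refine Measurable.stronglyMeasurable ?_
    have him : Measurable (fun p : ℝ × ℍ => p.2.im) :=
      UpperHalfPlane.continuous_im.measurable.comp measurable_snd
    have hre : Measurable (fun p : ℝ × ℍ => p.2.re) :=
      UpperHalfPlane.continuous_re.measurable.comp measurable_snd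
    have hv : Measurable (fun p : ℝ × ℍ => p.1) := measurable_fst
    refine (hg.meas.comp him).mul (Complex.measurable_ofReal.comp ?_)
    refine hk.smooth.continuous.measurable.comp ?_
    exact measurable_const.add (((hre.pow_const 2).add ((him.sub hv).pow_const 2)).div
      ((measurable_const.mul him).mul hv))
  · refine ⟨C * ms (fun c => |k c|), fun v => ?_⟩
    by_cases hv : 0 < v
    · obtain ⟨w, hw⟩ := hpt v hv
      rw [← hw, ← cus_G_eq]
      exact (norm_integral_le_integral_norm _).trans (cus_gk hk hC w)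
    · unfold cus_G
      rw [if_neg hv, norm_zero]
      have : 0 ≤ ms (fun c => |k c|) := integral_nonneg fun w => abs_nonneg _
      positivity
  · refine ⟨a / (2 * |R| + 2), b * (2 * |R| + 2), by positivity, fun v hv => ?_⟩
    have hv0 : 0 < v := by
      by_contra hc
      apply hv
      unfold cus_G
      rw [if_neg hc]
    obtain ⟨w, hw⟩ := hpt v hv0
    rw [← hw, ← cus_G_eq] at hv
    rw [← hw]
    by_contra hc
    apply hv
    have : ∀ z : ℍ, g z.im * (kz k z w : ℂ) = 0 := by
      intro z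
      by_contra hne
      have h1 : g z.im ≠ 0 := left_ne_zero_of_mul hne
      have h2 : kz k z w ≠ 0 := by
        have := right_ne_zero_of_mul hne
        exact_mod_cast this
      exact hc (cus_supp hR h2 (hab _ h1))
    simp only [this, integral_zero]

theorem cus_kc {k : ℝ → ℝ} (hk : Continuous k) (w : ℍ) : Continuous (fun z : ℍ => kz k z w) := by
  unfold kz
  fun_prop

theorem cus_sm {F : ℍ × ℍ → ℂ} (hF : Measurable F) :
    StronglyMeasurable (fun w : ℍ => ∫ z : ℍ, ‖F (z, w)‖) := by
  have h0 : Measurable (fun p : ℍ × ℍ => ((p.2, p.1) : ℍ × ℍ)) :=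
    measurable_snd.prodMk measurable_fst
  have h1 : StronglyMeasurable (fun p : ℍ × ℍ => ‖F (p.2, p.1)‖) :=
    (hF.comp h0).norm.stronglyMeasurable
  exact h1.integral_prod_right'

theorem cus {k : ℝ → ℝ} (hk : TK k) {N : ℕ} [NeZero N] {f : QN N → ℍ → ℂ} (hf : SqH f)
    (hc : CuspH f) : CuspH (RF k f) := by
  intro s g hg
  obtain ⟨R, hR⟩ := hk.supp
  obtain ⟨C, hC⟩ := hg.bdd
  obtain ⟨a, b, ha, hab⟩ := hg.supp
  have hC0 : 0 ≤ C := (norm_nonneg _).trans (hC 0)
  set F : ℍ × ℍ → ℂ := fun p => g p.1.im * ((kz k p.1 p.2 : ℂ) * f s p.2) with hF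
  have hkc : Continuous (fun p : ℍ × ℍ => kz k p.1 p.2) := by
    have := hk.smooth.continuous
    unfold kz
    fun_prop
  have hgm : Measurable (fun z : ℍ => g z.im) :=
    hg.meas.comp UpperHalfPlane.continuous_im.measurable
  have hFm : Measurable F := by
    refine (hgm.comp measurable_fst).mul ?_
    exact (Complex.measurable_ofReal.comp hkc.measurable).mul ((hf.meas s).comp measurable_snd)
  have hFinv : ∀ (n : ℤ) (z w : ℍ), F (cus_T N n • z, cus_T N n • w) = F (z, w) := by
    intro n z w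
    simp only [hF]
    rw [cus_im, cus_per hf.fam]
    unfold kz
    rw [cus_dist]
  -- integrability
  set a' : ℝ := a / (2 * |R| + 2) with ha'
  set b' : ℝ := b * (2 * |R| + 2) with hb'
  have ha'0 : 0 < a' := by positivity
  set χ : ℝ → ℂ := (Icc a' b').indicator (fun _ => (1 : ℂ)) with hχ
  have hχT : TG χ := by
    refine ⟨measurable_const.indicator measurableSet_Icc, ⟨1, fun y => ?_⟩, a', b', ha'0,
      fun y hy => ?_⟩
    · by_cases hy : y ∈ Icc a' b'
      · rw [hχ, indicator_of_mem hy]; simp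
      · rw [hχ, indicator_of_notMem hy]; simp
    · by_contra hcc
      apply hy
      rw [hχ, indicator_of_notMem]
      exact hcc
  have hsi := strip_int hf hχT s
  have hFi : IntegrableOn F (univ ×ˢ strip N) (volume.prod volume) := by
    unfold IntegrableOn
    rw [← Measure.prod_restrict, Measure.restrict_univ, integrable_prod_iff'
      hFm.aestronglyMeasurable]
    have hgk : ∀ w : ℍ, Integrable (fun z : ℍ => g z.im * (kz k z w : ℂ)) := by
      intro w
      refine ((cus_abs hk w).1.const_mul C).mono' ?_ (Eventually.of_forall fun z => ?_)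
      · exact (hgm.mul (Complex.measurable_ofReal.comp
          (cus_kc hk.smooth.continuous w).measurable)).aestronglyMeasurable
      · rw [norm_mul, Complex.norm_real]
        exact mul_le_mul_of_nonneg_right (hC _) (norm_nonneg _)
    constructor
    · refine Eventually.of_forall fun w => ?_
      have := (hgk w).mul_const (f s w)
      refine this.congr (Eventually.of_forall fun z => ?_)
      simp only [hF]
      ring
    · have hm : AEStronglyMeasurable (fun w : ℍ => ∫ z : ℍ, ‖F (z, w)‖) (volume.restrict (strip N)) := by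
        exact (cus_sm hFm).aestronglyMeasurable
      refine (hsi.norm.const_mul (C * ms (fun c => |k c|))).mono' hm
        (Eventually.of_forall fun w => ?_)
      have e1 : ∫ z : ℍ, ‖F (z, w)‖ = (∫ z : ℍ, ‖g z.im * (kz k z w : ℂ)‖) * ‖f s w‖ := by
        rw [← integral_mul_const]
        refine integral_congr_ae (Eventually.of_forall fun z => ?_)
        simp only [hF]
        rw [← norm_mul]
        congr 1
        ring
      rw [e1, norm_mul, norm_norm, norm_mul, Real.norm_eq_abs,
        abs_of_nonneg (integral_nonneg fun z => norm_nonneg _)]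
      by_cases hw : w.im ∈ Icc a' b'
      · rw [hχ, indicator_of_mem hw, norm_one, one_mul]
        exact mul_le_mul_of_nonneg_right (cus_gk hk hC w) (norm_nonneg _)
      · have e2 : ∫ z : ℍ, ‖g z.im * (kz k z w : ℂ)‖ = 0 := by
          have : ∀ z : ℍ, ‖g z.im * (kz k z w : ℂ)‖ = 0 := by
            intro z
            rw [norm_eq_zero]
            by_contra hne
            have h1 : g z.im ≠ 0 := left_ne_zero_of_mul hne
            have h2 : kz k z w ≠ 0 := by
              have := right_ne_zero_of_mul hne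
              exact_mod_cast this
            exact hw (cus_supp hR h2 (hab _ h1))
          simp only [this, integral_zero]
        rw [e2, zero_mul]
        have : 0 ≤ ms (fun c => |k c|) := integral_nonneg fun w => abs_nonneg _
        positivity
  obtain ⟨hi1, he1⟩ := cus_exch hFinv hFi
  -- Fubini
  have h1 : ∫ w in strip N, g w.im * RF k f s w = ∫ p in strip N ×ˢ univ, F p ∂(volume.prod volume) := by
    rw [setIntegral_prod F hi1]
    refine integral_congr_ae (Eventually.of_forall fun z => ?_)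
    simp only [hF, RF, RR]
    rw [Measure.restrict_univ, integral_const_mul]
  have h2 : ∫ p in univ ×ˢ strip N, F p ∂(volume.prod volume) =
      ∫ w in strip N, cus_G k g w.im * f s w := by
    unfold IntegrableOn at hFi
    rw [← Measure.prod_restrict, Measure.restrict_univ] at hFi ⊢
    rw [integral_prod_symm F hFi]
    refine integral_congr_ae (Eventually.of_forall fun w => ?_)
    simp only
    rw [← cus_G_eq, ← integral_mul_const]
    refine integral_congr_ae (Eventually.of_forall fun z => ?_)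
    simp only [hF]
    ring
  rw [h1, he1, h2]
  exact hc s (cus_G k g) (cus_TG hk hg)


end Pool.Agent.JOS
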