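import Pool.Agent.Lib_helper58.JOSF.KFF

namespace Pool.Agent.JOS

open Complex MeasureTheory Filter Topology UpperHalfPlane ModularGroup Set Metric
open scoped MatrixGroups Modular ENNReal ComplexConjugate ContDiff
open Pool.Agent.JO (QN red FamH)

/-! ### the support of the kernel -/

theorem dtr_supp {k : ℝ → ℝ} (hk : TK k) : ∃ ρ : ℝ, 1 ≤ ρ ∧ ∀ θ θ' : ℝ, θ ∈ Ioo 0 Real.pi →
    θ' ∈ Ioo 0 Real.pi → kap k θ θ' ≠ 0 →
      Real.tan (θ' / 2) ≤ ρ * Real.tan (θ / 2) ∧ Real.tan (θ / 2) ≤ ρ * Real.tan (θ' / 2) ∧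
      Real.sin θ' ≤ ρ * Real.sin θ ∧ Real.sin θ ≤ ρ * Real.sin θ' := by
  obtain ⟨R, hR⟩ := hk.supp
  obtain ⟨ρ, T, h1, _, h3⟩ := cc_supp R
  refine ⟨ρ, h1, fun θ θ' hθ hθ' h => ?_⟩
  have h4 : ∃ τ, k (cc τ θ θ') ≠ 0 := by
    by_contra h5
    push Not at h5
    apply h
    unfold kap
    simp only [h5, integral_zero]
  obtain ⟨τ, hτ⟩ := h4
  have h5 : cc τ θ θ' ≤ R := by
    by_contra h6
    exact hτ (hR _ (not_le.mp h6).le)
  exact (h3 τ θ θ' hθ hθ' h5).2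

theorem dtr_tan_lt {x : ℝ} (h : x ∈ Ioo 0 Real.pi) : x / 2 ≤ Real.tan (x / 2) :=
  (Real.lt_tan (by linarith [h.1]) (by linarith [h.2])).le

theorem dtr_tan_le {x : ℝ} (h0 : 0 < x) (h : x ≤ Real.pi / 2) : Real.tan (x / 2) ≤ x := by
  rw [Real.tan_eq_sin_div_cos]
  have h1 : (1 : ℝ) / 2 ≤ Real.cos (x / 2) := by
    rw [← Real.cos_pi_div_three]
    exact Real.cos_le_cos_of_nonneg_of_le_pi (by linarith) (by linarith [Real.pi_pos])
      (by linarith [Real.pi_pos])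
  rw [div_le_iff₀ (by linarith)]
  have h2 := Real.sin_le (x := x / 2) (by linarith)
  nlinarith

theorem dtr_tan_mono {x y : ℝ} (h0 : 0 < x) (h : x ≤ y) (h1 : y < Real.pi) :
    Real.tan (x / 2) ≤ Real.tan (y / 2) := by
  rcases h.eq_or_lt with h | h
  · rw [h]
  · exact (Real.tan_lt_tan_of_nonneg_of_lt_pi_div_two (by linarith) (by linarith) (by linarith)).le

theorem dtr_tan_pos {x : ℝ} (h : x ∈ Ioo 0 Real.pi) : 0 < Real.tan (x / 2) :=
  Real.tan_pos_of_pos_of_lt_pi_div_two (by linarith [h.1]) (by linarith [h.2])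

theorem dtr_arctan {M : ℝ} (hM : 0 < M) : 2 * Real.arctan M ∈ Ioo 0 Real.pi := by
  constructor
  · have := Real.arctan_pos.mpr hM
    linarith
  · have := Real.arctan_lt_pi_div_two M
    linarith

theorem dtr_tan_arctan (M : ℝ) : Real.tan (2 * Real.arctan M / 2) = M := by
  rw [mul_div_cancel_left₀ _ two_ne_zero, Real.tan_arctan]

theorem dtr_le_arctan {x M : ℝ} (h : x ∈ Ioo 0 Real.pi) (hM : Real.tan (x / 2) ≤ M) :
    x ≤ 2 * Real.arctan M := by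
  have h1 : Real.arctan (Real.tan (x / 2)) = x / 2 :=
    Real.arctan_tan (by linarith [h.1, Real.pi_pos]) (by linarith [h.2])
  have h2 := Real.arctan_mono hM
  rw [h1] at h2
  linarith

/-- the constants -/
theorem dtr_const {k : ℝ → ℝ} (hk : TK k) {θ₀ : ℝ} (h0 : θ₀ ∈ Ioo 0 (Real.pi / 2)) :
    ∃ ρ θ₁ b' : ℝ, 1 ≤ ρ ∧ 0 < θ₁ ∧ θ₁ < θ₀ ∧ θ₀ ≤ b' ∧ b' < Real.pi ∧
      (∀ θ ∈ Ioo 0 θ₀, ∀ t ∈ Ioo 0 Real.pi, kap k θ t ≠ 0 →
        t ≤ b' ∧ t ≤ 2 * ρ * θ ∧ θ ≤ 2 * ρ * t ∧ Real.sin t ≤ ρ * Real.sin θ ∧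
          Real.sin θ ≤ ρ * Real.sin t) ∧
      (∀ θ, θ₀ ≤ θ → θ < Real.pi → ∀ t ∈ Ioc 0 θ₁, kap k θ t = 0) := by
  obtain ⟨ρ, h1, h2⟩ := dtr_supp hk
  have hpi := Real.pi_pos
  have h0' : θ₀ ∈ Ioo 0 Real.pi := ⟨h0.1, by linarith [h0.2]⟩
  have ht0 := dtr_tan_pos h0'
  set M₁ : ℝ := Real.tan (θ₀ / 2) / (2 * ρ) with hM₁
  have hM₁p : 0 < M₁ := by positivity
  set M₂ : ℝ := ρ * Real.tan (θ₀ / 2) with hM₂
  have hM₂p : 0 < M₂ := by positivity
  have hρM : ρ * M₁ = Real.tan (θ₀ / 2) / 2 := by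
    rw [hM₁]
    field_simp
  refine ⟨ρ, 2 * Real.arctan M₁, 2 * Real.arctan M₂, h1, (dtr_arctan hM₁p).1, ?_, ?_,
    (dtr_arctan hM₂p).2, ?_, ?_⟩
  · by_contra h3
    rw [not_lt] at h3
    have h4 := dtr_tan_mono h0.1 h3 (dtr_arctan hM₁p).2
    rw [dtr_tan_arctan] at h4
    nlinarith
  · refine dtr_le_arctan h0' ?_
    rw [hM₂]
    nlinarith
  · intro θ hθ t ht hne
    have hθ' : θ ∈ Ioo 0 Real.pi := ⟨hθ.1, by linarith [hθ.2, h0'.2]⟩
    obtain ⟨h3, h4, h5, h6⟩ := h2 θ t hθ' ht hne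
    have h7 := dtr_tan_mono hθ.1 hθ.2.le h0'.2
    have h8 := dtr_tan_lt ht
    have h9 := dtr_tan_lt hθ'
    have h10 := dtr_tan_le hθ.1 (hθ.2.le.trans h0.2.le)
    refine ⟨dtr_le_arctan ht (h3.trans ?_), ?_, ?_, h5, h6⟩
    · rw [hM₂]
      exact mul_le_mul_of_nonneg_left h7 (by linarith)
    · have : ρ * Real.tan (θ / 2) ≤ ρ * θ := mul_le_mul_of_nonneg_left h10 (by linarith)
      nlinarith
    · rcases le_or_gt t (Real.pi / 2) with h11 | h11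
      · have h12 := dtr_tan_le ht.1 h11
        have : ρ * Real.tan (t / 2) ≤ ρ * t := mul_le_mul_of_nonneg_left h12 (by linarith)
        nlinarith
      · have : θ ≤ t := by linarith [hθ.2, h0.2]
        nlinarith [ht.1]
  · intro θ hθ hθ2 t ht
    by_contra hne
    have hθ' : θ ∈ Ioo 0 Real.pi := ⟨by linarith [h0.1], hθ2⟩
    have ht' : t ∈ Ioo 0 Real.pi := ⟨ht.1, lt_of_le_of_lt ht.2 (dtr_arctan hM₁p).2⟩
    obtain ⟨h3, h4, h5, h6⟩ := h2 θ t hθ' ht' hne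
    have h7 := dtr_tan_mono h0.1 hθ hθ2
    have h8 := dtr_tan_mono ht.1 ht.2 (dtr_arctan hM₁p).2
    rw [dtr_tan_arctan] at h8
    have h9 : ρ * Real.tan (t / 2) ≤ ρ * M₁ := mul_le_mul_of_nonneg_left h8 (by linarith)
    linarith

/-- the bound of `g` -/
theorem dtr_g {g : ℝ → ℂ} (hg : ContinuousOn g (Ioo 0 Real.pi)) {b : ℝ}
    (hb : ∃ C : ℝ, ∀ t ∈ Ioo 0 (Real.pi / 2), ‖g t‖ ≤ C * t ^ b) {b' : ℝ} (hb' : b' < Real.pi) :
    ∃ C : ℝ, 0 ≤ C ∧ ∀ t, 0 < t → t ≤ b' → ‖g t‖ ≤ C * t ^ b := by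
  obtain ⟨C, hC⟩ := hb
  have hpi := Real.pi_pos
  have hcont : ContinuousOn (fun t => ‖g t‖ / t ^ b) (Icc (Real.pi / 2) b') := by
    refine ContinuousOn.div (hg.mono fun t ht => ⟨by linarith [ht.1], by linarith [ht.2]⟩).norm ?_ ?_
    · intro t ht
      exact (Real.continuousAt_rpow_const t b (Or.inl (by linarith [ht.1]))).continuousWithinAt
    · intro t ht
      have : 0 < t := by linarith [ht.1]
      positivity
  obtain ⟨C', hC'⟩ := isCompact_Icc.exists_bound_of_continuousOn hcont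
  refine ⟨max (max C C') 0, le_max_right _ _, fun t ht ht' => ?_⟩
  have hp : 0 < t ^ b := Real.rpow_pos_of_pos ht b
  rcases lt_or_ge t (Real.pi / 2) with h | h
  · refine (hC t ⟨ht, h⟩).trans ?_
    exact mul_le_mul_of_nonneg_right ((le_max_left _ _).trans (le_max_left _ _)) hp.le
  · have h1 := hC' t ⟨h, ht'⟩
    rw [Real.norm_eq_abs, abs_of_nonneg (by positivity), div_le_iff₀ hp] at h1
    refine h1.trans ?_
    exact mul_le_mul_of_nonneg_right ((le_max_right _ _).trans (le_max_left _ _)) hp.le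

theorem dtr_rpow {ρ x y b : ℝ} (hρ : 1 ≤ ρ) (hx : 0 < x) (hy : 0 < y) (h1 : x ≤ 2 * ρ * y)
    (h2 : y ≤ 2 * ρ * x) : x ^ b ≤ (2 * ρ) ^ |b| * y ^ b := by
  have hρ2 : 1 ≤ 2 * ρ := by linarith
  have h3 : (x / y) ^ b ≤ (2 * ρ) ^ |b| := by
    rcases le_or_gt 0 b with hb | hb
    · rw [abs_of_nonneg hb]
      exact Real.rpow_le_rpow (by positivity) (by rw [div_le_iff₀ hy]; exact h1) hb
    · rw [abs_of_neg hb]
      have h4 : (x / y) ^ b = (y / x) ^ (-b) := by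
        rw [← inv_div, Real.inv_rpow (by positivity), ← Real.rpow_neg (by positivity)]
      rw [h4]
      exact Real.rpow_le_rpow (by positivity) (by rw [div_le_iff₀ hx]; exact h2) (by linarith)
  rw [Real.div_rpow hx.le hy.le, div_le_iff₀ (Real.rpow_pos_of_pos hy b)] at h3
  exact h3

/-- the integrand -/
noncomputable def dtr_F (k : ℝ → ℝ) (g : ℝ → ℂ) (s : ℂ) (p : ℝ × ℝ) : ℂ :=
  (((1 / Real.sin p.1 ^ 2 : ℝ) : ℂ) * ((kap k p.1 p.2 / Real.sin p.2 ^ 2 : ℝ) : ℂ) * g p.2) *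
    Pool.Agent.SP.ff s p.1

theorem dtr_bd {k : ℝ → ℝ} (hk : TK k) {g : ℝ → ℂ} (hg : ContinuousOn g (Ioo 0 Real.pi)) {b : ℝ}
    (hb : ∃ C : ℝ, ∀ t ∈ Ioo 0 (Real.pi / 2), ‖g t‖ ≤ C * t ^ b) {θ₀ ρ b' : ℝ}
    (h0 : θ₀ ∈ Ioo 0 (Real.pi / 2)) (hρ : 1 ≤ ρ) (hb' : b' < Real.pi)
    (hs : ∀ θ ∈ Ioo 0 θ₀, ∀ t ∈ Ioo 0 Real.pi, kap k θ t ≠ 0 →
        t ≤ b' ∧ t ≤ 2 * ρ * θ ∧ θ ≤ 2 * ρ * t ∧ Real.sin t ≤ ρ * Real.sin θ ∧
          Real.sin θ ≤ ρ * Real.sin t) :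
    ∃ K : ℝ, 0 ≤ K ∧ ∀ s : ℂ, 0 < s.re → ∀ θ ∈ Ioo 0 θ₀, ∀ t ∈ Ioo 0 Real.pi, kap k θ t ≠ 0 →
      ‖dtr_F k g s (θ, t)‖ ≤ K * θ ^ (b - 3) * (2 / s.re * Real.sin θ ^ s.re) := by
  obtain ⟨A, hA0, hA⟩ := kap_bd hk
  obtain ⟨C, hC0, hC⟩ := dtr_g hg hb hb'
  refine ⟨4 * (2 * A * ρ ^ 2) * (C * (2 * ρ) ^ |b|), by positivity, fun s hσ θ hθ t ht hne => ?_⟩
  obtain ⟨h1, h2, h3, h4, h5⟩ := hs θ hθ t ht hne
  have hθ2 : θ ∈ Pool.Agent.SP.II := ⟨hθ.1, hθ.2.trans h0.2⟩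
  have hθ3 : θ ∈ Ioo 0 Real.pi := ⟨hθ.1, by linarith [hθ2.2, Real.pi_pos]⟩
  have hsθ := Pool.Agent.SP.sin_pos' hθ2
  have hst : 0 < Real.sin t := Real.sin_pos_of_pos_of_lt_pi ht.1 ht.2
  have hsg := Pool.Agent.SP.sin_ge hθ2
  unfold dtr_F
  rw [norm_mul, norm_mul, norm_mul, Complex.norm_real, Complex.norm_real, Real.norm_eq_abs,
    Real.norm_eq_abs]
  refine mul_le_mul ?_ (Pool.Agent.SP.ff_norm_le hθ2 hσ) (norm_nonneg _) ?_
  swap
  · have := Real.rpow_pos_of_pos hθ.1 (b - 3)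
    positivity
  have e1 : |1 / Real.sin θ ^ 2| ≤ 4 / θ ^ 2 := by
    rw [abs_of_pos (by positivity), div_le_div_iff₀ (by positivity) (pow_pos hθ.1 2)]
    nlinarith [hθ.1]
  have e2 : |kap k θ t / Real.sin t ^ 2| ≤ 2 * A * ρ ^ 2 / θ := by
    rw [abs_div, abs_of_pos (pow_pos hst 2)]
    have h6 : √(Real.sin θ * Real.sin t) ≤ ρ * Real.sin t := by
      rw [Real.sqrt_le_left (by positivity)]
      nlinarith [mul_pos hst hst]
    have h7 : |kap k θ t| ≤ A * (ρ * Real.sin t) :=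
      (hA θ t hθ3 ht).trans (mul_le_mul_of_nonneg_left h6 hA0)
    rw [div_le_div_iff₀ (pow_pos hst 2) hθ.1]
    have h8 : θ ≤ 2 * ρ * Real.sin t := by nlinarith
    calc |kap k θ t| * θ ≤ A * (ρ * Real.sin t) * (2 * ρ * Real.sin t) :=
          mul_le_mul h7 h8 hθ.1.le (by positivity)
      _ = 2 * A * ρ ^ 2 * Real.sin t ^ 2 := by ring
  have e3 : ‖g t‖ ≤ C * ((2 * ρ) ^ |b| * θ ^ b) :=
    (hC t ht.1 h1).trans (mul_le_mul_of_nonneg_left (dtr_rpow hρ ht.1 hθ.1 h2 h3) hC0)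
  have e4 : θ ^ (b - 3) = θ ^ b / θ ^ 3 := by
    rw [Real.rpow_sub hθ.1]
    norm_cast
  calc |1 / Real.sin θ ^ 2| * |kap k θ t / Real.sin t ^ 2| * ‖g t‖
      ≤ (4 / θ ^ 2) * (2 * A * ρ ^ 2 / θ) * (C * ((2 * ρ) ^ |b| * θ ^ b)) := by
        refine mul_le_mul (mul_le_mul e1 e2 (abs_nonneg _) (by positivity)) e3 (norm_nonneg _) ?_
        have := hθ.1
        positivity
    _ = 4 * (2 * A * ρ ^ 2) * (C * (2 * ρ) ^ |b|) * θ ^ (b - 3) := by
        rw [e4]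
        have := hθ.1.ne'
        field_simp

theorem dtr_cont {k : ℝ → ℝ} (hk : TK k) {g : ℝ → ℂ} (hg : ContinuousOn g (Ioo 0 Real.pi))
    {s : ℂ} (hσ : 0 < s.re) :
    ContinuousOn (dtr_F k g s) (Ioo 0 (Real.pi / 2) ×ˢ Ioo 0 Real.pi) := by
  unfold dtr_F
  have hpi := Real.pi_pos
  have m1 : ∀ p ∈ (Ioo 0 (Real.pi / 2) ×ˢ Ioo 0 Real.pi : Set (ℝ × ℝ)), 0 < Real.sin p.1 :=
    fun p hp => Pool.Agent.SP.sin_pos' hp.1
  have m2 : ∀ p ∈ (Ioo 0 (Real.pi / 2) ×ˢ Ioo 0 Real.pi : Set (ℝ × ℝ)), 0 < Real.sin p.2 :=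
    fun p hp => Real.sin_pos_of_pos_of_lt_pi hp.2.1 hp.2.2
  have c1 : ContinuousOn (fun p : ℝ × ℝ => (1 / Real.sin p.1 ^ 2 : ℝ))
      (Ioo 0 (Real.pi / 2) ×ˢ Ioo 0 Real.pi) := by
    refine ContinuousOn.div continuousOn_const (by fun_prop) fun p hp => ?_
    have := m1 p hp
    positivity
  have c2 : ContinuousOn (fun p : ℝ × ℝ => (kap k p.1 p.2 / Real.sin p.2 ^ 2 : ℝ))
      (Ioo 0 (Real.pi / 2) ×ˢ Ioo 0 Real.pi) := by
    refine ContinuousOn.div ((kap_cont hk).mono fun p hp => ⟨⟨hp.1.1, ?_⟩, hp.2⟩) (by fun_prop)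
      fun p hp => ?_
    · linarith [hp.1.2]
    · have := m2 p hp
      positivity
  have c3 : ContinuousOn (fun p : ℝ × ℝ => g p.2) (Ioo 0 (Real.pi / 2) ×ˢ Ioo 0 Real.pi) :=
    hg.comp continuousOn_snd fun p hp => hp.2
  have c4 : ContinuousOn (fun p : ℝ × ℝ => Pool.Agent.SP.ff s p.1)
      (Ioo 0 (Real.pi / 2) ×ˢ Ioo 0 Real.pi) :=
    (Pool.Agent.SP.cont_ff hσ).comp continuousOn_fst fun p hp => hp.1
  exact (((Complex.continuous_ofReal.comp_continuousOn c1).mul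
    (Complex.continuous_ofReal.comp_continuousOn c2)).mul c3).mul c4

theorem dtr_meas {k : ℝ → ℝ} (hk : TK k) {g : ℝ → ℂ} (hg : ContinuousOn g (Ioo 0 Real.pi))
    {s : ℂ} (hσ : 0 < s.re) {θ₀ θ₁ : ℝ} (h0 : θ₀ ∈ Ioo 0 (Real.pi / 2)) (h1 : 0 ≤ θ₁) :
    AEStronglyMeasurable (dtr_F k g s)
      ((volume.restrict (Ioo 0 θ₀)).prod (volume.restrict (Ioo θ₁ Real.pi))) := by
  rw [Measure.prod_restrict, ← Measure.volume_eq_prod]
  refine ContinuousOn.aestronglyMeasurable ((dtr_cont hk hg hσ).mono fun p hp => ?_)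
    (measurableSet_Ioo.prod measurableSet_Ioo)
  exact ⟨⟨hp.1.1, hp.1.2.trans h0.2⟩, ⟨lt_of_le_of_lt h1 hp.2.1, hp.2.2⟩⟩

theorem dtr_int {k : ℝ → ℝ} (hk : TK k) {g : ℝ → ℂ} (hg : ContinuousOn g (Ioo 0 Real.pi)) {b : ℝ}
    (hb : ∃ C : ℝ, ∀ t ∈ Ioo 0 (Real.pi / 2), ‖g t‖ ≤ C * t ^ b) {θ₀ ρ b' : ℝ}
    (h0 : θ₀ ∈ Ioo 0 (Real.pi / 2)) (hρ : 1 ≤ ρ) (hb' : b' < Real.pi)
    (hs : ∀ θ ∈ Ioo 0 θ₀, ∀ t ∈ Ioo 0 Real.pi, kap k θ t ≠ 0 →
        t ≤ b' ∧ t ≤ 2 * ρ * θ ∧ θ ≤ 2 * ρ * t ∧ Real.sin t ≤ ρ * Real.sin θ ∧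
          Real.sin θ ≤ ρ * Real.sin t) {s : ℂ} (hσ : 0 < s.re) (hσ2 : 1 - b < s.re) :
    Integrable (dtr_F k g s)
      ((volume.restrict (Ioo 0 θ₀)).prod (volume.restrict (Ioo 0 Real.pi))) := by
  obtain ⟨K, hK0, hK⟩ := dtr_bd hk hg hb h0 hρ hb' hs
  have hm := dtr_meas hk hg hσ h0 le_rfl
  rw [integrable_prod_iff hm]
  constructor
  · rw [ae_restrict_iff' measurableSet_Ioo]
    refine ae_of_all _ fun θ hθ => ?_
    have hθ3 : θ ∈ Ioo 0 Real.pi := ⟨hθ.1, by linarith [hθ.2, h0.2, Real.pi_pos]⟩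
    have h1 := (kk_int hk hg hθ3).const_mul
      (((1 / Real.sin θ ^ 2 : ℝ) : ℂ) * Pool.Agent.SP.ff s θ)
    refine h1.congr (ae_of_all _ fun t => ?_)
    simp only [dtr_F]
    ring
  · refine Integrable.mono' (g := fun θ => (K * (2 / s.re) * (2 * ρ)) * θ ^ (s.re + b - 2)) ?_
      hm.norm.integral_prod_right' ?_
    · exact (Pool.Agent.SP.integ_rpow (by linarith) h0.1).const_mul _
    · rw [ae_restrict_iff' measurableSet_Ioo]
      refine ae_of_all _ fun θ hθ => ?_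
      have hθ2 : θ ∈ Pool.Agent.SP.II := ⟨hθ.1, hθ.2.trans h0.2⟩
      set c : ℝ := K * θ ^ (b - 3) * (2 / s.re * θ ^ s.re) with hc
      have hθp := hθ.1
      have hc0 : 0 ≤ c := by positivity
      have h2 : ∀ t ∈ Ioo 0 Real.pi, ‖dtr_F k g s (θ, t)‖ ≤
          (Ioc 0 (2 * ρ * θ)).indicator (fun _ => c) t := by
        intro t ht
        by_cases hne : kap k θ t = 0
        · have : dtr_F k g s (θ, t) = 0 := by
            simp only [dtr_F, hne, zero_div, Complex.ofReal_zero, mul_zero, zero_mul]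
          rw [this, norm_zero]
          exact indicator_nonneg (fun _ _ => hc0) t
        · have h3 := hs θ hθ t ht hne
          rw [indicator_of_mem (show t ∈ Ioc 0 (2 * ρ * θ) from ⟨ht.1, h3.2.1⟩)]
          refine (hK s hσ θ hθ t ht hne).trans ?_
          refine mul_le_mul_of_nonneg_left ?_ (by positivity)
          exact mul_le_mul_of_nonneg_left (Pool.Agent.SP.sin_rpow_le hθ2 hσ.le) (by positivity)
      rw [Real.norm_eq_abs, abs_of_nonneg (integral_nonneg fun _ => norm_nonneg _)]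
      have hi : Integrable ((Ioc 0 (2 * ρ * θ)).indicator (fun _ => c))
          (volume.restrict (Ioo 0 Real.pi)) := by
        refine Integrable.indicator ?_ measurableSet_Ioc
        exact integrable_const _
      calc ∫ t in Ioo 0 Real.pi, ‖dtr_F k g s (θ, t)‖
          ≤ ∫ t in Ioo 0 Real.pi, (Ioc 0 (2 * ρ * θ)).indicator (fun _ => c) t := by
            refine integral_mono_of_nonneg (ae_of_all _ fun _ => norm_nonneg _) hi ?_
            rw [EventuallyLE, ae_restrict_iff' measurableSet_Ioo]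
            exact ae_of_all _ h2
        _ ≤ ∫ t, (Ioc 0 (2 * ρ * θ)).indicator (fun _ => c) t := by
            refine setIntegral_le_integral ?_ (ae_of_all _ fun t => indicator_nonneg (fun _ _ => hc0) t)
            exact (integrable_indicator_iff measurableSet_Ioc).mpr (by
              rw [integrableOn_const_iff (by simp)]
              right
              simp)
        _ = 2 * ρ * θ * c := by
            rw [integral_indicator measurableSet_Ioc, setIntegral_const, smul_eq_mul]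
            congr 1
            rw [Measure.real, Real.volume_Ioc, sub_zero, ENNReal.toReal_ofReal (by positivity)]
        _ = (K * (2 / s.re) * (2 * ρ)) * θ ^ (s.re + b - 2) := by
            have e : θ ^ (s.re + b - 2) = θ * (θ ^ (b - 3) * θ ^ s.re) := by
              have e1 : s.re + b - 2 = 1 + ((b - 3) + s.re) := by ring
              rw [e1, Real.rpow_add hθ.1, Real.rpow_add hθ.1, Real.rpow_one]
            rw [e, hc]
            ring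

theorem dtr_hol {k : ℝ → ℝ} (hk : TK k) {g : ℝ → ℂ} (hg : ContinuousOn g (Ioo 0 Real.pi)) {b : ℝ}
    (hb : ∃ C : ℝ, ∀ t ∈ Ioo 0 (Real.pi / 2), ‖g t‖ ≤ C * t ^ b) {θ₀ ρ b' θ₁ : ℝ}
    (h0 : θ₀ ∈ Ioo 0 (Real.pi / 2)) (hρ : 1 ≤ ρ) (hb' : b' < Real.pi)
    (hs : ∀ θ ∈ Ioo 0 θ₀, ∀ t ∈ Ioo 0 Real.pi, kap k θ t ≠ 0 →
        t ≤ b' ∧ t ≤ 2 * ρ * θ ∧ θ ≤ 2 * ρ * t ∧ Real.sin t ≤ ρ * Real.sin θ ∧
          Real.sin θ ≤ ρ * Real.sin t) (h1 : 0 < θ₁) :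
    DifferentiableOn ℂ (fun s => ∫ p, dtr_F k g s p
      ∂((volume.restrict (Ioo 0 θ₀)).prod (volume.restrict (Ioo θ₁ Real.pi)))) {s | 0 < s.re} ∧
    ∀ s : ℂ, 0 < s.re → Integrable (dtr_F k g s)
      ((volume.restrict (Ioo 0 θ₀)).prod (volume.restrict (Ioo θ₁ Real.pi))) := by
  obtain ⟨K, hK0, hK⟩ := dtr_bd hk hg hb h0 hρ hb' hs
  have hcont : ContinuousOn (fun θ : ℝ => θ ^ (b - 3)) (Icc (θ₁ / (2 * ρ)) θ₀) := by
    intro t ht
    have : 0 < θ₁ / (2 * ρ) := by positivity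
    exact (Real.continuousAt_rpow_const t _ (Or.inl (by linarith [ht.1]))).continuousWithinAt
  obtain ⟨M, hM⟩ := isCompact_Icc.exists_bound_of_continuousOn hcont
  have hbound : ∀ s : ℂ, 0 < s.re → ∀ θ ∈ Ioo 0 θ₀, ∀ t ∈ Ioo θ₁ Real.pi,
      ‖dtr_F k g s (θ, t)‖ ≤ K * (max M 0) * (2 / s.re) := by
    intro s hσ θ hθ t ht
    have ht' : t ∈ Ioo 0 Real.pi := ⟨h1.trans ht.1, ht.2⟩
    have hθ2 : θ ∈ Pool.Agent.SP.II := ⟨hθ.1, hθ.2.trans h0.2⟩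
    by_cases hne : kap k θ t = 0
    · have : dtr_F k g s (θ, t) = 0 := by
        simp only [dtr_F, hne, zero_div, Complex.ofReal_zero, mul_zero, zero_mul]
      rw [this, norm_zero]
      have := le_max_right M 0
      positivity
    · have h3 := hs θ hθ t ht' hne
      have h4 : θ ∈ Icc (θ₁ / (2 * ρ)) θ₀ := by
        refine ⟨?_, hθ.2.le⟩
        rw [div_le_iff₀ (by positivity)]
        linarith [h3.2.1, ht.1]
      have h5 := hM θ h4
      rw [Real.norm_eq_abs, abs_of_pos (Real.rpow_pos_of_pos hθ.1 _)] at h5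
      have h6 : Real.sin θ ^ s.re ≤ 1 :=
        Real.rpow_le_one (Pool.Agent.SP.sin_pos' hθ2).le (Real.sin_le_one θ) hσ.le
      have h7 : 0 ≤ Real.sin θ ^ s.re := Real.rpow_nonneg (Pool.Agent.SP.sin_pos' hθ2).le _
      refine (hK s hσ θ hθ t ht' hne).trans ?_
      refine mul_le_mul (mul_le_mul_of_nonneg_left (h5.trans (le_max_left _ _)) hK0) ?_
        (by positivity) (by have := le_max_right M 0; positivity)
      have h8 : 0 ≤ 2 / s.re := by positivity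
      nlinarith
  have hmem : ∀ᵐ p : ℝ × ℝ ∂((volume.restrict (Ioo 0 θ₀)).prod (volume.restrict (Ioo θ₁ Real.pi))),
      p.1 ∈ Ioo 0 θ₀ ∧ p.2 ∈ Ioo θ₁ Real.pi := by
    rw [Measure.prod_restrict, ae_restrict_iff' (measurableSet_Ioo.prod measurableSet_Ioo)]
    exact ae_of_all _ fun p hp => hp
  have hfin : IsFiniteMeasure
      ((volume.restrict (Ioo 0 θ₀)).prod (volume.restrict (Ioo θ₁ Real.pi))) := inferInstance
  constructor
  · refine Pool.Agent.SP.hol_int _ (fun s p => dtr_F k g s p) {s | 0 < s.re}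
      (fun s hσ => dtr_meas hk hg hσ h0 h1.le) ?_ ?_
    · filter_upwards [hmem] with p hp
      unfold dtr_F
      exact (Pool.Agent.SP.ff_diff ⟨hp.1.1, hp.1.2.trans h0.2⟩).const_mul _
    · intro s hσ
      have hσ' : 0 < s.re := hσ
      have hre : ∀ z ∈ ball s (s.re / 2), s.re / 2 < z.re := by
        intro z hz
        rw [mem_ball, dist_eq_norm] at hz
        have h2 := Complex.abs_re_le_norm (z - s)
        rw [Complex.sub_re] at h2
        have h3 := (abs_le.mp (h2.trans hz.le)).1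
        have h4 := (abs_lt.mp (lt_of_le_of_lt h2 hz)).1
        linarith
      refine ⟨s.re / 2, by positivity, fun z hz => ?_, fun _ => K * (max M 0) * (2 / (s.re / 2)),
        integrable_const _, ?_⟩
      · have := hre z hz
        show 0 < z.re
        linarith
      · filter_upwards [hmem] with p hp z hz
        have h2 := hre z hz
        refine (hbound z (by linarith) p.1 hp.1 p.2 hp.2).trans ?_
        refine mul_le_mul_of_nonneg_left ?_ (by have := le_max_right M 0; positivity)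
        exact div_le_div_of_nonneg_left (by norm_num) (by positivity) h2.le
  · intro s hσ
    refine (integrable_const (K * (max M 0) * (2 / s.re))).mono' (dtr_meas hk hg hσ h0 h1.le) ?_
    filter_upwards [hmem] with p hp
    exact hbound s hσ p.1 hp.1 p.2 hp.2

/-- the second correction -/
theorem dtr_hol2 {g : ℝ → ℂ} (hg : ContinuousOn g (Ioo 0 Real.pi)) {θ₀ θ₁ : ℝ}
    (h0 : θ₀ ∈ Ioo 0 (Real.pi / 2)) (h1 : 0 < θ₁) :
    DifferentiableOn ℂ (fun s => ∫ t in Ioo θ₁ θ₀,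
      Pool.Agent.SP.ff s t * g t / ((Real.sin t ^ 2 : ℝ) : ℂ)) {s | 0 < s.re} := by
  have hpi := Real.pi_pos
  have hsub : ∀ t ∈ Icc θ₁ θ₀, t ∈ Pool.Agent.SP.II := fun t ht =>
    ⟨by linarith [ht.1], by linarith [ht.2, h0.2]⟩
  have hc1 : ContinuousOn (fun t => g t / ((Real.sin t ^ 2 : ℝ) : ℂ)) (Icc θ₁ θ₀) := by
    refine (hg.mono fun t ht => ?_).div ?_ fun t ht => ?_
    · have := hsub t ht
      exact ⟨this.1, by linarith [this.2]⟩
    · exact (Complex.continuous_ofReal.comp (Real.continuous_sin.pow 2)).continuousOn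
    · have := Pool.Agent.SP.sin_pos' (hsub t ht)
      exact_mod_cast (pow_pos this 2).ne'
  obtain ⟨M, hM⟩ := isCompact_Icc.exists_bound_of_continuousOn hc1
  refine Pool.Agent.SP.hol_int _ (fun s t => Pool.Agent.SP.ff s t * g t / ((Real.sin t ^ 2 : ℝ) : ℂ))
    {s | 0 < s.re} (fun s hσ => ?_) ?_ ?_
  · have : ContinuousOn (fun t => Pool.Agent.SP.ff s t * (g t / ((Real.sin t ^ 2 : ℝ) : ℂ)))
        (Ioo θ₁ θ₀) := ((Pool.Agent.SP.cont_ff hσ).mono fun t ht => hsub t ⟨ht.1.le, ht.2.le⟩).mul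
          (hc1.mono Ioo_subset_Icc_self)
    refine (this.aestronglyMeasurable measurableSet_Ioo).congr (ae_of_all _ fun t => ?_)
    simp only
    ring
  · rw [ae_restrict_iff' measurableSet_Ioo]
    refine ae_of_all _ fun t ht => ?_
    have h2 := (Pool.Agent.SP.ff_diff (hsub t ⟨ht.1.le, ht.2.le⟩)).mul_const
      (g t / ((Real.sin t ^ 2 : ℝ) : ℂ))
    refine h2.congr fun s _ => ?_
    ring
  · intro s hσ
    have hσ' : 0 < s.re := hσ
    have hre : ∀ z ∈ ball s (s.re / 2), s.re / 2 < z.re := by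
      intro z hz
      rw [mem_ball, dist_eq_norm] at hz
      have h2 := Complex.abs_re_le_norm (z - s)
      rw [Complex.sub_re] at h2
      have h4 := (abs_lt.mp (lt_of_le_of_lt h2 hz)).1
      linarith
    refine ⟨s.re / 2, by positivity, fun z hz => ?_, fun _ => (2 / (s.re / 2)) * max M 0,
      integrable_const _, ?_⟩
    · have := hre z hz
      show 0 < z.re
      linarith
    · rw [ae_restrict_iff' measurableSet_Ioo]
      refine ae_of_all _ fun t ht z hz => ?_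
      have h2 := hre z hz
      have hz0 : 0 < z.re := by linarith
      have ht2 := hsub t ⟨ht.1.le, ht.2.le⟩
      rw [mul_div_assoc, norm_mul]
      refine mul_le_mul ?_ ((hM t ⟨ht.1.le, ht.2.le⟩).trans (le_max_left _ _)) (norm_nonneg _)
        (by positivity)
      refine (Pool.Agent.SP.ff_norm_le ht2 hz0).trans ?_
      have h6 : Real.sin t ^ z.re ≤ 1 :=
        Real.rpow_le_one (Pool.Agent.SP.sin_pos' ht2).le (Real.sin_le_one t) hz0.le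
      have h8 : 2 / z.re ≤ 2 / (s.re / 2) :=
        div_le_div_of_nonneg_left (by norm_num) (by positivity) h2.le
      have h9 : 0 ≤ 2 / z.re := by positivity
      nlinarith

theorem dtr_int2 {g : ℝ → ℂ} (hg : ContinuousOn g (Ioo 0 Real.pi)) {b : ℝ}
    (hb : ∃ C : ℝ, ∀ t ∈ Ioo 0 (Real.pi / 2), ‖g t‖ ≤ C * t ^ b) {θ₀ : ℝ}
    (h0 : θ₀ ∈ Ioo 0 (Real.pi / 2)) {s : ℂ} (hσ : 0 < s.re) (hσ2 : 1 - b < s.re) :
    IntegrableOn (fun t => Pool.Agent.SP.ff s t * g t / ((Real.sin t ^ 2 : ℝ) : ℂ)) (Ioo 0 θ₀) := by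
  obtain ⟨C, hC⟩ := hb
  have hsub : ∀ t ∈ Ioo 0 θ₀, t ∈ Pool.Agent.SP.II := fun t ht => ⟨ht.1, ht.2.trans h0.2⟩
  have hpi := Real.pi_pos
  refine Integrable.mono' (g := fun t => (2 / s.re) * C * 4 * t ^ (s.re + b - 2))
    ((Pool.Agent.SP.integ_rpow (by linarith) h0.1).const_mul _) ?_ ?_
  · have : ContinuousOn (fun t => Pool.Agent.SP.ff s t * g t / ((Real.sin t ^ 2 : ℝ) : ℂ))
        (Ioo 0 θ₀) := by
      refine (((Pool.Agent.SP.cont_ff hσ).mono hsub).mul (hg.mono fun t ht => ?_)).div ?_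
        fun t ht => ?_
      · have := hsub t ht
        exact ⟨this.1, by linarith [this.2]⟩
      · exact (Complex.continuous_ofReal.comp (Real.continuous_sin.pow 2)).continuousOn
      · have := Pool.Agent.SP.sin_pos' (hsub t ht)
        exact_mod_cast (pow_pos this 2).ne'
    exact this.aestronglyMeasurable measurableSet_Ioo
  · rw [ae_restrict_iff' measurableSet_Ioo]
    refine ae_of_all _ fun t ht => ?_
    have ht2 := hsub t ht
    have hst := Pool.Agent.SP.sin_pos' ht2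
    have hsg := Pool.Agent.SP.sin_ge ht2
    have htp := ht.1
    rw [norm_div, norm_mul, Complex.norm_real, Real.norm_eq_abs, abs_of_pos (pow_pos hst 2)]
    have e1 : ‖Pool.Agent.SP.ff s t‖ ≤ 2 / s.re * t ^ s.re :=
      (Pool.Agent.SP.ff_norm_le ht2 hσ).trans
        (mul_le_mul_of_nonneg_left (Pool.Agent.SP.sin_rpow_le ht2 hσ.le) (by positivity))
    have e2 := hC t ht2
    have e3 : ‖Pool.Agent.SP.ff s t‖ * ‖g t‖ ≤ (2 / s.re * t ^ s.re) * (C * t ^ b) :=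
      mul_le_mul e1 e2 (norm_nonneg _) (by positivity)
    have e4 : 0 ≤ (2 / s.re * t ^ s.re) * (C * t ^ b) := (by positivity : (0 : ℝ) ≤
      ‖Pool.Agent.SP.ff s t‖ * ‖g t‖).trans e3
    have e5 : t ^ (s.re + b - 2) = t ^ s.re * t ^ b / t ^ 2 := by
      rw [Real.rpow_sub htp, Real.rpow_add htp]
      norm_cast
    calc ‖Pool.Agent.SP.ff s t‖ * ‖g t‖ / Real.sin t ^ 2
        ≤ (2 / s.re * t ^ s.re) * (C * t ^ b) / (t / 2) ^ 2 := by
          refine div_le_div₀ e4 e3 (by positivity) ?_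
          exact pow_le_pow_left₀ (by positivity) hsg 2
      _ = (2 / s.re) * C * 4 * t ^ (s.re + b - 2) := by
          rw [e5]
          field_simp
          ring

theorem dtr_inner {k : ℝ → ℝ} (hk' : TK k) {g : ℝ → ℂ} {θ₀ θ₁ : ℝ}
    (h0 : θ₀ ∈ Ioo 0 (Real.pi / 2)) (hz : ∀ θ, θ₀ ≤ θ → θ < Real.pi → ∀ t ∈ Ioc 0 θ₁, kap k θ t = 0)
    (h1 : θ₁ < θ₀) {s : ℂ} (hσ : 0 < s.re) {t : ℝ} (ht : t ∈ Ioc 0 θ₁) :
    ∫ θ in Ioo 0 θ₀, dtr_F k g s (θ, t) =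
      hk k s * (Pool.Agent.SP.ff s t * g t / ((Real.sin t ^ 2 : ℝ) : ℂ)) := by
  have ht' : t ∈ Ioo 0 Real.pi := ⟨ht.1, by linarith [ht.2, h0.2, Real.pi_pos]⟩
  have h2 := kk_ff hk' hσ ht'
  have h3 : KK k (fun t => Pool.Agent.SP.ff s t) t =
      ∫ θ in Ioo 0 θ₀, ((kap k t θ / Real.sin θ ^ 2 : ℝ) : ℂ) * Pool.Agent.SP.ff s θ := by
    unfold KK
    refine setIntegral_eq_of_subset_of_forall_sdiff_eq_zero measurableSet_Ioo ?_ ?_
    · exact Ioo_subset_Ioo_right (by linarith [h0.2, Real.pi_pos])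
    · intro θ hθ
      have h4 : θ₀ ≤ θ := by
        by_contra h5
        exact hθ.2 ⟨hθ.1.1, not_le.mp h5⟩
      rw [kap_symm, hz θ h4 hθ.1.2 t ht]
      simp
  have h4 : ∫ θ in Ioo 0 θ₀, dtr_F k g s (θ, t) =
      (g t / ((Real.sin t ^ 2 : ℝ) : ℂ)) *
        ∫ θ in Ioo 0 θ₀, ((kap k t θ / Real.sin θ ^ 2 : ℝ) : ℂ) * Pool.Agent.SP.ff s θ := by
    rw [← integral_const_mul]
    refine setIntegral_congr_fun measurableSet_Ioo fun θ hθ => ?_
    simp only [dtr_F]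
    rw [kap_symm k t θ]
    push_cast
    ring
  rw [h4, ← h3, h2]
  ring

theorem dtr {k : ℝ → ℝ} (hk' : TK k) {g : ℝ → ℂ} (hg : ContinuousOn g (Ioo 0 Real.pi)) {b : ℝ}
    (hb : ∃ C : ℝ, ∀ t ∈ Ioo 0 (Real.pi / 2), ‖g t‖ ≤ C * t ^ b) {θ₀ : ℝ}
    (h0 : θ₀ ∈ Ioo 0 (Real.pi / 2)) : ∃ B : ℂ → ℂ, DifferentiableOn ℂ B {s | 0 < s.re} ∧
      ∀ s : ℂ, 0 < s.re → 1 - b < s.re → Dt θ₀ (KK k g) s = hk k s * Dt θ₀ g s + B s := by
  obtain ⟨ρ, θ₁, b', hρ, h1, h2, _, h4, hs, hz⟩ := dtr_const hk' h0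
  have hpi := Real.pi_pos
  obtain ⟨hol, hi⟩ := dtr_hol hk' hg hb h0 hρ h4 hs h1
  refine ⟨fun s => (∫ p, dtr_F k g s p
      ∂((volume.restrict (Ioo 0 θ₀)).prod (volume.restrict (Ioo θ₁ Real.pi)))) -
      hk k s * ∫ t in Ioo θ₁ θ₀, Pool.Agent.SP.ff s t * g t / ((Real.sin t ^ 2 : ℝ) : ℂ),
      hol.sub ((hk_diff hk').differentiableOn.mul (dtr_hol2 hg h0 h1)), fun s hσ hσ2 => ?_⟩
  have hI := dtr_int hk' hg hb h0 hρ h4 hs hσ hσ2
  have e1 : Dt θ₀ (KK k g) s = ∫ θ in Ioo 0 θ₀, ∫ t in Ioo 0 Real.pi, dtr_F k g s (θ, t) := by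
    unfold Dt
    refine setIntegral_congr_fun measurableSet_Ioo fun θ hθ => ?_
    simp only [KK, dtr_F]
    rw [mul_div_right_comm, ← integral_const_mul]
    refine setIntegral_congr_fun measurableSet_Ioo fun t ht => ?_
    push_cast
    ring
  have e2 : ∫ θ in Ioo 0 θ₀, ∫ t in Ioo 0 Real.pi, dtr_F k g s (θ, t) =
      ∫ t in Ioo 0 Real.pi, ∫ θ in Ioo 0 θ₀, dtr_F k g s (θ, t) :=
    integral_integral_swap (f := fun θ t => dtr_F k g s (θ, t)) hI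
  have hH : IntegrableOn (fun t => ∫ θ in Ioo 0 θ₀, dtr_F k g s (θ, t)) (Ioo 0 Real.pi) :=
    hI.integral_prod_right
  have e3 : ∫ t in Ioo 0 Real.pi, ∫ θ in Ioo 0 θ₀, dtr_F k g s (θ, t) =
      (∫ t in Ioc 0 θ₁, ∫ θ in Ioo 0 θ₀, dtr_F k g s (θ, t)) +
        ∫ t in Ioo θ₁ Real.pi, ∫ θ in Ioo 0 θ₀, dtr_F k g s (θ, t) := by
    have hu : Ioo 0 Real.pi = Ioc 0 θ₁ ∪ Ioo θ₁ Real.pi :=
      (Ioc_union_Ioo_eq_Ioo h1.le (by linarith [h0.2])).symm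
    rw [hu] at hH ⊢
    refine setIntegral_union ?_ measurableSet_Ioo (hH.mono_set subset_union_left)
      (hH.mono_set subset_union_right)
    rw [Set.disjoint_left]
    intro x hx hx'
    exact absurd hx.2 (not_le.mpr hx'.1)
  have e4 : ∫ t in Ioc 0 θ₁, ∫ θ in Ioo 0 θ₀, dtr_F k g s (θ, t) =
      hk k s * ∫ t in Ioc 0 θ₁, Pool.Agent.SP.ff s t * g t / ((Real.sin t ^ 2 : ℝ) : ℂ) := by
    rw [← integral_const_mul]
    exact setIntegral_congr_fun measurableSet_Ioc fun t ht => dtr_inner hk' h0 hz h2 hσ ht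
  have e5 : ∫ t in Ioo θ₁ Real.pi, ∫ θ in Ioo 0 θ₀, dtr_F k g s (θ, t) =
      ∫ p, dtr_F k g s p
        ∂((volume.restrict (Ioo 0 θ₀)).prod (volume.restrict (Ioo θ₁ Real.pi))) :=
    (integral_prod_symm (dtr_F k g s) (hi s hσ)).symm
  have e6 : Dt θ₀ g s = (∫ t in Ioc 0 θ₁, Pool.Agent.SP.ff s t * g t / ((Real.sin t ^ 2 : ℝ) : ℂ)) +
      ∫ t in Ioo θ₁ θ₀, Pool.Agent.SP.ff s t * g t / ((Real.sin t ^ 2 : ℝ) : ℂ) := by
    unfold Dt
    have hG := dtr_int2 hg hb h0 hσ hσ2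
    have hu : Ioo 0 θ₀ = Ioc 0 θ₁ ∪ Ioo θ₁ θ₀ := (Ioc_union_Ioo_eq_Ioo h1.le h2).symm
    rw [hu] at hG ⊢
    refine setIntegral_union ?_ measurableSet_Ioo (hG.mono_set subset_union_left)
      (hG.mono_set subset_union_right)
    rw [Set.disjoint_left]
    intro x hx hx'
    exact absurd hx.2 (not_le.mpr hx'.1)
  rw [e1, e2, e3, e4, e5, e6]
  ring

end Pool.Agent.JOS

namespace Pool.Agent.JOS
end Pool.Agent.JOS
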