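import Pool.Agent.Lib_helper58.JOSF.RAY

/-! # JO, part S, block GRN (helper48): Green's identity with a point pair invariant -/

namespace Pool.Agent.JOS

open Complex MeasureTheory Filter Topology UpperHalfPlane ModularGroup Set Metric
open scoped MatrixGroups Modular ENNReal ComplexConjugate ContDiff
open Pool.Agent.JO (QN red FamH)

/-- the invariant integral in coordinates -/
theorem grn_H (F : ℝ → ℝ → ℂ) : ∫ w : ℍ, F w.re w.im =
    ∫ p in (univ : Set ℝ) ×ˢ Ioi (0 : ℝ), ((1 / p.2 ^ 2 : ℝ) : ℂ) * F p.1 p.2 := by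
  have hrange : Set.range UpperHalfPlane.coe = {z : ℂ | 0 < z.im} := by
    ext z
    constructor
    · rintro ⟨w, rfl⟩
      exact w.im_pos
    · intro hz
      exact ⟨⟨z, hz⟩, rfl⟩
  have h2 : Continuous (fun z : ℍ => (1 / NNReal.mk z.im z.im_pos.le : NNReal) ^ 2) := by
    refine .pow (.div₀ continuous_const ?_ ?_) _
    · exact continuous_im.subtype_mk _
    · exact fun x ↦ NNReal.ne_iff.mp x.im_ne_zero
  rw [volume_def, integral_withDensity_eq_integral_smul h2.measurable]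
  have h1 := measurableEmbedding_coe.integral_map (μ := volume.comap UpperHalfPlane.coe)
      (fun z : ℂ => ((1 / z.im ^ 2 : ℝ) : ℂ) * F z.re z.im)
  rw [measurableEmbedding_coe.map_comap, hrange] at h1
  have h3 := (Complex.volume_preserving_equiv_real_prod.symm).setIntegral_preimage_emb
    (Complex.measurableEquivRealProd.symm.measurableEmbedding)
    (fun z : ℂ => ((1 / z.im ^ 2 : ℝ) : ℂ) * F z.re z.im) {z : ℂ | 0 < z.im}
  have h4 : Complex.measurableEquivRealProd.symm ⁻¹' {z : ℂ | 0 < z.im} =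
      (univ : Set ℝ) ×ˢ Ioi (0 : ℝ) := by
    ext p
    constructor
    · intro h
      exact ⟨mem_univ _, h⟩
    · intro h
      exact h.2
  rw [h4] at h3
  calc _ = ∫ w : ℍ, ((1 / (w : ℂ).im ^ 2 : ℝ) : ℂ) * F (w : ℂ).re (w : ℂ).im
        ∂(volume.comap UpperHalfPlane.coe) := by
        refine integral_congr_ae (Eventually.of_forall fun w => ?_)
        show ((1 / NNReal.mk w.im w.im_pos.le : NNReal) ^ 2) • F w.re w.im =
          ((1 / w.im ^ 2 : ℝ) : ℂ) * F w.re w.im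
        rw [NNReal.smul_def, Complex.real_smul]
        congr 2
        push_cast
        rw [div_pow, one_pow]
    _ = _ := h1.symm
    _ = _ := h3.symm

/-- integral of a derivative -/
theorem grn_ibp {P P' : ℝ → ℂ} {α β : ℝ} (hab : α ≤ β)
    (hd : ∀ t ∈ Icc α β, HasDerivAt P (P' t) t) (hc : ContinuousOn P' (Icc α β))
    (h0 : P α = 0) (h1 : P β = 0) : ∫ t in Icc α β, P' t = 0 := by
  rw [integral_Icc_eq_integral_Ioc, ← intervalIntegral.integral_of_le hab,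
    intervalIntegral.integral_eq_sub_of_hasDerivAt (f := P), h0, h1, sub_zero]
  · intro t ht
    rw [uIcc_of_le hab] at ht
    exact hd t ht
  · refine ContinuousOn.intervalIntegrable ?_
    rw [uIcc_of_le hab]
    exact hc

/-- the part of the plane which is used -/
theorem grn_box {G : ℝ × ℝ → ℂ} {α β a b : ℝ} (ha : 0 < a)
    (h0 : ∀ p : ℝ × ℝ, 0 < p.2 → p ∉ Icc α β ×ˢ Icc a b → G p = 0) :
    ∫ p in (univ : Set ℝ) ×ˢ Ioi (0 : ℝ), G p = ∫ p in Icc α β ×ˢ Icc a b, G p := by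
  refine (setIntegral_eq_of_subset_of_forall_sdiff_eq_zero
    (MeasurableSet.univ.prod measurableSet_Ioi) ?_ ?_)
  · rintro p ⟨_, hp⟩
    exact ⟨mem_univ _, lt_of_lt_of_le ha hp.1⟩
  · rintro p ⟨⟨_, hp⟩, hp'⟩
    exact h0 p hp hp'

/-- Green's identity for a function with compact support -/
theorem grn_main {u ux uxx uy uyy ψ ψx ψxx ψy ψyy : ℝ → ℝ → ℂ} (U : C2H u ux uxx uy uyy)
    (H : C2H ψ ψx ψxx ψy ψyy) {α β a b : ℝ} (hαβ : α ≤ β) (hab : a ≤ b) (ha : 0 < a)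
    (h0 : ∀ x y, 0 < y → (x, y) ∉ Ioo α β ×ˢ Ioo a b → u x y = 0 ∧ ux x y = 0 ∧ uy x y = 0 ∧
      uxx x y = 0 ∧ uyy x y = 0) :
    ∫ w : ℍ, ((w.im : ℂ) ^ 2 * (uxx w.re w.im + uyy w.re w.im)) * ψ w.re w.im =
      ∫ w : ℍ, u w.re w.im * ((w.im : ℂ) ^ 2 * (ψxx w.re w.im + ψyy w.re w.im)) := by
  have hsub : Icc α β ×ˢ Icc a b ⊆ {p : ℝ × ℝ | 0 < p.2} := fun p hp => lt_of_lt_of_le ha hp.2.1
  have hnot : ∀ p : ℝ × ℝ, p ∉ Icc α β ×ˢ Icc a b → (p.1, p.2) ∉ Ioo α β ×ˢ Ioo a b := by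
    intro p hp h
    exact hp ⟨Ioo_subset_Icc_self h.1, Ioo_subset_Icc_self h.2⟩
  rw [grn_H (fun x y => ((y : ℂ) ^ 2 * (uxx x y + uyy x y)) * ψ x y),
    grn_H (fun x y => u x y * ((y : ℂ) ^ 2 * (ψxx x y + ψyy x y)))]
  have e1 : ∫ p in (univ : Set ℝ) ×ˢ Ioi (0 : ℝ), ((1 / p.2 ^ 2 : ℝ) : ℂ) *
      (((p.2 : ℂ) ^ 2 * (uxx p.1 p.2 + uyy p.1 p.2)) * ψ p.1 p.2) =
      ∫ p in Icc α β ×ˢ Icc a b, (uxx p.1 p.2 + uyy p.1 p.2) * ψ p.1 p.2 := by
    rw [← grn_box ha]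
    · refine setIntegral_congr_fun (MeasurableSet.univ.prod measurableSet_Ioi) ?_
      rintro p ⟨_, hp⟩
      have hp' : (p.2 : ℂ) ≠ 0 := Complex.ofReal_ne_zero.2 (ne_of_gt hp)
      show ((1 / p.2 ^ 2 : ℝ) : ℂ) * (((p.2 : ℂ) ^ 2 * (uxx p.1 p.2 + uyy p.1 p.2)) * ψ p.1 p.2) = _
      push_cast
      field_simp
    · intro p hp hp'
      obtain ⟨_, _, _, h4, h5⟩ := h0 p.1 p.2 hp (hnot p hp')
      rw [h4, h5, add_zero, zero_mul]
  have e2 : ∫ p in (univ : Set ℝ) ×ˢ Ioi (0 : ℝ), ((1 / p.2 ^ 2 : ℝ) : ℂ) *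
      (u p.1 p.2 * ((p.2 : ℂ) ^ 2 * (ψxx p.1 p.2 + ψyy p.1 p.2))) =
      ∫ p in Icc α β ×ˢ Icc a b, u p.1 p.2 * (ψxx p.1 p.2 + ψyy p.1 p.2) := by
    rw [← grn_box ha]
    · refine setIntegral_congr_fun (MeasurableSet.univ.prod measurableSet_Ioi) ?_
      rintro p ⟨_, hp⟩
      have hp' : (p.2 : ℂ) ≠ 0 := Complex.ofReal_ne_zero.2 (ne_of_gt hp)
      show ((1 / p.2 ^ 2 : ℝ) : ℂ) * (u p.1 p.2 * ((p.2 : ℂ) ^ 2 * (ψxx p.1 p.2 + ψyy p.1 p.2))) = _
      push_cast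
      field_simp
    · intro p hp hp'
      obtain ⟨h1, _⟩ := h0 p.1 p.2 hp (hnot p hp')
      rw [h1, zero_mul]
  rw [e1, e2]
  have hK : IsCompact (Icc α β ×ˢ Icc a b) := isCompact_Icc.prod isCompact_Icc
  have cu := U.c.mono hsub
  have cuxx := U.cxx.mono hsub
  have cuyy := U.cyy.mono hsub
  have cp := H.c.mono hsub
  have cpxx := H.cxx.mono hsub
  have cpyy := H.cyy.mono hsub
  have c1 : ContinuousOn (fun p : ℝ × ℝ => uxx p.1 p.2 * ψ p.1 p.2 - u p.1 p.2 * ψxx p.1 p.2)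
    (Icc α β ×ˢ Icc a b) := (cuxx.mul cp).sub (cu.mul cpxx)
  have c2 : ContinuousOn (fun p : ℝ × ℝ => uyy p.1 p.2 * ψ p.1 p.2 - u p.1 p.2 * ψyy p.1 p.2)
    (Icc α β ×ˢ Icc a b) := (cuyy.mul cp).sub (cu.mul cpyy)
  have i1 := c1.integrableOn_compact hK (μ := (volume : Measure (ℝ × ℝ)))
  have i2 := c2.integrableOn_compact hK (μ := (volume : Measure (ℝ × ℝ)))
  have i3 : IntegrableOn (fun p : ℝ × ℝ => (uxx p.1 p.2 + uyy p.1 p.2) * ψ p.1 p.2)
      (Icc α β ×ˢ Icc a b) :=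
    ((cuxx.add cuyy).mul cp).integrableOn_compact hK (μ := (volume : Measure (ℝ × ℝ)))
  have i4 : IntegrableOn (fun p : ℝ × ℝ => u p.1 p.2 * (ψxx p.1 p.2 + ψyy p.1 p.2))
      (Icc α β ×ˢ Icc a b) :=
    (cu.mul (cpxx.add cpyy)).integrableOn_compact hK (μ := (volume : Measure (ℝ × ℝ)))
  have z1 : ∫ p in Icc α β ×ˢ Icc a b,
      (uxx p.1 p.2 * ψ p.1 p.2 - u p.1 p.2 * ψxx p.1 p.2) = 0 := by
    rw [Measure.volume_eq_prod, ← setIntegral_prod_swap, setIntegral_prod]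
    · refine setIntegral_eq_zero_of_forall_eq_zero fun y hy => ?_
      have hy0 : 0 < y := lt_of_lt_of_le ha hy.1
      refine grn_ibp (P := fun x => ux x y * ψ x y - u x y * ψx x y) hαβ (fun x _ => ?_) ?_ ?_ ?_
      · show HasDerivAt _ (uxx x y * ψ x y - u x y * ψxx x y) x
        exact (((U.dxx x y hy0).mul (H.dx x y hy0)).sub
          ((U.dx x y hy0).mul (H.dxx x y hy0))).congr_deriv (by ring)
      · exact c1.comp (by fun_prop) fun x hx => ⟨hx, hy⟩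
      · obtain ⟨h1, h2, _⟩ := h0 α y hy0 (fun h => lt_irrefl _ h.1.1)
        show ux α y * ψ α y - u α y * ψx α y = 0
        rw [h1, h2, zero_mul, zero_mul, sub_zero]
      · obtain ⟨h1, h2, _⟩ := h0 β y hy0 (fun h => lt_irrefl _ h.1.2)
        show ux β y * ψ β y - u β y * ψx β y = 0
        rw [h1, h2, zero_mul, zero_mul, sub_zero]
    · have h := i1
      rw [Measure.volume_eq_prod] at h
      exact h.swap
  have z2 : ∫ p in Icc α β ×ˢ Icc a b,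
      (uyy p.1 p.2 * ψ p.1 p.2 - u p.1 p.2 * ψyy p.1 p.2) = 0 := by
    rw [Measure.volume_eq_prod, setIntegral_prod]
    · refine setIntegral_eq_zero_of_forall_eq_zero fun x hx => ?_
      refine grn_ibp (P := fun y => uy x y * ψ x y - u x y * ψy x y) hab (fun y hy => ?_) ?_ ?_ ?_
      · have hy0 : 0 < y := lt_of_lt_of_le ha hy.1
        show HasDerivAt _ (uyy x y * ψ x y - u x y * ψyy x y) y
        exact (((U.dyy x y hy0).mul (H.dy x y hy0)).sub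
          ((U.dy x y hy0).mul (H.dyy x y hy0))).congr_deriv (by ring)
      · exact c2.comp (by fun_prop) fun y hy => ⟨hx, hy⟩
      · obtain ⟨h1, _, h3, _⟩ := h0 x a ha (fun h => lt_irrefl _ h.2.1)
        show uy x a * ψ x a - u x a * ψy x a = 0
        rw [h1, h3, zero_mul, zero_mul, sub_zero]
      · obtain ⟨h1, _, h3, _⟩ := h0 x b (lt_of_lt_of_le ha hab) (fun h => lt_irrefl _ h.2.2)
        show uy x b * ψ x b - u x b * ψy x b = 0
        rw [h1, h3, zero_mul, zero_mul, sub_zero]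
    · have h := i2
      rw [Measure.volume_eq_prod] at h
      exact h
  rw [← sub_eq_zero, ← integral_sub i3 i4]
  have h5 : ∫ p in Icc α β ×ˢ Icc a b, ((uxx p.1 p.2 + uyy p.1 p.2) * ψ p.1 p.2 -
      u p.1 p.2 * (ψxx p.1 p.2 + ψyy p.1 p.2)) =
      ∫ p in Icc α β ×ˢ Icc a b, ((uxx p.1 p.2 * ψ p.1 p.2 - u p.1 p.2 * ψxx p.1 p.2) +
        (uyy p.1 p.2 * ψ p.1 p.2 - u p.1 p.2 * ψyy p.1 p.2)) := by
    congr 1
    funext p
    ring
  rw [h5, integral_add i1 i2, z1, z2, add_zero]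

/-! ## The kernel in coordinates -/

/-- `cosh dist` -/
noncomputable def grn_c (x₀ y₀ x y : ℝ) : ℝ := ((x₀ - x) ^ 2 + y₀ ^ 2 + y ^ 2) / (2 * y₀ * y)

noncomputable def grn_cx (x₀ y₀ x y : ℝ) : ℝ := (x - x₀) / (y₀ * y)

noncomputable def grn_cxx (_x₀ y₀ _x y : ℝ) : ℝ := 1 / (y₀ * y)

noncomputable def grn_cy (x₀ y₀ x y : ℝ) : ℝ := (y ^ 2 - y₀ ^ 2 - (x₀ - x) ^ 2) / (2 * y₀ * y ^ 2)

noncomputable def grn_cyy (x₀ y₀ x y : ℝ) : ℝ := ((x₀ - x) ^ 2 + y₀ ^ 2) / (y₀ * y ^ 3)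

theorem grn_c_eq (z w : ℍ) : Real.cosh (dist z w) = grn_c z.re z.im w.re w.im := by
  rw [cosh_dist', grn_c]

theorem grn_c1 (x₀ y₀ x y : ℝ) (h0 : 0 < y₀) (hy : 0 < y) :
    y ^ 2 * (grn_cx x₀ y₀ x y ^ 2 + grn_cy x₀ y₀ x y ^ 2) = grn_c x₀ y₀ x y ^ 2 - 1 := by
  unfold grn_cx grn_cy grn_c
  field_simp
  ring

theorem grn_c2 (x₀ y₀ x y : ℝ) (h0 : 0 < y₀) (hy : 0 < y) :
    y ^ 2 * (grn_cxx x₀ y₀ x y + grn_cyy x₀ y₀ x y) = 2 * grn_c x₀ y₀ x y := by
  unfold grn_cxx grn_cyy grn_c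
  field_simp
  ring

theorem grn_dx (x₀ y₀ x y : ℝ) (h0 : 0 < y₀) (hy : 0 < y) :
    HasDerivAt (fun t => grn_c x₀ y₀ t y) (grn_cx x₀ y₀ x y) x := by
  unfold grn_c grn_cx
  refine ((((((hasDerivAt_id x).const_sub x₀).pow 2).add_const (y₀ ^ 2)).add_const
    (y ^ 2)).div_const (2 * y₀ * y)).congr_deriv ?_
  simp only [Pi.pow_apply, id]
  push_cast
  field_simp
  ring

theorem grn_dxx (x₀ y₀ x y : ℝ) (h0 : 0 < y₀) (hy : 0 < y) :
    HasDerivAt (fun t => grn_cx x₀ y₀ t y) (grn_cxx x₀ y₀ x y) x := by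
  unfold grn_cx grn_cxx
  exact ((hasDerivAt_id x).sub_const x₀).div_const (y₀ * y)

theorem grn_dy (x₀ y₀ x y : ℝ) (h0 : 0 < y₀) (hy : 0 < y) :
    HasDerivAt (fun t => grn_c x₀ y₀ x t) (grn_cy x₀ y₀ x y) y := by
  unfold grn_c grn_cy
  refine ((((hasDerivAt_id y).pow 2).const_add ((x₀ - x) ^ 2 + y₀ ^ 2)).div
    ((hasDerivAt_id y).const_mul (2 * y₀)) (by simp; exact ⟨h0.ne', hy.ne'⟩)).congr_deriv ?_
  simp only [Pi.pow_apply, id]
  push_cast
  field_simp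
  ring

theorem grn_dyy (x₀ y₀ x y : ℝ) (h0 : 0 < y₀) (hy : 0 < y) :
    HasDerivAt (fun t => grn_cy x₀ y₀ x t) (grn_cyy x₀ y₀ x y) y := by
  unfold grn_cy grn_cyy
  refine (((((hasDerivAt_id y).pow 2).sub_const (y₀ ^ 2)).sub_const ((x₀ - x) ^ 2)).div
    (((hasDerivAt_id y).pow 2).const_mul (2 * y₀)) (by simp; exact ⟨h0.ne', hy.ne'⟩)).congr_deriv ?_
  simp only [Pi.pow_apply, id]
  push_cast
  field_simp
  ring

/-- the functions of `grn_c` -/
theorem grn_C2 {k : ℝ → ℝ} (hk : ContDiff ℝ ∞ k) (x₀ y₀ : ℝ) (h0 : 0 < y₀) :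
    C2H (fun x y => ((k (grn_c x₀ y₀ x y) : ℝ) : ℂ))
      (fun x y => ((deriv k (grn_c x₀ y₀ x y) * grn_cx x₀ y₀ x y : ℝ) : ℂ))
      (fun x y => ((deriv (deriv k) (grn_c x₀ y₀ x y) * grn_cx x₀ y₀ x y ^ 2 +
        deriv k (grn_c x₀ y₀ x y) * grn_cxx x₀ y₀ x y : ℝ) : ℂ))
      (fun x y => ((deriv k (grn_c x₀ y₀ x y) * grn_cy x₀ y₀ x y : ℝ) : ℂ))
      (fun x y => ((deriv (deriv k) (grn_c x₀ y₀ x y) * grn_cy x₀ y₀ x y ^ 2 +
        deriv k (grn_c x₀ y₀ x y) * grn_cyy x₀ y₀ x y : ℝ) : ℂ)) := by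
  have hk1 : ContDiff ℝ ∞ (deriv k) := (contDiff_infty_iff_deriv.1 hk).2
  have hk2 : ContDiff ℝ ∞ (deriv (deriv k)) := (contDiff_infty_iff_deriv.1 hk1).2
  have d1 : ∀ c, HasDerivAt k (deriv k c) c := fun c =>
    ((contDiff_infty_iff_deriv.1 hk).1 c).hasDerivAt
  have d2 : ∀ c, HasDerivAt (deriv k) (deriv (deriv k) c) c := fun c =>
    ((contDiff_infty_iff_deriv.1 hk1).1 c).hasDerivAt
  have hcc : ContinuousOn (fun p : ℝ × ℝ => grn_c x₀ y₀ p.1 p.2) {p | 0 < p.2} := by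
    unfold grn_c
    refine ContinuousOn.div (by fun_prop) (by fun_prop) ?_
    intro p hp
    have : 0 < p.2 := hp
    positivity
  have hcx : ContinuousOn (fun p : ℝ × ℝ => grn_cx x₀ y₀ p.1 p.2) {p | 0 < p.2} := by
    unfold grn_cx
    refine ContinuousOn.div (by fun_prop) (by fun_prop) ?_
    intro p hp
    have : 0 < p.2 := hp
    positivity
  have hcxx : ContinuousOn (fun p : ℝ × ℝ => grn_cxx x₀ y₀ p.1 p.2) {p | 0 < p.2} := by
    unfold grn_cxx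
    refine ContinuousOn.div (by fun_prop) (by fun_prop) ?_
    intro p hp
    have : 0 < p.2 := hp
    positivity
  have hcy : ContinuousOn (fun p : ℝ × ℝ => grn_cy x₀ y₀ p.1 p.2) {p | 0 < p.2} := by
    unfold grn_cy
    refine ContinuousOn.div (by fun_prop) (by fun_prop) ?_
    intro p hp
    have : 0 < p.2 := hp
    positivity
  have hcyy : ContinuousOn (fun p : ℝ × ℝ => grn_cyy x₀ y₀ p.1 p.2) {p | 0 < p.2} := by
    unfold grn_cyy
    refine ContinuousOn.div (by fun_prop) (by fun_prop) ?_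
    intro p hp
    have : 0 < p.2 := hp
    positivity
  have k0 := hk.continuous.comp_continuousOn hcc
  have k1 := hk1.continuous.comp_continuousOn hcc
  have k2 := hk2.continuous.comp_continuousOn hcc
  refine ⟨?_, ?_, ?_, ?_, ?_, ?_, ?_, ?_, ?_⟩
  · intro x y hy
    exact ((d1 _).comp x (grn_dx x₀ y₀ x y h0 hy)).ofReal_comp
  · intro x y hy
    refine ((((d2 _).comp x (grn_dx x₀ y₀ x y h0 hy)).mul
      (grn_dxx x₀ y₀ x y h0 hy)).ofReal_comp).congr_deriv ?_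
    simp only [Function.comp]
    push_cast
    ring
  · intro x y hy
    exact ((d1 _).comp y (grn_dy x₀ y₀ x y h0 hy)).ofReal_comp
  · intro x y hy
    refine ((((d2 _).comp y (grn_dy x₀ y₀ x y h0 hy)).mul
      (grn_dyy x₀ y₀ x y h0 hy)).ofReal_comp).congr_deriv ?_
    simp only [Function.comp]
    push_cast
    ring
  · exact Complex.continuous_ofReal.comp_continuousOn k0
  · exact Complex.continuous_ofReal.comp_continuousOn (k1.mul hcx)
  · exact Complex.continuous_ofReal.comp_continuousOn ((k2.mul (hcx.pow 2)).add (k1.mul hcxx))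
  · exact Complex.continuous_ofReal.comp_continuousOn (k1.mul hcy)
  · exact Complex.continuous_ofReal.comp_continuousOn ((k2.mul (hcy.pow 2)).add (k1.mul hcyy))

theorem grn_DD (k : ℝ → ℝ) (x₀ y₀ x y : ℝ) (h0 : 0 < y₀) (hy : 0 < y) :
    DD k (grn_c x₀ y₀ x y) = -(y ^ 2 * ((deriv (deriv k) (grn_c x₀ y₀ x y) * grn_cx x₀ y₀ x y ^ 2 +
        deriv k (grn_c x₀ y₀ x y) * grn_cxx x₀ y₀ x y) +
        (deriv (deriv k) (grn_c x₀ y₀ x y) * grn_cy x₀ y₀ x y ^ 2 +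
        deriv k (grn_c x₀ y₀ x y) * grn_cyy x₀ y₀ x y))) := by
  unfold DD
  rw [← grn_c1 x₀ y₀ x y h0 hy, ← grn_c2 x₀ y₀ x y h0 hy]
  ring

/-- the support -/
theorem grn_supp {x₀ y₀ R : ℝ} (h0 : 0 < y₀) (hR : 1 ≤ R) {x y : ℝ} (hy : 0 < y)
    (hn : (x, y) ∉ Ioo (x₀ - 3 * R * y₀) (x₀ + 3 * R * y₀) ×ˢ Ioo (y₀ / (3 * R)) (3 * R * y₀)) :
    R < grn_c x₀ y₀ x y := by
  by_contra hcon
  have h1 : grn_c x₀ y₀ x y ≤ R := not_lt.1 hcon
  unfold grn_c at h1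
  rw [div_le_iff₀ (by positivity)] at h1
  have h2 : 0 ≤ (x₀ - x) ^ 2 := sq_nonneg _
  have hRy : 0 < R * y₀ := by positivity
  have hyu : y < 3 * R * y₀ := by
    by_contra h
    have h' := not_lt.1 h
    nlinarith [mul_pos h0 hy, sq_nonneg y₀]
  have hyl : y₀ / (3 * R) < y := by
    rw [div_lt_iff₀ (by positivity)]
    by_contra h
    have h' := not_lt.1 h
    nlinarith [mul_pos h0 hy]
  have hx : (x₀ - x) ^ 2 < (3 * R * y₀) ^ 2 := by nlinarith [mul_pos h0 hy, mul_pos hRy hRy]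
  have hx' := abs_lt_of_sq_lt_sq hx (by positivity)
  rw [abs_lt] at hx'
  exact hn ⟨⟨by linarith [hx'.2], by linarith [hx'.1]⟩, ⟨hyl, hyu⟩⟩

/-- the derivatives of `k` vanish beyond the support -/
theorem grn_vanish {k : ℝ → ℝ} (hk : TK k) : ∃ R : ℝ, 1 ≤ R ∧ ∀ c, R < c → k c = 0 ∧
    deriv k c = 0 ∧ deriv (deriv k) c = 0 := by
  obtain ⟨R, hR⟩ := hk.supp
  refine ⟨max R 1, le_max_right _ _, fun c hc => ?_⟩
  have hc' : R < c := lt_of_le_of_lt (le_max_left _ _) hc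
  have h0 : ∀ t, R < t → k =ᶠ[𝓝 t] fun _ => 0 := fun t ht => by
    filter_upwards [Ioi_mem_nhds ht] with s hs
    exact hR s (le_of_lt hs)
  have h1 : ∀ t, R < t → deriv k t = 0 := fun t ht => by
    rw [(h0 t ht).deriv_eq]
    simp
  refine ⟨hR c hc'.le, h1 c hc', ?_⟩
  have h2 : deriv k =ᶠ[𝓝 c] fun _ => 0 := by
    filter_upwards [Ioi_mem_nhds hc'] with s hs
    exact h1 s hs
  rw [h2.deriv_eq]
  simp

/-- GRN: Green's identity with a point pair invariant -/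
theorem grn {k : ℝ → ℝ} (hk : TK k) {ψ ψx ψxx ψy ψyy : ℝ → ℝ → ℂ} (H : C2H ψ ψx ψxx ψy ψyy)
    (z : ℍ) :
    ∫ w : ℍ, (kz (DD k) z w : ℂ) * ψ w.re w.im =
      ∫ w : ℍ, (kz k z w : ℂ) * (-((w.im : ℂ) ^ 2 * (ψxx w.re w.im + ψyy w.re w.im))) := by
  obtain ⟨R, hR1, hR⟩ := grn_vanish hk
  have h0 := z.im_pos
  have hm := grn_main (grn_C2 hk.smooth z.re z.im h0) H (α := z.re - 3 * R * z.im)
    (β := z.re + 3 * R * z.im) (a := z.im / (3 * R)) (b := 3 * R * z.im)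
    (by nlinarith [mul_pos (lt_of_lt_of_le one_pos hR1) h0])
    (by
      rw [div_le_iff₀ (by positivity)]
      nlinarith [mul_pos (lt_of_lt_of_le one_pos hR1) h0])
    (by positivity)
    (fun x y hy hn => by
      obtain ⟨r1, r2, r3⟩ := hR _ (grn_supp h0 hR1 hy hn)
      refine ⟨?_, ?_, ?_, ?_, ?_⟩
      · show ((k (grn_c z.re z.im x y) : ℝ) : ℂ) = 0
        rw [r1, Complex.ofReal_zero]
      · show ((deriv k (grn_c z.re z.im x y) * grn_cx z.re z.im x y : ℝ) : ℂ) = 0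
        rw [r2, zero_mul, Complex.ofReal_zero]
      · show ((deriv k (grn_c z.re z.im x y) * grn_cy z.re z.im x y : ℝ) : ℂ) = 0
        rw [r2, zero_mul, Complex.ofReal_zero]
      · show ((deriv (deriv k) (grn_c z.re z.im x y) * grn_cx z.re z.im x y ^ 2 +
          deriv k (grn_c z.re z.im x y) * grn_cxx z.re z.im x y : ℝ) : ℂ) = 0
        rw [r2, r3, zero_mul, zero_mul, add_zero, Complex.ofReal_zero]
      · show ((deriv (deriv k) (grn_c z.re z.im x y) * grn_cy z.re z.im x y ^ 2 +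
          deriv k (grn_c z.re z.im x y) * grn_cyy z.re z.im x y : ℝ) : ℂ) = 0
        rw [r2, r3, zero_mul, zero_mul, add_zero, Complex.ofReal_zero])
  have e1 : ∫ w : ℍ, (kz (DD k) z w : ℂ) * ψ w.re w.im = -∫ w : ℍ, ((w.im : ℂ) ^ 2 *
      (((deriv (deriv k) (grn_c z.re z.im w.re w.im) * grn_cx z.re z.im w.re w.im ^ 2 +
          deriv k (grn_c z.re z.im w.re w.im) * grn_cxx z.re z.im w.re w.im : ℝ) : ℂ) +
        ((deriv (deriv k) (grn_c z.re z.im w.re w.im) * grn_cy z.re z.im w.re w.im ^ 2 +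
          deriv k (grn_c z.re z.im w.re w.im) * grn_cyy z.re z.im w.re w.im : ℝ) : ℂ))) *
        ψ w.re w.im := by
    rw [← integral_neg]
    refine integral_congr_ae (Eventually.of_forall fun w => ?_)
    show (kz (DD k) z w : ℂ) * ψ w.re w.im = _
    rw [kz, grn_c_eq, grn_DD k z.re z.im w.re w.im h0 w.im_pos]
    push_cast
    ring
  rw [e1, hm, ← integral_neg]
  refine integral_congr_ae (Eventually.of_forall fun w => ?_)
  show -(((k (grn_c z.re z.im w.re w.im) : ℝ) : ℂ) *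
    ((w.im : ℂ) ^ 2 * (ψxx w.re w.im + ψyy w.re w.im))) =
    (kz k z w : ℂ) * (-((w.im : ℂ) ^ 2 * (ψxx w.re w.im + ψyy w.re w.im)))
  have e : kz k z w = k (grn_c z.re z.im w.re w.im) := by
    unfold kz
    rw [grn_c_eq]
  rw [e]
  ring

/-- GRN -/
theorem grn_one {k : ℝ → ℝ} (hk : TK k) (z : ℍ) : ∫ w : ℍ, kz (DD k) z w = 0 := by
  have H : C2H (fun _ _ => 1) (fun _ _ => 0) (fun _ _ => 0) (fun _ _ => 0) (fun _ _ => 0) :=
    ⟨fun x y _ => hasDerivAt_const x 1, fun x y _ => hasDerivAt_const x 0,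
      fun x y _ => hasDerivAt_const y 1, fun x y _ => hasDerivAt_const y 0, continuousOn_const,
      continuousOn_const, continuousOn_const, continuousOn_const, continuousOn_const⟩
  have h := grn hk H z
  simp only [mul_one, add_zero, mul_zero, neg_zero, integral_zero] at h
  have h2 : ((∫ w : ℍ, kz (DD k) z w : ℝ) : ℂ) = 0 := by
    rw [← h, integral_complex_ofReal]
  exact_mod_cast h2

/-- GRN -/
theorem grn_cpow {k : ℝ → ℝ} (hk : TK k) (z : ℍ) (a : ℂ) :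
    ∫ w : ℍ, (kz (DD k) z w : ℂ) * (w.im : ℂ) ^ a =
      a * (1 - a) * ∫ w : ℍ, (kz k z w : ℂ) * (w.im : ℂ) ^ a := by
  have hd : ∀ (b : ℂ) (y : ℝ), 0 < y →
      HasDerivAt (fun t : ℝ => (t : ℂ) ^ b) (b * (y : ℂ) ^ (b - 1)) y := by
    intro b y hy
    have h1 : HasDerivAt (fun t : ℂ => t ^ b) (b * (y : ℂ) ^ (b - 1)) (y : ℂ) := by
      have := (hasDerivAt_id (y : ℂ)).cpow_const (c := b) (Or.inl (by simpa using hy))
      simpa using this
    exact h1.comp_ofReal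
  have hc : ∀ b : ℂ, ContinuousOn (fun p : ℝ × ℝ => (p.2 : ℂ) ^ b) {p | 0 < p.2} := by
    intro b p hp
    refine ContinuousAt.continuousWithinAt ?_
    have hp' : 0 < p.2 := hp
    exact (Complex.continuous_ofReal.continuousAt.comp continuous_snd.continuousAt).cpow
      continuousAt_const (Or.inl (by simpa using hp'))
  have H : C2H (fun _ y => (y : ℂ) ^ a) (fun _ _ => 0) (fun _ _ => 0)
      (fun _ y => a * (y : ℂ) ^ (a - 1)) (fun _ y => a * ((a - 1) * (y : ℂ) ^ (a - 1 - 1))) :=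
    ⟨fun x y _ => hasDerivAt_const x _, fun x y _ => hasDerivAt_const x 0,
      fun x y hy => hd a y hy, fun x y hy => (hd (a - 1) y hy).const_mul a, hc a,
      continuousOn_const, continuousOn_const, continuousOn_const.mul (hc _),
      continuousOn_const.mul (continuousOn_const.mul (hc _))⟩
  rw [grn hk H z, ← integral_const_mul]
  refine integral_congr_ae (Eventually.of_forall fun w => ?_)
  show (kz k z w : ℂ) * (-((w.im : ℂ) ^ 2 * (0 + a * ((a - 1) * (w.im : ℂ) ^ (a - 1 - 1))))) =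
    a * (1 - a) * ((kz k z w : ℂ) * (w.im : ℂ) ^ a)
  have hw : (w.im : ℂ) ≠ 0 := Complex.ofReal_ne_zero.2 w.im_pos.ne'
  have e : (w.im : ℂ) ^ 2 * (w.im : ℂ) ^ (a - 1 - 1) = (w.im : ℂ) ^ a := by
    rw [← Complex.cpow_ofNat, ← Complex.cpow_add _ _ hw]
    congr 1
    ring
  rw [← e]
  ring

/-- GRN -/
theorem grn_rpow {k : ℝ → ℝ} (hk : TK k) (z : ℍ) (a : ℝ) :
    ∫ w : ℍ, kz (DD k) z w * w.im ^ a = a * (1 - a) * ∫ w : ℍ, kz k z w * w.im ^ a := by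
  have h := grn_cpow hk z (a : ℂ)
  have e : ∀ (q : ℝ → ℝ), ∫ w : ℍ, (kz q z w : ℂ) * (w.im : ℂ) ^ (a : ℂ) =
      ((∫ w : ℍ, kz q z w * w.im ^ a : ℝ) : ℂ) := by
    intro q
    rw [← integral_complex_ofReal]
    refine integral_congr_ae (Eventually.of_forall fun w => ?_)
    show (kz q z w : ℂ) * (w.im : ℂ) ^ (a : ℂ) = ((kz q z w * w.im ^ a : ℝ) : ℂ)
    rw [← Complex.ofReal_cpow w.im_pos.le]
    push_cast
    rfl
  rw [e, e] at h
  exact_mod_cast h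

/-- GRN: the radial Laplacian may be moved -/
theorem grn_kz {k l : ℝ → ℝ} (hk : TK k) (hl : TK l) (z w : ℍ) :
    ∫ u : ℍ, kz (DD k) z u * kz l u w = ∫ u : ℍ, kz k z u * kz (DD l) u w := by
  have h := grn hk (grn_C2 hl.smooth w.re w.im w.im_pos) z
  have e : ∀ (p q : ℝ → ℝ), ((∫ u : ℍ, kz p z u * kz q u w : ℝ) : ℂ) =
      ∫ u : ℍ, (kz p z u : ℂ) * ((q (grn_c w.re w.im u.re u.im) : ℝ) : ℂ) := by
    intro p q
    rw [← integral_complex_ofReal]
    refine integral_congr_ae (Eventually.of_forall fun u => ?_)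
    show ((kz p z u * kz q u w : ℝ) : ℂ) = _
    rw [show kz q u w = q (grn_c w.re w.im u.re u.im) by
      rw [kz, dist_comm, grn_c_eq]]
    push_cast
    rfl
  have h2 : ((∫ u : ℍ, kz (DD k) z u * kz l u w : ℝ) : ℂ) =
      ((∫ u : ℍ, kz k z u * kz (DD l) u w : ℝ) : ℂ) := by
    rw [e, e, h]
    refine integral_congr_ae (Eventually.of_forall fun u => ?_)
    show (kz k z u : ℂ) * _ = (kz k z u : ℂ) * _
    rw [grn_DD l w.re w.im u.re u.im w.im_pos u.im_pos]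
    push_cast
    ring
  exact_mod_cast h2

end Pool.Agent.JOS
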