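import Pool.Agent.Lib_helper58.JOSF.POL

/-! # JO, part S, block KA1: the one dimensional kernels -/

namespace Pool.Agent.JOS

open Complex MeasureTheory Filter Topology UpperHalfPlane ModularGroup Set Metric
open scoped MatrixGroups Modular ENNReal ComplexConjugate ContDiff
open Pool.Agent.JO (QN red FamH)

/-- KA1 -/
theorem cc_ge {τ θ θ' : ℝ} (h : θ ∈ Ioo 0 Real.pi) (h' : θ' ∈ Ioo 0 Real.pi) :
    1 ≤ cc τ θ θ' := by
  unfold cc
  have hs := Real.sin_pos_of_mem_Ioo h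
  have hs' := Real.sin_pos_of_mem_Ioo h'
  rw [le_div_iff₀ (mul_pos hs hs')]
  have h1 := Real.cos_le_one (θ - θ')
  rw [Real.cos_sub] at h1
  have h2 := Real.one_le_cosh τ
  linarith

theorem ka_cosh (x : ℝ) : 1 + x ^ 2 / 2 ≤ Real.cosh x := by
  have h1 : Real.cosh x = 1 + 2 * Real.sinh (x / 2) ^ 2 := by
    have h2 := Real.cosh_sq (x / 2)
    have h3 := Real.cosh_two_mul (x / 2)
    rw [show 2 * (x / 2) = x by ring] at h3
    rw [h3, h2]
    ring
  rw [h1]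
  have h4 : (x / 2) ^ 2 ≤ Real.sinh (x / 2) ^ 2 := by
    rw [sq_le_sq]
    rcases le_total 0 (x / 2) with h | h
    · rw [abs_of_nonneg h, abs_of_nonneg (Real.sinh_nonneg_iff.2 h)]
      exact Real.self_le_sinh_iff.2 h
    · rw [abs_of_nonpos h, abs_of_nonpos (Real.sinh_nonpos_iff.2 h)]
      linarith [Real.sinh_le_self_iff.2 h]
  nlinarith

theorem ka_aux {x y R : ℝ} (hx : 0 < x) (hy : 0 < y) (h : x ^ 2 + y ^ 2 ≤ 2 * R * (x * y)) :
    x ≤ 2 * R * y ∧ y ≤ 2 * R * x := by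
  constructor
  · have h1 : x * x ≤ x * (2 * R * y) := by nlinarith [sq_nonneg y]
    exact le_of_mul_le_mul_left h1 hx
  · have h1 : y * y ≤ y * (2 * R * x) := by nlinarith [sq_nonneg x]
    exact le_of_mul_le_mul_left h1 hy

theorem ka_half {θ : ℝ} (h : θ ∈ Ioo 0 Real.pi) : 0 < Real.sin (θ / 2) ∧ 0 < Real.cos (θ / 2) :=
  ⟨Real.sin_pos_of_pos_of_lt_pi (by linarith [h.1]) (by linarith [h.2, Real.pi_pos]),
    Real.cos_pos_of_mem_Ioo ⟨by linarith [h.1, Real.pi_pos], by linarith [h.2]⟩⟩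

/-- KA1: support -/
theorem cc_supp (R : ℝ) : ∃ ρ T : ℝ, 1 ≤ ρ ∧ 0 ≤ T ∧ ∀ τ θ θ' : ℝ, θ ∈ Ioo 0 Real.pi →
    θ' ∈ Ioo 0 Real.pi → cc τ θ θ' ≤ R → |τ| ≤ T * √(Real.sin θ * Real.sin θ') ∧
      Real.tan (θ' / 2) ≤ ρ * Real.tan (θ / 2) ∧ Real.tan (θ / 2) ≤ ρ * Real.tan (θ' / 2) ∧
      Real.sin θ' ≤ ρ * Real.sin θ ∧ Real.sin θ ≤ ρ * Real.sin θ' := by
  refine ⟨2 * max R 1, √(2 * max R 1), ?_, Real.sqrt_nonneg _, ?_⟩
  · linarith [le_max_right R 1]
  intro τ θ θ' h h' hc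
  have hR1 : 1 ≤ R := (cc_ge h h').trans hc
  rw [max_eq_left hR1]
  unfold cc at hc
  have hs := Real.sin_pos_of_mem_Ioo h
  have hs' := Real.sin_pos_of_mem_Ioo h'
  rw [div_le_iff₀ (mul_pos hs hs')] at hc
  have hcosh := Real.one_le_cosh τ
  have ht := Real.sin_sq_add_cos_sq θ
  have ht' := Real.sin_sq_add_cos_sq θ'
  refine ⟨?_, ?_⟩
  · have h1 := Real.cos_le_one (θ - θ')
    rw [Real.cos_sub] at h1
    have h2 := ka_cosh τ
    have h3 : τ ^ 2 ≤ 2 * R * (Real.sin θ * Real.sin θ') := by nlinarith [mul_pos hs hs']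
    rw [← Real.sqrt_mul (by linarith), ← Real.sqrt_sq_eq_abs]
    exact Real.sqrt_le_sqrt h3
  · obtain ⟨ha, hb⟩ := ka_half h
    obtain ⟨ha', hb'⟩ := ka_half h'
    have e1 : Real.sin θ = 2 * Real.sin (θ / 2) * Real.cos (θ / 2) := by
      rw [← Real.sin_two_mul]; congr 1; ring
    have e1' : Real.sin θ' = 2 * Real.sin (θ' / 2) * Real.cos (θ' / 2) := by
      rw [← Real.sin_two_mul]; congr 1; ring
    have e2 : Real.cos θ = 2 * Real.cos (θ / 2) ^ 2 - 1 := by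
      rw [← Real.cos_two_mul]; congr 1; ring
    have e2' : Real.cos θ' = 2 * Real.cos (θ' / 2) ^ 2 - 1 := by
      rw [← Real.cos_two_mul]; congr 1; ring
    have q := Real.sin_sq_add_cos_sq (θ / 2)
    have q' := Real.sin_sq_add_cos_sq (θ' / 2)
    have k1 := ka_aux (R := R) (mul_pos ha' hb) (mul_pos ha hb') (by
      have h4 : 1 - Real.cos θ * Real.cos θ' = 2 * ((Real.sin (θ' / 2) * Real.cos (θ / 2)) ^ 2 +
          (Real.sin (θ / 2) * Real.cos (θ' / 2)) ^ 2) := by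
        rw [e2, e2', mul_pow, mul_pow, show Real.sin (θ / 2) ^ 2 = 1 - Real.cos (θ / 2) ^ 2 by
          linarith, show Real.sin (θ' / 2) ^ 2 = 1 - Real.cos (θ' / 2) ^ 2 by linarith]
        ring
      have h5 : Real.sin θ * Real.sin θ' = 4 * ((Real.sin (θ' / 2) * Real.cos (θ / 2)) *
          (Real.sin (θ / 2) * Real.cos (θ' / 2))) := by
        rw [e1, e1']; ring
      rw [h5] at hc
      nlinarith)
    have k2 := ka_aux (R := R) hs' hs (by
      nlinarith [sq_nonneg (Real.cos θ - Real.cos θ')])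
    rw [Real.tan_eq_sin_div_cos, Real.tan_eq_sin_div_cos]
    refine ⟨?_, ?_, k2.1, k2.2⟩
    · rw [div_le_iff₀ hb', mul_div_assoc', div_mul_eq_mul_div, le_div_iff₀ hb]
      linarith [k1.1]
    · rw [div_le_iff₀ hb, mul_div_assoc', div_mul_eq_mul_div, le_div_iff₀ hb']
      linarith [k1.2]

/-- KA1: the support in the form of an interval depending only on a compact set of `θ` -/
theorem cc_supp2 (R a b : ℝ) (ha : 0 < a) (hb : b < Real.pi) : ∃ a' b' : ℝ, 0 < a' ∧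
    b' < Real.pi ∧ ∀ τ θ θ' : ℝ, θ ∈ Icc a b → θ' ∈ Ioo 0 Real.pi → cc τ θ θ' ≤ R →
      θ' ∈ Icc a' b' := by
  obtain ⟨ρ, T, hρ, hT, H⟩ := cc_supp R
  by_cases hab : a ≤ b
  · obtain ⟨x, hx, hmin⟩ := isCompact_Icc.exists_isMinOn (nonempty_Icc.2 hab)
      Real.continuous_sin.continuousOn
    have hx0 : 0 < Real.sin x := Real.sin_pos_of_pos_of_lt_pi (by linarith [hx.1])
      (by linarith [hx.2])
    have hρ0 : 0 < ρ := by linarith
    refine ⟨Real.sin x / ρ, Real.pi - Real.sin x / ρ, by positivity,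
      by linarith [div_pos hx0 hρ0], ?_⟩
    intro τ θ θ' h h' hc
    obtain ⟨-, -, -, -, h5⟩ := H τ θ θ' ⟨by linarith [h.1], by linarith [h.2]⟩ h' hc
    have h6 : Real.sin x ≤ Real.sin θ := hmin h
    have h7 : Real.sin x / ρ ≤ Real.sin θ' := by
      rw [div_le_iff₀ hρ0]
      linarith
    constructor
    · exact h7.trans (Real.sin_le h'.1.le)
    · have h8 := Real.sin_le (x := Real.pi - θ') (by linarith [h'.2])
      rw [Real.sin_pi_sub] at h8
      linarith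
  · exact ⟨1, 1, one_pos, by linarith [Real.pi_gt_three], fun τ θ θ' h => absurd (h.1.trans h.2) hab⟩

theorem ka_symm (τ θ θ' : ℝ) : cc τ θ θ' = cc τ θ' θ := by
  unfold cc
  rw [mul_comm (Real.cos θ), mul_comm (Real.sin θ)]

/-- KA1 -/
theorem kap_symm (k : ℝ → ℝ) (θ θ' : ℝ) : kap k θ θ' = kap k θ' θ := by
  unfold kap
  simp only [ka_symm _ θ θ']

theorem ka_bdd {k : ℝ → ℝ} (hk : TK k) : ∃ B : ℝ, 0 ≤ B ∧ ∀ c, 1 ≤ c → |k c| ≤ B := by
  obtain ⟨R, hR⟩ := hk.supp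
  obtain ⟨B, hB⟩ := (isCompact_Icc (a := (1 : ℝ)) (b := R)).exists_bound_of_continuousOn
    hk.smooth.continuous.continuousOn
  refine ⟨max B 0, le_max_right _ _, fun c hc => ?_⟩
  rcases le_total R c with h | h
  · rw [hR c h, abs_zero]
    exact le_max_right _ _
  · exact (hB c ⟨hc, h⟩).trans (le_max_left _ _)

/-- the integrand is dominated -/
theorem ka_dom {k : ℝ → ℝ} (hk : TK k) : ∃ B T : ℝ, 0 ≤ B ∧ 0 ≤ T ∧ ∀ θ θ' : ℝ,
    θ ∈ Ioo 0 Real.pi → θ' ∈ Ioo 0 Real.pi → ∀ τ, ‖k (cc τ θ θ')‖ ≤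
      (Icc (-(T * √(Real.sin θ * Real.sin θ'))) (T * √(Real.sin θ * Real.sin θ'))).indicator
        (fun _ => B) τ := by
  obtain ⟨B, hB0, hB⟩ := ka_bdd hk
  obtain ⟨R, hR⟩ := hk.supp
  obtain ⟨ρ, T, hρ, hT, H⟩ := cc_supp R
  refine ⟨B, T, hB0, hT, fun θ θ' h h' τ => ?_⟩
  by_cases hc : cc τ θ θ' ≤ R
  · have h1 := (H τ θ θ' h h' hc).1
    have h2 : τ ∈ Icc (-(T * √(Real.sin θ * Real.sin θ'))) (T * √(Real.sin θ * Real.sin θ')) :=
      abs_le.1 h1
    rw [indicator_of_mem h2]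
    exact hB _ (cc_ge h h')
  · rw [hR _ (not_le.1 hc).le, norm_zero]
    exact indicator_nonneg (fun _ _ => hB0) _

theorem ka_cc_cont (θ θ' : ℝ) : Continuous (fun τ => cc τ θ θ') := by
  unfold cc
  fun_prop

/-- KA1 -/
theorem kap_bd {k : ℝ → ℝ} (hk : TK k) : ∃ C : ℝ, 0 ≤ C ∧ ∀ θ θ' : ℝ, θ ∈ Ioo 0 Real.pi →
    θ' ∈ Ioo 0 Real.pi → |kap k θ θ'| ≤ C * √(Real.sin θ * Real.sin θ') := by
  obtain ⟨B, T, hB, hT, H⟩ := ka_dom hk
  refine ⟨2 * B * T, by positivity, fun θ θ' h h' => ?_⟩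
  unfold kap
  have h1 := norm_integral_le_of_norm_le (μ := (volume : Measure ℝ))
    (f := fun τ => k (cc τ θ θ')) (g := (Icc (-(T * √(Real.sin θ * Real.sin θ')))
      (T * √(Real.sin θ * Real.sin θ'))).indicator (fun _ => B))
    (by
      rw [integrable_indicator_iff measurableSet_Icc]
      exact integrableOn_const (by simp)) (Eventually.of_forall (H θ θ' h h'))
  rw [Real.norm_eq_abs] at h1
  refine h1.trans (le_of_eq ?_)
  rw [integral_indicator measurableSet_Icc, setIntegral_const]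
  have h2 : 0 ≤ T * √(Real.sin θ * Real.sin θ') := by positivity
  rw [Real.volume_real_Icc_of_le (by linarith), smul_eq_mul]
  ring

/-- KA1 -/
theorem kap_cont {k : ℝ → ℝ} (hk : TK k) :
    ContinuousOn (fun p : ℝ × ℝ => kap k p.1 p.2) (Ioo 0 Real.pi ×ˢ Ioo 0 Real.pi) := by
  obtain ⟨B, T, hB, hT, H⟩ := ka_dom hk
  unfold kap
  refine continuousOn_of_dominated (bound := (Icc (-T) T).indicator (fun _ => B)) ?_ ?_ ?_ ?_
  · intro p hp
    exact (hk.smooth.continuous.comp (ka_cc_cont p.1 p.2)).aestronglyMeasurable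
  · intro p hp
    refine Eventually.of_forall fun τ => (H p.1 p.2 hp.1 hp.2 τ).trans ?_
    refine indicator_le_indicator_of_subset (Icc_subset_Icc ?_ ?_) (fun _ => hB) τ
    · have : √(Real.sin p.1 * Real.sin p.2) ≤ 1 := by
        refine (Real.sqrt_le_sqrt (y := 1) ?_).trans_eq Real.sqrt_one
        have h1 := Real.sin_le_one p.1
        have h2 := Real.sin_le_one p.2
        have h3 := Real.sin_pos_of_mem_Ioo hp.1
        have h4 := Real.sin_pos_of_mem_Ioo hp.2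
        nlinarith
      nlinarith
    · have : √(Real.sin p.1 * Real.sin p.2) ≤ 1 := by
        refine (Real.sqrt_le_sqrt (y := 1) ?_).trans_eq Real.sqrt_one
        have h1 := Real.sin_le_one p.1
        have h2 := Real.sin_le_one p.2
        have h3 := Real.sin_pos_of_mem_Ioo hp.1
        have h4 := Real.sin_pos_of_mem_Ioo hp.2
        nlinarith
      nlinarith
  · rw [integrable_indicator_iff measurableSet_Icc]
    exact integrableOn_const (by simp)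
  · refine Eventually.of_forall fun τ => ?_
    refine hk.smooth.continuous.comp_continuousOn ?_
    unfold cc
    refine ContinuousOn.div (by fun_prop) (by fun_prop) ?_
    intro p hp
    exact (mul_pos (Real.sin_pos_of_mem_Ioo hp.1) (Real.sin_pos_of_mem_Ioo hp.2)).ne'

theorem ka_kap_ne {k : ℝ → ℝ} {R : ℝ} (hR : ∀ c, R ≤ c → k c = 0) {θ θ' : ℝ}
    (h : kap k θ θ' ≠ 0) : ∃ τ, cc τ θ θ' ≤ R := by
  by_contra h1
  push Not at h1
  apply h
  unfold kap
  have : ∀ τ, k (cc τ θ θ') = 0 := fun τ => hR _ (h1 τ).le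
  simp [this]

theorem ka_kap_cont1 {k : ℝ → ℝ} (hk : TK k) {θ : ℝ} (hθ : θ ∈ Ioo 0 Real.pi) :
    ContinuousOn (fun t => kap k θ t) (Ioo 0 Real.pi) := by
  intro t ht
  have h0 : (θ, t) ∈ Ioo 0 Real.pi ×ˢ Ioo 0 Real.pi := mk_mem_prod hθ ht
  have h1 := kap_cont hk (θ, t) h0
  have h2 : Tendsto (fun s : ℝ => (θ, s)) (𝓝[Ioo 0 Real.pi] t)
      (𝓝[Ioo 0 Real.pi ×ˢ Ioo 0 Real.pi] (θ, t)) := by
    rw [tendsto_nhdsWithin_iff]
    refine ⟨(Continuous.tendsto (by fun_prop) t).mono_left nhdsWithin_le_nhds, ?_⟩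
    filter_upwards [self_mem_nhdsWithin] with s hs
    exact mk_mem_prod hθ hs
  have h3 := h1.tendsto.comp h2
  simp only [Function.comp_def] at h3
  exact h3

/-- KA1 -/
theorem kk_int {k : ℝ → ℝ} (hk : TK k) {g : ℝ → ℂ} (hg : ContinuousOn g (Ioo 0 Real.pi)) {θ : ℝ}
    (hθ : θ ∈ Ioo 0 Real.pi) :
    IntegrableOn (fun t => ((kap k θ t / Real.sin t ^ 2 : ℝ) : ℂ) * g t) (Ioo 0 Real.pi) := by
  obtain ⟨R, hR⟩ := hk.supp
  obtain ⟨a, b, ha, hb, H⟩ := cc_supp2 R θ θ hθ.1 hθ.2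
  have hsub : Icc a b ⊆ Ioo 0 Real.pi := fun t ht => ⟨by linarith [ht.1], by linarith [ht.2]⟩
  have h1 : IntegrableOn (fun t => ((kap k θ t / Real.sin t ^ 2 : ℝ) : ℂ) * g t) (Icc a b) := by
    refine ContinuousOn.integrableOn_Icc ?_
    refine ContinuousOn.mul ?_ (hg.mono hsub)
    refine Complex.continuous_ofReal.comp_continuousOn ?_
    refine ContinuousOn.div ((ka_kap_cont1 hk hθ).mono hsub) (by fun_prop) ?_
    intro t ht
    exact pow_ne_zero _ (Real.sin_pos_of_mem_Ioo (hsub ht)).ne'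
  refine h1.of_forall_sdiff_eq_zero measurableSet_Ioo ?_
  intro t ht
  have h2 : kap k θ t = 0 := by
    by_contra h3
    obtain ⟨τ, hτ⟩ := ka_kap_ne hR h3
    exact ht.2 (H τ θ t ⟨le_rfl, le_rfl⟩ ht.1 hτ)
  rw [h2]
  simp

theorem ka_log_tan {t : ℝ} (ht : t ∈ Ioo 0 Real.pi) :
    HasDerivAt (fun x => Real.log (Real.tan (x / 2))) (Real.sin t)⁻¹ t := by
  obtain ⟨ha, hb⟩ := ka_half ht
  have h1 : HasDerivAt (fun x : ℝ => x / 2) (1 / 2) t := (hasDerivAt_id t).div_const 2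
  have h2 := (Real.hasDerivAt_tan hb.ne').comp t h1
  have h3 : Real.tan (t / 2) ≠ 0 := by
    rw [Real.tan_eq_sin_div_cos]
    positivity
  have h4 := h2.log h3
  suffices h5 : (Real.sin t)⁻¹ = 1 / Real.cos (t / 2) ^ 2 * (1 / 2) / Real.tan (t / 2) by
    rw [h5]
    exact h4
  have e1 : Real.sin t = 2 * Real.sin (t / 2) * Real.cos (t / 2) := by
    rw [← Real.sin_two_mul]; congr 1; ring
  rw [e1, Real.tan_eq_sin_div_cos]
  field_simp

theorem ka_tan_pos {θ : ℝ} (h : θ ∈ Ioo 0 Real.pi) : 0 < Real.tan (θ / 2) := by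
  obtain ⟨ha, hb⟩ := ka_half h
  rw [Real.tan_eq_sin_div_cos]
  positivity

/-- the point with `tan (t/2) = x` -/
theorem ka_arctan {x : ℝ} (hx : 0 < x) : 2 * Real.arctan x ∈ Ioo 0 Real.pi ∧
    Real.tan (2 * Real.arctan x / 2) = x := by
  refine ⟨⟨by linarith [Real.arctan_pos.2 hx], by linarith [Real.arctan_lt_pi_div_two x]⟩, ?_⟩
  rw [show 2 * Real.arctan x / 2 = Real.arctan x by ring, Real.tan_arctan]

theorem ka_tan_le {s t : ℝ} (hs : s ∈ Ioo 0 Real.pi) (ht : t ∈ Ioo 0 Real.pi)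
    (h : Real.tan (s / 2) ≤ Real.tan (t / 2)) : s ≤ t := by
  by_contra h1
  push Not at h1
  have h2 := Real.tan_lt_tan_of_nonneg_of_lt_pi_div_two (x := t / 2) (y := s / 2)
    (by linarith [ht.1]) (by linarith [hs.2]) (by linarith)
  linarith

/-- `∫ dt / sin t` over the support -/
theorem ka_supp_int {ρ : ℝ} (hρ : 1 ≤ ρ) {θ : ℝ} (hθ : θ ∈ Ioo 0 Real.pi) : ∃ a b : ℝ, 0 < a ∧
    a ≤ b ∧ b < Real.pi ∧ (∀ t ∈ Ioo 0 Real.pi, Real.tan (t / 2) ≤ ρ * Real.tan (θ / 2) →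
      Real.tan (θ / 2) ≤ ρ * Real.tan (t / 2) → t ∈ Icc a b) ∧
    IntegrableOn (fun t => (Real.sin t)⁻¹) (Icc a b) ∧
    ∫ t in Icc a b, (Real.sin t)⁻¹ = 2 * Real.log ρ := by
  have hρ0 : 0 < ρ := by linarith
  have hx := ka_tan_pos hθ
  obtain ⟨m1, e1⟩ := ka_arctan (div_pos hx hρ0)
  obtain ⟨m2, e2⟩ := ka_arctan (mul_pos hρ0 hx)
  set a := 2 * Real.arctan (Real.tan (θ / 2) / ρ) with ha
  set b := 2 * Real.arctan (ρ * Real.tan (θ / 2)) with hb
  have hab : a ≤ b := by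
    refine ka_tan_le m1 m2 ?_
    rw [e1, e2, div_le_iff₀ hρ0]
    nlinarith [mul_le_mul hρ hρ (by norm_num) hρ0.le]
  have hsub : Icc a b ⊆ Ioo 0 Real.pi := fun t ht =>
    ⟨by linarith [ht.1, m1.1], by linarith [ht.2, m2.2]⟩
  have hcont : ContinuousOn (fun t => (Real.sin t)⁻¹) (Icc a b) :=
    Real.continuous_sin.continuousOn.inv₀ fun t ht => (Real.sin_pos_of_mem_Ioo (hsub ht)).ne'
  refine ⟨a, b, m1.1, hab, m2.2, ?_, hcont.integrableOn_Icc, ?_⟩
  · intro t ht h1 h2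
    constructor
    · refine ka_tan_le m1 ht ?_
      rw [e1, div_le_iff₀ hρ0]
      linarith
    · refine ka_tan_le ht m2 ?_
      rw [e2]
      exact h1
  · rw [integral_Icc_eq_integral_Ioc, ← intervalIntegral.integral_of_le hab]
    rw [intervalIntegral.integral_eq_sub_of_hasDerivAt (f := fun x => Real.log (Real.tan (x / 2)))
      (fun t ht => ka_log_tan (hsub (by rwa [uIcc_of_le hab] at ht)))
      (by
        apply ContinuousOn.intervalIntegrable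
        rwa [uIcc_of_le hab])]
    rw [e1, e2, Real.log_div hx.ne' hρ0.ne', Real.log_mul hρ0.ne' hx.ne']
    ring

/-- the main estimate -/
theorem ka_main {k : ℝ → ℝ} (hk : TK k) : ∃ ρ C : ℝ, 1 ≤ ρ ∧ 0 ≤ C ∧ ∀ (g : ℝ → ℂ) (M : ℝ),
    0 ≤ M → ∀ θ ∈ Ioo 0 Real.pi, (∀ t ∈ Ioo 0 Real.pi, Real.tan (t / 2) ≤ ρ * Real.tan (θ / 2) →
      Real.sin t ≤ ρ * Real.sin θ → Real.sin θ ≤ ρ * Real.sin t → ‖g t‖ ≤ M) →
      ‖KK k g θ‖ ≤ C * M := by
  obtain ⟨R, hR⟩ := hk.supp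
  obtain ⟨ρ, T, hρ, hT, H⟩ := cc_supp R
  obtain ⟨C₁, hC₁, hb⟩ := kap_bd hk
  refine ⟨ρ, C₁ * √ρ * (2 * Real.log ρ), hρ, ?_, ?_⟩
  · have := Real.log_nonneg hρ
    positivity
  intro g M hM θ hθ hg
  obtain ⟨a, b, ha, hab, hbp, hsupp, hint, hval⟩ := ka_supp_int hρ hθ
  have hsub : Icc a b ⊆ Ioo 0 Real.pi := fun t ht =>
    ⟨by linarith [ht.1], by linarith [ht.2]⟩
  unfold KK
  have h1 := norm_integral_le_of_norm_le (μ := (volume.restrict (Ioo 0 Real.pi)))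
    (f := fun t => ((kap k θ t / Real.sin t ^ 2 : ℝ) : ℂ) * g t)
    (g := (Icc a b).indicator (fun t => C₁ * √ρ * M * (Real.sin t)⁻¹))
    (by
      refine Integrable.mono_measure ?_ Measure.restrict_le_self
      rw [integrable_indicator_iff measurableSet_Icc]
      exact hint.const_mul _)
    (by
      filter_upwards [ae_restrict_mem measurableSet_Ioo] with t ht
      by_cases h0 : kap k θ t = 0
      · rw [h0]
        simp only [zero_div, Complex.ofReal_zero, zero_mul, norm_zero]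
        refine indicator_nonneg (fun x hx => ?_) _
        have := Real.sin_pos_of_mem_Ioo (hsub hx)
        positivity
      · obtain ⟨τ, hτ⟩ := ka_kap_ne hR h0
        obtain ⟨-, p1, p2, p3, p4⟩ := H τ θ t hθ ht hτ
        rw [indicator_of_mem (hsupp t ht p1 p2), norm_mul, Complex.norm_real, Real.norm_eq_abs,
          abs_div, abs_of_nonneg (sq_nonneg (Real.sin t))]
        have q1 := hb θ t hθ ht
        have q2 := hg t ht p1 p3 p4
        have hs := Real.sin_pos_of_mem_Ioo ht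
        have hs' := Real.sin_pos_of_mem_Ioo hθ
        have q3 : √(Real.sin θ * Real.sin t) ≤ √ρ * Real.sin t := by
          have : Real.sin θ * Real.sin t ≤ ρ * (Real.sin t) ^ 2 := by nlinarith
          refine (Real.sqrt_le_sqrt this).trans_eq ?_
          rw [Real.sqrt_mul (by linarith), Real.sqrt_sq hs.le]
        calc |kap k θ t| / Real.sin t ^ 2 * ‖g t‖
            ≤ (C₁ * (√ρ * Real.sin t)) / Real.sin t ^ 2 * M := by
              gcongr
              exact q1.trans (mul_le_mul_of_nonneg_left q3 hC₁)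
          _ = C₁ * √ρ * M * (Real.sin t)⁻¹ := by
              field_simp)
  refine h1.trans ?_
  have h2 : ∫ t in Ioo 0 Real.pi, (Icc a b).indicator (fun t => C₁ * √ρ * M * (Real.sin t)⁻¹) t =
      C₁ * √ρ * M * (2 * Real.log ρ) := by
    rw [setIntegral_indicator measurableSet_Icc, inter_eq_right.2 hsub, integral_const_mul, hval]
  rw [h2]
  linarith

/-- KA1: growth -/
theorem kk_bd {k : ℝ → ℝ} (hk : TK k) (a : ℝ) (ha : 0 ≤ a) : ∃ C : ℝ, 0 ≤ C ∧
    ∀ (g : ℝ → ℂ) (B : ℝ), ContinuousOn g (Ioo 0 Real.pi) →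
      (∀ θ ∈ Ioo 0 Real.pi, ‖g θ‖ ≤ B * Real.sin θ ^ (-a)) →
      ∀ θ ∈ Ioo 0 Real.pi, ‖KK k g θ‖ ≤ C * B * Real.sin θ ^ (-a) := by
  obtain ⟨ρ, C, hρ, hC, H⟩ := ka_main hk
  have hρ0 : 0 < ρ := by linarith
  refine ⟨C * ρ ^ a, by positivity, ?_⟩
  intro g B _ hg θ hθ
  have hB : 0 ≤ B := by
    have h1 := hg (Real.pi / 2) ⟨by linarith [Real.pi_pos], by linarith [Real.pi_pos]⟩
    rw [Real.sin_pi_div_two, Real.one_rpow, mul_one] at h1
    exact (norm_nonneg _).trans h1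
  have hs := Real.sin_pos_of_mem_Ioo hθ
  have h2 := H g (B * (ρ ^ a * Real.sin θ ^ (-a))) (by positivity) θ hθ (by
    intro t ht _ _ h3
    refine (hg t ht).trans (mul_le_mul_of_nonneg_left ?_ hB)
    have ht' := Real.sin_pos_of_mem_Ioo ht
    have h4 : Real.sin θ / ρ ≤ Real.sin t := by
      rw [div_le_iff₀ hρ0]
      linarith
    refine (Real.rpow_le_rpow_of_nonpos (by positivity) h4 (neg_nonpos.2 ha)).trans_eq ?_
    rw [Real.div_rpow hs.le hρ0.le, Real.rpow_neg hρ0.le a, div_inv_eq_mul]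
    ring)
  refine h2.trans (le_of_eq ?_)
  ring

theorem ka_half_le {x : ℝ} (hx : 0 ≤ x) (h1 : x ≤ 1) : Real.tan x ≤ 2 * x := by
  have h2 : (1 : ℝ) / 2 ≤ Real.cos x := by
    have := Real.one_sub_sq_div_two_le_cos (x := x)
    nlinarith
  rw [Real.tan_eq_sin_div_cos, div_le_iff₀ (by linarith)]
  have := Real.sin_le hx
  nlinarith

theorem ka_le_tan {t : ℝ} (ht : t ∈ Ioo 0 Real.pi) : t / 2 ≤ Real.tan (t / 2) :=
  (Real.lt_tan (by linarith [ht.1]) (by linarith [ht.2])).le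

/-- KA1: small functions -/
theorem kk_o {k : ℝ → ℝ} (hk : TK k) {g : ℝ → ℂ} (hg : ContinuousOn g (Ioo 0 Real.pi))
    (ho : g =o[𝓝[>] 0] (fun θ => θ ^ (1 / 2 : ℝ))) :
    (KK k g) =o[𝓝[>] 0] (fun θ => θ ^ (1 / 2 : ℝ)) := by
  obtain ⟨ρ, C, hρ, hC, H⟩ := ka_main hk
  have hρ0 : 0 < ρ := by linarith
  rw [Asymptotics.isLittleO_iff] at ho ⊢
  intro ε hε
  set ε' : ℝ := ε / ((C + 1) * √(2 * ρ)) with hε'
  have hε0 : 0 < ε' := by positivity
  have h1 := ho hε0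
  rw [eventually_nhdsWithin_iff, Metric.eventually_nhds_iff] at h1
  obtain ⟨δ, hδ, hd⟩ := h1
  rw [eventually_nhdsWithin_iff, Metric.eventually_nhds_iff]
  refine ⟨min 1 (δ / (2 * ρ)), by positivity, ?_⟩
  intro θ hθd hθ0
  have hθ0' : 0 < θ := hθ0
  rw [Real.dist_eq, sub_zero, abs_of_pos hθ0', lt_min_iff] at hθd
  obtain ⟨hθ1, hθ2⟩ := hθd
  rw [lt_div_iff₀ (by positivity)] at hθ2
  have hθ : θ ∈ Ioo 0 Real.pi := ⟨hθ0', by linarith [Real.pi_gt_three]⟩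
  have h2 := H g (ε' * (√(2 * ρ) * √θ)) (by positivity) θ hθ (by
    intro t ht h3 _ _
    have h4 : t ≤ 2 * ρ * θ := by
      have h5 := ka_le_tan ht
      have h6 := ka_half_le (x := θ / 2) (by linarith) (by linarith)
      nlinarith
    have h5 := @hd t (by
      rw [Real.dist_eq, sub_zero, abs_of_pos ht.1]
      linarith) ht.1
    refine h5.trans (mul_le_mul_of_nonneg_left ?_ hε0.le)
    rw [← Real.sqrt_eq_rpow, Real.norm_eq_abs, abs_of_nonneg (Real.sqrt_nonneg _),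
      ← Real.sqrt_mul (by positivity)]
    exact Real.sqrt_le_sqrt h4)
  refine h2.trans ?_
  rw [← Real.sqrt_eq_rpow, Real.norm_eq_abs, abs_of_nonneg (Real.sqrt_nonneg _)]
  have h7 : C * (ε' * (√(2 * ρ) * √θ)) = (C / (C + 1)) * ε * √θ := by
    rw [hε']
    have : √(2 * ρ) ≠ 0 := by positivity
    field_simp
  rw [h7]
  refine mul_le_mul_of_nonneg_right ?_ (Real.sqrt_nonneg _)
  have h8 : C / (C + 1) ≤ 1 := by
    rw [div_le_one (by positivity)]
    linarith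
  nlinarith

end Pool.Agent.JOS
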