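import Pool.Agent.Lib_helper58.JOSF.KA1

/-! # JO, part S, block KA2: derivatives of `K_k g` -/

namespace Pool.Agent.JOS

open Complex MeasureTheory Filter Topology UpperHalfPlane ModularGroup Set Metric
open scoped MatrixGroups Modular ENNReal ComplexConjugate ContDiff

/-- derivative of `cc` in `θ` -/
noncomputable def ka2_c1 (τ θ t : ℝ) : ℝ :=
  (Real.cos t - Real.cosh τ * Real.cos θ) / (Real.sin θ ^ 2 * Real.sin t)

/-- second derivative of `cc` in `θ` -/
noncomputable def ka2_c2 (τ θ t : ℝ) : ℝ :=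
  (Real.cosh τ * (1 + Real.cos θ ^ 2) - 2 * Real.cos θ * Real.cos t) /
    (Real.sin θ ^ 3 * Real.sin t)

/-- the derivative of `kap` -/
noncomputable def ka2_k1 (k : ℝ → ℝ) (θ t : ℝ) : ℝ :=
  ∫ τ : ℝ, deriv k (cc τ θ t) * ka2_c1 τ θ t

theorem ka2_d1 (τ : ℝ) {θ t : ℝ} (h : Real.sin θ ≠ 0) (h' : Real.sin t ≠ 0) :
    HasDerivAt (fun x => cc τ x t) (ka2_c1 τ θ t) θ := by
  have h1 : HasDerivAt (fun x => Real.cosh τ - Real.cos x * Real.cos t)
      (Real.sin θ * Real.cos t) θ := by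
    exact (((Real.hasDerivAt_cos θ).mul_const (Real.cos t)).const_sub (Real.cosh τ)).congr_deriv
      (by ring)
  have h2 : HasDerivAt (fun x => Real.sin x * Real.sin t) (Real.cos θ * Real.sin t) θ :=
    (Real.hasDerivAt_sin θ).mul_const (Real.sin t)
  have h3 := h1.div h2 (mul_ne_zero h h')
  unfold cc
  refine h3.congr_deriv ?_
  unfold ka2_c1
  have h4 : Real.sin θ ^ 2 = 1 - Real.cos θ ^ 2 := Real.sin_sq θ
  rw [div_eq_div_iff (pow_ne_zero 2 (mul_ne_zero h h')) (mul_ne_zero (pow_ne_zero 2 h) h')]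
  have h5 : Real.sin θ * Real.cos t * (Real.sin θ * Real.sin t) -
      (Real.cosh τ - Real.cos θ * Real.cos t) * (Real.cos θ * Real.sin t) =
      (Real.cos t * (Real.sin θ ^ 2 + Real.cos θ ^ 2) - Real.cosh τ * Real.cos θ) * Real.sin t := by
    ring
  rw [h5, Real.sin_sq_add_cos_sq]
  ring

theorem ka2_d2 (τ : ℝ) {θ t : ℝ} (h : Real.sin θ ≠ 0) (h' : Real.sin t ≠ 0) :
    HasDerivAt (fun x => ka2_c1 τ x t) (ka2_c2 τ θ t) θ := by
  have h1 : HasDerivAt (fun x => Real.cos t - Real.cosh τ * Real.cos x)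
      (Real.cosh τ * Real.sin θ) θ := by
    exact (((Real.hasDerivAt_cos θ).const_mul (Real.cosh τ)).const_sub (Real.cos t)).congr_deriv
      (by ring)
  have h2 : HasDerivAt (fun x => Real.sin x ^ 2 * Real.sin t)
      (2 * Real.sin θ * Real.cos θ * Real.sin t) θ := by
    refine (((Real.hasDerivAt_sin θ).fun_pow 2).mul_const (Real.sin t)).congr_deriv ?_
    norm_num
  have h3 := h1.div h2 (mul_ne_zero (pow_ne_zero 2 h) h')
  unfold ka2_c1
  refine h3.congr_deriv ?_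
  unfold ka2_c2
  rw [div_eq_div_iff (pow_ne_zero 2 (mul_ne_zero (pow_ne_zero 2 h) h'))
    (mul_ne_zero (pow_ne_zero 3 h) h')]
  have h5 : Real.cosh τ * Real.sin θ * (Real.sin θ ^ 2 * Real.sin t) -
      (Real.cos t - Real.cosh τ * Real.cos θ) * (2 * Real.sin θ * Real.cos θ * Real.sin t) =
      (Real.cosh τ * ((Real.sin θ ^ 2 + Real.cos θ ^ 2) + Real.cos θ ^ 2) -
        2 * Real.cos θ * Real.cos t) * Real.sin θ * Real.sin t := by
    ring
  rw [h5, Real.sin_sq_add_cos_sq]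
  ring

theorem ka2_dt (τ : ℝ) {θ t : ℝ} :
    HasDerivAt (fun x => cc x θ t) (Real.sinh τ / (Real.sin θ * Real.sin t)) τ := by
  unfold cc
  exact ((Real.hasDerivAt_cosh τ).sub_const _).div_const _

theorem ka2_dtt (τ : ℝ) {θ t : ℝ} :
    HasDerivAt (fun x => Real.sinh x / (Real.sin θ * Real.sin t))
      (Real.cosh τ / (Real.sin θ * Real.sin t)) τ :=
  (Real.hasDerivAt_sinh τ).div_const _

theorem ka2_id1 (τ : ℝ) {θ t : ℝ} (h : Real.sin θ ≠ 0) (h' : Real.sin t ≠ 0) :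
    Real.sin θ ^ 2 * (ka2_c1 τ θ t ^ 2 + (Real.sinh τ / (Real.sin θ * Real.sin t)) ^ 2) =
      cc τ θ t ^ 2 - 1 := by
  unfold ka2_c1 cc
  have h4 : Real.sin θ ^ 2 = 1 - Real.cos θ ^ 2 := Real.sin_sq θ
  have h5 : Real.sin t ^ 2 = 1 - Real.cos t ^ 2 := Real.sin_sq t
  have h6 : Real.sinh τ ^ 2 = Real.cosh τ ^ 2 - 1 := Real.sinh_sq τ
  rw [div_pow, div_pow, div_pow, mul_add]
  have e1 : Real.sin θ ^ 2 * ((Real.cos t - Real.cosh τ * Real.cos θ) ^ 2 /
      (Real.sin θ ^ 2 * Real.sin t) ^ 2) = (Real.cos t - Real.cosh τ * Real.cos θ) ^ 2 /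
      (Real.sin θ * Real.sin t) ^ 2 := by
    field_simp
  have e2 : Real.sin θ ^ 2 * (Real.sinh τ ^ 2 / (Real.sin θ * Real.sin t) ^ 2) =
      Real.sin θ ^ 2 * Real.sinh τ ^ 2 / (Real.sin θ * Real.sin t) ^ 2 := by ring
  rw [e1, e2, ← add_div, eq_sub_iff_add_eq, ← eq_sub_iff_add_eq']
  rw [← sub_div]
  rw [eq_comm, div_eq_iff (pow_ne_zero 2 (mul_ne_zero h h'))]
  rw [mul_pow, h4, h5, h6]
  ring

theorem ka2_id2 (τ : ℝ) {θ t : ℝ} (h : Real.sin θ ≠ 0) (h' : Real.sin t ≠ 0) :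
    Real.sin θ ^ 2 * (ka2_c2 τ θ t + Real.cosh τ / (Real.sin θ * Real.sin t)) =
      2 * cc τ θ t := by
  unfold ka2_c2 cc
  have h4 : Real.sin θ ^ 2 = 1 - Real.cos θ ^ 2 := Real.sin_sq θ
  field_simp
  rw [h4]
  ring

/-- bounds of a kernel -/
theorem ka2_ker {k : ℝ → ℝ} (hk : TK k) : ∃ R K : ℝ, 1 ≤ R ∧ 0 ≤ K ∧
    (∀ c, R ≤ c → k c = 0 ∧ deriv k c = 0 ∧ deriv (deriv k) c = 0) ∧
    ∀ c, 1 ≤ c → |deriv k c| ≤ K ∧ |deriv (deriv k) c| ≤ K := by
  obtain ⟨hs, R₀, h0⟩ := hk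
  have hd := contDiff_infty_iff_deriv.1 hs
  have hd2 := contDiff_infty_iff_deriv.1 hd.2
  have h1 : ∀ c, R₀ < c → deriv k c = 0 := by
    intro c hc
    have : k =ᶠ[𝓝 c] fun _ => 0 := by
      filter_upwards [lt_mem_nhds hc] with x hx using h0 x hx.le
    rw [this.deriv_eq]
    simp
  have h2 : ∀ c, R₀ < c → deriv (deriv k) c = 0 := by
    intro c hc
    have : deriv k =ᶠ[𝓝 c] fun _ => 0 := by
      filter_upwards [lt_mem_nhds hc] with x hx using h1 x hx
    rw [this.deriv_eq]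
    simp
  obtain ⟨K1, hK1⟩ := (isCompact_Icc (a := (1 : ℝ)) (b := max 1 (R₀ + 1))).exists_bound_of_continuousOn
    hd.2.continuous.continuousOn
  obtain ⟨K2, hK2⟩ := (isCompact_Icc (a := (1 : ℝ)) (b := max 1 (R₀ + 1))).exists_bound_of_continuousOn
    hd2.2.continuous.continuousOn
  refine ⟨max 1 (R₀ + 1), max 0 (max K1 K2), le_max_left _ _, le_max_left _ _, ?_, ?_⟩
  · intro c hc
    have hc' : R₀ < c := by
      have := (le_max_right 1 (R₀ + 1)).trans hc
      linarith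
    exact ⟨h0 c hc'.le, h1 c hc', h2 c hc'⟩
  · intro c hc
    rcases le_or_gt c (max 1 (R₀ + 1)) with h | h
    · exact ⟨(hK1 c ⟨hc, h⟩).trans (by simp), (hK2 c ⟨hc, h⟩).trans (by simp)⟩
    · have hc' : R₀ < c := by
        have := (le_max_right 1 (R₀ + 1)).trans h.le
        linarith
      rw [h1 c hc', h2 c hc']
      simp

theorem ka2_TKDD {k : ℝ → ℝ} (hk : TK k) : TK (DD k) := by
  obtain ⟨R, K, hR, hK, h0, h1⟩ := ka2_ker hk
  have hd := contDiff_infty_iff_deriv.1 hk.smooth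
  have hd2 := contDiff_infty_iff_deriv.1 hd.2
  refine ⟨?_, R, ?_⟩
  · unfold DD
    have e1 : ContDiff ℝ ∞ (fun c : ℝ => (c ^ 2 - 1)) := by fun_prop
    have e2 : ContDiff ℝ ∞ (fun c : ℝ => 2 * c) := by fun_prop
    exact ((e1.mul hd2.2).add (e2.mul hd.2)).neg
  · intro c hc
    unfold DD
    rw [(h0 c hc).2.1, (h0 c hc).2.2]
    simp

theorem ka2_cc_cont (θ t : ℝ) : Continuous (fun τ => cc τ θ t) := by
  unfold cc
  exact (Real.continuous_cosh.sub continuous_const).div_const _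

theorem ka2_c1_cont (θ t : ℝ) : Continuous (fun τ => ka2_c1 τ θ t) := by
  unfold ka2_c1
  exact (continuous_const.sub (Real.continuous_cosh.mul continuous_const)).div_const _

theorem ka2_c2_cont (θ t : ℝ) : Continuous (fun τ => ka2_c2 τ θ t) := by
  unfold ka2_c2
  exact ((Real.continuous_cosh.mul continuous_const).sub continuous_const).div_const _

/-- the supports in `τ` -/
theorem ka2_T (R : ℝ) : ∃ T : ℝ, 0 ≤ T ∧ ∀ τ θ t : ℝ, θ ∈ Ioo 0 Real.pi → t ∈ Ioo 0 Real.pi →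
    cc τ θ t ≤ R → |τ| ≤ T := by
  obtain ⟨ρ, T, h1, h2, h3⟩ := cc_supp R
  refine ⟨T, h2, ?_⟩
  intro τ θ t hθ ht hc
  refine (h3 τ θ t hθ ht hc).1.trans ?_
  have h4 : √(Real.sin θ * Real.sin t) ≤ 1 := by
    rw [Real.sqrt_le_one]
    have a1 := Real.sin_le_one θ
    have a2 := Real.sin_le_one t
    have a3 := Real.sin_pos_of_mem_Ioo hθ
    have a4 := Real.sin_pos_of_mem_Ioo ht
    nlinarith
  calc T * √(Real.sin θ * Real.sin t) ≤ T * 1 := by gcongr
    _ = T := mul_one T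

/-- functions of `τ` vanishing where `cc ≥ R` -/
theorem ka2_integrable {R : ℝ} {θ t : ℝ} (hθ : θ ∈ Ioo 0 Real.pi) (ht : t ∈ Ioo 0 Real.pi)
    {f : ℝ → ℝ} (hf : Continuous f) (h0 : ∀ τ, R ≤ cc τ θ t → f τ = 0) : Integrable f := by
  obtain ⟨T, hT, h1⟩ := ka2_T R
  apply hf.integrable_of_hasCompactSupport
  apply HasCompactSupport.intro (isCompact_Icc (a := -T) (b := T))
  intro τ hτ
  apply h0
  by_contra h
  exact hτ (abs_le.1 (h1 τ θ t hθ ht (not_le.1 h).le))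

/-- bound of `c1` on the support -/
theorem ka2_c1_bd {R τ θ t : ℝ} (hθ : θ ∈ Ioo 0 Real.pi) (ht : t ∈ Ioo 0 Real.pi) (hR : 1 ≤ R)
    (hc : cc τ θ t ≤ R) : |ka2_c1 τ θ t| ≤ R / Real.sin θ := by
  have a3 := Real.sin_pos_of_mem_Ioo hθ
  have a4 := Real.sin_pos_of_mem_Ioo ht
  have h1 := ka2_id1 τ a3.ne' a4.ne'
  have h2 := cc_ge (τ := τ) hθ ht
  rw [le_div_iff₀ a3]
  have h3 : |ka2_c1 τ θ t| * Real.sin θ = |ka2_c1 τ θ t * Real.sin θ| := by
    rw [abs_mul, abs_of_pos a3]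
  rw [h3]
  apply abs_le_of_sq_le_sq _ (by linarith)
  nlinarith [sq_nonneg (Real.sin θ * (Real.sinh τ / (Real.sin θ * Real.sin t)))]

theorem ka2_min {a b : ℝ} (ha : 0 < a) (hb : b < Real.pi) : ∃ m : ℝ, 0 < m ∧
    ∀ x ∈ Icc a b, m ≤ Real.sin x := by
  rcases le_or_gt a b with h | h
  · obtain ⟨x, hx, hm⟩ := (isCompact_Icc (a := a) (b := b)).exists_isMinOn ⟨a, le_rfl, h⟩
      Real.continuous_sin.continuousOn
    exact ⟨Real.sin x, Real.sin_pos_of_mem_Ioo ⟨ha.trans_le hx.1, hx.2.trans_lt hb⟩,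
      fun y hy => hm hy⟩
  · exact ⟨1, one_pos, fun x hx => absurd (hx.1.trans hx.2) (not_le.2 h)⟩

/-- the first derivative of `kap` -/
theorem ka2_k1_deriv {k : ℝ → ℝ} (hk : TK k) {θ t : ℝ} (hθ : θ ∈ Ioo 0 Real.pi)
    (ht : t ∈ Ioo 0 Real.pi) : HasDerivAt (fun x => kap k x t) (ka2_k1 k θ t) θ := by
  obtain ⟨R, K, hR, hK, h0, h1⟩ := ka2_ker hk
  obtain ⟨T, hT, hT1⟩ := ka2_T R
  have hd := contDiff_infty_iff_deriv.1 hk.smooth
  obtain ⟨m, hm0, hm⟩ := ka2_min (a := θ / 2) (b := (θ + Real.pi) / 2) (by linarith [hθ.1])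
    (by linarith [hθ.2])
  have hs : Icc (θ / 2) ((θ + Real.pi) / 2) ∈ 𝓝 θ :=
    Icc_mem_nhds (by linarith [hθ.1]) (by linarith [hθ.2])
  have hsub : ∀ x ∈ Icc (θ / 2) ((θ + Real.pi) / 2), x ∈ Ioo 0 Real.pi := fun x hx =>
    ⟨by linarith [hx.1, hθ.1], by linarith [hx.2, hθ.2]⟩
  have a4 := Real.sin_pos_of_mem_Ioo ht
  have key := hasDerivAt_integral_of_dominated_loc_of_deriv_le (μ := (volume : Measure ℝ))
    (F := fun x τ => k (cc τ x t)) (F' := fun x τ => deriv k (cc τ x t) * ka2_c1 τ x t)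
    (x₀ := θ) (s := Icc (θ / 2) ((θ + Real.pi) / 2))
    (bound := (Icc (-T) T).indicator (fun _ => K * (R / m))) hs
    (Eventually.of_forall fun x => (hk.smooth.continuous.comp (ka2_cc_cont x t)).aestronglyMeasurable)
    (ka2_integrable hθ ht (hk.smooth.continuous.comp (ka2_cc_cont θ t))
      (fun τ h => (h0 _ h).1))
    (((hd.2.continuous.comp (ka2_cc_cont θ t)).mul (ka2_c1_cont θ t)).aestronglyMeasurable) ?_ ?_ ?_
  · exact key.2
  · refine Eventually.of_forall fun τ x hx => ?_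
    rcases lt_or_ge R (cc τ x t) with h | h
    · rw [(h0 _ h.le).2.1, zero_mul, norm_zero]
      apply indicator_nonneg
      intro _ _
      positivity
    · have h2 := hT1 τ x t (hsub x hx) ht h
      have h3 : τ ∈ Icc (-T) T := abs_le.1 h2
      rw [indicator_of_mem h3]
      rw [norm_mul, Real.norm_eq_abs, Real.norm_eq_abs]
      apply mul_le_mul (h1 _ (cc_ge (hsub x hx) ht)).1 _ (abs_nonneg _) hK
      refine (ka2_c1_bd (hsub x hx) ht hR h).trans ?_
      exact div_le_div_of_nonneg_left (by linarith) hm0 (hm x hx)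
  · exact (integrableOn_const (by simp)).integrable_indicator measurableSet_Icc
  · refine Eventually.of_forall fun τ x hx => ?_
    have a3 := Real.sin_pos_of_mem_Ioo (hsub x hx)
    exact (hd.1 _).hasDerivAt.comp x (ka2_d1 τ a3.ne' a4.ne')

/-- bound of `c2` -/
theorem ka2_c2_bd {T τ θ t m : ℝ} (ht : t ∈ Ioo 0 Real.pi) (hm : 0 < m) (h : m ≤ Real.sin θ)
    (hτ : |τ| ≤ T) : |ka2_c2 τ θ t| ≤ (2 * Real.cosh T + 2) / (m ^ 3 * Real.sin t) := by
  have a4 := Real.sin_pos_of_mem_Ioo ht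
  unfold ka2_c2
  rw [abs_div]
  have h1 : |Real.cosh τ * (1 + Real.cos θ ^ 2) - 2 * Real.cos θ * Real.cos t| ≤
      2 * Real.cosh T + 2 := by
    refine (abs_sub _ _).trans ?_
    have b1 : Real.cosh τ ≤ Real.cosh T := Real.cosh_le_cosh.2 (hτ.trans (le_abs_self T))
    have b2 : 0 < Real.cosh τ := Real.cosh_pos τ
    have b3 : Real.cos θ ^ 2 ≤ 1 := Real.cos_sq_le_one θ
    have b4 : |Real.cosh τ * (1 + Real.cos θ ^ 2)| = Real.cosh τ * (1 + Real.cos θ ^ 2) :=
      abs_of_nonneg (by positivity)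
    have b5 : |2 * Real.cos θ * Real.cos t| ≤ 2 := by
      rw [abs_mul, abs_mul, abs_two]
      have := Real.abs_cos_le_one θ
      have := Real.abs_cos_le_one t
      have := abs_nonneg (Real.cos θ)
      have := abs_nonneg (Real.cos t)
      nlinarith
    rw [b4]
    nlinarith
  have h2 : m ^ 3 * Real.sin t ≤ |Real.sin θ ^ 3 * Real.sin t| := by
    have : 0 < Real.sin θ := hm.trans_le h
    rw [abs_of_pos (by positivity)]
    gcongr
  have h3 : 0 < 2 * Real.cosh T + 2 := by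
    have := Real.cosh_pos T
    linarith
  exact div_le_div₀ h3.le h1 (by positivity) h2

/-- the second derivative of `kap` -/
theorem ka2_k2_deriv {k : ℝ → ℝ} (hk : TK k) {θ t : ℝ} (hθ : θ ∈ Ioo 0 Real.pi)
    (ht : t ∈ Ioo 0 Real.pi) :
    HasDerivAt (fun x => ka2_k1 k x t) (-kap (DD k) θ t / Real.sin θ ^ 2) θ := by
  obtain ⟨R, K, hR, hK, h0, h1⟩ := ka2_ker hk
  obtain ⟨T, hT, hT1⟩ := ka2_T R
  have hd := contDiff_infty_iff_deriv.1 hk.smooth
  have hd2 := contDiff_infty_iff_deriv.1 hd.2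
  obtain ⟨m, hm0, hm⟩ := ka2_min (a := θ / 2) (b := (θ + Real.pi) / 2) (by linarith [hθ.1])
    (by linarith [hθ.2])
  have hs : Icc (θ / 2) ((θ + Real.pi) / 2) ∈ 𝓝 θ :=
    Icc_mem_nhds (by linarith [hθ.1]) (by linarith [hθ.2])
  have hsub : ∀ x ∈ Icc (θ / 2) ((θ + Real.pi) / 2), x ∈ Ioo 0 Real.pi := fun x hx =>
    ⟨by linarith [hx.1, hθ.1], by linarith [hx.2, hθ.2]⟩
  have a3 := Real.sin_pos_of_mem_Ioo hθ
  have a4 := Real.sin_pos_of_mem_Ioo ht
  have key := hasDerivAt_integral_of_dominated_loc_of_deriv_le (μ := (volume : Measure ℝ))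
    (F := fun x τ => deriv k (cc τ x t) * ka2_c1 τ x t)
    (F' := fun x τ => deriv (deriv k) (cc τ x t) * ka2_c1 τ x t * ka2_c1 τ x t +
      deriv k (cc τ x t) * ka2_c2 τ x t)
    (x₀ := θ) (s := Icc (θ / 2) ((θ + Real.pi) / 2))
    (bound := (Icc (-T) T).indicator
      (fun _ => K * (R / m) * (R / m) + K * ((2 * Real.cosh T + 2) / (m ^ 3 * Real.sin t)))) hs
    (Eventually.of_forall fun x =>
      ((hd.2.continuous.comp (ka2_cc_cont x t)).mul (ka2_c1_cont x t)).aestronglyMeasurable)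
    (ka2_integrable hθ ht ((hd.2.continuous.comp (ka2_cc_cont θ t)).mul (ka2_c1_cont θ t))
      (fun τ h => by
        show deriv k (cc τ θ t) * ka2_c1 τ θ t = 0
        rw [(h0 _ h).2.1, zero_mul]))
    (((((hd2.2.continuous.comp (ka2_cc_cont θ t)).mul (ka2_c1_cont θ t)).mul
      (ka2_c1_cont θ t)).add ((hd.2.continuous.comp (ka2_cc_cont θ t)).mul
        (ka2_c2_cont θ t))).aestronglyMeasurable) ?_ ?_ ?_
  · refine key.2.congr_deriv ?_
    -- the integral of a derivative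
    have hz : ∫ τ : ℝ, (deriv (deriv k) (cc τ θ t) * (Real.sinh τ / (Real.sin θ * Real.sin t)) *
        (Real.sinh τ / (Real.sin θ * Real.sin t)) +
        deriv k (cc τ θ t) * (Real.cosh τ / (Real.sin θ * Real.sin t))) = 0 := by
      have c1 : Continuous (fun τ => Real.sinh τ / (Real.sin θ * Real.sin t)) :=
        Real.continuous_sinh.div_const _
      have c2 : Continuous (fun τ => Real.cosh τ / (Real.sin θ * Real.sin t)) :=
        Real.continuous_cosh.div_const _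
      apply integral_eq_zero_of_hasDerivAt_of_integrable
        (f := fun τ => deriv k (cc τ θ t) * (Real.sinh τ / (Real.sin θ * Real.sin t)))
      · intro τ
        refine ((((hd2.1 _).hasDerivAt.comp τ (ka2_dt τ)).mul (ka2_dtt τ))).congr_deriv ?_
        simp only [Function.comp_apply]
      · apply ka2_integrable (R := R) hθ ht
        · exact (((hd2.2.continuous.comp (ka2_cc_cont θ t)).mul c1).mul c1).add
            ((hd.2.continuous.comp (ka2_cc_cont θ t)).mul c2)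
        · intro τ h
          rw [(h0 _ h).2.1, (h0 _ h).2.2]
          simp
      · apply ka2_integrable (R := R) hθ ht
        · exact (hd.2.continuous.comp (ka2_cc_cont θ t)).mul c1
        · intro τ h
          rw [(h0 _ h).2.1]
          simp
    have hz1 : Integrable (fun τ : ℝ => (deriv (deriv k) (cc τ θ t) *
        (Real.sinh τ / (Real.sin θ * Real.sin t)) *
        (Real.sinh τ / (Real.sin θ * Real.sin t)) +
        deriv k (cc τ θ t) * (Real.cosh τ / (Real.sin θ * Real.sin t)))) := by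
      have c1 : Continuous (fun τ => Real.sinh τ / (Real.sin θ * Real.sin t)) :=
        Real.continuous_sinh.div_const _
      have c2 : Continuous (fun τ => Real.cosh τ / (Real.sin θ * Real.sin t)) :=
        Real.continuous_cosh.div_const _
      apply ka2_integrable (R := R) hθ ht
      · exact (((hd2.2.continuous.comp (ka2_cc_cont θ t)).mul c1).mul c1).add
          ((hd.2.continuous.comp (ka2_cc_cont θ t)).mul c2)
      · intro τ h
        rw [(h0 _ h).2.1, (h0 _ h).2.2]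
        simp
    have hz2 : Integrable (fun τ : ℝ => deriv (deriv k) (cc τ θ t) * ka2_c1 τ θ t * ka2_c1 τ θ t +
        deriv k (cc τ θ t) * ka2_c2 τ θ t) := by
      apply ka2_integrable (R := R) hθ ht
      · exact (((hd2.2.continuous.comp (ka2_cc_cont θ t)).mul (ka2_c1_cont θ t)).mul
          (ka2_c1_cont θ t)).add ((hd.2.continuous.comp (ka2_cc_cont θ t)).mul
          (ka2_c2_cont θ t))
      · intro τ h
        rw [(h0 _ h).2.1, (h0 _ h).2.2]
        simp
    rw [← add_zero (∫ τ : ℝ, _), ← hz, ← integral_add hz2 hz1]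
    unfold kap
    rw [neg_div, ← integral_div, ← integral_neg]
    apply integral_congr_ae
    refine Eventually.of_forall fun τ => ?_
    beta_reduce
    have e1 := ka2_id1 τ (θ := θ) (t := t) a3.ne' a4.ne'
    have e2 := ka2_id2 τ (θ := θ) (t := t) a3.ne' a4.ne'
    unfold DD
    rw [eq_comm, neg_eq_iff_eq_neg, div_eq_iff (pow_ne_zero 2 a3.ne')]
    rw [← e1, ← e2]
    ring
  · refine Eventually.of_forall fun τ x hx => ?_
    have hnn : 0 ≤ K * (R / m) * (R / m) +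
        K * ((2 * Real.cosh T + 2) / (m ^ 3 * Real.sin t)) := by
      have := Real.cosh_pos T
      positivity
    rcases lt_or_ge R (cc τ x t) with h | h
    · rw [(h0 _ h.le).2.1, (h0 _ h.le).2.2]
      simp only [zero_mul, add_zero, norm_zero]
      exact indicator_nonneg (fun _ _ => hnn) _
    · have h2 := hT1 τ x t (hsub x hx) ht h
      have h3 : τ ∈ Icc (-T) T := abs_le.1 h2
      rw [indicator_of_mem h3]
      have h4 : |ka2_c1 τ x t| ≤ R / m := (ka2_c1_bd (hsub x hx) ht hR h).trans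
        (div_le_div_of_nonneg_left (by linarith) hm0 (hm x hx))
      have h5 := ka2_c2_bd ht hm0 (hm x hx) h2
      have h6 := h1 _ (cc_ge (τ := τ) (hsub x hx) ht)
      refine (norm_add_le _ _).trans ?_
      simp only [norm_mul, Real.norm_eq_abs]
      have h7 : 0 ≤ R / m := by positivity
      gcongr
      · exact h6.2
      · exact h6.1
  · exact (integrableOn_const (by simp)).integrable_indicator measurableSet_Icc
  · refine Eventually.of_forall fun τ x hx => ?_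
    have b3 := Real.sin_pos_of_mem_Ioo (hsub x hx)
    refine (((hd2.1 _).hasDerivAt.comp x (ka2_d1 τ b3.ne' a4.ne')).mul
      (ka2_d2 τ b3.ne' a4.ne')).congr_deriv ?_
    simp only [Function.comp_apply]

/-- kernels of the operators: bounds and supports -/
def ka2_B (G : ℝ → ℝ → ℝ) : Prop :=
  ∀ a b : ℝ, 0 < a → b < Real.pi → ∃ a' b' C : ℝ, 0 < a' ∧ b' < Real.pi ∧ 0 ≤ C ∧
    ∀ x ∈ Icc a b, ∀ t ∈ Ioo 0 Real.pi, |G x t| ≤ C ∧ (t ∉ Icc a' b' → G x t = 0)

/-- measurability of a derivative with a parameter -/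
theorem ka2_meas {F : ℝ → ℝ → ℂ} {F' : ℝ → ℂ} {θ : ℝ} {μ : Measure ℝ} {s : Set ℝ} (hs : s ∈ 𝓝 θ)
    (h1 : ∀ x ∈ s, AEStronglyMeasurable (F x) μ)
    (h2 : ∀ᵐ t ∂μ, HasDerivAt (fun x => F x t) (F' t) θ) : AEStronglyMeasurable F' μ := by
  have hu : Tendsto (fun n : ℕ => θ + 1 / ((n : ℝ) + 1)) atTop (𝓝[≠] θ) := by
    rw [tendsto_nhdsWithin_iff]
    constructor
    · have := (tendsto_one_div_add_atTop_nhds_zero_nat (𝕜 := ℝ)).const_add θ
      simpa using this
    · refine Eventually.of_forall fun n => ?_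
      have : 0 < 1 / ((n : ℝ) + 1) := by positivity
      simp only [mem_compl_iff, mem_singleton_iff]
      linarith
  obtain ⟨n₀, hn₀⟩ := eventually_atTop.1
    ((tendsto_nhdsWithin_iff.1 hu).1.eventually hs)
  apply aestronglyMeasurable_of_tendsto_ae atTop
    (f := fun (n : ℕ) t => ((θ + 1 / (((n + n₀ : ℕ) : ℝ) + 1)) - θ)⁻¹ •
      (F (θ + 1 / (((n + n₀ : ℕ) : ℝ) + 1)) t - F θ t))
  · intro n
    have h3 := (h1 _ (hn₀ (n + n₀) (by omega))).sub (h1 θ (mem_of_mem_nhds hs))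
    exact h3.const_smul (((θ + 1 / (((n + n₀ : ℕ) : ℝ) + 1)) - θ)⁻¹)
  · filter_upwards [h2] with t ht
    have h3 := (ht.tendsto_slope.comp hu).comp (tendsto_add_atTop_nat n₀)
    exact h3

/-- differentiation under the integral -/
theorem ka2_main {G G' : ℝ → ℝ → ℝ} {g : ℝ → ℂ} (hg : ContinuousOn g (Ioo 0 Real.pi)) {θ : ℝ}
    (hθ : θ ∈ Ioo 0 Real.pi)
    (h1 : ∀ x ∈ Ioo 0 Real.pi, ∀ t ∈ Ioo 0 Real.pi, HasDerivAt (fun x => G x t) (G' x t) x)
    (h2 : ∀ x ∈ Ioo 0 Real.pi, IntegrableOn (fun t => ((G x t / Real.sin t ^ 2 : ℝ) : ℂ) * g t)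
      (Ioo 0 Real.pi)) (hB : ka2_B G') :
    IntegrableOn (fun t => ((G' θ t / Real.sin t ^ 2 : ℝ) : ℂ) * g t) (Ioo 0 Real.pi) ∧
    HasDerivAt (fun x => ∫ t in Ioo 0 Real.pi, ((G x t / Real.sin t ^ 2 : ℝ) : ℂ) * g t)
      (∫ t in Ioo 0 Real.pi, ((G' θ t / Real.sin t ^ 2 : ℝ) : ℂ) * g t) θ := by
  have hs : Icc (θ / 2) ((θ + Real.pi) / 2) ∈ 𝓝 θ :=
    Icc_mem_nhds (by linarith [hθ.1]) (by linarith [hθ.2])
  have hsub : ∀ x ∈ Icc (θ / 2) ((θ + Real.pi) / 2), x ∈ Ioo 0 Real.pi := fun x hx =>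
    ⟨by linarith [hx.1, hθ.1], by linarith [hx.2, hθ.2]⟩
  obtain ⟨a', b', C, ha', hb', hC, hb⟩ := hB (θ / 2) ((θ + Real.pi) / 2) (by linarith [hθ.1])
    (by linarith [hθ.2])
  obtain ⟨m, hm0, hm⟩ := ka2_min ha' hb'
  obtain ⟨B, hB⟩ := (isCompact_Icc (a := a') (b := b')).exists_bound_of_continuousOn
    (hg.mono fun t ht => ⟨ha'.trans_le ht.1, ht.2.trans_lt hb'⟩)
  have hd : ∀ x ∈ Ioo 0 Real.pi, ∀ t ∈ Ioo 0 Real.pi,
      HasDerivAt (fun x => ((G x t / Real.sin t ^ 2 : ℝ) : ℂ) * g t)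
        (((G' x t / Real.sin t ^ 2 : ℝ) : ℂ) * g t) x := by
    intro x hx t ht
    exact (((h1 x hx t ht).div_const _).ofReal_comp).mul_const _
  have hm' : AEStronglyMeasurable (fun t => ((G' θ t / Real.sin t ^ 2 : ℝ) : ℂ) * g t)
      (volume.restrict (Ioo 0 Real.pi)) := by
    apply ka2_meas (F := fun x t => ((G x t / Real.sin t ^ 2 : ℝ) : ℂ) * g t) hs
      (fun x hx => (h2 x (hsub x hx)).aestronglyMeasurable)
    filter_upwards [ae_restrict_mem measurableSet_Ioo] with t ht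
    exact hd θ hθ t ht
  refine hasDerivAt_integral_of_dominated_loc_of_deriv_le
    (μ := volume.restrict (Ioo 0 Real.pi))
    (F := fun x t => ((G x t / Real.sin t ^ 2 : ℝ) : ℂ) * g t)
    (F' := fun x t => ((G' x t / Real.sin t ^ 2 : ℝ) : ℂ) * g t)
    (x₀ := θ) (s := Icc (θ / 2) ((θ + Real.pi) / 2))
    (bound := (Icc a' b').indicator (fun _ => C / m ^ 2 * |B|)) hs ?_ (h2 θ hθ) hm' ?_ ?_ ?_
  · filter_upwards [hs] with x hx
    exact (h2 x (hsub x hx)).aestronglyMeasurable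
  · filter_upwards [ae_restrict_mem measurableSet_Ioo] with t ht x hx
    by_cases h : t ∈ Icc a' b'
    · rw [indicator_of_mem h, norm_mul, Complex.norm_real, Real.norm_eq_abs, abs_div]
      have h3 : m ^ 2 ≤ |Real.sin t ^ 2| := by
        have := hm t h
        rw [abs_of_nonneg (sq_nonneg _)]
        gcongr
      have h4 : ‖g t‖ ≤ |B| := (hB t h).trans (le_abs_self B)
      apply mul_le_mul _ h4 (norm_nonneg _) (by positivity)
      exact div_le_div₀ hC (hb x hx t ht).1 (by positivity) h3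
    · rw [(hb x hx t ht).2 h, indicator_of_notMem h]
      simp
  · exact ((integrableOn_const (by simp)).integrable_indicator measurableSet_Icc).restrict
  · filter_upwards [ae_restrict_mem measurableSet_Ioo] with t ht x hx
    exact hd x (hsub x hx) t ht

/-- the kernel of the first derivative -/
theorem ka2_B1 {k : ℝ → ℝ} (hk : TK k) : ka2_B (ka2_k1 k) := by
  obtain ⟨R, K, hR, hK, h0, h1⟩ := ka2_ker hk
  obtain ⟨T, hT, hT1⟩ := ka2_T R
  intro a b ha hb
  obtain ⟨a', b', ha', hb', h2⟩ := cc_supp2 R a b ha hb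
  obtain ⟨m, hm0, hm⟩ := ka2_min ha hb
  have hsub : ∀ x ∈ Icc a b, x ∈ Ioo 0 Real.pi := fun x hx => ⟨ha.trans_le hx.1, hx.2.trans_lt hb⟩
  refine ⟨a', b', K * (R / m) * (2 * T), ha', hb', by positivity, ?_⟩
  intro x hx t ht
  constructor
  · have e : ka2_k1 k x t = ∫ τ in Icc (-T) T, deriv k (cc τ x t) * ka2_c1 τ x t := by
      unfold ka2_k1
      rw [setIntegral_eq_integral_of_forall_compl_eq_zero]
      intro τ hτ
      have : R < cc τ x t := by
        by_contra h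
        exact hτ (abs_le.1 (hT1 τ x t (hsub x hx) ht (not_lt.1 h)))
      rw [(h0 _ this.le).2.1, zero_mul]
    rw [e, ← Real.norm_eq_abs]
    have h3 : ∀ τ ∈ Icc (-T) T, ‖deriv k (cc τ x t) * ka2_c1 τ x t‖ ≤ K * (R / m) := by
      intro τ _
      rcases lt_or_ge R (cc τ x t) with h | h
      · rw [(h0 _ h.le).2.1, zero_mul, norm_zero]
        positivity
      · rw [norm_mul, Real.norm_eq_abs, Real.norm_eq_abs]
        apply mul_le_mul (h1 _ (cc_ge (hsub x hx) ht)).1 _ (abs_nonneg _) hK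
        refine (ka2_c1_bd (hsub x hx) ht hR h).trans ?_
        exact div_le_div_of_nonneg_left (by linarith) hm0 (hm x hx)
    refine (norm_setIntegral_le_of_norm_le_const (by simp) h3).trans ?_
    rw [measureReal_def, Real.volume_Icc, ENNReal.toReal_ofReal (by linarith)]
    apply le_of_eq
    ring
  · intro h
    unfold ka2_k1
    rw [← integral_zero ℝ ℝ (μ := volume)]
    congr 1
    funext τ
    have : R < cc τ x t := by
      by_contra h'
      exact h (h2 τ x t hx ht (not_lt.1 h'))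
    rw [(h0 _ this.le).2.1, zero_mul]

/-- the kernel of the second derivative -/
theorem ka2_B2 {k : ℝ → ℝ} (hk : TK k) :
    ka2_B (fun x t => -kap (DD k) x t / Real.sin x ^ 2) := by
  obtain ⟨C, hC, h1⟩ := kap_bd (ka2_TKDD hk)
  obtain ⟨R, h0⟩ := (ka2_TKDD hk).supp
  intro a b ha hb
  obtain ⟨a', b', ha', hb', h2⟩ := cc_supp2 R a b ha hb
  obtain ⟨m, hm0, hm⟩ := ka2_min ha hb
  have hsub : ∀ x ∈ Icc a b, x ∈ Ioo 0 Real.pi := fun x hx => ⟨ha.trans_le hx.1, hx.2.trans_lt hb⟩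
  refine ⟨a', b', C / m ^ 2, ha', hb', by positivity, ?_⟩
  intro x hx t ht
  constructor
  · rw [abs_div, abs_neg]
    have h3 : m ^ 2 ≤ |Real.sin x ^ 2| := by
      have := hm x hx
      rw [abs_of_nonneg (sq_nonneg _)]
      gcongr
    refine div_le_div₀ hC ?_ (by positivity) h3
    refine (h1 x t (hsub x hx) ht).trans ?_
    have h4 : √(Real.sin x * Real.sin t) ≤ 1 := by
      rw [Real.sqrt_le_one]
      have a1 := Real.sin_le_one x
      have a2 := Real.sin_le_one t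
      have a3 := Real.sin_pos_of_mem_Ioo (hsub x hx)
      have a4 := Real.sin_pos_of_mem_Ioo ht
      nlinarith
    calc C * √(Real.sin x * Real.sin t) ≤ C * 1 := by gcongr
      _ = C := mul_one C
  · intro h
    have : kap (DD k) x t = 0 := by
      unfold kap
      rw [← integral_zero ℝ ℝ (μ := volume)]
      congr 1
      funext τ
      have : R < cc τ x t := by
        by_contra h'
        exact h (h2 τ x t hx ht (not_lt.1 h'))
      exact h0 _ this.le
    simp only [this, neg_zero, zero_div]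

theorem ka2_KK1 {k : ℝ → ℝ} (hk : TK k) (g : ℝ → ℂ) {θ : ℝ} (hθ : θ ∈ Ioo 0 Real.pi) :
    KK1 k g θ = ∫ t in Ioo 0 Real.pi, ((ka2_k1 k θ t / Real.sin t ^ 2 : ℝ) : ℂ) * g t := by
  unfold KK1
  apply setIntegral_congr_fun measurableSet_Ioo
  intro t ht
  simp only [(ka2_k1_deriv hk hθ ht).deriv]

/-- KA2: the two derivatives of `K_k g` -/
theorem kk_deriv {k : ℝ → ℝ} (hk : TK k) {g : ℝ → ℂ} (hg : ContinuousOn g (Ioo 0 Real.pi)) {θ : ℝ}
    (hθ : θ ∈ Ioo 0 Real.pi) : HasDerivAt (KK k g) (KK1 k g θ) θ ∧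
      HasDerivAt (KK1 k g) (-(KK (DD k) g θ) / ((Real.sin θ ^ 2 : ℝ) : ℂ)) θ := by
  have h1 := fun (x : ℝ) (hx : x ∈ Ioo 0 Real.pi) => ka2_main (θ := x) hg hx
    (fun x hx t ht => ka2_k1_deriv hk hx ht) (fun x hx => kk_int hk hg hx) (ka2_B1 hk)
  have h2 := ka2_main hg hθ (fun x hx t ht => ka2_k2_deriv hk hx ht)
    (fun x hx => (h1 x hx).1) (ka2_B2 hk)
  constructor
  · rw [ka2_KK1 hk g hθ]
    exact (h1 θ hθ).2
  · have e : KK1 k g =ᶠ[𝓝 θ]
        fun x => ∫ t in Ioo 0 Real.pi, ((ka2_k1 k x t / Real.sin t ^ 2 : ℝ) : ℂ) * g t := by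
      filter_upwards [Ioo_mem_nhds hθ.1 hθ.2] with x hx
      exact ka2_KK1 hk g hx
    refine (h2.2.congr_of_eventuallyEq e).congr_deriv ?_
    unfold KK
    rw [neg_div, ← integral_div, ← integral_neg]
    apply integral_congr_ae
    refine Eventually.of_forall fun t => ?_
    push_cast
    ring

/-- the majorant of the kernel of the first derivative -/
theorem ka2_maj {k : ℝ → ℝ} (hk : TK k) : ∃ q : ℝ → ℝ, TK q ∧
    ∀ θ t : ℝ, θ ∈ Ioo 0 Real.pi → t ∈ Ioo 0 Real.pi →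
      |ka2_k1 k θ t| ≤ kap q θ t / Real.sin θ := by
  obtain ⟨R, K, hR, hK, h0, h1⟩ := ka2_ker hk
  have hq : TK (fun c => K * R * Real.smoothTransition (R + 1 - c)) := by
    refine ⟨?_, R + 1, ?_⟩
    · exact contDiff_const.mul (Real.smoothTransition.contDiff.comp
        (contDiff_const.sub contDiff_id))
    · intro c hc
      rw [Real.smoothTransition.zero_of_nonpos (by linarith), mul_zero]
  refine ⟨_, hq, ?_⟩
  intro θ t hθ ht
  have a3 := Real.sin_pos_of_mem_Ioo hθ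
  have hd := contDiff_infty_iff_deriv.1 hk.smooth
  unfold ka2_k1 kap
  rw [← integral_div, ← Real.norm_eq_abs]
  refine (norm_integral_le_integral_norm _).trans ?_
  apply integral_mono
  · apply Integrable.norm
    apply ka2_integrable (R := R) hθ ht
    · exact (hd.2.continuous.comp (ka2_cc_cont θ t)).mul (ka2_c1_cont θ t)
    · intro τ h
      rw [(h0 _ h).2.1, zero_mul]
  · apply Integrable.div_const
    apply ka2_integrable (R := R + 1) hθ ht
    · exact hq.smooth.continuous.comp (ka2_cc_cont θ t)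
    · intro τ h
      beta_reduce
      rw [Real.smoothTransition.zero_of_nonpos (by linarith), mul_zero]
  · intro τ
    beta_reduce
    rcases lt_or_ge R (cc τ θ t) with h | h
    · rw [(h0 _ h.le).2.1, zero_mul, norm_zero]
      have := Real.smoothTransition.nonneg (R + 1 - cc τ θ t)
      positivity
    · rw [Real.smoothTransition.one_of_one_le (by linarith), mul_one, norm_mul, Real.norm_eq_abs,
        Real.norm_eq_abs, mul_div_assoc]
      apply mul_le_mul (h1 _ (cc_ge hθ ht)).1 _ (abs_nonneg _) hK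
      exact ka2_c1_bd hθ ht hR h

/-- KA2 -/
theorem kk1_bd {k : ℝ → ℝ} (hk : TK k) (a : ℝ) (ha : 0 ≤ a) : ∃ C : ℝ, 0 ≤ C ∧
    ∀ (g : ℝ → ℂ) (B : ℝ), ContinuousOn g (Ioo 0 Real.pi) →
      (∀ θ ∈ Ioo 0 Real.pi, ‖g θ‖ ≤ B * Real.sin θ ^ (-a)) →
      ∀ θ ∈ Ioo 0 Real.pi, ‖KK1 k g θ‖ ≤ C * B * Real.sin θ ^ (-(a + 1)) := by
  obtain ⟨q, hq, h1⟩ := ka2_maj hk
  obtain ⟨C, hC, h2⟩ := kk_bd hq a ha
  refine ⟨C, hC, ?_⟩
  intro g B hg hB θ hθ
  have a3 := Real.sin_pos_of_mem_Ioo hθ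
  have hg' : ContinuousOn (fun t => ((‖g t‖ : ℝ) : ℂ)) (Ioo 0 Real.pi) :=
    Complex.continuous_ofReal.comp_continuousOn hg.norm
  have h3 := h2 (fun t => ((‖g t‖ : ℝ) : ℂ)) B hg' (fun θ hθ => by
    rw [Complex.norm_real, norm_norm]
    exact hB θ hθ) θ hθ
  have h4 := kk_int hq hg' hθ
  have e : KK q (fun t => ((‖g t‖ : ℝ) : ℂ)) θ =
      ((∫ t in Ioo 0 Real.pi, kap q θ t / Real.sin t ^ 2 * ‖g t‖ : ℝ) : ℂ) := by
    unfold KK
    rw [← integral_complex_ofReal]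
    apply integral_congr_ae
    refine Eventually.of_forall fun t => ?_
    push_cast
    ring
  have h5 : IntegrableOn (fun t => kap q θ t / Real.sin t ^ 2 * ‖g t‖) (Ioo 0 Real.pi) := by
    have := h4.re
    refine this.congr (Eventually.of_forall fun t => ?_)
    simp only [RCLike.re_to_complex, ← Complex.ofReal_mul, Complex.ofReal_re]
  rw [ka2_KK1 hk g hθ]
  have h6 : ‖∫ t in Ioo 0 Real.pi, ((ka2_k1 k θ t / Real.sin t ^ 2 : ℝ) : ℂ) * g t‖ ≤
      ∫ t in Ioo 0 Real.pi, kap q θ t / Real.sin t ^ 2 * ‖g t‖ / Real.sin θ := by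
    apply norm_integral_le_of_norm_le (h5.div_const _)
    filter_upwards [ae_restrict_mem measurableSet_Ioo] with t ht
    have a4 := Real.sin_pos_of_mem_Ioo ht
    rw [norm_mul, Complex.norm_real, Real.norm_eq_abs, abs_div, abs_of_pos (pow_pos a4 2)]
    have h7 := h1 θ t hθ ht
    calc |ka2_k1 k θ t| / Real.sin t ^ 2 * ‖g t‖ ≤
        kap q θ t / Real.sin θ / Real.sin t ^ 2 * ‖g t‖ := by gcongr
      _ = kap q θ t / Real.sin t ^ 2 * ‖g t‖ / Real.sin θ := by ring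
  refine h6.trans ?_
  rw [integral_div, div_le_iff₀ a3]
  rw [e, Complex.norm_real, Real.norm_eq_abs] at h3
  refine (le_abs_self _).trans (h3.trans (le_of_eq ?_))
  rw [mul_assoc (C * B), ← Real.rpow_add_one a3.ne']
  congr 2
  ring

end Pool.Agent.JOS
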