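import Pool.Agent.Lib_helper58.JOSF.KA2

/-! # JO, part S, block KA3 (helper47) -/

set_option autoImplicit false

namespace Pool.Agent.JOS

open Complex MeasureTheory Filter Topology UpperHalfPlane ModularGroup Set Metric
open scoped MatrixGroups Modular ENNReal ComplexConjugate ContDiff
open Pool.Agent.JO (QN red FamH)

theorem ka3_tk {k : ℝ → ℝ} (hk : TK k) : TK (DD k) := by
  obtain ⟨R, hR⟩ := hk.supp
  have h1 : ContDiff ℝ ∞ (deriv k) := hk.smooth.deriv'
  have h2 : ContDiff ℝ ∞ (deriv (deriv k)) := h1.deriv'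
  refine ⟨?_, R + 1, fun c hc => ?_⟩
  · unfold DD
    fun_prop
  · have e1 : ∀ x, R < x → deriv k x = 0 := by
      intro x hx
      have : k =ᶠ[𝓝 x] fun _ => (0 : ℝ) := by
        filter_upwards [Ioi_mem_nhds hx] with y hy
        exact hR y (le_of_lt hy)
      rw [this.deriv_eq, deriv_const]
    have e2 : deriv (deriv k) c = 0 := by
      have : deriv k =ᶠ[𝓝 c] fun _ => (0 : ℝ) := by
        filter_upwards [Ioi_mem_nhds (show R < c by linarith)] with y hy
        exact e1 y hy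
      rw [this.deriv_eq, deriv_const]
    unfold DD
    rw [e1 c (by linarith), e2]
    ring

theorem ka3_sin {t : ℝ} (ht : t ∈ Ioo 0 Real.pi) : ((Real.sin t ^ 2 : ℝ) : ℂ) ≠ 0 := by
  have := Real.sin_pos_of_mem_Ioo ht
  exact_mod_cast (pow_pos this 2).ne'

theorem kk_smooth_aux {g : ℝ → ℂ} (hg : ContinuousOn g (Ioo 0 Real.pi)) (n : ℕ) :
    ∀ k : ℝ → ℝ, TK k → ContDiffOn ℝ n (KK k g) (Ioo 0 Real.pi) ∧
      ContDiffOn ℝ n (KK1 k g) (Ioo 0 Real.pi) := by
  induction n with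
  | zero =>
    intro k hk
    simp only [Nat.cast_zero, contDiffOn_zero]
    exact ⟨fun t ht => (kk_deriv hk hg ht).1.continuousAt.continuousWithinAt,
      fun t ht => (kk_deriv hk hg ht).2.continuousAt.continuousWithinAt⟩
  | succ n ih =>
    intro k hk
    have hne : ((n : ℕ∞ω) = ⊤) → False := by
      intro h
      exact absurd h (by simp)
    constructor
    · rw [Nat.cast_succ, contDiffOn_succ_iff_deriv_of_isOpen isOpen_Ioo]
      refine ⟨fun t ht => (kk_deriv hk hg ht).1.differentiableAt.differentiableWithinAt, ?_, ?_⟩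
      · intro h
        exact absurd h (by simp)
      · exact (ih k hk).2.congr fun t ht => (kk_deriv hk hg ht).1.deriv
    · rw [Nat.cast_succ, contDiffOn_succ_iff_deriv_of_isOpen isOpen_Ioo]
      refine ⟨fun t ht => (kk_deriv hk hg ht).2.differentiableAt.differentiableWithinAt, ?_, ?_⟩
      · intro h
        exact absurd h (by simp)
      · have hsin : ContDiffOn ℝ n (fun t : ℝ => ((Real.sin t ^ 2 : ℝ) : ℂ)) (Ioo 0 Real.pi) := by
          apply ContDiff.contDiffOn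
          exact Complex.ofRealCLM.contDiff.comp (Real.contDiff_sin.pow 2)
        have h1 : ContDiffOn ℝ n (fun t => -(KK (DD k) g t) / ((Real.sin t ^ 2 : ℝ) : ℂ))
            (Ioo 0 Real.pi) := by
          simp_rw [div_eq_mul_inv]
          exact (ih (DD k) (ka3_tk hk)).1.neg.mul (hsin.inv fun t ht => ka3_sin ht)
        exact h1.congr fun t ht => (kk_deriv hk hg ht).2.deriv

theorem kk_smooth {k : ℝ → ℝ} (hk : TK k) {g : ℝ → ℂ} (hg : ContinuousOn g (Ioo 0 Real.pi)) :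
    ContDiffOn ℝ ∞ (KK k g) (Ioo 0 Real.pi) := by
  rw [contDiffOn_infty]
  intro n
  exact (kk_smooth_aux hg n k hk).1

theorem ka3_kap_ne {k : ℝ → ℝ} {R : ℝ} (hR : ∀ c, R ≤ c → k c = 0) {θ θ' : ℝ}
    (h : kap k θ θ' ≠ 0) : ∃ τ, cc τ θ θ' ≤ R := by
  by_contra hcon
  simp only [not_exists, not_le] at hcon
  apply h
  unfold kap
  have : ∀ τ, k (cc τ θ θ') = 0 := fun τ => hR _ (hcon τ).le
  simp [this]

theorem kk_supp {k : ℝ → ℝ} (hk : TK k) {a b : ℝ} (ha : 0 < a) (hb : b < Real.pi) :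
    ∃ a' b' : ℝ, 0 < a' ∧ b' < Real.pi ∧ ∀ g : ℝ → ℂ, (∀ t, g t ≠ 0 → t ∈ Icc a b) →
      ∀ t ∈ Ioo 0 Real.pi, KK k g t ≠ 0 → t ∈ Icc a' b' := by
  obtain ⟨R, hR⟩ := hk.supp
  obtain ⟨a', b', ha', hb', h⟩ := cc_supp2 R a b ha hb
  refine ⟨a', b', ha', hb', fun g hg t ht hne => ?_⟩
  unfold KK at hne
  have : ∃ r ∈ Ioo 0 Real.pi, ((kap k t r / Real.sin r ^ 2 : ℝ) : ℂ) * g r ≠ 0 := by
    by_contra hcon
    exact hne (setIntegral_eq_zero_of_forall_eq_zero fun r hr => by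
      by_contra h
      exact hcon ⟨r, hr, h⟩)
  obtain ⟨r, hr, hne2⟩ := this
  have h1 : g r ≠ 0 := right_ne_zero_of_mul hne2
  have h2 : kap k t r ≠ 0 := by
    intro h0
    apply hne2
    rw [h0]
    simp
  rw [kap_symm] at h2
  obtain ⟨τ, hτ⟩ := ka3_kap_ne hR h2
  exact h τ r t (hg r h1) ht hτ

theorem kk_symm {k : ℝ → ℝ} (hk : TK k) {g u : ℝ → ℂ} (hg : ContinuousOn g (Ioo 0 Real.pi))
    (hu : ContinuousOn u (Ioo 0 Real.pi)) {a b : ℝ} (ha : 0 < a) (hb : b < Real.pi)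
    (hs : ∀ t, u t ≠ 0 → t ∈ Icc a b) :
    ∫ t in Ioo 0 Real.pi, KK k g t * u t / ((Real.sin t ^ 2 : ℝ) : ℂ) =
      ∫ t in Ioo 0 Real.pi, g t * KK k u t / ((Real.sin t ^ 2 : ℝ) : ℂ) := by
  obtain ⟨R, hR⟩ := hk.supp
  obtain ⟨a', b', ha', hb', hc⟩ := cc_supp2 R a b ha hb
  set S : Set ℝ := Ioo 0 Real.pi with hS
  set Φ : ℝ × ℝ → ℂ := fun p => (((kap k p.1 p.2 / Real.sin p.2 ^ 2 : ℝ) : ℂ) * g p.2) *
    (u p.1 / ((Real.sin p.1 ^ 2 : ℝ) : ℂ)) with hΦ
  have hsub1 : Icc a b ⊆ S := fun t ht => ⟨by linarith [ht.1], by linarith [ht.2]⟩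
  have hsub2 : Icc a' b' ⊆ S := fun t ht => ⟨by linarith [ht.1], by linarith [ht.2]⟩
  have hsinc : ContinuousOn (fun t : ℝ => ((Real.sin t ^ 2 : ℝ) : ℂ)) S := by fun_prop
  have hsinr : ContinuousOn (fun t : ℝ => Real.sin t ^ 2) S := by fun_prop
  have hΦc : ContinuousOn Φ (S ×ˢ S) := by
    have m1 : MapsTo (fun p : ℝ × ℝ => p.1) (S ×ˢ S) S := fun p hp => hp.1
    have m2 : MapsTo (fun p : ℝ × ℝ => p.2) (S ×ˢ S) S := fun p hp => hp.2
    have c1 : ContinuousOn (fun p : ℝ × ℝ => kap k p.1 p.2 / Real.sin p.2 ^ 2) (S ×ˢ S) := by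
      refine (kap_cont hk).div (hsinr.comp continuousOn_snd m2) ?_
      intro p hp
      exact (pow_pos (Real.sin_pos_of_mem_Ioo hp.2) 2).ne'
    have c2 : ContinuousOn (fun p : ℝ × ℝ => ((kap k p.1 p.2 / Real.sin p.2 ^ 2 : ℝ) : ℂ))
        (S ×ˢ S) := Complex.continuous_ofReal.comp_continuousOn c1
    have c3 : ContinuousOn (fun p : ℝ × ℝ => u p.1 / ((Real.sin p.1 ^ 2 : ℝ) : ℂ)) (S ×ˢ S) := by
      refine (hu.comp continuousOn_fst m1).div (hsinc.comp continuousOn_fst m1) ?_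
      intro p hp
      exact ka3_sin hp.1
    exact (c2.mul (hg.comp continuousOn_snd m2)).mul c3
  have hΦi : IntegrableOn Φ (S ×ˢ S) ((volume : Measure ℝ).prod volume) := by
    have hK : IntegrableOn Φ (Icc a b ×ˢ Icc a' b') ((volume : Measure ℝ).prod volume) :=
      (hΦc.mono (prod_mono hsub1 hsub2)).integrableOn_compact (isCompact_Icc.prod isCompact_Icc)
    refine hK.of_forall_sdiff_eq_zero (measurableSet_Ioo.prod measurableSet_Ioo) ?_
    rintro ⟨t, r⟩ ⟨⟨ht, hr⟩, hn⟩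
    by_contra hne
    apply hn
    have hu0 : u t ≠ 0 := by
      intro h0
      apply hne
      simp only [hΦ]
      rw [h0, zero_div, mul_zero]
    have hk0 : kap k t r ≠ 0 := by
      intro h0
      apply hne
      simp only [hΦ]
      rw [h0]
      simp
    obtain ⟨τ, hτ⟩ := ka3_kap_ne hR hk0
    exact ⟨hs t hu0, hc τ t r (hs t hu0) hr hτ⟩
  have hL : ∫ t in S, KK k g t * u t / ((Real.sin t ^ 2 : ℝ) : ℂ) =
      ∫ t in S, ∫ r in S, Φ (t, r) := by
    apply setIntegral_congr_fun measurableSet_Ioo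
    intro t ht
    simp only [hΦ]
    rw [integral_mul_const]
    unfold KK
    rw [mul_div_assoc]
  have hRt : ∫ t in S, g t * KK k u t / ((Real.sin t ^ 2 : ℝ) : ℂ) =
      ∫ r in S, ∫ t in S, Φ (t, r) := by
    apply setIntegral_congr_fun measurableSet_Ioo
    intro r hr
    simp only [hΦ]
    unfold KK
    rw [mul_comm (g r), mul_div_assoc, ← integral_mul_const]
    apply setIntegral_congr_fun measurableSet_Ioo
    intro t ht
    simp only
    rw [kap_symm k r t]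
    have h1 := ka3_sin ht
    have h2 := ka3_sin hr
    push_cast at h1 h2 ⊢
    field_simp
  rw [hL, hRt]
  apply integral_integral_swap
  rw [Measure.prod_restrict]
  exact hΦi

/-- integration by parts twice -/
theorem ka3_parts {k : ℝ → ℝ} (hk : TK k) {g g1 g2 : ℝ → ℂ}
    (h1 : ∀ t ∈ Ioo 0 Real.pi, HasDerivAt g (g1 t) t)
    (h2 : ∀ t ∈ Ioo 0 Real.pi, HasDerivAt g1 (g2 t) t) (h3 : ContinuousOn g2 (Ioo 0 Real.pi))
    {u : ℝ → ℂ} (hu : ContinuousOn u (Ioo 0 Real.pi)) {a b : ℝ} (ha : 0 < a) (hb : b < Real.pi)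
    (hs : ∀ t, u t ≠ 0 → t ∈ Icc a b) :
    ∫ t in Ioo 0 Real.pi, g t * KK (DD k) u t / ((Real.sin t ^ 2 : ℝ) : ℂ) =
      -∫ t in Ioo 0 Real.pi, g2 t * KK k u t := by
  obtain ⟨a₁, b₁, ha₁, hb₁, hw⟩ := kk_supp hk ha hb
  obtain ⟨a₂, b₂, ha₂, hb₂, hw2⟩ := kk_supp (ka3_tk hk) ha hb
  have hw := hw u hs
  have hw2 := hw2 u hs
  have hpi := Real.pi_pos
  set c : ℝ := min (min a₁ a₂) (Real.pi / 2) / 2 with hc
  set d : ℝ := (max (max b₁ b₂) (Real.pi / 2) + Real.pi) / 2 with hd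
  have hm0 : 0 < min (min a₁ a₂) (Real.pi / 2) := lt_min (lt_min ha₁ ha₂) (by positivity)
  have hM0 : max (max b₁ b₂) (Real.pi / 2) < Real.pi := max_lt (max_lt hb₁ hb₂) (by linarith)
  have hc0 : 0 < c := by positivity
  have hdpi : d < Real.pi := by rw [hd]; linarith
  have hcm : c < min (min a₁ a₂) (Real.pi / 2) := by rw [hc]; linarith
  have hdM : max (max b₁ b₂) (Real.pi / 2) < d := by rw [hd]; linarith
  have hc1 : c < a₁ := hcm.trans_le ((min_le_left _ _).trans (min_le_left _ _))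
  have hc2 : c < a₂ := hcm.trans_le ((min_le_left _ _).trans (min_le_right _ _))
  have hc3 : c < Real.pi / 2 := hcm.trans_le (min_le_right _ _)
  have hd1 : b₁ < d := ((le_max_left _ _).trans (le_max_left _ _)).trans_lt hdM
  have hd2 : b₂ < d := ((le_max_right _ _).trans (le_max_left _ _)).trans_lt hdM
  have hd3 : Real.pi / 2 < d := (le_max_right _ _).trans_lt hdM
  have hcd : c ≤ d := by linarith
  have hsub : Icc c d ⊆ Ioo 0 Real.pi := fun t ht => ⟨by linarith [ht.1], by linarith [ht.2]⟩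
  have hcS : c ∈ Ioo 0 Real.pi := hsub ⟨le_rfl, hcd⟩
  have hdS : d ∈ Ioo 0 Real.pi := hsub ⟨hcd, le_rfl⟩
  -- the function w and its derivatives
  have hw0 : ∀ t ∈ Ioo 0 Real.pi, t ∉ Icc a₁ b₁ → KK k u t = 0 := fun t ht hn => by
    by_contra h
    exact hn (hw t ht h)
  have hwc : KK k u c = 0 := hw0 c hcS (fun h => by linarith [h.1])
  have hwd : KK k u d = 0 := hw0 d hdS (fun h => by linarith [h.2])
  have hw1c : KK1 k u c = 0 := by
    have e : KK k u =ᶠ[𝓝 c] fun _ => 0 := by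
      filter_upwards [Ioo_mem_nhds hc0 hc1, Iio_mem_nhds hcS.2] with t ht ht2
      exact hw0 t ⟨ht.1, ht2⟩ (fun h => by linarith [h.1, ht.2])
    have e2 : HasDerivAt (KK k u) 0 c := (hasDerivAt_const c (0 : ℂ)).congr_of_eventuallyEq e
    exact (kk_deriv hk hu hcS).1.unique e2
  have hw1d : KK1 k u d = 0 := by
    have e : KK k u =ᶠ[𝓝 d] fun _ => 0 := by
      filter_upwards [Ioo_mem_nhds hd1 hdpi, Ioi_mem_nhds hdS.1] with t ht ht0
      exact hw0 t ⟨ht0, by linarith [ht.2]⟩ (fun h => by linarith [h.2, ht.1])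
    have e2 : HasDerivAt (KK k u) 0 d := (hasDerivAt_const d (0 : ℂ)).congr_of_eventuallyEq e
    exact (kk_deriv hk hu hdS).1.unique e2
  have hcw : ContinuousOn (KK k u) (Ioo 0 Real.pi) := fun t ht =>
    (kk_deriv hk hu ht).1.continuousAt.continuousWithinAt
  have hcw1 : ContinuousOn (KK1 k u) (Ioo 0 Real.pi) := fun t ht =>
    (kk_deriv hk hu ht).2.continuousAt.continuousWithinAt
  have hcw2 : ContinuousOn (KK (DD k) u) (Ioo 0 Real.pi) := fun t ht =>
    (kk_deriv (ka3_tk hk) hu ht).1.continuousAt.continuousWithinAt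
  have hsinc : ContinuousOn (fun t : ℝ => ((Real.sin t ^ 2 : ℝ) : ℂ)) (Ioo 0 Real.pi) := by fun_prop
  have hcw2' : ContinuousOn (fun t => -(KK (DD k) u t) / ((Real.sin t ^ 2 : ℝ) : ℂ))
      (Ioo 0 Real.pi) := hcw2.neg.div hsinc fun t ht => ka3_sin ht
  have hcg : ContinuousOn g (Ioo 0 Real.pi) := fun t ht => (h1 t ht).continuousAt.continuousWithinAt
  have hcg1 : ContinuousOn g1 (Ioo 0 Real.pi) := fun t ht => (h2 t ht).continuousAt.continuousWithinAt
  have huIcc : uIcc c d = Icc c d := uIcc_of_le hcd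
  have hii : ∀ {F : ℝ → ℂ}, ContinuousOn F (Ioo 0 Real.pi) → IntervalIntegrable F volume c d := by
    intro F hF
    apply ContinuousOn.intervalIntegrable
    rw [huIcc]
    exact hF.mono hsub
  have p1 := intervalIntegral.integral_mul_deriv_eq_deriv_mul (a := c) (b := d) (u := g)
    (v := KK1 k u) (u' := g1) (v' := fun t => -(KK (DD k) u t) / ((Real.sin t ^ 2 : ℝ) : ℂ))
    (fun t ht => h1 t (hsub (huIcc ▸ ht))) (fun t ht => (kk_deriv hk hu (hsub (huIcc ▸ ht))).2)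
    (hii hcg1) (hii hcw2')
  have p2 := intervalIntegral.integral_mul_deriv_eq_deriv_mul (a := c) (b := d) (u := g1)
    (v := KK k u) (u' := g2) (v' := KK1 k u)
    (fun t ht => h2 t (hsub (huIcc ▸ ht))) (fun t ht => (kk_deriv hk hu (hsub (huIcc ▸ ht))).1)
    (hii h3) (hii hcw1)
  rw [hw1c, hw1d, mul_zero, mul_zero, sub_zero, zero_sub] at p1
  rw [hwc, hwd, mul_zero, mul_zero, sub_zero, zero_sub] at p2
  rw [p2, neg_neg] at p1
  -- pass to the whole interval
  have hset : ∀ {F : ℝ → ℂ}, (∀ t ∈ Ioo 0 Real.pi, t ∉ Icc c d → F t = 0) →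
      ∫ t in Ioo 0 Real.pi, F t = ∫ t in c..d, F t := by
    intro F hF
    rw [intervalIntegral.integral_of_le hcd, ← integral_Icc_eq_integral_Ioc]
    apply setIntegral_eq_of_subset_of_forall_sdiff_eq_zero measurableSet_Ioo hsub
    intro t ht
    exact hF t ht.1 ht.2
  have q1 : ∫ t in Ioo 0 Real.pi, g t * KK (DD k) u t / ((Real.sin t ^ 2 : ℝ) : ℂ) =
      -∫ t in c..d, g t * (-(KK (DD k) u t) / ((Real.sin t ^ 2 : ℝ) : ℂ)) := by
    rw [hset, ← intervalIntegral.integral_neg]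
    · congr 1
      funext t
      ring
    · intro t ht hn
      have : KK (DD k) u t = 0 := by
        by_contra h
        have := hw2 t ht h
        exact hn ⟨by linarith [this.1], by linarith [this.2]⟩
      rw [this, mul_zero, zero_div]
  have q2 : ∫ t in Ioo 0 Real.pi, g2 t * KK k u t = ∫ t in c..d, g2 t * KK k u t := by
    apply hset
    intro t ht hn
    rw [hw0 t ht (fun h => hn ⟨by linarith [h.1], by linarith [h.2]⟩), mul_zero]
  rw [q1, q2, p1]

theorem kk_D {k : ℝ → ℝ} (hk : TK k) {g g1 g2 : ℝ → ℂ}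
    (h1 : ∀ t ∈ Ioo 0 Real.pi, HasDerivAt g (g1 t) t)
    (h2 : ∀ t ∈ Ioo 0 Real.pi, HasDerivAt g1 (g2 t) t) (h3 : ContinuousOn g2 (Ioo 0 Real.pi))
    {θ : ℝ} (hθ : θ ∈ Ioo 0 Real.pi) :
    KK (DD k) g θ = KK k (fun t => -((Real.sin t ^ 2 : ℝ) : ℂ) * g2 t) θ := by
  have hcg : ContinuousOn g (Ioo 0 Real.pi) := fun t ht => (h1 t ht).continuousAt.continuousWithinAt
  have hsinc : ContinuousOn (fun t : ℝ => ((Real.sin t ^ 2 : ℝ) : ℂ)) (Ioo 0 Real.pi) := by fun_prop
  have hcg2 : ContinuousOn (fun t => -((Real.sin t ^ 2 : ℝ) : ℂ) * g2 t) (Ioo 0 Real.pi) :=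
    hsinc.neg.mul h3
  have hk' := ka3_tk hk
  set P : ℝ → ℂ := KK (DD k) g with hP
  set Q : ℝ → ℂ := KK k (fun t => -((Real.sin t ^ 2 : ℝ) : ℂ) * g2 t) with hQ
  have hcP : ContinuousOn P (Ioo 0 Real.pi) := fun t ht =>
    (kk_deriv hk' hcg ht).1.continuousAt.continuousWithinAt
  have hcQ : ContinuousOn Q (Ioo 0 Real.pi) := fun t ht =>
    (kk_deriv hk hcg2 ht).1.continuousAt.continuousWithinAt
  set E : ℝ → ℂ := fun t => P t - Q t with hE
  have hcE : ContinuousOn E (Ioo 0 Real.pi) := hcP.sub hcQ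
  -- the test function
  set a : ℝ := θ / 2 with ha
  set b : ℝ := (θ + Real.pi) / 2 with hb
  have ha0 : 0 < a := by have := hθ.1; rw [ha]; linarith
  have haθ : a < θ := by have := hθ.1; rw [ha]; linarith
  have hbpi : b < Real.pi := by have := hθ.2; rw [hb]; linarith
  have hθb : θ < b := by have := hθ.2; rw [hb]; linarith
  set β : ℝ → ℝ := fun t => max 0 (min (t - a) (b - t)) with hβ
  have hβc : Continuous β := by rw [hβ]; fun_prop
  have hβ0 : ∀ t, 0 ≤ β t := fun t => le_max_left _ _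
  have hβs : ∀ t, β t ≠ 0 → t ∈ Icc a b := by
    intro t ht
    by_contra hn
    apply ht
    simp only [hβ]
    apply max_eq_left
    rw [mem_Icc, not_and_or, not_le, not_le] at hn
    rcases hn with hn | hn
    · exact (min_le_left _ _).trans (by linarith)
    · exact (min_le_right _ _).trans (by linarith)
  have hβθ : 0 < β θ := by
    simp only [hβ]
    exact lt_max_of_lt_right (lt_min (by linarith) (by linarith))
  set u : ℝ → ℂ := fun t => conj (E t) * (β t : ℂ) with hu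
  have hcu : ContinuousOn u (Ioo 0 Real.pi) := by
    refine (Complex.continuous_conj.comp_continuousOn hcE).mul ?_
    exact (Complex.continuous_ofReal.comp hβc).continuousOn
  have hus : ∀ t, u t ≠ 0 → t ∈ Icc a b := by
    intro t ht
    apply hβs
    intro h0
    apply ht
    simp only [hu]
    rw [h0]
    simp
  have e1 := kk_symm hk' hcg hcu ha0 hbpi hus
  have e2 := ka3_parts hk h1 h2 h3 hcu ha0 hbpi hus
  have e3 := kk_symm hk hcg2 hcu ha0 hbpi hus
  have e4 : ∫ t in Ioo 0 Real.pi, (-((Real.sin t ^ 2 : ℝ) : ℂ) * g2 t) * KK k u t /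
      ((Real.sin t ^ 2 : ℝ) : ℂ) = -∫ t in Ioo 0 Real.pi, g2 t * KK k u t := by
    rw [← integral_neg]
    apply setIntegral_congr_fun measurableSet_Ioo
    intro t ht
    simp only
    have := ka3_sin ht
    field_simp
  have e5 : ∫ t in Ioo 0 Real.pi, P t * u t / ((Real.sin t ^ 2 : ℝ) : ℂ) =
      ∫ t in Ioo 0 Real.pi, Q t * u t / ((Real.sin t ^ 2 : ℝ) : ℂ) := by
    rw [e1, e2, e3, e4]
  -- integrability
  have hint : ∀ {F : ℝ → ℂ}, ContinuousOn F (Ioo 0 Real.pi) →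
      IntegrableOn (fun t => F t * u t / ((Real.sin t ^ 2 : ℝ) : ℂ)) (Ioo 0 Real.pi) := by
    intro F hF
    have hsub : Icc a b ⊆ Ioo 0 Real.pi := fun t ht => ⟨by linarith [ht.1], by linarith [ht.2]⟩
    have hc : ContinuousOn (fun t => F t * u t / ((Real.sin t ^ 2 : ℝ) : ℂ)) (Ioo 0 Real.pi) :=
      (hF.mul hcu).div hsinc fun t ht => ka3_sin ht
    refine ((hc.mono hsub).integrableOn_compact isCompact_Icc).of_forall_sdiff_eq_zero
      measurableSet_Ioo ?_
    intro t ht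
    have : u t = 0 := by
      by_contra h
      exact ht.2 (hus t h)
    rw [this, mul_zero, zero_div]
  have e6 : ∫ t in Ioo 0 Real.pi, ‖E t‖ ^ 2 * β t / Real.sin t ^ 2 = 0 := by
    have h7 : ∫ t in Ioo 0 Real.pi, (P t * u t / ((Real.sin t ^ 2 : ℝ) : ℂ) -
        Q t * u t / ((Real.sin t ^ 2 : ℝ) : ℂ)) = 0 := by
      rw [integral_sub (hint hcP) (hint hcQ), e5, sub_self]
    have h8 : ∫ t in Ioo 0 Real.pi, ((‖E t‖ ^ 2 * β t / Real.sin t ^ 2 : ℝ) : ℂ) = 0 := by
      rw [← h7]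
      apply setIntegral_congr_fun measurableSet_Ioo
      intro t ht
      simp only
      rw [← sub_div, ← sub_mul]
      simp only [hu]
      rw [← mul_assoc, Complex.mul_conj']
      push_cast
      rfl
    have h9 := integral_complex_ofReal (μ := volume.restrict (Ioo 0 Real.pi))
      (f := fun t => ‖E t‖ ^ 2 * β t / Real.sin t ^ 2)
    rw [h9] at h8
    exact_mod_cast h8
  by_contra hne
  have hEθ : E θ ≠ 0 := sub_ne_zero.2 hne
  set h : ℝ → ℝ := fun t => ‖E t‖ ^ 2 * β t / Real.sin t ^ 2 with hh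
  have hch : ContinuousOn h (Ioo 0 Real.pi) := by
    refine ((hcE.norm.pow 2).mul hβc.continuousOn).div (by fun_prop) ?_
    intro t ht
    exact (pow_pos (Real.sin_pos_of_mem_Ioo ht) 2).ne'
  have hh0 : ∀ t, 0 ≤ h t := by
    intro t
    simp only [hh]
    have := hβ0 t
    positivity
  have hhθ : 0 < h θ := by
    simp only [hh]
    have := Real.sin_pos_of_mem_Ioo hθ
    have := norm_pos_iff.2 hEθ
    positivity
  have hhi : IntegrableOn h (Ioo 0 Real.pi) := by
    have hsub : Icc a b ⊆ Ioo 0 Real.pi := fun t ht => ⟨by linarith [ht.1], by linarith [ht.2]⟩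
    refine ((hch.mono hsub).integrableOn_compact isCompact_Icc).of_forall_sdiff_eq_zero
      measurableSet_Ioo ?_
    intro t ht
    have : β t = 0 := by
      by_contra h
      exact ht.2 (hβs t h)
    simp only [hh]
    rw [this, mul_zero, zero_div]
  have hpos : 0 < ∫ t in Ioo 0 Real.pi, h t := by
    rw [setIntegral_pos_iff_support_of_nonneg_ae (Eventually.of_forall hh0) hhi]
    have hopen : IsOpen (Ioo 0 Real.pi ∩ h ⁻¹' (Ioi 0)) :=
      hch.isOpen_inter_preimage isOpen_Ioo isOpen_Ioi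
    refine lt_of_lt_of_le (hopen.measure_pos volume ⟨θ, hθ, hhθ⟩) (measure_mono ?_)
    rintro t ⟨ht, ht2⟩
    exact ⟨(show h t ≠ 0 from ne_of_gt ht2), ht⟩
  exact absurd e6 hpos.ne'

end Pool.Agent.JOS
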