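import Pool.Agent.Lib_helper58.JOSF.KA3

/-! JO part S, block KA4 -/

namespace Pool.Agent.JOS

open Complex MeasureTheory Filter Topology UpperHalfPlane ModularGroup Set Metric
open scoped MatrixGroups Modular ENNReal ComplexConjugate ContDiff
open Pool.Agent.JO (QN red FamH)

theorem ka4_cc_cont (θ τ : ℝ) (hθ : θ ∈ Ioo 0 Real.pi) :
    ContinuousOn (fun p : ℝ × ℝ => cc (τ - p.1) θ p.2) ((univ : Set ℝ) ×ˢ Ioo 0 Real.pi) := by
  unfold cc
  refine ContinuousOn.div ?_ ?_ ?_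
  · fun_prop
  · fun_prop
  · intro p hp
    have h1 : 0 < Real.sin θ := Real.sin_pos_of_mem_Ioo hθ
    have h2 : 0 < Real.sin p.2 := Real.sin_pos_of_mem_Ioo hp.2
    positivity

theorem rr_arg {k : ℝ → ℝ} (hk : TK k) {u : ℝ → ℂ} (hu : ContinuousOn u (Ioo 0 Real.pi)) {τ θ : ℝ}
    (hθ : θ ∈ Ioo 0 Real.pi) : RR k (fun w => u (Complex.arg (w : ℂ))) (pt τ θ) = KK k u θ := by
  unfold RR KK
  rw [pol_int]
  set F : ℝ × ℝ → ℂ := fun p => ((1 / Real.sin p.2 ^ 2 : ℝ) : ℂ) * ((k (cc (τ - p.1) θ p.2) : ℂ) * u p.2)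
    with hF
  have hms : MeasurableSet ((univ : Set ℝ) ×ˢ Ioo 0 Real.pi) := MeasurableSet.univ.prod measurableSet_Ioo
  have e1 : ∫ p in (univ : Set ℝ) ×ˢ Ioo 0 Real.pi, ((1 / Real.sin p.2 ^ 2 : ℝ) : ℂ) *
      ((kz k (pt τ θ) (pt p.1 p.2) : ℂ) * u (Complex.arg ((pt p.1 p.2 : ℍ) : ℂ))) =
      ∫ p in (univ : Set ℝ) ×ˢ Ioo 0 Real.pi, F p := by
    refine setIntegral_congr_fun hms fun p hp => ?_
    simp only [hF]
    rw [pt_arg hp.2, kz, pt_dist hθ hp.2]
  rw [e1]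
  obtain ⟨R, hR⟩ := hk.supp
  obtain ⟨ρ, T, hρ, hT, hs⟩ := cc_supp R
  obtain ⟨a', b', ha', hb', hs2⟩ := cc_supp2 R θ θ hθ.1 hθ.2
  have hcomp : IsCompact (Icc (τ - T) (τ + T) ×ˢ Icc a' b') := isCompact_Icc.prod isCompact_Icc
  have hcont : ContinuousOn F ((univ : Set ℝ) ×ˢ Ioo 0 Real.pi) := by
    refine ContinuousOn.mul ?_ (ContinuousOn.mul ?_ ?_)
    · refine Complex.continuous_ofReal.comp_continuousOn ?_
      refine ContinuousOn.div (by fun_prop) (by fun_prop) ?_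
      intro p hp
      have h2 : 0 < Real.sin p.2 := Real.sin_pos_of_mem_Ioo hp.2
      positivity
    · exact Complex.continuous_ofReal.comp_continuousOn
        (hk.smooth.continuous.comp_continuousOn (ka4_cc_cont θ τ hθ))
    · exact hu.comp continuous_snd.continuousOn fun p hp => hp.2
  have hsub : Icc (τ - T) (τ + T) ×ˢ Icc a' b' ⊆ (univ : Set ℝ) ×ˢ Ioo 0 Real.pi := by
    rintro ⟨x, y⟩ ⟨_, hy⟩
    exact ⟨mem_univ _, lt_of_lt_of_le ha' hy.1, lt_of_le_of_lt hy.2 hb'⟩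
  have hint : IntegrableOn F ((univ : Set ℝ) ×ˢ Ioo 0 Real.pi) := by
    have h1 : IntegrableOn F (Icc (τ - T) (τ + T) ×ˢ Icc a' b') :=
      (hcont.mono hsub).integrableOn_compact hcomp
    refine (IntegrableOn.of_forall_sdiff_eq_zero h1 hms ?_)
    rintro ⟨x, y⟩ ⟨⟨_, hy⟩, hn⟩
    simp only [hF]
    by_cases hc : cc (τ - x) θ y ≤ R
    · exfalso
      apply hn
      have hq := hs (τ - x) θ y hθ hy hc
      have hq2 := hs2 (τ - x) θ y ⟨le_rfl, le_rfl⟩ hy hc
      have h3 : √(Real.sin θ * Real.sin y) ≤ 1 := by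
        rw [Real.sqrt_le_one]
        have h1 : Real.sin θ ≤ 1 := Real.sin_le_one _
        have h2 : Real.sin y ≤ 1 := Real.sin_le_one _
        have h1' : 0 < Real.sin θ := Real.sin_pos_of_mem_Ioo hθ
        have h2' : 0 < Real.sin y := Real.sin_pos_of_mem_Ioo hy
        nlinarith
      have h4 : |τ - x| ≤ T := hq.1.trans (by nlinarith [Real.sqrt_nonneg (Real.sin θ * Real.sin y)])
      rw [abs_le] at h4
      exact ⟨⟨by linarith [h4.2], by linarith [h4.1]⟩, hq2⟩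
    · rw [hR _ (le_of_lt (not_le.mp hc))]
      simp
  have hvol : (volume : Measure (ℝ × ℝ)).restrict ((univ : Set ℝ) ×ˢ Ioo 0 Real.pi) =
      ((volume : Measure ℝ).restrict univ).prod ((volume : Measure ℝ).restrict (Ioo 0 Real.pi)) := by
    rw [Measure.prod_restrict]; rfl
  unfold IntegrableOn at hint
  rw [hvol] at hint ⊢
  rw [integral_prod_symm _ hint]
  refine setIntegral_congr_fun measurableSet_Ioo fun t ht => ?_
  simp only [hF, Measure.restrict_univ]
  have e2 : (fun x : ℝ => ((1 / Real.sin t ^ 2 : ℝ) : ℂ) * ((k (cc (τ - x) θ t) : ℂ) * u t)) =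
      fun x : ℝ => (((1 / Real.sin t ^ 2 : ℝ) : ℂ) * u t) * ((k (cc (τ - x) θ t) : ℝ) : ℂ) := by
    funext x; ring
  rw [e2, integral_const_mul, integral_complex_ofReal,
    integral_sub_left_eq_self (fun x => k (cc x θ t)) volume τ]
  change _ * ((kap k θ t : ℝ) : ℂ) = _
  push_cast
  ring

theorem ka4_bdd {k : ℝ → ℝ} (hk : TK k) : ∃ B : ℝ, ∀ c, 1 ≤ c → |k c| ≤ B := by
  obtain ⟨R, hR⟩ := hk.supp
  obtain ⟨B, hB⟩ := (isCompact_Icc (a := (1 : ℝ)) (b := R)).exists_bound_of_continuousOn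
    hk.smooth.continuous.continuousOn
  refine ⟨max B 0, fun c hc => ?_⟩
  by_cases h : c ≤ R
  · exact (hB c ⟨hc, h⟩).trans (le_max_left _ _)
  · rw [hR c (le_of_lt (not_le.mp h)), abs_zero]
    exact le_max_right _ _

theorem kk_one {k : ℝ → ℝ} (hk : TK k) {θ : ℝ} (hθ : θ ∈ Ioo 0 Real.pi) :
    KK k (fun _ => 1) θ = (ms k : ℂ) := by
  rw [← rr_arg hk continuousOn_const (τ := 0) hθ]
  unfold RR
  simp only [mul_one]
  rw [integral_complex_ofReal, (kz_int hk.smooth.continuous.measurable (ka4_bdd hk) hk.supp _).2]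

theorem ka4_near {δ τ θ t : ℝ} (hθ : θ ∈ Ioo 0 Real.pi) (ht : t ∈ Ioo 0 Real.pi)
    (h : cc τ θ t < 1 + δ) : 1 - δ < Real.cos (θ - t) := by
  have h1 : 0 < Real.sin θ := Real.sin_pos_of_mem_Ioo hθ
  have h2 : 0 < Real.sin t := Real.sin_pos_of_mem_Ioo ht
  have h3 : 0 < Real.sin θ * Real.sin t := mul_pos h1 h2
  have h5 : Real.sin θ * Real.sin t ≤ 1 := by
    nlinarith [Real.sin_le_one θ, Real.sin_le_one t]
  have hge : 1 ≤ cc τ θ t := cc_ge hθ ht
  have hδ : 0 < δ := by linarith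
  unfold cc at h
  rw [div_lt_iff₀ h3] at h
  have h4 : 1 ≤ Real.cosh τ := Real.one_le_cosh τ
  rw [Real.cos_sub]
  nlinarith

theorem kk_app {g : ℝ → ℂ} (hg : ContinuousOn g (Ioo 0 Real.pi)) {θ : ℝ} (hθ : θ ∈ Ioo 0 Real.pi)
    {ε : ℝ} (hε : 0 < ε) : ∃ δ > 0, ∀ k : ℝ → ℝ, TK k → (∀ c, 0 ≤ k c) → (∀ c, 1 + δ ≤ c → k c = 0) →
      ‖KK k g θ - ms k * g θ‖ ≤ ε * ms k := by
  have hca : ContinuousAt g θ := hg.continuousAt (isOpen_Ioo.mem_nhds hθ)
  obtain ⟨η, hη, hgη⟩ := Metric.continuousAt_iff.mp hca ε hε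
  set η' := min η Real.pi with hη'
  have hη'0 : 0 < η' := lt_min hη Real.pi_pos
  have hη'p : η' ≤ Real.pi := min_le_right _ _
  have hcos : Real.cos η' < 1 := by
    have := Real.strictAntiOn_cos ⟨le_rfl, Real.pi_pos.le⟩ ⟨hη'0.le, hη'p⟩ hη'0
    rwa [Real.cos_zero] at this
  refine ⟨1 - Real.cos η', by linarith, fun k hk hk0 hks => ?_⟩
  have hkap0 : ∀ t, 0 ≤ kap k θ t := fun t => integral_nonneg fun x => hk0 _
  have hnear : ∀ t ∈ Ioo 0 Real.pi, kap k θ t ≠ 0 → ‖g t - g θ‖ ≤ ε := by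
    intro t ht hne
    have : ∃ x, k (cc x θ t) ≠ 0 := by
      by_contra hcon
      push Not at hcon
      apply hne
      unfold kap
      simp [hcon]
    obtain ⟨x, hx⟩ := this
    have hlt : cc x θ t < 1 + (1 - Real.cos η') := by
      by_contra hcon
      exact hx (hks _ (not_lt.mp hcon))
    have h1 := ka4_near hθ ht hlt
    have h2 : Real.cos η' < Real.cos |θ - t| := by rw [Real.cos_abs]; linarith
    have h3 : |θ - t| ≤ Real.pi := by
      rw [abs_le]; constructor <;> linarith [hθ.1, hθ.2, ht.1, ht.2]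
    have h4 : |θ - t| < η' := by
      by_contra hcon
      have := Real.cos_le_cos_of_nonneg_of_le_pi hη'0.le h3 (not_lt.mp hcon)
      linarith
    have h5 : dist t θ < η := by
      rw [Real.dist_eq, abs_sub_comm]
      exact lt_of_lt_of_le h4 (min_le_left _ _)
    have := hgη h5
    rw [dist_eq_norm] at this
    exact this.le
  have hi1 := kk_int hk hg hθ
  have hi2 := kk_int hk (g := fun _ => g θ) continuousOn_const hθ
  have hi3 := kk_int hk (g := fun _ => (1 : ℂ)) continuousOn_const hθ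
  have hone := kk_one hk hθ
  unfold KK at hone ⊢
  simp only [mul_one] at hone hi3
  have e1 : (ms k : ℂ) * g θ = ∫ t in Ioo 0 Real.pi, ((kap k θ t / Real.sin t ^ 2 : ℝ) : ℂ) * g θ := by
    rw [integral_mul_const, hone]
  rw [e1, ← integral_sub hi1 hi2]
  have hre : ∫ t in Ioo 0 Real.pi, kap k θ t / Real.sin t ^ 2 = ms k := by
    have := hone
    rw [integral_complex_ofReal] at this
    exact_mod_cast this
  have hre' : IntegrableOn (fun t => kap k θ t / Real.sin t ^ 2) (Ioo 0 Real.pi) := by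
    have := hi3.re
    exact this
  calc ‖∫ t in Ioo 0 Real.pi, (((kap k θ t / Real.sin t ^ 2 : ℝ) : ℂ) * g t -
        ((kap k θ t / Real.sin t ^ 2 : ℝ) : ℂ) * g θ)‖
      ≤ ∫ t in Ioo 0 Real.pi, ε * (kap k θ t / Real.sin t ^ 2) := by
        refine norm_integral_le_of_norm_le (hre'.const_mul ε) ?_
        refine (ae_restrict_iff' measurableSet_Ioo).mpr (Eventually.of_forall fun t ht => ?_)
        rw [← mul_sub, norm_mul, Complex.norm_real, Real.norm_eq_abs,
          abs_of_nonneg (div_nonneg (hkap0 t) (sq_nonneg _)), mul_comm]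
        by_cases hz : kap k θ t = 0
        · simp [hz]
        · exact mul_le_mul_of_nonneg_right (hnear t ht hz) (div_nonneg (hkap0 t) (sq_nonneg _))
    _ = ε * ms k := by rw [integral_const_mul, hre]

example : type_of% @kk_one := @kk_one
example : type_of% @rr_arg := @rr_arg
example : type_of% @kk_app := @kk_app

end Pool.Agent.JOS
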