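import Pool.Agent.Lib_helper58.JOSF.CB2

namespace Pool.Agent.JOS

open Complex MeasureTheory Filter Topology UpperHalfPlane ModularGroup Set Metric
open scoped MatrixGroups Modular ENNReal ComplexConjugate ContDiff
open Pool.Agent.JO (QN red FamH)

/-! ### kernels -/

theorem kff_bdd {k : ℝ → ℝ} (hk : TK k) : ∃ B : ℝ, ∀ c, 1 ≤ c → |k c| ≤ B := by
  obtain ⟨R, hR⟩ := hk.supp
  obtain ⟨C, hC⟩ := (isCompact_Icc (a := (1 : ℝ)) (b := R)).exists_bound_of_continuousOn
    hk.smooth.continuous.continuousOn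
  refine ⟨max C 0, fun c hc => ?_⟩
  rcases le_or_gt R c with h | h
  · rw [hR c h, abs_zero]
    exact le_max_right _ _
  · exact (hC c ⟨hc, h.le⟩).trans (le_max_left _ _)

theorem kff_meas {k : ℝ → ℝ} (hk : TK k) (z : ℍ) : Continuous (fun w => kz k z w) := by
  unfold kz
  exact hk.smooth.continuous.comp (Real.continuous_cosh.comp (continuous_const.dist continuous_id))

theorem kff_int {k : ℝ → ℝ} (hk : TK k) (z : ℍ) : Integrable (fun w => kz k z w) :=
  (kz_int hk.smooth.continuous.measurable (kff_bdd hk) hk.supp z).1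

theorem kff_ms {k : ℝ → ℝ} (hk : TK k) (z : ℍ) : ∫ w : ℍ, kz k z w = ms k :=
  (kz_int hk.smooth.continuous.measurable (kff_bdd hk) hk.supp z).2

theorem kff_logim (w : ℍ) : |Real.log w.im| ≤ dist UpperHalfPlane.I w := by
  have h := dist_log_im_le w UpperHalfPlane.I
  rw [UpperHalfPlane.I_im, Real.log_one, Real.dist_eq, sub_zero, dist_comm] at h
  exact h

theorem kff_supp {k : ℝ → ℝ} (hk : TK k) : ∃ D : ℝ, 0 ≤ D ∧ ∀ z w : ℍ, kz k z w ≠ 0 → dist z w ≤ D := by
  obtain ⟨R, hR⟩ := hk.supp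
  refine ⟨max (2 * R) 0, le_max_right _ _, fun z w h => ?_⟩
  by_contra h1
  rw [not_le] at h1
  apply h
  unfold kz
  apply hR
  have h2 := Real.add_one_le_exp (dist z w)
  have h3 : Real.exp (dist z w) ≤ 2 * Real.cosh (dist z w) := by
    rw [Real.cosh_eq]
    have := Real.exp_pos (-dist z w)
    linarith
  have h4 := le_max_left (2 * R) 0
  linarith

theorem kff_cpow (w : ℍ) (s : ℂ) : (w.im : ℂ) ^ s = cexp (Real.log w.im * s) := by
  rw [Complex.cpow_def_of_ne_zero (by exact_mod_cast w.im_pos.ne'), Complex.ofReal_log w.im_pos.le]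

theorem kff_cont_cpow (s : ℂ) : Continuous (fun w : ℍ => (w.im : ℂ) ^ s) := by
  refine Continuous.cpow (Complex.continuous_ofReal.comp UpperHalfPlane.continuous_im)
    continuous_const (fun w => ?_)
  exact Or.inl (by simpa using w.im_pos)

theorem hk_diff {k : ℝ → ℝ} (hk' : TK k) : Differentiable ℂ (hk k) := by
  rw [← differentiableOn_univ]
  obtain ⟨D, hD0, hD⟩ := kff_supp hk'
  refine Pool.Agent.SP.hol_int (volume : Measure ℍ)
    (fun s w => (kz k UpperHalfPlane.I w : ℂ) * (w.im : ℂ) ^ s) univ ?_ ?_ ?_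
  · intro s _
    exact ((Complex.continuous_ofReal.comp (kff_meas hk' _)).mul (kff_cont_cpow s)).aestronglyMeasurable
  · refine ae_of_all _ fun w => ?_
    rw [differentiableOn_univ]
    have h1 : (fun s : ℂ => (kz k UpperHalfPlane.I w : ℂ) * (w.im : ℂ) ^ s) =
        fun s => (kz k UpperHalfPlane.I w : ℂ) * cexp (Real.log w.im * s) := by
      funext s
      rw [kff_cpow]
    rw [h1]
    fun_prop
  · intro s _
    refine ⟨1, one_pos, subset_univ _,
      fun w => Real.exp (D * (‖s‖ + 1)) * |kz k UpperHalfPlane.I w|,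
      (kff_int hk' _).abs.const_mul _, ae_of_all _ fun w z hz => ?_⟩
    rw [norm_mul, Complex.norm_real, Real.norm_eq_abs, mul_comm]
    by_cases h0 : kz k UpperHalfPlane.I w = 0
    · rw [h0]
      simp only [abs_zero, mul_zero]
      positivity
    · refine mul_le_mul_of_nonneg_right ?_ (abs_nonneg _)
      rw [kff_cpow, Complex.norm_exp]
      apply Real.exp_le_exp.mpr
      have h1 : ‖z‖ ≤ ‖s‖ + 1 := by
        have h2 : ‖z‖ ≤ ‖s‖ + ‖z - s‖ := by
          have := norm_add_le s (z - s)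
          rwa [add_sub_cancel] at this
        rw [mem_ball, dist_eq_norm] at hz
        linarith
      calc (Real.log w.im * z).re ≤ ‖(Real.log w.im * z : ℂ)‖ := Complex.re_le_norm _
        _ = |Real.log w.im| * ‖z‖ := by rw [norm_mul, Complex.norm_real, Real.norm_eq_abs]
        _ ≤ D * (‖s‖ + 1) := mul_le_mul ((kff_logim w).trans (hD _ _ h0)) h1 (norm_nonneg _) hD0

theorem hk_DD {k : ℝ → ℝ} (hk' : TK k) (s : ℂ) : hk (DD k) s = s * (1 - s) * hk k s := by
  unfold hk
  exact grn_cpow hk' UpperHalfPlane.I s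

theorem hk_near {S ε : ℝ} (hS : 0 < S) (hε : 0 < ε) : ∃ δ > 0, ∀ k : ℝ → ℝ, TK k → (∀ c, 0 ≤ k c) →
    (∀ c, 1 + δ ≤ c → k c = 0) → ∀ s : ℂ, ‖s‖ ≤ S → ‖hk k s - ms k‖ ≤ ε * ms k := by
  set D : ℝ := min 1 (ε / 2) / S with hD
  have hDpos : 0 < D := div_pos (lt_min one_pos (by linarith)) hS
  refine ⟨Real.cosh D - 1, by linarith [Real.one_lt_cosh.mpr hDpos.ne'], fun k hk0 hpos hsupp s hs => ?_⟩
  have h1 : hk k s - ms k = ∫ w : ℍ, (kz k UpperHalfPlane.I w : ℂ) * ((w.im : ℂ) ^ s - 1) := by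
    unfold hk
    rw [← kff_ms hk0 UpperHalfPlane.I, ← integral_complex_ofReal, ← integral_sub]
    · refine integral_congr_ae (ae_of_all _ fun w => ?_)
      simp only
      ring
    · -- integrability
      obtain ⟨D', hD0', hD'⟩ := kff_supp hk0
      refine ((kff_int hk0 UpperHalfPlane.I).abs.const_mul (Real.exp (D' * ‖s‖))).mono'
        ((Complex.continuous_ofReal.comp (kff_meas hk0 _)).mul (kff_cont_cpow s)).aestronglyMeasurable
        (ae_of_all _ fun w => ?_)
      rw [norm_mul, Complex.norm_real, Real.norm_eq_abs, mul_comm]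
      by_cases h0 : kz k UpperHalfPlane.I w = 0
      · rw [h0]
        simp
      · refine mul_le_mul_of_nonneg_right ?_ (abs_nonneg _)
        rw [kff_cpow, Complex.norm_exp]
        apply Real.exp_le_exp.mpr
        calc (Real.log w.im * s).re ≤ ‖(Real.log w.im * s : ℂ)‖ := Complex.re_le_norm _
          _ = |Real.log w.im| * ‖s‖ := by rw [norm_mul, Complex.norm_real, Real.norm_eq_abs]
          _ ≤ D' * ‖s‖ := mul_le_mul_of_nonneg_right ((kff_logim w).trans (hD' _ _ h0)) (norm_nonneg _)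
    · exact (kff_int hk0 UpperHalfPlane.I).ofReal
  rw [h1]
  have h2 : ε * ms k = ∫ w : ℍ, ε * kz k UpperHalfPlane.I w := by
    rw [integral_const_mul, kff_ms hk0]
  rw [h2]
  refine norm_integral_le_of_norm_le ((kff_int hk0 _).const_mul ε) (ae_of_all _ fun w => ?_)
  rw [norm_mul, Complex.norm_real, Real.norm_eq_abs, abs_of_nonneg (by unfold kz; exact hpos _), mul_comm]
  by_cases h0 : kz k UpperHalfPlane.I w = 0
  · rw [h0]
    simp
  · refine mul_le_mul_of_nonneg_right ?_ (by unfold kz; exact hpos _)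
    have h3 : dist UpperHalfPlane.I w < D := by
      by_contra h4
      rw [not_lt] at h4
      apply h0
      unfold kz
      apply hsupp
      have h5 : Real.cosh D ≤ Real.cosh (dist UpperHalfPlane.I w) := by
        rw [Real.cosh_le_cosh, abs_of_pos hDpos, abs_of_nonneg dist_nonneg]
        exact h4
      linarith
    have h4 : ‖(Real.log w.im * s : ℂ)‖ ≤ min 1 (ε / 2) := by
      rw [norm_mul, Complex.norm_real, Real.norm_eq_abs]
      calc |Real.log w.im| * ‖s‖ ≤ D * S :=
            mul_le_mul ((kff_logim w).trans h3.le) hs (norm_nonneg _) hDpos.le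
        _ = min 1 (ε / 2) := by rw [hD, div_mul_cancel₀ _ hS.ne']
    rw [kff_cpow]
    calc ‖cexp (Real.log w.im * s) - 1‖ ≤ 2 * ‖(Real.log w.im * s : ℂ)‖ :=
          Complex.norm_exp_sub_one_le (h4.trans (min_le_left _ _))
      _ ≤ 2 * (ε / 2) := by linarith [h4.trans (min_le_right _ _)]
      _ = ε := by ring

/-! ### the eigenfunctions -/

theorem kff_mp (g : SL(2, ℝ)) : MeasurePreserving (fun z : ℍ => g • z) volume volume := by
  have := measurePreserving_smul (Matrix.SpecialLinearGroup.mapGL ℝ g) (volume : Measure ℍ)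
  exact this

theorem kff_emb (g : SL(2, ℝ)) : MeasurableEmbedding (fun z : ℍ => g • z) := by
  let e : ℍ ≃ᵐ ℍ :=
    { toEquiv := MulAction.toPerm g
      measurable_toFun := (kff_mp g).measurable
      measurable_invFun := (kff_mp g⁻¹).measurable }
  exact e.measurableEmbedding

theorem kff_im (g : SL(2, ℝ)) (z : ℍ) :
    (g • z).im = z.im / Complex.normSq ((g 1 0 : ℂ) * z + g 1 1) := by
  have h := UpperHalfPlane.im_smul_eq_div_normSq (Matrix.SpecialLinearGroup.mapGL ℝ g) z
  have h1 : (g • z) = (Matrix.SpecialLinearGroup.mapGL ℝ g) • z := rfl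
  rw [h1, h]
  simp [denom]

/-- the matrix `(1 0; 1 1)` -/
noncomputable def kff_gm : SL(2, ℝ) := ⟨!![1, 0; 1, 1], by simp⟩

theorem kff_g_im (z : ℍ) : (kff_gm • z).im = z.im / Complex.normSq ((z : ℂ) + 1) := by
  rw [kff_im]
  simp [kff_gm]

theorem kff_sl_im (z w : ℍ) : (z.toSL2R • w).im = z.im * w.im := by
  rw [kff_im]
  simp only [UpperHalfPlane.coe_toSL2R]
  have h : (0 : ℝ) < √z.im := Real.sqrt_pos.2 z.im_pos
  have h2 : √z.im * √z.im = z.im := Real.mul_self_sqrt z.im_pos.le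
  simp
  rw [← mul_inv, h2, div_inv_eq_mul, mul_comm]

/-- the function `(Im w/|w+1|²)^s` -/
noncomputable def kff_phi (s : ℂ) (w : ℍ) : ℂ := ((kff_gm • w).im : ℂ) ^ s

theorem kff_eig (k : ℝ → ℝ) (s : ℂ) (z : ℍ) : RR k (kff_phi s) z = hk k s * kff_phi s z := by
  unfold RR kff_phi
  have h1 : ∫ w : ℍ, (kz k z w : ℂ) * ((kff_gm • w).im : ℂ) ^ s =
      ∫ w : ℍ, (kz k (kff_gm • z) w : ℂ) * (w.im : ℂ) ^ s := by
    rw [← (kff_mp kff_gm).integral_comp (kff_emb kff_gm)
      (fun w : ℍ => (kz k (kff_gm • z) w : ℂ) * (w.im : ℂ) ^ s)]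
    refine integral_congr_ae (ae_of_all _ fun w => ?_)
    simp only [kz]
    rw [dist_smul]
  have h2 : ∀ z : ℍ, ∫ w : ℍ, (kz k z w : ℂ) * (w.im : ℂ) ^ s = hk k s * (z.im : ℂ) ^ s := by
    intro z
    rw [← (kff_mp z.toSL2R).integral_comp (kff_emb z.toSL2R)]
    unfold hk
    rw [← integral_mul_const]
    refine integral_congr_ae (ae_of_all _ fun w => ?_)
    simp only [kz]
    have h3 : dist z (z.toSL2R • w) = dist UpperHalfPlane.I w := by
      have h4 : dist (z.toSL2R • UpperHalfPlane.I) (z.toSL2R • w) = dist UpperHalfPlane.I w :=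
        dist_smul _ _ _
      rwa [UpperHalfPlane.toSL2R_smul_I] at h4
    rw [h3, kff_sl_im, Complex.ofReal_mul,
      Complex.mul_cpow_ofReal_nonneg z.im_pos.le w.im_pos.le]
    ring
  rw [h1, h2]

theorem kff_den {θ : ℝ} (h : θ ∈ Ioo 0 Real.pi) (τ : ℝ) : 0 < Real.cosh τ + Real.cos θ := by
  have h1 := Real.one_le_cosh τ
  have h2 : -1 < Real.cos θ := by
    rw [← Real.cos_pi]
    exact Real.cos_lt_cos_of_nonneg_of_le_pi h.1.le le_rfl h.2
  linarith

theorem kff_pt {τ θ : ℝ} (h : θ ∈ Ioo 0 Real.pi) :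
    (kff_gm • pt τ θ).im = Pool.Agent.SP.hh τ θ := by
  rw [kff_g_im, pt_im h, pt_coe h]
  have h1 : Complex.normSq (cexp (τ + θ * Complex.I) + 1) =
      2 * Real.exp τ * (Real.cosh τ + Real.cos θ) := by
    have e1 : cexp (τ + θ * Complex.I) =
        ((Real.exp τ * Real.cos θ : ℝ) : ℂ) + ((Real.exp τ * Real.sin θ : ℝ) : ℂ) * Complex.I := by
      rw [Complex.exp_add, Complex.exp_mul_I]
      push_cast
      ring
    have e2 : (cexp (τ + θ * Complex.I) + 1) =
        ((Real.exp τ * Real.cos θ + 1 : ℝ) : ℂ) + ((Real.exp τ * Real.sin θ : ℝ) : ℂ) * Complex.I := by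
      rw [e1]
      push_cast
      ring
    rw [e2, Complex.normSq_add_mul_I, Real.cosh_eq]
    have e3 : Real.exp τ * Real.exp (-τ) = 1 := by
      rw [← Real.exp_add, add_neg_cancel, Real.exp_zero]
    have e4 := Real.sin_sq_add_cos_sq θ
    linear_combination (Real.exp τ) ^ 2 * e4 - e3
  rw [h1, Pool.Agent.SP.hh]
  have h2 := (Real.exp_pos τ).ne'
  have h3 := (kff_den h τ).ne'
  field_simp

theorem kff_cont (s : ℂ) : Continuous (kff_phi s) := by
  unfold kff_phi
  refine Continuous.cpow (Complex.continuous_ofReal.comp (UpperHalfPlane.continuous_im.comp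
    (isometry_smul ℍ kff_gm).continuous)) continuous_const (fun w => ?_)
  exact Or.inl (by simpa using (kff_gm • w).im_pos)

theorem kff_norm (s : ℂ) {τ θ : ℝ} (h : θ ∈ Ioo 0 Real.pi) :
    ‖kff_phi s (pt τ θ)‖ = Pool.Agent.SP.hh τ θ ^ s.re := by
  unfold kff_phi
  rw [Complex.norm_cpow_eq_rpow_re_of_pos (kff_gm • pt τ θ).im_pos, kff_pt h]

theorem kff_PT (s : ℂ) {θ : ℝ} (h : θ ∈ Ioo 0 Real.pi) : PT (kff_phi s) θ = Pool.Agent.SP.ff s θ := by
  unfold PT Pool.Agent.SP.ff kff_phi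
  refine integral_congr_ae (ae_of_all _ fun τ => ?_)
  simp only
  rw [kff_pt h]

theorem kk_ff {k : ℝ → ℝ} (hk' : TK k) {s : ℂ} (hs : 0 < s.re) {θ : ℝ} (hθ : θ ∈ Ioo 0 Real.pi) :
    KK k (fun t => Pool.Agent.SP.ff s t) θ = hk k s * Pool.Agent.SP.ff s θ := by
  have key := (ray_gen hk' (kff_cont s) (fun a b ha hb => ?_)).2.2.2 θ hθ
  · have h1 : KK k (PT (kff_phi s)) θ = KK k (fun t => Pool.Agent.SP.ff s t) θ := by
      unfold KK
      refine setIntegral_congr_fun measurableSet_Ioo fun t ht => ?_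
      simp only
      rw [kff_PT s ht]
    rw [← h1, ← key, ← kff_PT s hθ]
    unfold PT
    rw [← integral_const_mul]
    refine integral_congr_ae (ae_of_all _ fun τ => ?_)
    simp only
    rw [kff_eig]
  · set m : ℝ := (1 + Real.cos b) / 2 with hm
    rcases le_or_gt b 0 with hb0 | hb0
    · refine ⟨0, 1, one_pos, fun θ hθ => ?_⟩
      exact absurd (hθ.1.trans hθ.2) (by linarith)
    have hm0 : 0 < m := by
      have h2 : -1 < Real.cos b := by
        rw [← Real.cos_pi]
        exact Real.cos_lt_cos_of_nonneg_of_le_pi hb0.le le_rfl hb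
      rw [hm]
      linarith
    refine ⟨(1 / m) ^ s.re, s.re, hs, fun θ hθ τ => ?_⟩
    have hθ' : θ ∈ Ioo 0 Real.pi := ⟨by linarith [hθ.1], by linarith [hθ.2]⟩
    rw [kff_norm s hθ']
    have h3 : Real.cos b ≤ Real.cos θ :=
      Real.cos_le_cos_of_nonneg_of_le_pi hθ'.1.le hb.le hθ.2
    have h4 : Pool.Agent.SP.hh τ θ ≤ (1 / m) * Real.exp (-|τ|) := by
      unfold Pool.Agent.SP.hh
      have h5 := Pool.Agent.SP.exp_le_two_cosh τ
      have h6 := Real.one_le_cosh τ
      have h7 := kff_den hθ' τ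
      have h8 : m * Real.exp |τ| ≤ 2 * (Real.cosh τ + Real.cos θ) := by
        have h9 : Real.cos b ≤ 1 := Real.cos_le_one b
        have h10 : m ≤ 1 := by rw [hm]; linarith
        have h11 : m * Real.cosh τ ≤ Real.cosh τ + Real.cos b := by
          have h12 : 0 ≤ (1 - m) * (Real.cosh τ - 1) :=
            mul_nonneg (by linarith) (by linarith)
          have h13 : 0 ≤ 1 - m + Real.cos b := by rw [hm]; rw [hm] at hm0; linarith
          nlinarith
        have h14 : m * Real.exp |τ| ≤ m * (2 * Real.cosh τ) := mul_le_mul_of_nonneg_left h5 hm0.le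
        linarith
      rw [Real.exp_neg, div_le_iff₀ (by linarith)]
      have h15 : 1 ≤ 1 / m * (Real.exp |τ|)⁻¹ * (2 * (Real.cosh τ + Real.cos θ)) := by
        have h16 := Real.exp_pos |τ|
        rw [one_div, ← mul_inv, inv_mul_eq_div, le_div_iff₀ (by positivity), one_mul]
        exact h8
      exact (Real.sin_le_one θ).trans h15
    have h5 : 0 ≤ Pool.Agent.SP.hh τ θ := by
      unfold Pool.Agent.SP.hh
      have := kff_den hθ' τ
      have := (Real.sin_pos_of_pos_of_lt_pi hθ'.1 hθ'.2).le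
      positivity
    calc Pool.Agent.SP.hh τ θ ^ s.re ≤ ((1 / m) * Real.exp (-|τ|)) ^ s.re :=
          Real.rpow_le_rpow h5 h4 hs.le
      _ = (1 / m) ^ s.re * Real.exp (-(s.re * |τ|)) := by
          rw [Real.mul_rpow (by positivity) (Real.exp_pos _).le, ← Real.exp_mul]
          congr 2
          ring

end Pool.Agent.JOS

namespace Pool.Agent.JOS
end Pool.Agent.JOS
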