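import Pool.Agent.Lib_helper58.JOSF.AP2

/-! # JO, part S, block PIA: the dual family -/

namespace Pool.Agent.JOS

open Complex MeasureTheory Filter Topology UpperHalfPlane ModularGroup Set Metric
open scoped MatrixGroups Modular ENNReal ComplexConjugate ContDiff
open Pool.Agent.JO (QN red FamH)

/-- the summands, after unfolding -/
lemma pia_pt {N : ℕ} {φ : QN N → ℍ → ℂ} (hφ : FamH φ) (U : ℍ → ℂ) (s : QN N) (z : ℍ) :
    φ s z * conj (PO N U s z) = open scoped Classical in ∑' γ : SL(2, ℤ),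
      if red N γ * s = 1 then φ 1 (γ • z) * conj (U (γ • z)) else 0 := by
  classical
  unfold PO
  have h1 : conj (∑' γ : SL(2, ℤ), if red N γ * s = 1 then U (γ • z) else 0) =
      ∑' γ : SL(2, ℤ), conj (if red N γ * s = 1 then U (γ • z) else 0) :=
    Complex.conjCLE.map_tsum
  rw [h1, ← tsum_mul_left]
  refine tsum_congr fun γ => ?_
  by_cases h : red N γ * s = 1
  · rw [if_pos h, if_pos h, ← hφ γ s z, h]
  · rw [if_neg h, if_neg h]
    simp

theorem po_unf {N : ℕ} [NeZero N] {φ : QN N → ℍ → ℂ} (hφ : FamH φ) {U : ℍ → ℂ}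
    (hi : Integrable (fun w => φ 1 w * conj (U w))) :
    ipH φ (PO N U) = 2 * ∫ w : ℍ, φ 1 w * conj (U w) := by
  classical
  set Φ : ℍ → ℂ := fun w => φ 1 w * conj (U w) with hΦ
  have hint := unf_int Φ hi
  have hfin := unf_fin Φ hi
  have hms : ∀ g : SL(2, ℤ), AEStronglyMeasurable (fun z : ℍ => Φ (g • z)) volume := fun g =>
    hi.1.comp_quasiMeasurePreserving (mp_smul g).quasiMeasurePreserving
  have key : ∀ s : QN N, ∫ z in (𝒟ᵒ : Set ℍ), φ s z * conj (PO N U s z) =
      ∑' γ : SL(2, ℤ), if red N γ * s = 1 then ∫ z in (𝒟ᵒ : Set ℍ), Φ (γ • z) else 0 := by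
    intro s
    have e1 : ∀ z : ℍ, φ s z * conj (PO N U s z) =
        ∑' γ : SL(2, ℤ), if red N γ * s = 1 then Φ (γ • z) else 0 := by
      intro z
      rw [pia_pt hφ U s z]
    rw [integral_congr_ae (Eventually.of_forall e1), integral_tsum]
    · refine tsum_congr fun γ => ?_
      by_cases h : red N γ * s = 1
      · simp only [if_pos h]
      · simp only [if_neg h, integral_zero]
    · intro γ
      by_cases h : red N γ * s = 1
      · simp only [if_pos h]
        exact (hms γ).restrict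
      · simp only [if_neg h]
        exact aestronglyMeasurable_const
    · refine ne_top_of_le_ne_top hfin (ENNReal.tsum_le_tsum fun γ => ?_)
      by_cases h : red N γ * s = 1
      · simp only [if_pos h]
        exact le_rfl
      · simp only [if_neg h]
        simp
  unfold ipH
  rw [Finset.sum_congr rfl (fun s _ => key s), ← Summable.tsum_finsetSum]
  · rw [← hint.tsum_eq]
    refine tsum_congr fun γ => ?_
    rw [Finset.sum_eq_single (red N γ)⁻¹]
    · rw [if_pos (mul_inv_cancel _)]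
    · intro s _ hs
      rw [if_neg]
      intro h
      exact hs (eq_inv_of_mul_eq_one_right h)
    · intro h
      exact absurd (Finset.mem_univ _) h
  · intro s _
    have h2 := hint.summable.indicator {γ : SL(2, ℤ) | red N γ * s = 1}
    refine h2.congr fun γ => ?_
    by_cases h : red N γ * s = 1
    · rw [Set.indicator_of_mem (by exact h), if_pos h]
    · rw [Set.indicator_of_notMem (by exact h), if_neg h]

/-- points in a sector -/
lemma pia_sector {a b : ℝ} (ha : 0 < a) (hb : b < Real.pi) :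
    ∃ c : ℝ, 0 < c ∧ ∀ z : ℂ, Complex.arg z ∈ Icc a b → c * ‖z‖ ≤ z.im := by
  rcases lt_or_ge b a with h | h
  · exact ⟨1, one_pos, fun z hz => absurd (hz.1.trans hz.2) (not_le.2 h)⟩
  · obtain ⟨t, ht, hmin⟩ := (isCompact_Icc (a := a) (b := b)).exists_isMinOn ⟨a, le_rfl, h⟩
      Real.continuous_sin.continuousOn
    refine ⟨Real.sin t, Real.sin_pos_of_pos_of_lt_pi (lt_of_lt_of_le ha ht.1)
      (lt_of_le_of_lt ht.2 hb), fun z hz => ?_⟩
    have h1 : Real.sin t ≤ Real.sin (Complex.arg z) := hmin hz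
    have h2 := Complex.norm_mul_sin_arg z
    nlinarith [norm_nonneg z]

/-- lower bound for a row -/
lemma pia_low {m : ℝ} (c d : ℤ) (h : ¬(c = 0 ∧ d = 0)) (w : ℍ) (hw : m ≤ w.im) :
    min m 1 ≤ ‖(c : ℂ) * (w : ℂ) + d‖ := by
  by_cases hc : c = 0
  · have hd : d ≠ 0 := fun hd => h ⟨hc, hd⟩
    have h1 : (1 : ℝ) ≤ |(d : ℝ)| := by exact_mod_cast Int.one_le_abs hd
    rw [hc]
    refine (min_le_right _ _).trans ?_
    simpa using h1
  · have h1 : (1 : ℝ) ≤ |(c : ℝ)| := by exact_mod_cast Int.one_le_abs hc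
    have h2 : |((c : ℂ) * (w : ℂ) + d).im| ≤ ‖(c : ℂ) * (w : ℂ) + d‖ := Complex.abs_im_le_norm _
    have h3 : ((c : ℂ) * (w : ℂ) + d).im = c * w.im := by simp
    rw [h3, abs_mul, abs_of_pos w.im_pos] at h2
    refine (min_le_left _ _).trans ?_
    nlinarith [w.im_pos, abs_nonneg (c : ℝ)]

/-- upper bounds for the entries of a row -/
lemma pia_up {m H B : ℝ} (hm : 0 < m) (c d : ℤ) (w : ℍ) (hw : m ≤ w.im) (hH : ‖(w : ℂ)‖ ≤ H)
    (hB : ‖(c : ℂ) * (w : ℂ) + d‖ ≤ B) : |(c : ℝ)| ≤ B / m ∧ |(d : ℝ)| ≤ B + B / m * H := by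
  have h2 : |((c : ℂ) * (w : ℂ) + d).im| ≤ ‖(c : ℂ) * (w : ℂ) + d‖ := Complex.abs_im_le_norm _
  have h3 : ((c : ℂ) * (w : ℂ) + d).im = c * w.im := by simp
  rw [h3, abs_mul, abs_of_pos w.im_pos] at h2
  have h4 : |(c : ℝ)| ≤ B / m := by
    rw [le_div_iff₀ hm]
    nlinarith [abs_nonneg (c : ℝ)]
  refine ⟨h4, ?_⟩
  have h5 : ((d : ℂ)) = ((c : ℂ) * (w : ℂ) + d) - (c : ℂ) * (w : ℂ) := by ring
  have h6 : ‖(d : ℂ)‖ ≤ ‖(c : ℂ) * (w : ℂ) + d‖ + ‖(c : ℂ)‖ * ‖(w : ℂ)‖ := by
    rw [← norm_mul]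
    calc ‖(d : ℂ)‖ = ‖((c : ℂ) * (w : ℂ) + d) - (c : ℂ) * (w : ℂ)‖ := by rw [← h5]
      _ ≤ _ := norm_sub_le _ _
  have h7 : ‖(d : ℂ)‖ = |(d : ℝ)| := by
    rw [Complex.norm_intCast]
  have h8 : ‖(c : ℂ)‖ = |(c : ℝ)| := by
    rw [Complex.norm_intCast]
  rw [h7, h8] at h6
  have h9 : |(c : ℝ)| * ‖(w : ℂ)‖ ≤ B / m * H :=
    mul_le_mul h4 hH (norm_nonneg _) ((abs_nonneg _).trans h4)
  linarith

/-- an element of `SL₂(ℤ)` with bounded entries: finitely many -/
lemma pia_finite (K : ℝ) : {γ : SL(2, ℤ) | ∀ i j, |((γ i j : ℤ) : ℝ)| ≤ K}.Finite := by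
  have h1 : (Set.pi (univ : Set (Fin 2 × Fin 2)) (fun _ => Icc (-⌈K⌉) ⌈K⌉)).Finite :=
    Set.Finite.pi fun _ => Set.finite_Icc _ _
  refine Set.Finite.of_finite_image (f := fun γ : SL(2, ℤ) => fun p : Fin 2 × Fin 2 => γ p.1 p.2)
    (h1.subset ?_) ?_
  · rintro _ ⟨γ, hγ, rfl⟩ p _
    have h2 := abs_le.1 (hγ p.1 p.2)
    have h3 : K ≤ ⌈K⌉ := Int.le_ceil K
    constructor
    · have : (-(⌈K⌉ : ℝ)) ≤ (γ p.1 p.2 : ℤ) := by linarith [h2.1]
      exact_mod_cast this
    · have : ((γ p.1 p.2 : ℤ) : ℝ) ≤ (⌈K⌉ : ℝ) := by linarith [h2.2]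
      exact_mod_cast this
  · intro γ _ γ' _ h
    ext i j
    exact congrFun h (i, j)

/-- only finitely many elements move a point of the ball into the sector -/
lemma pia_fin {a b : ℝ} (ha : 0 < a) (hb : b < Real.pi) (z : ℍ) (R : ℝ) :
    {γ : SL(2, ℤ) | ∃ w ∈ closedBall z R, Complex.arg ((γ • w : ℍ) : ℂ) ∈ Icc a b}.Finite := by
  obtain ⟨c, hc, hsec⟩ := pia_sector ha hb
  rcases (closedBall z R).eq_empty_or_nonempty with he | hne
  · rw [he]
    simp
  have hcomp : IsCompact (closedBall z R) := isCompact_closedBall z R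
  obtain ⟨w₀, hw₀, hmin⟩ := hcomp.exists_isMinOn hne UpperHalfPlane.continuous_im.continuousOn
  obtain ⟨w₁, hw₁, hmax⟩ := hcomp.exists_isMaxOn hne UpperHalfPlane.continuous_coe.norm.continuousOn
  set m := w₀.im with hm'
  set H := ‖(w₁ : ℂ)‖ with hH'
  have hm : 0 < m := w₀.im_pos
  set m' := min m 1 with hm''
  have hm'pos : 0 < m' := lt_min hm one_pos
  set B := H / c / m' with hB'
  refine (pia_finite (B / m + (B + B / m * H))).subset ?_
  rintro γ ⟨w, hw, harg⟩
  have hwim : m ≤ w.im := hmin hw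
  have hwH : ‖(w : ℂ)‖ ≤ H := hmax hw
  have hH0 : 0 ≤ H := norm_nonneg _
  have hB0 : 0 ≤ B := by positivity
  have h1 := hsec _ harg
  -- the two rows
  set p := ‖((γ 0 0 : ℤ) : ℂ) * (w : ℂ) + (γ 0 1 : ℤ)‖ with hp
  set q := ‖((γ 1 0 : ℤ) : ℂ) * (w : ℂ) + (γ 1 1 : ℤ)‖ with hq
  have hdet : (γ 0 0 : ℤ) * γ 1 1 - γ 0 1 * γ 1 0 = 1 := by
    have := γ.det_coe
    rwa [Matrix.det_fin_two] at this
  have hp0 : m' ≤ p := pia_low _ _ (fun h => by rw [h.1, h.2] at hdet; simp at hdet) w hwim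
  have hq0 : m' ≤ q := pia_low _ _ (fun h => by rw [h.1, h.2] at hdet; simp at hdet) w hwim
  have hqpos : 0 < q := lt_of_lt_of_le hm'pos hq0
  have hppos : 0 < p := lt_of_lt_of_le hm'pos hp0
  have hcoe : ((γ • w : ℍ) : ℂ) = (((γ 0 0 : ℤ) : ℂ) * (w : ℂ) + (γ 0 1 : ℤ)) /
      (((γ 1 0 : ℤ) : ℂ) * (w : ℂ) + (γ 1 1 : ℤ)) := by
    rw [UpperHalfPlane.coe_specialLinearGroup_apply]
    simp
  have him : (γ • w : ℍ).im = w.im / q ^ 2 := by
    rw [ModularGroup.im_smul_eq_div_normSq, ModularGroup.denom_apply, Complex.normSq_eq_norm_sq]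
  have hn : ‖((γ • w : ℍ) : ℂ)‖ = p / q := by rw [hcoe, norm_div]
  rw [hn] at h1
  have him' : ((γ • w : ℍ) : ℂ).im = w.im / q ^ 2 := him
  rw [him'] at h1
  have h2 : c * p * q ≤ w.im := by
    rw [le_div_iff₀ (by positivity)] at h1
    calc c * p * q = c * (p / q) * q ^ 2 := by field_simp
      _ ≤ w.im := h1
  have h3 : w.im ≤ H := (le_abs_self _).trans ((Complex.abs_im_le_norm (w : ℂ)).trans hwH)
  have h4 : p * q ≤ H / c := by
    rw [le_div_iff₀ hc]
    nlinarith
  have hpB : p ≤ B := by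
    rw [hB', le_div_iff₀ hm'pos]
    nlinarith
  have hqB : q ≤ B := by
    rw [hB', le_div_iff₀ hm'pos]
    nlinarith
  obtain ⟨u1, u2⟩ := pia_up hm _ _ w hwim hwH hpB
  obtain ⟨u3, u4⟩ := pia_up hm _ _ w hwim hwH hqB
  have hBm : 0 ≤ B / m := by positivity
  have hBH : 0 ≤ B + B / m * H := by positivity
  intro i j
  fin_cases i <;> fin_cases j
  · exact u1.trans (by linarith)
  · exact u2.trans (by linarith)
  · exact u3.trans (by linarith)
  · exact u4.trans (by linarith)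

/-- the group acts by isometries -/
lemma pia_kz (k : ℝ → ℝ) (γ : SL(2, ℤ)) (z w : ℍ) : kz k (γ • z) (γ • w) = kz k z w := by
  unfold kz
  have h : dist (γ • z) (γ • w) = dist z w := by
    have h1 := dist_smul (Matrix.SpecialLinearGroup.map (Int.castRingHom ℝ) γ : SL(2, ℝ)) z w
    exact h1
  rw [h]

theorem po_rr {k : ℝ → ℝ} (hk : TK k) {N : ℕ} [NeZero N] {u : ℝ → ℂ} (hu : Continuous u) {a b : ℝ}
    (ha : 0 < a) (hb : b < Real.pi) (hs : ∀ t, u t ≠ 0 → t ∈ Icc a b) (s : QN N) (z : ℍ) :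
    RR k (PO N (fun w => u (Complex.arg (w : ℂ))) s) z =
      PO N (RR k (fun w => u (Complex.arg (w : ℂ)))) s z := by
  classical
  obtain ⟨R, hR⟩ := hk.supp
  set U : ℍ → ℂ := fun w => u (Complex.arg (w : ℂ)) with hU
  -- the radius of the support
  set ρ := Real.arcosh (max R 1) with hρ
  have hsupp : ∀ w : ℍ, kz k z w ≠ 0 → w ∈ closedBall z ρ := by
    intro w hw
    unfold kz at hw
    have h1 : Real.cosh (dist z w) < R := by
      by_contra h
      exact hw (hR _ (not_lt.1 h))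
    rw [mem_closedBall, dist_comm]
    have h2 : Real.cosh (dist z w) ≤ Real.cosh ρ := by
      rw [hρ, Real.cosh_arcosh (le_max_right _ _)]
      exact h1.le.trans (le_max_left _ _)
    have h3 := Real.cosh_le_cosh.1 h2
    rw [abs_of_nonneg dist_nonneg] at h3
    rwa [abs_of_nonneg (Real.arcosh_nonneg (le_max_right _ _))] at h3
  have hfin := pia_fin ha hb z ρ
  set F := hfin.toFinset with hF
  have hUc : Continuous U := by
    refine hu.comp ?_
    rw [continuous_iff_continuousAt]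
    intro w
    have h1 : ContinuousAt Complex.arg (w : ℂ) :=
      Complex.continuousAt_arg (Or.inr w.im_ne_zero)
    exact ContinuousAt.comp (f := fun w : ℍ => (w : ℂ)) h1 UpperHalfPlane.continuous_coe.continuousAt
  have hkc : Continuous (fun w => kz k z w) :=
    hk.smooth.continuous.comp (Real.continuous_cosh.comp (continuous_const.dist continuous_id))
  have hsm : ∀ γ : SL(2, ℤ), Continuous (fun w : ℍ => γ • w) := fun γ =>
    continuous_const_smul (Matrix.SpecialLinearGroup.mapGL ℝ γ)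
  have hI : ∀ γ : SL(2, ℤ), Integrable (fun w : ℍ => (kz k z w : ℂ) * U (γ • w)) := by
    intro γ
    refine Continuous.integrable_of_hasCompactSupport
      ((Complex.continuous_ofReal.comp hkc).mul (hUc.comp (hsm γ))) ?_
    refine HasCompactSupport.intro (isCompact_closedBall z ρ) fun w hw => ?_
    have : kz k z w = 0 := by
      by_contra h
      exact hw (hsupp w h)
    rw [this]
    simp
  have hz : ∀ γ : SL(2, ℤ), γ ∉ F → ∀ w : ℍ, (kz k z w : ℂ) * U (γ • w) = 0 := by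
    intro γ hγ w
    by_contra h
    have h1 := left_ne_zero_of_mul h
    have h2 := right_ne_zero_of_mul h
    apply hγ
    rw [hF, Set.Finite.mem_toFinset]
    exact ⟨w, hsupp w (fun h3 => h1 (by rw [h3]; simp)), hs _ h2⟩
  -- left hand side
  have hL : RR k (PO N U s) z = ∑ γ ∈ F, if red N γ * s = 1 then
      ∫ w : ℍ, (kz k z w : ℂ) * U (γ • w) else 0 := by
    unfold RR
    have e1 : ∀ w : ℍ, (kz k z w : ℂ) * PO N U s w =
        ∑ γ ∈ F, if red N γ * s = 1 then (kz k z w : ℂ) * U (γ • w) else 0 := by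
      intro w
      unfold PO
      rw [← tsum_mul_left, tsum_eq_sum (s := F)]
      · refine Finset.sum_congr rfl fun γ _ => ?_
        by_cases h : red N γ * s = 1
        · rw [if_pos h, if_pos h]
        · rw [if_neg h, if_neg h, mul_zero]
      · intro γ hγ
        by_cases h : red N γ * s = 1
        · rw [if_pos h]
          exact hz γ hγ w
        · rw [if_neg h, mul_zero]
    rw [integral_congr_ae (Eventually.of_forall e1), integral_finsetSum]
    · refine Finset.sum_congr rfl fun γ _ => ?_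
      by_cases h : red N γ * s = 1
      · simp only [if_pos h]
      · simp only [if_neg h, integral_zero]
    · intro γ _
      by_cases h : red N γ * s = 1
      · simp only [if_pos h]
        exact hI γ
      · simp only [if_neg h]
        exact integrable_zero _ _ _
  -- right hand side
  have hrr : ∀ γ : SL(2, ℤ), RR k U (γ • z) = ∫ w : ℍ, (kz k z w : ℂ) * U (γ • w) := by
    intro γ
    unfold RR
    rw [← (mp_smul γ).integral_comp (emb_smul γ)]
    refine integral_congr_ae (Eventually.of_forall fun w => ?_)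
    simp only [pia_kz]
  rw [hL]
  unfold PO
  rw [tsum_eq_sum (s := F)]
  · refine Finset.sum_congr rfl fun γ _ => ?_
    by_cases h : red N γ * s = 1
    · rw [if_pos h, if_pos h, hrr]
    · rw [if_neg h, if_neg h]
  · intro γ hγ
    by_cases h : red N γ * s = 1
    · rw [if_pos h, hrr]
      rw [integral_congr_ae (Eventually.of_forall (hz γ hγ))]
      simp
    · rw [if_neg h]

end Pool.Agent.JOS
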