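import Pool.Agent.Lib_helper58.JOSF.COM

/-! # JO, part S, block POL: polar coordinates -/

namespace Pool.Agent.JOS

open Complex MeasureTheory Filter Topology UpperHalfPlane ModularGroup Set Metric
open scoped MatrixGroups Modular ENNReal ComplexConjugate ContDiff
open Pool.Agent.JO (QN red FamH)

theorem pol_exp (τ θ : ℝ) : cexp (τ + θ * Complex.I) =
    (Real.exp τ : ℂ) * (Complex.cos θ + Complex.sin θ * Complex.I) := by
  rw [Complex.exp_add, Complex.exp_mul_I, Complex.ofReal_exp]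

theorem pol_exp_im (τ θ : ℝ) : (cexp (τ + θ * Complex.I)).im = Real.exp τ * Real.sin θ := by
  rw [Complex.exp_im]
  simp

theorem pol_exp_re (τ θ : ℝ) : (cexp (τ + θ * Complex.I)).re = Real.exp τ * Real.cos θ := by
  rw [Complex.exp_re]
  simp

theorem pol_im_pos {τ θ : ℝ} (h : θ ∈ Ioo 0 Real.pi) : 0 < (cexp (τ + θ * Complex.I)).im := by
  rw [pol_exp_im]
  exact mul_pos (Real.exp_pos _) (Real.sin_pos_of_mem_Ioo h)

/-- POL -/
theorem pt_coe {τ θ : ℝ} (h : θ ∈ Ioo 0 Real.pi) :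
    ((pt τ θ : ℍ) : ℂ) = cexp (τ + θ * Complex.I) := by
  unfold pt
  rw [ofComplex_apply_of_im_pos (pol_im_pos h)]

/-- POL -/
theorem pt_arg {τ θ : ℝ} (h : θ ∈ Ioo 0 Real.pi) : Complex.arg ((pt τ θ : ℍ) : ℂ) = θ := by
  rw [pt_coe h, pol_exp]
  exact Complex.arg_mul_cos_add_sin_mul_I (Real.exp_pos _)
    ⟨by linarith [h.1, Real.pi_pos], h.2.le⟩

/-- POL -/
theorem pt_im {τ θ : ℝ} (h : θ ∈ Ioo 0 Real.pi) : (pt τ θ).im = Real.exp τ * Real.sin θ := by
  rw [← pol_exp_im, ← pt_coe h]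
  rfl

/-- POL: hyperbolic distance in these coordinates -/
theorem pt_dist {τ θ τ' θ' : ℝ} (h : θ ∈ Ioo 0 Real.pi) (h' : θ' ∈ Ioo 0 Real.pi) :
    Real.cosh (dist (pt τ θ) (pt τ' θ')) = cc (τ - τ') θ θ' := by
  rw [UpperHalfPlane.cosh_dist, pt_im h, pt_im h', pt_coe h, pt_coe h',
    Complex.dist_eq_re_im, Real.sq_sqrt (by positivity), pol_exp_im, pol_exp_im, pol_exp_re,
    pol_exp_re]
  unfold cc
  have hs := Real.sin_pos_of_mem_Ioo h
  have hs' := Real.sin_pos_of_mem_Ioo h'
  have e := Real.exp_pos τ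
  have e' := Real.exp_pos τ'
  rw [Real.cosh_eq, neg_sub, Real.exp_sub, Real.exp_sub]
  field_simp
  have t := Real.sin_sq_add_cos_sq θ
  have t' := Real.sin_sq_add_cos_sq θ'
  linear_combination (Real.exp τ ^ 2) * t + (Real.exp τ' ^ 2) * t'

theorem pol_cont_exp : Continuous (fun p : ℝ × ℝ => cexp (p.1 + p.2 * Complex.I)) := by
  fun_prop

/-- POL -/
theorem pt_cont : ContinuousOn (fun p : ℝ × ℝ => pt p.1 p.2) (univ ×ˢ Ioo 0 Real.pi) := by
  rw [isOpenEmbedding_coe.isEmbedding.continuousOn_iff]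
  refine pol_cont_exp.continuousOn.congr ?_
  intro p hp
  exact pt_coe hp.2

theorem pol_meas_ofComplex : Measurable (fun z : ℂ => UpperHalfPlane.ofComplex z) := by
  rw [← measurableEmbedding_coe.measurable_comp_iff]
  have h1 : (UpperHalfPlane.coe ∘ fun z : ℂ => UpperHalfPlane.ofComplex z) =
      fun z => if 0 < z.im then z else ((Classical.choice inferInstance : ℍ) : ℂ) := by
    funext z
    rw [Function.comp_apply, ofComplex_apply_eq_ite]
    split_ifs with h
    · rfl
    · rfl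
  rw [h1]
  exact Measurable.ite (measurableSet_lt measurable_const Complex.measurable_im) measurable_id
    measurable_const

theorem pol_meas_pt : Measurable (fun p : ℝ × ℝ => pt p.1 p.2) :=
  pol_meas_ofComplex.comp pol_cont_exp.measurable

/-- the coordinates -/
noncomputable def pol_E (w : ℍ) : ℝ × ℝ := (Real.log ‖(w : ℂ)‖, Complex.arg (w : ℂ))

theorem pol_arg_mem (w : ℍ) : Complex.arg (w : ℂ) ∈ Ioo 0 Real.pi := by
  have h : 0 < (w : ℂ).im := w.im_pos
  refine ⟨lt_of_le_of_ne (Complex.arg_nonneg_iff.2 h.le) ?_,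
    lt_of_le_of_ne (Complex.arg_le_pi _) ?_⟩
  · intro h0
    have := (Complex.arg_eq_zero_iff.1 h0.symm).2
    exact h.ne' this
  · intro h0
    have := (Complex.arg_eq_pi_iff.1 h0).2
    exact h.ne' this

theorem pol_pt_E (w : ℍ) : pt (pol_E w).1 (pol_E w).2 = w := by
  apply UpperHalfPlane.ext
  show ((pt (Real.log ‖(w : ℂ)‖) (Complex.arg (w : ℂ)) : ℍ) : ℂ) = w
  rw [pt_coe (pol_arg_mem w)]
  exact Complex.exp_log w.ne_zero

theorem pol_E_pt {p : ℝ × ℝ} (hp : p ∈ (univ : Set ℝ) ×ˢ Ioo 0 Real.pi) :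
    pol_E (pt p.1 p.2) = p := by
  unfold pol_E
  rw [pt_arg hp.2, pt_coe hp.2, Complex.norm_exp]
  ext
  · simp
  · rfl

theorem pol_E_meas : Measurable pol_E := by
  have h : Measurable (fun w : ℍ => (w : ℂ)) := measurableEmbedding_coe.measurable
  exact (Real.measurable_log.comp h.norm).prodMk (Complex.measurable_arg.comp h)

theorem pol_range : range pol_E = (univ : Set ℝ) ×ˢ Ioo 0 Real.pi := by
  ext p
  constructor
  · rintro ⟨w, rfl⟩
    exact ⟨mem_univ _, pol_arg_mem w⟩
  · intro hp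
    exact ⟨pt p.1 p.2, pol_E_pt hp⟩

theorem pol_set_meas : MeasurableSet ((univ : Set ℝ) ×ˢ Ioo 0 Real.pi) :=
  MeasurableSet.univ.prod measurableSet_Ioo

theorem pol_emb : MeasurableEmbedding pol_E :=
  MeasurableEmbedding.of_measurable_inverse pol_E_meas (by rw [pol_range]; exact pol_set_meas)
    pol_meas_pt pol_pt_E

theorem pol_lint_exp (G : ℝ → ℝ≥0∞) :
    ∫⁻ r in Ioi (0 : ℝ), G r = ∫⁻ τ : ℝ, ENNReal.ofReal (Real.exp τ) * G (Real.exp τ) := by
  have h := lintegral_image_eq_lintegral_abs_deriv_mul (s := univ) (f := Real.exp)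
    (f' := Real.exp) MeasurableSet.univ (fun x _ => (Real.hasDerivAt_exp x).hasDerivWithinAt)
    Real.exp_injective.injOn G
  rw [image_univ, Real.range_exp, Measure.restrict_univ] at h
  rw [h]
  refine lintegral_congr fun τ => ?_
  rw [abs_of_pos (Real.exp_pos τ)]

/-- POL -/
theorem pol_lint (F : ℍ → ℝ≥0∞) (hF : Measurable F) : ∫⁻ w : ℍ, F w =
    ∫⁻ p in (univ : Set ℝ) ×ˢ Ioo 0 Real.pi,
      ENNReal.ofReal (1 / Real.sin p.2 ^ 2) * F (pt p.1 p.2) := by
  set F' : ℂ → ℝ≥0∞ := fun z => F (UpperHalfPlane.ofComplex z) with hF'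
  have hF'm : Measurable F' := hF.comp pol_meas_ofComplex
  have hms : MeasurableSet {z : ℂ | 0 < z.im} := measurableSet_lt measurable_const
    Complex.measurable_im
  have h1 : ∫⁻ w : ℍ, F w = ∫⁻ z : ℂ, {z : ℂ | 0 < z.im}.indicator
      (fun z => F' z * ENNReal.ofReal (1 / z.im ^ 2)) z := by
    rw [lintegral_indicator hms, ← lint_H]
    refine lintegral_congr fun w => ?_
    rw [hF']
    simp only [ofComplex_apply]
  rw [h1, ← Complex.lintegral_comp_polarCoord_symm]
  have hG : ∀ p ∈ _root_.polarCoord.target, ENNReal.ofReal p.1 •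
      {z : ℂ | 0 < z.im}.indicator (fun z => F' z * ENNReal.ofReal (1 / z.im ^ 2))
        (Complex.polarCoord.symm p) = (Ioi (0 : ℝ) ×ˢ Ioo 0 Real.pi).indicator
      (fun p : ℝ × ℝ => ENNReal.ofReal p.1 * (F' (p.1 * (Complex.cos p.2 + Complex.sin p.2 *
        Complex.I)) * ENNReal.ofReal (1 / (p.1 * Real.sin p.2) ^ 2))) p := by
    intro p hp
    rw [_root_.polarCoord_target] at hp
    have him : (Complex.polarCoord.symm p).im = p.1 * Real.sin p.2 := by
      rw [Complex.polarCoord_symm_apply]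
      simp
      left
      exact Complex.sin_ofReal_re _
    have hcoe : Complex.polarCoord.symm p =
        (p.1 : ℂ) * (Complex.cos p.2 + Complex.sin p.2 * Complex.I) := by
      rw [Complex.polarCoord_symm_apply]
      push_cast
      rfl
    by_cases h2 : p.2 ∈ Ioo 0 Real.pi
    · have h3 : 0 < p.1 * Real.sin p.2 := mul_pos hp.1 (Real.sin_pos_of_mem_Ioo h2)
      rw [indicator_of_mem (by show 0 < (Complex.polarCoord.symm p).im; rw [him]; exact h3),
        indicator_of_mem (by exact ⟨hp.1, h2⟩), him, hcoe, smul_eq_mul]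
    · have h3 : ¬ 0 < p.1 * Real.sin p.2 := by
        rw [not_lt]
        refine mul_nonpos_of_nonneg_of_nonpos (le_of_lt hp.1) ?_
        have h4 : p.2 ≤ 0 := by
          by_contra h5
          exact h2 ⟨not_le.1 h5, hp.2.2⟩
        exact Real.sin_nonpos_of_nonpos_of_neg_pi_le h4 hp.2.1.le
      rw [indicator_of_notMem (by show ¬ 0 < (Complex.polarCoord.symm p).im; rw [him]; exact h3),
        indicator_of_notMem (fun h => h2 h.2), smul_zero]
  rw [setLIntegral_congr_fun _root_.polarCoord.open_target.measurableSet hG]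
  have hms2 : MeasurableSet (Ioi (0 : ℝ) ×ˢ Ioo 0 Real.pi) := measurableSet_Ioi.prod
    measurableSet_Ioo
  rw [setLIntegral_indicator hms2]
  have hsub : Ioi (0 : ℝ) ×ˢ Ioo 0 Real.pi ∩ _root_.polarCoord.target =
      Ioi (0 : ℝ) ×ˢ Ioo 0 Real.pi := by
    rw [_root_.polarCoord_target]
    refine inter_eq_left.2 (prod_mono_right ?_)
    exact Ioo_subset_Ioo_left (by linarith [Real.pi_pos])
  rw [hsub, Measure.volume_eq_prod, ← Measure.prod_restrict, ← Measure.prod_restrict,
    lintegral_prod_symm, lintegral_prod_symm]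
  · refine lintegral_congr_ae ?_
    filter_upwards [ae_restrict_mem measurableSet_Ioo] with θ hθ
    rw [pol_lint_exp, Measure.restrict_univ]
    refine lintegral_congr fun τ => ?_
    have hs := Real.sin_pos_of_mem_Ioo hθ
    have he := Real.exp_pos τ
    have h2 : F' (((Real.exp τ : ℝ) : ℂ) * (Complex.cos θ + Complex.sin θ * Complex.I)) =
        F (pt τ θ) := by
      rw [hF']
      simp only
      rw [← pol_exp]
      rfl
    rw [h2, ← mul_assoc, ← mul_assoc, mul_right_comm, ← ENNReal.ofReal_mul he.le,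
      ← ENNReal.ofReal_mul (by positivity)]
    congr 2
    field_simp
  · refine Measurable.aemeasurable ?_
    refine Measurable.mul ?_ (hF.comp pol_meas_pt)
    fun_prop
  · refine Measurable.aemeasurable ?_
    refine Measurable.mul (by fun_prop) (Measurable.mul (hF'm.comp ?_) (by fun_prop))
    fun_prop

theorem pol_measure : Measure.map pol_E (volume : Measure ℍ) =
    (volume.restrict ((univ : Set ℝ) ×ˢ Ioo 0 Real.pi)).withDensity
      (fun p => ENNReal.ofReal (1 / Real.sin p.2 ^ 2)) := by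
  ext s hs
  rw [pol_emb.map_apply, withDensity_apply _ hs, ← lintegral_indicator_one (pol_E_meas hs),
    pol_lint _ (measurable_one.indicator (pol_E_meas hs)), ← lintegral_indicator hs]
  refine setLIntegral_congr_fun pol_set_meas ?_
  intro p hp
  simp only
  by_cases h : p ∈ s
  · rw [indicator_of_mem h, indicator_of_mem (by show pol_E _ ∈ s; rwa [pol_E_pt hp])]
    simp
  · rw [indicator_of_notMem h, indicator_of_notMem (by show ¬ pol_E _ ∈ s; rwa [pol_E_pt hp]),
      mul_zero]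

theorem pol_meas_dens : Measurable (fun p : ℝ × ℝ => Real.toNNReal (1 / Real.sin p.2 ^ 2)) := by
  fun_prop

/-- POL: polar coordinates -/
theorem pol_int (F : ℍ → ℂ) : ∫ w : ℍ, F w =
    ∫ p in (univ : Set ℝ) ×ˢ Ioo 0 Real.pi, ((1 / Real.sin p.2 ^ 2 : ℝ) : ℂ) * F (pt p.1 p.2) := by
  have h1 : ∫ w : ℍ, F w = ∫ w : ℍ, (fun p : ℝ × ℝ => F (pt p.1 p.2)) (pol_E w) := by
    refine integral_congr_ae (Eventually.of_forall fun w => ?_)
    simp only
    rw [pol_pt_E]
  rw [h1, ← pol_emb.integral_map (fun p : ℝ × ℝ => F (pt p.1 p.2)), pol_measure]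
  have h2 := integral_withDensity_eq_integral_smul (μ := volume.restrict
    ((univ : Set ℝ) ×ˢ Ioo 0 Real.pi)) pol_meas_dens (fun p : ℝ × ℝ => F (pt p.1 p.2))
  rw [show (fun p : ℝ × ℝ => ENNReal.ofReal (1 / Real.sin p.2 ^ 2)) = fun p : ℝ × ℝ =>
    ((Real.toNNReal (1 / Real.sin p.2 ^ 2) : NNReal) : ℝ≥0∞) from rfl, h2]
  refine setIntegral_congr_fun pol_set_meas fun p hp => ?_
  show (Real.toNNReal (1 / Real.sin p.2 ^ 2) : NNReal) • F (pt p.1 p.2) = _
  rw [NNReal.smul_def, Real.coe_toNNReal _ (by positivity), Complex.real_smul]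

/-- POL -/
theorem pol_integrable (F : ℍ → ℂ) : Integrable F ↔
    IntegrableOn (fun p : ℝ × ℝ => ((1 / Real.sin p.2 ^ 2 : ℝ) : ℂ) * F (pt p.1 p.2))
      ((univ : Set ℝ) ×ˢ Ioo 0 Real.pi) := by
  have h1 : F = (fun p : ℝ × ℝ => F (pt p.1 p.2)) ∘ pol_E := by
    funext w
    simp only [Function.comp_apply]
    rw [pol_pt_E]
  have h2 : Integrable F ↔ Integrable (fun p : ℝ × ℝ => F (pt p.1 p.2))
      (Measure.map pol_E (volume : Measure ℍ)) := by
    rw [pol_emb.integrable_map_iff, ← h1]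
  rw [h2, pol_measure, show (fun p : ℝ × ℝ => ENNReal.ofReal (1 / Real.sin p.2 ^ 2)) =
    fun p : ℝ × ℝ => ((Real.toNNReal (1 / Real.sin p.2 ^ 2) : NNReal) : ℝ≥0∞) from rfl,
    integrable_withDensity_iff_integrable_smul pol_meas_dens]
  refine integrable_congr (Eventually.of_forall fun p => ?_)
  simp only
  rw [NNReal.smul_def, Real.coe_toNNReal _ (by positivity), Complex.real_smul]

/-- POL: the ray integral of `JO.Defs` -/
theorem ray_eq (φ : ℍ → ℂ) {θ : ℝ} (h : θ ∈ Ioo 0 Real.pi) :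
    Pool.Agent.JO.ray φ θ = PT φ θ := by
  unfold Pool.Agent.JO.ray PT
  have h1 := integral_image_eq_integral_abs_deriv_smul (s := univ) (f := Real.exp)
    (f' := Real.exp) MeasurableSet.univ (fun x _ => (Real.hasDerivAt_exp x).hasDerivWithinAt)
    Real.exp_injective.injOn (fun r : ℝ => φ (UpperHalfPlane.ofComplex
      (r * cexp (θ * Complex.I))) / (r : ℂ))
  rw [image_univ, Real.range_exp, Measure.restrict_univ] at h1
  rw [h1]
  refine integral_congr_ae (Eventually.of_forall fun τ => ?_)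
  simp only
  have he := Real.exp_pos τ
  have he' : ((Real.exp τ : ℝ) : ℂ) ≠ 0 := by exact_mod_cast he.ne'
  rw [abs_of_pos he, Complex.real_smul, mul_div_cancel₀ _ he']
  unfold pt
  rw [Complex.exp_add, Complex.ofReal_exp]

end Pool.Agent.JOS
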