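import Pool.Agent.Lib_helper58.JOSF.KA4

/-! # JO, part S, block RAY: the operators `R_k` and the integrals over rays -/

namespace Pool.Agent.JOS

open Complex MeasureTheory Filter Topology UpperHalfPlane ModularGroup Set Metric
open scoped MatrixGroups Modular ENNReal ComplexConjugate ContDiff
open Pool.Agent.JO (QN red FamH)

theorem ray_bd {k : ℝ → ℝ} (hk : TK k) : ∃ B : ℝ, 0 ≤ B ∧ ∀ c, 1 ≤ c → |k c| ≤ B := by
  obtain ⟨R, hR⟩ := hk.supp
  obtain ⟨B, hB⟩ := (isCompact_Icc (a := (1 : ℝ)) (b := R)).exists_bound_of_continuousOn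
    hk.smooth.continuous.continuousOn
  refine ⟨max B 0, le_max_right _ _, fun c hc => ?_⟩
  by_cases h : R ≤ c
  · rw [hR c h, abs_zero]; exact le_max_right _ _
  · exact (hB c ⟨hc, (not_le.1 h).le⟩).trans (le_max_left _ _)

theorem ray_exp_int {c : ℝ} (hc : 0 < c) : Integrable (fun τ : ℝ => Real.exp (-(c * |τ|))) := by
  have h1 : IntegrableOn (fun τ : ℝ => Real.exp (-(c * |τ|))) (Ioi 0) := by
    have := integrableOn_exp_mul_Ioi (neg_lt_zero.2 hc) 0
    refine this.congr_fun (fun x hx => ?_) measurableSet_Ioi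
    have hx' : (0 : ℝ) < x := hx
    simp only
    rw [abs_of_pos hx', neg_mul]
  have h2 : IntegrableOn (fun τ : ℝ => Real.exp (-(c * |τ|))) (Iic 0) := by
    have := integrableOn_exp_mul_Iic hc 0
    refine this.congr_fun (fun x hx => ?_) measurableSet_Iic
    have hx' : x ≤ (0 : ℝ) := hx
    simp only
    rw [abs_of_nonpos hx']
    congr 1
    ring
  have h3 := h2.union h1
  rwa [Iic_union_Ioi, integrableOn_univ] at h3

theorem ray_pt_left {θ : ℝ} (hθ : θ ∈ Ioo 0 Real.pi) : Continuous (fun τ : ℝ => pt τ θ) := by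
  have := pt_cont.comp_continuous (f := fun τ : ℝ => (τ, θ)) (by fun_prop)
    (fun τ => ⟨mem_univ _, hθ⟩)
  exact this

theorem ray_pt_right {τ θ : ℝ} (hθ : θ ∈ Ioo 0 Real.pi) : ContinuousAt (fun θ : ℝ => pt τ θ) θ := by
  have hop : IsOpen ((univ : Set ℝ) ×ˢ Ioo (0 : ℝ) Real.pi) := isOpen_univ.prod isOpen_Ioo
  have h1 : ContinuousAt (fun p : ℝ × ℝ => pt p.1 p.2) (τ, θ) :=
    pt_cont.continuousAt (hop.mem_nhds ⟨mem_univ _, hθ⟩)
  exact h1.comp (f := fun θ : ℝ => (τ, θ)) (by fun_prop)

theorem ray_gen {k : ℝ → ℝ} (hk : TK k) {φ : ℍ → ℂ} (hφ : Continuous φ)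
    (hb : ∀ a b : ℝ, 0 < a → b < Real.pi → ∃ C c : ℝ, 0 < c ∧ ∀ θ ∈ Icc a b, ∀ τ : ℝ,
      ‖φ (pt τ θ)‖ ≤ C * Real.exp (-(c * |τ|))) :
    ContinuousOn (PT φ) (Ioo 0 Real.pi) ∧
    (∀ θ ∈ Ioo 0 Real.pi, Integrable (fun τ => φ (pt τ θ))) ∧
    (∀ θ ∈ Ioo 0 Real.pi, Integrable (fun τ => RR k φ (pt τ θ))) ∧
    ∀ θ ∈ Ioo 0 Real.pi, PT (RR k φ) θ = KK k (PT φ) θ := by
  have key : ∀ θ ∈ Ioo 0 Real.pi, Integrable (fun τ => RR k φ (pt τ θ)) ∧
      PT (RR k φ) θ = KK k (PT φ) θ := by
    intro θ hθ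
    obtain ⟨B, hB0, hB⟩ := ray_bd hk
    obtain ⟨R, hR⟩ := hk.supp
    obtain ⟨ρ, T, hρ, hT, hsupp⟩ := cc_supp R
    obtain ⟨a', b', ha', hb', hab'⟩ := cc_supp2 R θ θ hθ.1 hθ.2
    obtain ⟨C, c, hc, hC⟩ := hb a' b' ha' hb'
    -- the set and the integrand
    obtain ⟨S, hS⟩ : ∃ S : Set (ℝ × ℝ), S = (univ : Set ℝ) ×ˢ Ioo 0 Real.pi := ⟨_, rfl⟩
    have hSo : IsOpen S := by rw [hS]; exact isOpen_univ.prod isOpen_Ioo
    have hSm : MeasurableSet S := hSo.measurableSet
    obtain ⟨H, hH⟩ : ∃ H : ℝ → ℝ × ℝ → ℂ, H = fun τ p =>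
        ((1 / Real.sin p.2 ^ 2 : ℝ) : ℂ) * (((k (cc (τ - p.1) θ p.2) : ℝ) : ℂ) *
          φ (pt p.1 p.2)) := ⟨_, rfl⟩
    have hrr : ∀ τ, RR k φ (pt τ θ) = ∫ p in S, H τ p := by
      intro τ
      unfold RR
      rw [pol_int, hS]
      apply setIntegral_congr_fun (MeasurableSet.univ.prod measurableSet_Ioo)
      intro p hp
      simp only [hH]
      unfold kz
      rw [pt_dist hθ hp.2]
    have hsinp : ∀ p ∈ S, 0 < Real.sin p.2 := by
      intro p hp
      rw [hS] at hp
      exact Real.sin_pos_of_mem_Ioo hp.2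
    have hsθ : 0 < Real.sin θ := Real.sin_pos_of_mem_Ioo hθ
    -- continuity
    have hcont : ContinuousOn (Function.uncurry H) ((univ : Set ℝ) ×ˢ S) := by
      rw [hH]
      have c1 : ContinuousOn (fun q : ℝ × (ℝ × ℝ) => Real.sin q.2.2) ((univ : Set ℝ) ×ˢ S) := by
        fun_prop
      have c2 : ContinuousOn (fun q : ℝ × (ℝ × ℝ) => 1 / Real.sin q.2.2 ^ 2)
          ((univ : Set ℝ) ×ˢ S) :=
        continuousOn_const.div (c1.pow 2) (fun q hq => pow_ne_zero 2 (hsinp _ hq.2).ne')
      have c3 : ContinuousOn (fun q : ℝ × (ℝ × ℝ) => cc (q.1 - q.2.1) θ q.2.2)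
          ((univ : Set ℝ) ×ˢ S) := by
        unfold cc
        apply ContinuousOn.div
        · fun_prop
        · fun_prop
        · intro q hq
          exact mul_ne_zero hsθ.ne' (hsinp _ hq.2).ne'
      have c4 : ContinuousOn (fun q : ℝ × (ℝ × ℝ) => k (cc (q.1 - q.2.1) θ q.2.2))
          ((univ : Set ℝ) ×ˢ S) := hk.smooth.continuous.comp_continuousOn c3
      have c5 : ContinuousOn (fun q : ℝ × (ℝ × ℝ) => φ (pt q.2.1 q.2.2))
          ((univ : Set ℝ) ×ˢ S) := by
        apply hφ.comp_continuousOn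
        apply pt_cont.comp continuous_snd.continuousOn
        intro q hq
        rw [← hS]
        exact hq.2
      exact (Complex.continuous_ofReal.comp_continuousOn c2).mul
        ((Complex.continuous_ofReal.comp_continuousOn c4).mul c5)
    -- a lower bound of the sine
    obtain ⟨M, hM0, hM⟩ : ∃ M : ℝ, 0 ≤ M ∧ ∀ t ∈ Icc a' b', t ∈ Ioo 0 Real.pi →
        1 / Real.sin t ^ 2 ≤ M := by
      have hcs : ContinuousOn (fun t => 1 / Real.sin t ^ 2) (Icc a' b') := by
        apply continuousOn_const.div (by fun_prop)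
        intro t ht
        exact pow_ne_zero 2 (Real.sin_pos_of_mem_Ioo
          ⟨lt_of_lt_of_le ha' ht.1, lt_of_le_of_lt ht.2 hb'⟩).ne'
      obtain ⟨M, hM⟩ := isCompact_Icc.exists_bound_of_continuousOn hcs
      refine ⟨max M 0, le_max_right _ _, fun t ht _ => ?_⟩
      exact ((le_abs_self _).trans (hM t ht)).trans (le_max_left _ _)
    have hC0 : 0 ≤ C ∨ ¬ (Icc a' b').Nonempty := by
      by_cases h : (Icc a' b').Nonempty
      · left
        obtain ⟨t, ht⟩ := h
        have h1 := (norm_nonneg _).trans (hC t ht 0)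
        simp at h1
        exact h1
      · exact Or.inr h
    -- the bound
    have hbound : ∀ τ : ℝ, ∀ p ∈ S, ‖H τ p‖ ≤ (M * B * |C| * Real.exp (c / 2 * T)) *
        (Real.exp (-(c / 2 * |τ|)) * (Real.exp (-(c / 2 * |p.1|)) *
          (Icc a' b').indicator (fun _ => (1 : ℝ)) p.2)) := by
      intro τ p hp
      have hp' : p.2 ∈ Ioo 0 Real.pi := by rw [hS] at hp; exact hp.2
      have hind : 0 ≤ (Icc a' b').indicator (fun _ => (1 : ℝ)) p.2 :=
        indicator_nonneg (fun _ _ => zero_le_one) _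
      have hrhs : 0 ≤ (M * B * |C| * Real.exp (c / 2 * T)) *
        (Real.exp (-(c / 2 * |τ|)) * (Real.exp (-(c / 2 * |p.1|)) *
          (Icc a' b').indicator (fun _ => (1 : ℝ)) p.2)) := by positivity
      by_cases h0 : k (cc (τ - p.1) θ p.2) = 0
      · simp only [hH, h0]
        simpa using hrhs
      · have hcc : cc (τ - p.1) θ p.2 ≤ R := by
          by_contra hcon
          exact h0 (hR _ (not_le.1 hcon).le)
        have h1 := hab' (τ - p.1) θ p.2 ⟨le_rfl, le_rfl⟩ hp' hcc
        have h2 := (hsupp (τ - p.1) θ p.2 hθ hp' hcc).1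
        have h3 : |τ - p.1| ≤ T := by
          refine h2.trans ?_
          have h4 : √(Real.sin θ * Real.sin p.2) ≤ 1 := by
            rw [Real.sqrt_le_one]
            have h5 := Real.sin_le_one θ
            have h6 := Real.sin_le_one p.2
            nlinarith [hsinp p hp]
          nlinarith
        have h4 := hB (cc (τ - p.1) θ p.2) (cc_ge hθ hp')
        have h5 := hC p.2 h1 p.1
        have h6 := hM p.2 h1 hp'
        have h7 : (0 : ℝ) ≤ 1 / Real.sin p.2 ^ 2 := by positivity
        rw [indicator_of_mem h1, mul_one]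
        have h8 : |τ| ≤ |p.1| + T := by
          have := abs_sub_abs_le_abs_sub τ p.1
          linarith
        have h9 : Real.exp (-(c * |p.1|)) ≤ Real.exp (c / 2 * T) *
            (Real.exp (-(c / 2 * |τ|)) * Real.exp (-(c / 2 * |p.1|))) := by
          rw [← Real.exp_add, ← Real.exp_add]
          apply Real.exp_le_exp.2
          nlinarith
        simp only [hH]
        rw [norm_mul, norm_mul, Complex.norm_real, Complex.norm_real, Real.norm_of_nonneg h7,
          Real.norm_eq_abs]
        calc 1 / Real.sin p.2 ^ 2 * (|k (cc (τ - p.1) θ p.2)| * ‖φ (pt p.1 p.2)‖)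
            ≤ M * (B * (|C| * Real.exp (-(c * |p.1|)))) := by
              apply mul_le_mul h6 _ (by positivity) hM0
              apply mul_le_mul h4 _ (norm_nonneg _) hB0
              exact h5.trans (mul_le_mul_of_nonneg_right (le_abs_self C) (Real.exp_pos _).le)
          _ ≤ M * (B * (|C| * (Real.exp (c / 2 * T) *
            (Real.exp (-(c / 2 * |τ|)) * Real.exp (-(c / 2 * |p.1|)))))) := by
              gcongr
          _ = _ := by ring
    have hmeas : (volume : Measure ℝ).prod ((volume : Measure (ℝ × ℝ)).restrict S) =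
        ((volume : Measure ℝ).prod (volume : Measure (ℝ × ℝ))).restrict (univ ×ˢ S) := by
      rw [← Measure.prod_restrict, Measure.restrict_univ]
    have hint2 : Integrable (fun p : ℝ × ℝ => Real.exp (-(c / 2 * |p.1|)) *
          (Icc a' b').indicator (fun _ => (1 : ℝ)) p.2) := by
      rw [Measure.volume_eq_prod]
      apply Integrable.mul_prod (ray_exp_int (by linarith))
      rw [integrable_indicator_iff measurableSet_Icc]
      exact integrableOn_const (by simp)
    have hHint : Integrable (Function.uncurry H)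
        ((volume : Measure ℝ).prod ((volume : Measure (ℝ × ℝ)).restrict S)) := by
      have hg : Integrable (fun q : ℝ × (ℝ × ℝ) => (M * B * |C| * Real.exp (c / 2 * T)) *
        (Real.exp (-(c / 2 * |q.1|)) * (Real.exp (-(c / 2 * |q.2.1|)) *
          (Icc a' b').indicator (fun _ => (1 : ℝ)) q.2.2)))
          ((volume : Measure ℝ).prod ((volume : Measure (ℝ × ℝ)).restrict S)) := by
        apply Integrable.const_mul
        exact Integrable.mul_prod (f := fun τ : ℝ => Real.exp (-(c / 2 * |τ|)))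
          (g := fun p : ℝ × ℝ => Real.exp (-(c / 2 * |p.1|)) *
            (Icc a' b').indicator (fun _ => (1 : ℝ)) p.2)
          (ray_exp_int (by linarith)) hint2.restrict
      apply Integrable.mono' hg
      · rw [hmeas]
        exact hcont.aestronglyMeasurable (MeasurableSet.univ.prod hSm)
      · rw [hmeas]
        refine (ae_restrict_iff' (MeasurableSet.univ.prod hSm)).2 ?_
        apply Eventually.of_forall
        intro q hq
        exact hbound q.1 q.2 hq.2
    refine ⟨?_, ?_⟩
    · have h1 := hHint.integral_prod_left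
      simp only [Function.uncurry] at h1
      exact h1.congr (Eventually.of_forall (fun τ => (hrr τ).symm))
    · unfold PT
      simp only [hrr]
      rw [integral_integral_swap hHint]
      have h1 := hHint.integral_prod_right
      simp only [Function.uncurry] at h1
      have h2 : ∀ p : ℝ × ℝ, ∫ τ, H τ p =
          ((kap k θ p.2 / Real.sin p.2 ^ 2 : ℝ) : ℂ) * φ (pt p.1 p.2) := by
        intro p
        have h3 : ∫ τ : ℝ, ((k (cc (τ - p.1) θ p.2) : ℝ) : ℂ) = ((kap k θ p.2 : ℝ) : ℂ) := by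
          rw [integral_sub_right_eq_self (fun τ : ℝ => ((k (cc τ θ p.2) : ℝ) : ℂ)) p.1]
          unfold kap
          exact integral_complex_ofReal
        simp only [hH]
        rw [integral_const_mul, integral_mul_const, h3]
        push_cast
        ring
      simp only [h2] at h1 ⊢
      rw [hS, Measure.volume_eq_prod, ← Measure.prod_restrict, Measure.restrict_univ] at h1 ⊢
      rw [integral_prod_symm _ h1]
      unfold KK
      congr 1
      funext t
      rw [← integral_const_mul]
  refine ⟨?_, ?_, fun θ hθ => (key θ hθ).1, fun θ hθ => (key θ hθ).2⟩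
  · intro θ hθ
    apply ContinuousAt.continuousWithinAt
    obtain ⟨a, ha1, ha2⟩ := exists_between hθ.1
    obtain ⟨b, hb1, hb2⟩ := exists_between hθ.2
    obtain ⟨C, c, hc, hC⟩ := hb a b ha1 hb2
    unfold PT
    apply continuousAt_of_dominated (bound := fun τ => C * Real.exp (-(c * |τ|)))
    · filter_upwards [Ioo_mem_nhds hθ.1 hθ.2] with t ht
      exact (hφ.comp (ray_pt_left ht)).aestronglyMeasurable
    · filter_upwards [Ioo_mem_nhds ha2 hb1] with t ht
      exact Eventually.of_forall (fun τ => hC t ⟨ht.1.le, ht.2.le⟩ τ)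
    · exact (ray_exp_int hc).const_mul C
    · exact Eventually.of_forall (fun τ => hφ.continuousAt.comp (ray_pt_right hθ))
  · intro θ hθ
    obtain ⟨C, c, hc, hC⟩ := hb θ θ hθ.1 hθ.2
    apply Integrable.mono' ((ray_exp_int hc).const_mul C)
    · exact (hφ.comp (ray_pt_left hθ)).aestronglyMeasurable
    · exact Eventually.of_forall (fun τ => hC θ ⟨le_rfl, le_rfl⟩ τ)

end Pool.Agent.JOS
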