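import Pool.Agent.Lib_helper58.JOSF.SCH

/-! # JO, part S, block RRB: the operators `R_k` on square integrable families -/

namespace Pool.Agent.JOS

open Complex MeasureTheory Filter Topology UpperHalfPlane ModularGroup Set Metric
open scoped MatrixGroups Modular ENNReal ComplexConjugate ContDiff
open Pool.Agent.JO (QN red FamH)

theorem rrb_cont {k : ℝ → ℝ} (hk : TK k) : Continuous k := hk.smooth.continuous

theorem rrb_bd {k : ℝ → ℝ} (hk : TK k) : ∃ B : ℝ, 0 ≤ B ∧ ∀ c, 1 ≤ c → |k c| ≤ B := by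
  obtain ⟨R, hR⟩ := hk.supp
  obtain ⟨B, hB⟩ := (isCompact_Icc (a := (1 : ℝ)) (b := R)).exists_bound_of_continuousOn
    (rrb_cont hk).continuousOn
  refine ⟨max B 0, le_max_right _ _, fun c hc => ?_⟩
  by_cases h : R ≤ c
  · rw [hR c h, abs_zero]; exact le_max_right _ _
  · exact (hB c ⟨hc, (not_le.1 h).le⟩).trans (le_max_left _ _)

theorem rrb_le_cosh (x : ℝ) (hx : 0 ≤ x) : x ≤ Real.cosh x := by
  have h1 : x + 1 ≤ Real.exp x := Real.add_one_le_exp x
  have h2 := Real.exp_pos (-x)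
  have h3 : Real.exp x * Real.exp (-x) = 1 := by rw [← Real.exp_add]; simp
  rw [Real.cosh_eq]
  have h4 : 0 ≤ (Real.exp x - Real.exp (-x)) ^ 2 := sq_nonneg _
  have h5 := Real.one_sub_le_exp_neg x
  have h6 := Real.quadratic_le_exp_of_nonneg hx
  nlinarith [sq_nonneg (x - 1)]

theorem rrb_supp {k : ℝ → ℝ} (hk : TK k) : ∃ R : ℝ, ∀ z w : ℍ, kz k z w ≠ 0 → dist z w ≤ R := by
  obtain ⟨R, hR⟩ := hk.supp
  refine ⟨R, fun z w h => ?_⟩
  by_contra hcon
  push Not at hcon
  apply h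
  exact hR _ (hcon.le.trans (rrb_le_cosh _ dist_nonneg))

theorem rrb_kz_cont {k : ℝ → ℝ} (hk : TK k) : Continuous (fun p : ℍ × ℍ => kz k p.1 p.2) := by
  unfold kz
  exact (rrb_cont hk).comp (Real.continuous_cosh.comp continuous_dist)

theorem rr_int {k : ℝ → ℝ} (hk : TK k) {N : ℕ} [NeZero N] {f : QN N → ℍ → ℂ} (hf : SqH f)
    (s : QN N) (z : ℍ) : Integrable (fun w => (kz k z w : ℂ) * f s w) := by
  obtain ⟨B, hB0, hB⟩ := rrb_bd hk
  obtain ⟨R, hR⟩ := rrb_supp hk
  have h1 := (bal_int hf z R s).2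
  have h2 : IntegrableOn (fun w => (kz k z w : ℂ) * f s w) (closedBall z R) := by
    apply Integrable.bdd_mul (c := B) h1
    · exact (Complex.continuous_ofReal.comp ((rrb_kz_cont hk).comp
        (Continuous.prodMk_right z))).aestronglyMeasurable
    · exact Eventually.of_forall (fun w => by
        rw [Complex.norm_real]
        exact hB _ (Real.one_le_cosh _))
  refine (integrableOn_iff_integrable_of_support_subset ?_).1 h2
  intro w hw
  have hw' : (kz k z w : ℂ) ≠ 0 := left_ne_zero_of_mul hw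
  have : kz k z w ≠ 0 := by exact_mod_cast hw'
  rw [mem_closedBall, dist_comm]
  exact hR z w this

theorem rr_cont {k : ℝ → ℝ} (hk : TK k) {N : ℕ} [NeZero N] {f : QN N → ℍ → ℂ} (hf : SqH f)
    (s : QN N) : Continuous (RR k (f s)) := by
  obtain ⟨B, hB0, hB⟩ := rrb_bd hk
  obtain ⟨R, hR⟩ := rrb_supp hk
  rw [continuous_iff_continuousAt]
  intro z₀
  unfold RR
  apply continuousAt_of_dominated
    (bound := (closedBall z₀ (R + 1)).indicator (fun w => B * ‖f s w‖))
  · exact Eventually.of_forall (fun z => (rr_int hk hf s z).1)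
  · filter_upwards [ball_mem_nhds z₀ one_pos] with z hz
    apply Eventually.of_forall
    intro w
    by_cases h : kz k z w = 0
    · rw [h]
      simp only [Complex.ofReal_zero, zero_mul, norm_zero]
      apply indicator_nonneg
      intro w _
      positivity
    · have h1 := hR z w h
      have h2 : w ∈ closedBall z₀ (R + 1) := by
        rw [mem_closedBall]
        rw [mem_ball] at hz
        calc dist w z₀ ≤ dist w z + dist z z₀ := dist_triangle _ _ _
          _ ≤ R + 1 := by rw [dist_comm w z]; linarith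
      rw [indicator_of_mem h2, norm_mul, Complex.norm_real]
      exact mul_le_mul_of_nonneg_right (hB _ (Real.one_le_cosh _)) (norm_nonneg _)
  · rw [integrable_indicator_iff isClosed_closedBall.measurableSet]
    exact ((bal_int hf z₀ (R + 1) s).2.norm).const_mul B
  · apply Eventually.of_forall
    intro w
    apply Continuous.continuousAt
    exact (Complex.continuous_ofReal.comp ((rrb_kz_cont hk).comp
        (Continuous.prodMk_left w))).mul continuous_const

theorem rrb_dist (g : SL(2, ℤ)) (z w : ℍ) : dist (g • z) (g • w) = dist z w :=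
  dist_smul (Matrix.SpecialLinearGroup.map (Int.castRingHom ℝ) g : SL(2, ℝ)) z w

theorem rrb_kz_smul (k : ℝ → ℝ) (g : SL(2, ℤ)) (z w : ℍ) : kz k (g • z) (g • w) = kz k z w := by
  unfold kz
  rw [rrb_dist]

theorem rrb_fam {k : ℝ → ℝ} {N : ℕ} {f : QN N → ℍ → ℂ} (hf : FamH f) : FamH (RF k f) := by
  intro γ s z
  unfold RF RR
  rw [← (mp_smul γ).integral_comp (emb_smul γ)]
  congr 1
  funext w
  rw [rrb_kz_smul, hf γ s w]

theorem rrb_abs {k : ℝ → ℝ} (hk : TK k) : Measurable (fun c => |k c|) ∧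
    (∀ c, 1 ≤ c → 0 ≤ |k c|) ∧ (∃ B : ℝ, ∀ c, 1 ≤ c → |k c| ≤ B) ∧
    ∃ R : ℝ, ∀ c, R ≤ c → |k c| = 0 := by
  obtain ⟨B, _, hB⟩ := rrb_bd hk
  obtain ⟨R, hR⟩ := hk.supp
  exact ⟨(continuous_abs.comp (rrb_cont hk)).measurable, fun c _ => abs_nonneg _, ⟨B, hB⟩, R,
    fun c hc => by rw [hR c hc, abs_zero]⟩

theorem rrb_pt {k : ℝ → ℝ} {N : ℕ} (f : QN N → ℍ → ℂ) (s : QN N) (z : ℍ) :
    ‖RF k f s z‖ ^ 2 ≤ (∫ w : ℍ, kz (fun c => |k c|) z w * ‖f s w‖) ^ 2 := by
  have h : ‖RF k f s z‖ ≤ ∫ w : ℍ, kz (fun c => |k c|) z w * ‖f s w‖ := by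
    unfold RF RR
    refine (norm_integral_le_integral_norm _).trans (le_of_eq ?_)
    congr 1
    funext w
    rw [norm_mul, Complex.norm_real]
    rfl
  exact pow_le_pow_left₀ (norm_nonneg _) h 2

theorem rr_sq {k : ℝ → ℝ} (hk : TK k) {N : ℕ} [NeZero N] {f : QN N → ℍ → ℂ} (hf : SqH f) :
    SqH (RF k f) := by
  obtain ⟨q1, q2, q3, q4⟩ := rrb_abs hk
  have hs := sch q1 q2 q3 q4 hf
  refine ⟨rrb_fam hf.fam, fun s => (rr_cont hk hf s).measurable, fun s => ?_⟩
  apply Integrable.mono' (hs.1 s)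
  · exact ((rr_cont hk hf s).norm.pow 2).aestronglyMeasurable
  · apply Eventually.of_forall
    intro z
    rw [Real.norm_of_nonneg (by positivity)]
    exact rrb_pt f s z

theorem rr_norm {k : ℝ → ℝ} (hk : TK k) {N : ℕ} [NeZero N] {f : QN N → ℍ → ℂ} (hf : SqH f) :
    nH (RF k f) ≤ ms (fun c => |k c|) * nH f := by
  obtain ⟨q1, q2, q3, q4⟩ := rrb_abs hk
  have hs := sch q1 q2 q3 q4 hf
  refine le_trans ?_ hs.2
  unfold nH
  apply Real.sqrt_le_sqrt
  apply Finset.sum_le_sum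
  intro s _
  apply integral_mono_of_nonneg
  · exact Eventually.of_forall (fun z => by positivity)
  · exact hs.1 s
  · exact Eventually.of_forall (fun z => rrb_pt f s z)

end Pool.Agent.JOS
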