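import Pool.Agent.Lib_helper58.JOSF.BAL

namespace Pool.Agent.JOS

open Complex MeasureTheory Filter Topology UpperHalfPlane ModularGroup Set Metric
open scoped MatrixGroups Modular ENNReal ComplexConjugate ContDiff
open Pool.Agent.JO (QN red FamH)

theorem sch_kz_meas {q : ℝ → ℝ} (hq : Measurable q) : Measurable (fun p : ℍ × ℍ => kz q p.1 p.2) := by
  unfold kz
  exact hq.comp (Real.measurable_cosh.comp (Measurable.dist measurable_fst measurable_snd))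

theorem sch_kz_meas_right {q : ℝ → ℝ} (hq : Measurable q) (z : ℍ) : Measurable (fun w : ℍ => kz q z w) := by
  unfold kz
  exact hq.comp (Real.measurable_cosh.comp (Measurable.dist measurable_const measurable_id))

theorem sch_kz_comm (q : ℝ → ℝ) (z w : ℍ) : kz q z w = kz q w z := by
  unfold kz
  rw [dist_comm]

theorem sch_transitive (z : ℍ) : ∃ g : SL(2, ℝ), g • UpperHalfPlane.I = z := by
  refine ⟨Pool.Agent.JO.gg z 0, ?_⟩
  have h : (0 : ℝ) < √z.im := Real.sqrt_pos.2 z.im_pos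
  ext1
  rw [UpperHalfPlane.specialLinearGroup_apply]
  simp [Pool.Agent.JO.gg]
  have h2 : ((√z.im : ℝ) : ℂ) * ((√z.im : ℝ) : ℂ) = (z.im : ℂ) := by
    rw [← Complex.ofReal_mul, Real.mul_self_sqrt z.im_pos.le]
  have h3 : ((√z.im : ℝ) : ℂ) ≠ 0 := by exact_mod_cast h.ne'
  rw [add_mul, div_mul_cancel₀ _ h3]
  calc ((√z.im : ℝ) : ℂ) * Complex.I * ((√z.im : ℝ) : ℂ) + (z.re : ℂ)
      = (z.re : ℂ) + (((√z.im : ℝ) : ℂ) * ((√z.im : ℝ) : ℂ)) * Complex.I := by ring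
    _ = (z : ℂ) := by rw [h2, UpperHalfPlane.re_add_im]

theorem sch_mp (g : SL(2, ℝ)) : MeasurePreserving (fun z : ℍ => g • z) volume volume := by
  have := measurePreserving_smul (Matrix.SpecialLinearGroup.mapGL ℝ g) (volume : Measure ℍ)
  exact this

theorem sch_emb (g : SL(2, ℝ)) : MeasurableEmbedding (fun z : ℍ => g • z) := by
  let e : ℍ ≃ᵐ ℍ :=
    { toEquiv := MulAction.toPerm g
      measurable_toFun := (sch_mp g).measurable
      measurable_invFun := (sch_mp g⁻¹).measurable }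
  exact e.measurableEmbedding

theorem kz_int {q : ℝ → ℝ} (hq : Measurable q) (hb : ∃ B : ℝ, ∀ c, 1 ≤ c → |q c| ≤ B)
    (hs : ∃ R : ℝ, ∀ c, R ≤ c → q c = 0) (z : ℍ) :
    Integrable (fun w => kz q z w) ∧ ∫ w : ℍ, kz q z w = ms q := by
  obtain ⟨B, hB⟩ := hb
  obtain ⟨R, hR⟩ := hs
  constructor
  · have hsupp : ∀ w : ℍ, w ∉ closedBall z (max R 1) → kz q z w = 0 := by
      intro w hw
      unfold kz
      refine hR _ ?_
      rw [mem_closedBall, not_le, dist_comm] at hw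
      have h1 : dist z w ≤ Real.cosh (dist z w) :=
        (Real.self_le_sinh_iff.2 dist_nonneg).trans (Real.sinh_lt_cosh _).le
      linarith [le_max_left R 1]
    have hfin : volume (closedBall z (max R 1)) < ⊤ := (isCompact_closedBall z _).measure_lt_top
    have h1 : IntegrableOn (fun w => kz q z w) (closedBall z (max R 1)) := by
      refine Measure.integrableOn_of_bounded (M := B) hfin.ne (sch_kz_meas_right hq z).aestronglyMeasurable ?_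
      refine Eventually.of_forall fun w => ?_
      rw [Real.norm_eq_abs]
      exact hB _ (Real.one_le_cosh _)
    rwa [integrableOn_iff_integrable_of_support_subset] at h1
    intro w hw
    by_contra hc
    exact hw (hsupp w hc)
  · obtain ⟨g, hg⟩ := sch_transitive z
    unfold ms
    have h1 := (sch_mp g).integral_comp (sch_emb g) (fun w => kz q z w)
    rw [← h1]
    refine integral_congr_ae (Eventually.of_forall fun w => ?_)
    simp only [kz]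
    rw [← hg, dist_smul]


theorem sch_smul_meas (g : SL(2, ℤ)) : Measurable (fun z : ℍ => g • z) := (mp_smul g).measurable

/-- the exchange of the two integrations for invariant kernels -/
theorem sch_swap {N : ℕ} [NeZero N] (Φ : QN N → ℍ → ℍ → ℝ≥0∞)
    (hm : ∀ s, Measurable (fun p : ℍ × ℍ => Φ s p.1 p.2))
    (hinv : ∀ (g : SL(2, ℤ)) (s : QN N) (z w : ℍ), Φ (red N g * s) (g • z) (g • w) = Φ s z w) :
    ∑ s : QN N, ∫⁻ z in (𝒟ᵒ : Set ℍ), ∫⁻ w : ℍ, Φ s z w =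
      ∑ s : QN N, ∫⁻ w in (𝒟ᵒ : Set ℍ), ∫⁻ z : ℍ, Φ s z w := by
  have hmr : ∀ s z, Measurable (fun w => Φ s z w) := fun s z => (hm s).comp measurable_prodMk_left
  have hml : ∀ s w, Measurable (fun z => Φ s z w) := fun s w => (hm s).comp measurable_prodMk_right
  have hinv' : ∀ (g : SL(2, ℤ)) (s : QN N) (z w : ℍ), Φ s z (g • w) = Φ (red N g⁻¹ * s) (g⁻¹ • z) w := by
    intro g s z w
    have := hinv g⁻¹ s z (g • w)
    rw [inv_smul_smul] at this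
    exact this.symm
  have hA : ∀ s z, 2 * ∫⁻ w : ℍ, Φ s z w = ∑' g : SL(2, ℤ), ∫⁻ w in (𝒟ᵒ : Set ℍ), Φ (red N g⁻¹ * s) (g⁻¹ • z) w := by
    intro s z
    rw [← unf_lint (fun w => Φ s z w) (hmr s z).aemeasurable]
    refine tsum_congr fun g => lintegral_congr fun w => ?_
    exact hinv' g s z w
  have hB : ∀ s w, 2 * ∫⁻ z : ℍ, Φ s z w = ∑' g : SL(2, ℤ), ∫⁻ z in (𝒟ᵒ : Set ℍ), Φ s (g • z) w := by
    intro s w
    exact (unf_lint (fun z => Φ s z w) (hml s w).aemeasurable).symm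
  have hmA : ∀ (g : SL(2, ℤ)) (s : QN N), Measurable (fun p : ℍ × ℍ => Φ s (g • p.1) p.2) := by
    intro g s
    exact (hm s).comp (((sch_smul_meas g).comp measurable_fst).prodMk measurable_snd)
  have h2 : (2 : ℝ≥0∞) * ∑ s : QN N, ∫⁻ z in (𝒟ᵒ : Set ℍ), ∫⁻ w : ℍ, Φ s z w =
      2 * ∑ s : QN N, ∫⁻ w in (𝒟ᵒ : Set ℍ), ∫⁻ z : ℍ, Φ s z w := by
    have hL : (2 : ℝ≥0∞) * ∑ s : QN N, ∫⁻ z in (𝒟ᵒ : Set ℍ), ∫⁻ w : ℍ, Φ s z w =
        ∑' g : SL(2, ℤ), ∑ s : QN N, ∫⁻ z in (𝒟ᵒ : Set ℍ), ∫⁻ w in (𝒟ᵒ : Set ℍ), Φ (red N g⁻¹ * s) (g⁻¹ • z) w := by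
      rw [Finset.mul_sum, Summable.tsum_finsetSum (fun s _ => ENNReal.summable)]
      refine Finset.sum_congr rfl fun s _ => ?_
      rw [← lintegral_const_mul _ (Measurable.lintegral_prod_right' (hm s)), ← lintegral_tsum]
      · exact lintegral_congr fun z => hA s z
      · intro g
        exact (Measurable.lintegral_prod_right' (hmA g⁻¹ (red N g⁻¹ * s))).aemeasurable
    have hR : (2 : ℝ≥0∞) * ∑ s : QN N, ∫⁻ w in (𝒟ᵒ : Set ℍ), ∫⁻ z : ℍ, Φ s z w =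
        ∑' g : SL(2, ℤ), ∑ s : QN N, ∫⁻ w in (𝒟ᵒ : Set ℍ), ∫⁻ z in (𝒟ᵒ : Set ℍ), Φ s (g • z) w := by
      rw [Finset.mul_sum, Summable.tsum_finsetSum (fun s _ => ENNReal.summable)]
      refine Finset.sum_congr rfl fun s _ => ?_
      rw [← lintegral_const_mul _ (Measurable.lintegral_prod_left' (hm s)), ← lintegral_tsum]
      · exact lintegral_congr fun w => hB s w
      · intro g
        exact (Measurable.lintegral_prod_left' (hmA g s)).aemeasurable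
    rw [hL, hR, ← (Equiv.inv SL(2, ℤ)).tsum_eq (fun g => ∑ s : QN N, ∫⁻ w in (𝒟ᵒ : Set ℍ), ∫⁻ z in (𝒟ᵒ : Set ℍ), Φ s (g • z) w)]
    refine tsum_congr fun g => ?_
    rw [Equiv.inv_apply]
    rw [← Equiv.sum_comp (Equiv.mulLeft (red N g⁻¹)) (fun s => ∫⁻ w in (𝒟ᵒ : Set ℍ), ∫⁻ z in (𝒟ᵒ : Set ℍ), Φ s (g⁻¹ • z) w)]
    refine Finset.sum_congr rfl fun s _ => ?_
    rw [Equiv.coe_mulLeft]
    exact lintegral_lintegral_swap (hmA g⁻¹ (red N g⁻¹ * s)).aemeasurable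
  exact (ENNReal.mul_right_inj (by norm_num) (by norm_num)).1 h2


theorem sch_dist_smul (g : SL(2, ℤ)) (z w : ℍ) : dist (g • z) (g • w) = dist z w := by
  have := dist_smul (Matrix.SpecialLinearGroup.map (Int.castRingHom ℝ) g : SL(2, ℝ)) z w
  exact this

theorem sch_kz_smul (q : ℝ → ℝ) (g : SL(2, ℤ)) (z w : ℍ) : kz q (g • z) (g • w) = kz q z w := by
  unfold kz
  rw [sch_dist_smul]

theorem sch_nonneg {q : ℝ → ℝ} (h0 : ∀ c, 1 ≤ c → 0 ≤ q c) (z w : ℍ) : 0 ≤ kz q z w :=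
  h0 _ (Real.one_le_cosh _)

theorem sch_mass {q : ℝ → ℝ} (hq : Measurable q) (h0 : ∀ c, 1 ≤ c → 0 ≤ q c)
    (hb : ∃ B : ℝ, ∀ c, 1 ≤ c → q c ≤ B) (hs : ∃ R : ℝ, ∀ c, R ≤ c → q c = 0) (z : ℍ) :
    ∫⁻ w : ℍ, ENNReal.ofReal (kz q z w) = ENNReal.ofReal (ms q) := by
  obtain ⟨B, hB⟩ := hb
  have h1 := kz_int hq ⟨B, fun c hc => by rw [abs_of_nonneg (h0 c hc)]; exact hB c hc⟩ hs z
  rw [← h1.2, ofReal_integral_eq_lintegral_ofReal h1.1 (Eventually.of_forall fun w => sch_nonneg h0 z w)]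

/-- Cauchy-Schwarz -/
theorem sch_cs {Q F : ℍ → ℝ≥0∞} (hQ : Measurable Q) (hF : Measurable F) :
    (∫⁻ w : ℍ, Q w * F w) ^ 2 ≤ (∫⁻ w : ℍ, Q w) * ∫⁻ w : ℍ, Q w * F w ^ 2 := by
  have h1 := ENNReal.lintegral_mul_le_Lp_mul_Lq (volume : Measure ℍ) (p := 2) (q := 2)
    Real.HolderConjugate.two_two (f := fun w => Q w ^ (1 / 2 : ℝ)) (g := fun w => Q w ^ (1 / 2 : ℝ) * F w)
    (hQ.pow_const _).aemeasurable ((hQ.pow_const _).mul hF).aemeasurable
  have e1 : ∀ w, ((fun w => Q w ^ (1 / 2 : ℝ)) * fun w => Q w ^ (1 / 2 : ℝ) * F w) w = Q w * F w := by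
    intro w
    rw [Pi.mul_apply, ← mul_assoc, ← ENNReal.rpow_add_of_nonneg _ _ (by norm_num) (by norm_num)]
    norm_num
  have e2 : ∀ w, (Q w ^ (1 / 2 : ℝ)) ^ (2 : ℝ) = Q w := by
    intro w
    rw [← ENNReal.rpow_mul]
    norm_num
  have e3 : ∀ w, (Q w ^ (1 / 2 : ℝ) * F w) ^ (2 : ℝ) = Q w * F w ^ 2 := by
    intro w
    rw [ENNReal.mul_rpow_of_nonneg _ _ (by norm_num), e2]
    congr 1
    exact ENNReal.rpow_natCast (F w) 2
  rw [lintegral_congr e1, lintegral_congr e2, lintegral_congr e3] at h1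
  calc (∫⁻ w : ℍ, Q w * F w) ^ 2 ≤ ((∫⁻ w : ℍ, Q w) ^ (1 / 2 : ℝ) * (∫⁻ w : ℍ, Q w * F w ^ 2) ^ (1 / 2 : ℝ)) ^ 2 :=
        pow_le_pow_left' h1 2
    _ = (∫⁻ w : ℍ, Q w) * ∫⁻ w : ℍ, Q w * F w ^ 2 := by
        rw [mul_pow, ← ENNReal.rpow_natCast, ← ENNReal.rpow_natCast, ← ENNReal.rpow_mul, ← ENNReal.rpow_mul]
        norm_num

theorem sch {q : ℝ → ℝ} (hq : Measurable q) (h0 : ∀ c, 1 ≤ c → 0 ≤ q c)
    (hb : ∃ B : ℝ, ∀ c, 1 ≤ c → q c ≤ B) (hs : ∃ R : ℝ, ∀ c, R ≤ c → q c = 0) {N : ℕ} [NeZero N] {f : QN N → ℍ → ℂ} (hf : SqH f) :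
    (∀ s, IntegrableOn (fun z => (∫ w : ℍ, kz q z w * ‖f s w‖) ^ 2) (𝒟ᵒ : Set ℍ)) ∧
    √(∑ s : QN N, ∫ z in (𝒟ᵒ : Set ℍ), (∫ w : ℍ, kz q z w * ‖f s w‖) ^ 2) ≤ ms q * nH f := by
  set Q : ℍ → ℍ → ℝ≥0∞ := fun z w => ENNReal.ofReal (kz q z w) with hQ
  set m : ℝ≥0∞ := ENNReal.ofReal (ms q) with hm
  have hms : 0 ≤ ms q := integral_nonneg fun w => sch_nonneg h0 _ w
  have hmass : ∀ z, ∫⁻ w : ℍ, Q z w = m := fun z => sch_mass hq h0 hb hs z
  have hQm : Measurable (fun p : ℍ × ℍ => Q p.1 p.2) := ENNReal.measurable_ofReal.comp (sch_kz_meas hq)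
  have hQr : ∀ z, Measurable (fun w => Q z w) := fun z => ENNReal.measurable_ofReal.comp (sch_kz_meas_right hq z)
  have hFm : ∀ s, Measurable (fun w => ‖f s w‖ₑ) := fun s => (hf.meas s).enorm
  -- the inner integral
  set I : QN N → ℍ → ℝ≥0∞ := fun s z => ∫⁻ w : ℍ, Q z w * ‖f s w‖ₑ with hI
  have hIm : ∀ s, Measurable (I s) := fun s =>
    Measurable.lintegral_prod_right' (hQm.mul ((hFm s).comp measurable_snd))
  have hIn : ∀ s z, ∫ w : ℍ, kz q z w * ‖f s w‖ = (I s z).toReal := by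
    intro s z
    rw [integral_eq_lintegral_of_nonneg_ae]
    · congr 1
      refine lintegral_congr fun w => ?_
      rw [ENNReal.ofReal_mul (sch_nonneg h0 z w), ofReal_norm]
    · exact Eventually.of_forall fun w => mul_nonneg (sch_nonneg h0 z w) (norm_nonneg _)
    · exact ((sch_kz_meas_right hq z).mul (hf.meas s).norm).aestronglyMeasurable
  -- the main estimate
  have hmain : ∑ s : QN N, ∫⁻ z in (𝒟ᵒ : Set ℍ), I s z ^ 2 ≤ m ^ 2 * ∑ s : QN N, ∫⁻ w in (𝒟ᵒ : Set ℍ), ‖f s w‖ₑ ^ 2 := by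
    have h1 : ∑ s : QN N, ∫⁻ z in (𝒟ᵒ : Set ℍ), I s z ^ 2 ≤
        ∑ s : QN N, ∫⁻ z in (𝒟ᵒ : Set ℍ), m * ∫⁻ w : ℍ, Q z w * ‖f s w‖ₑ ^ 2 := by
      refine Finset.sum_le_sum fun s _ => lintegral_mono fun z => ?_
      have := sch_cs (hQr z) (hFm s)
      rw [hmass z] at this
      exact this
    have h2 : ∑ s : QN N, ∫⁻ z in (𝒟ᵒ : Set ℍ), m * ∫⁻ w : ℍ, Q z w * ‖f s w‖ₑ ^ 2 =
        m * ∑ s : QN N, ∫⁻ z in (𝒟ᵒ : Set ℍ), ∫⁻ w : ℍ, Q z w * ‖f s w‖ₑ ^ 2 := by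
      rw [Finset.mul_sum]
      refine Finset.sum_congr rfl fun s _ => ?_
      rw [lintegral_const_mul]
      exact Measurable.lintegral_prod_right' (hQm.mul (((hFm s).pow_const 2).comp measurable_snd))
    have h3 : ∑ s : QN N, ∫⁻ z in (𝒟ᵒ : Set ℍ), ∫⁻ w : ℍ, Q z w * ‖f s w‖ₑ ^ 2 =
        ∑ s : QN N, ∫⁻ w in (𝒟ᵒ : Set ℍ), ∫⁻ z : ℍ, Q z w * ‖f s w‖ₑ ^ 2 := by
      refine sch_swap (fun s z w => Q z w * ‖f s w‖ₑ ^ 2)
        (fun s => hQm.mul (((hFm s).pow_const 2).comp measurable_snd)) ?_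
      intro g s z w
      simp only [hQ]
      rw [sch_kz_smul, hf.fam g s w]
    have h4 : ∑ s : QN N, ∫⁻ w in (𝒟ᵒ : Set ℍ), ∫⁻ z : ℍ, Q z w * ‖f s w‖ₑ ^ 2 =
        m * ∑ s : QN N, ∫⁻ w in (𝒟ᵒ : Set ℍ), ‖f s w‖ₑ ^ 2 := by
      rw [Finset.mul_sum]
      refine Finset.sum_congr rfl fun s _ => ?_
      rw [← lintegral_const_mul _ ((hFm s).pow_const 2)]
      refine lintegral_congr fun w => ?_
      have h5 : ∀ z, Q z w = Q w z := fun z => by simp only [hQ]; rw [sch_kz_comm]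
      rw [lintegral_mul_const]
      · congr 1
        rw [lintegral_congr h5]
        exact hmass w
      · have h6 : (fun z => Q z w) = fun z => Q w z := funext h5
        rw [h6]
        exact hQr w
    refine h1.trans (le_of_eq ?_)
    rw [h2, h3, h4, ← mul_assoc, sq]
  -- finiteness
  have hfin : ∀ s, ∫⁻ w in (𝒟ᵒ : Set ℍ), ‖f s w‖ₑ ^ 2 = ENNReal.ofReal (∫ w in (𝒟ᵒ : Set ℍ), ‖f s w‖ ^ 2) := by
    intro s
    rw [ofReal_integral_eq_lintegral_ofReal (hf.sq s) (Eventually.of_forall fun w => by positivity)]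
    refine lintegral_congr fun w => ?_
    rw [← ofReal_norm, ENNReal.ofReal_pow (norm_nonneg _)]
  have hS0 : 0 ≤ ∑ s : QN N, ∫ w in (𝒟ᵒ : Set ℍ), ‖f s w‖ ^ 2 :=
    Finset.sum_nonneg fun s _ => integral_nonneg fun w => by positivity
  have hright : m ^ 2 * ∑ s : QN N, ∫⁻ w in (𝒟ᵒ : Set ℍ), ‖f s w‖ₑ ^ 2 =
      ENNReal.ofReal ((ms q) ^ 2 * ∑ s : QN N, ∫ w in (𝒟ᵒ : Set ℍ), ‖f s w‖ ^ 2) := by
    rw [ENNReal.ofReal_mul (by positivity), ENNReal.ofReal_pow hms,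
      ENNReal.ofReal_sum_of_nonneg (fun s _ => integral_nonneg fun w => by positivity)]
    congr 1
    exact Finset.sum_congr rfl fun s _ => hfin s
  rw [hright] at hmain
  have htot : ∑ s : QN N, ∫⁻ z in (𝒟ᵒ : Set ℍ), I s z ^ 2 < ⊤ := hmain.trans_lt ENNReal.ofReal_lt_top
  have hone : ∀ s, ∫⁻ z in (𝒟ᵒ : Set ℍ), I s z ^ 2 < ⊤ := fun s =>
    (Finset.single_le_sum (fun _ _ => zero_le) (Finset.mem_univ s)).trans_lt htot
  have hmeas : ∀ s, AEStronglyMeasurable (fun z => (∫ w : ℍ, kz q z w * ‖f s w‖) ^ 2) (volume.restrict (𝒟ᵒ : Set ℍ)) := by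
    intro s
    have : (fun z => (∫ w : ℍ, kz q z w * ‖f s w‖) ^ 2) = fun z => ((I s z).toReal) ^ 2 := by
      funext z
      rw [hIn]
    rw [this]
    exact ((hIm s).ennreal_toReal.pow_const 2).aestronglyMeasurable
  have hle : ∀ s z, ENNReal.ofReal ((∫ w : ℍ, kz q z w * ‖f s w‖) ^ 2) ≤ I s z ^ 2 := by
    intro s z
    rw [hIn, ENNReal.ofReal_pow ENNReal.toReal_nonneg]
    exact pow_le_pow_left' ENNReal.ofReal_toReal_le 2
  constructor
  · intro s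
    refine ⟨hmeas s, ?_⟩
    rw [hasFiniteIntegral_iff_ofReal (Eventually.of_forall fun z => by positivity)]
    exact (lintegral_mono fun z => hle s z).trans_lt (hone s)
  · have h7 : ∑ s : QN N, ∫ z in (𝒟ᵒ : Set ℍ), (∫ w : ℍ, kz q z w * ‖f s w‖) ^ 2 ≤
        (ms q) ^ 2 * ∑ s : QN N, ∫ w in (𝒟ᵒ : Set ℍ), ‖f s w‖ ^ 2 := by
      have h8 : ∀ s, ∫ z in (𝒟ᵒ : Set ℍ), (∫ w : ℍ, kz q z w * ‖f s w‖) ^ 2 ≤ (∫⁻ z in (𝒟ᵒ : Set ℍ), I s z ^ 2).toReal := by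
        intro s
        rw [integral_eq_lintegral_of_nonneg_ae (Eventually.of_forall fun z => by positivity) (hmeas s)]
        exact ENNReal.toReal_mono (hone s).ne (lintegral_mono fun z => hle s z)
      refine (Finset.sum_le_sum fun s _ => h8 s).trans ?_
      rw [← ENNReal.toReal_sum (fun s _ => (hone s).ne)]
      exact ENNReal.toReal_le_of_le_ofReal (by positivity) hmain
    refine (Real.sqrt_le_sqrt h7).trans (le_of_eq ?_)
    rw [Real.sqrt_mul (by positivity), Real.sqrt_sq hms]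
    rfl

end Pool.Agent.JOS
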