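import Pool.Agent.Lib_helper58.JOSF.RRB

/-! JO part S, block SYM: symmetry of `R_k` (uses sch, rr_int) -/

namespace Pool.Agent.JOS

open Complex MeasureTheory Filter Topology UpperHalfPlane ModularGroup Set Metric
open scoped MatrixGroups Modular ENNReal ComplexConjugate ContDiff
open Pool.Agent.JO (QN red FamH)

/-- the measure on `𝒟ᵒ × ℍ` -/
noncomputable def symMu : Measure (ℍ × ℍ) :=
  ((volume : Measure ℍ).restrict (𝒟ᵒ : Set ℍ)).prod (volume : Measure ℍ)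

theorem sym_meas : MeasurableSet (𝒟ᵒ : Set ℍ) := isOpen_fdo.measurableSet

theorem sym_red_mul {N : ℕ} (γ δ : SL(2, ℤ)) : red N (γ * δ) = red N γ * red N δ := by
  unfold red
  exact map_mul _ _ _

theorem sym_red_one {N : ℕ} : red N 1 = 1 := by
  unfold red
  exact map_one _

/-- the swap principle, nonnegative functions -/
theorem sym_swapL {N : ℕ} [NeZero N] (Φ : QN N → ℍ → ℍ → ℝ≥0∞)
    (hm : ∀ s, Measurable (Function.uncurry (Φ s)))
    (hinv : ∀ (γ : SL(2, ℤ)) (s : QN N) (z w : ℍ), Φ (red N γ * s) (γ • z) (γ • w) = Φ s z w) :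
    ∑ s : QN N, ∫⁻ z in (𝒟ᵒ : Set ℍ), ∫⁻ w : ℍ, Φ s z w =
      ∑ s : QN N, ∫⁻ w in (𝒟ᵒ : Set ℍ), ∫⁻ z : ℍ, Φ s z w := by
  have hms : ∀ g : SL(2, ℤ), Measurable (fun z : ℍ => g • z) := fun g => (mp_smul g).measurable
  have hm1 : ∀ s z, Measurable (fun w => Φ s z w) := fun s z => (hm s).comp measurable_prodMk_left
  have hm2 : ∀ s w, Measurable (fun z => Φ s z w) := fun s w => (hm s).comp measurable_prodMk_right
  have hinv' : ∀ (γ : SL(2, ℤ)) (s : QN N) (z w : ℍ),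
      Φ s z (γ • w) = Φ (red N γ⁻¹ * s) (γ⁻¹ • z) w := by
    intro γ s z w
    have h := hinv γ⁻¹ s z (γ • w)
    rw [inv_smul_smul] at h
    exact h.symm
  have hA : ∀ s, 2 * ∫⁻ z in (𝒟ᵒ : Set ℍ), ∫⁻ w : ℍ, Φ s z w =
      ∑' γ : SL(2, ℤ), ∫⁻ z in (𝒟ᵒ : Set ℍ), ∫⁻ w in (𝒟ᵒ : Set ℍ),
        Φ (red N γ⁻¹ * s) (γ⁻¹ • z) w := by
    intro s
    have hmz : Measurable (fun z : ℍ => ∫⁻ w : ℍ, Φ s z w) := (hm s).lintegral_prod_right'
    rw [← lintegral_const_mul _ hmz]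
    rw [← lintegral_tsum]
    · refine lintegral_congr fun z => ?_
      rw [← unf_lint _ (hm1 s z).aemeasurable]
      refine tsum_congr fun γ => ?_
      refine lintegral_congr fun w => ?_
      exact hinv' γ s z w
    · intro γ
      refine Measurable.aemeasurable ?_
      have : Measurable (fun p : ℍ × ℍ => Φ (red N γ⁻¹ * s) (γ⁻¹ • p.1) p.2) :=
        (hm (red N γ⁻¹ * s)).comp (((hms γ⁻¹).comp measurable_fst).prodMk measurable_snd)
      exact this.lintegral_prod_right'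
  have hB : ∀ s, 2 * ∫⁻ w in (𝒟ᵒ : Set ℍ), ∫⁻ z : ℍ, Φ s z w =
      ∑' γ : SL(2, ℤ), ∫⁻ z in (𝒟ᵒ : Set ℍ), ∫⁻ w in (𝒟ᵒ : Set ℍ), Φ s (γ⁻¹ • z) w := by
    intro s
    have hmw : Measurable (fun w : ℍ => ∫⁻ z : ℍ, Φ s z w) := (hm s).lintegral_prod_left'
    rw [← lintegral_const_mul _ hmw]
    have h1 : ∀ γ : SL(2, ℤ), ∫⁻ z in (𝒟ᵒ : Set ℍ), ∫⁻ w in (𝒟ᵒ : Set ℍ), Φ s (γ⁻¹ • z) w =
        ∫⁻ w in (𝒟ᵒ : Set ℍ), ∫⁻ z in (𝒟ᵒ : Set ℍ), Φ s (γ⁻¹ • z) w := by
      intro γ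
      refine lintegral_lintegral_swap ?_
      have : Measurable (fun p : ℍ × ℍ => Φ s (γ⁻¹ • p.1) p.2) :=
        (hm s).comp (((hms γ⁻¹).comp measurable_fst).prodMk measurable_snd)
      exact this.aemeasurable
    simp_rw [h1]
    rw [← lintegral_tsum]
    · refine lintegral_congr fun w => ?_
      rw [← unf_lint _ (hm2 s w).aemeasurable]
      exact ((Equiv.inv SL(2, ℤ)).tsum_eq
        (fun γ => ∫⁻ z in (𝒟ᵒ : Set ℍ), Φ s (γ • z) w)).symm
    · intro γ
      refine Measurable.aemeasurable ?_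
      have : Measurable (fun p : ℍ × ℍ => Φ s (γ⁻¹ • p.1) p.2) :=
        (hm s).comp (((hms γ⁻¹).comp measurable_fst).prodMk measurable_snd)
      exact this.lintegral_prod_left'
  have h2 : (2 : ℝ≥0∞) * ∑ s : QN N, ∫⁻ z in (𝒟ᵒ : Set ℍ), ∫⁻ w : ℍ, Φ s z w =
      2 * ∑ s : QN N, ∫⁻ w in (𝒟ᵒ : Set ℍ), ∫⁻ z : ℍ, Φ s z w := by
    rw [Finset.mul_sum, Finset.mul_sum]
    simp_rw [hA, hB]
    rw [← tsum_fintype (L := SummationFilter.unconditional _),
      ← tsum_fintype (L := SummationFilter.unconditional _), ENNReal.tsum_comm,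
      ENNReal.tsum_comm (f := fun (s : QN N) (γ : SL(2, ℤ)) =>
        ∫⁻ z in (𝒟ᵒ : Set ℍ), ∫⁻ w in (𝒟ᵒ : Set ℍ), Φ s (γ⁻¹ • z) w)]
    refine tsum_congr fun γ => ?_
    exact (Equiv.mulLeft (red N γ⁻¹)).tsum_eq (fun s =>
      ∫⁻ z in (𝒟ᵒ : Set ℍ), ∫⁻ w in (𝒟ᵒ : Set ℍ), Φ s (γ⁻¹ • z) w)
  exact (ENNReal.mul_right_inj (by norm_num) (by norm_num)).1 h2

/-- the swap principle, real functions -/
theorem sym_swapR {N : ℕ} [NeZero N] (Ψ : QN N → ℍ × ℍ → ℝ) (hm : ∀ s, Measurable (Ψ s))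
    (hinv : ∀ (γ : SL(2, ℤ)) (s : QN N) (z w : ℍ), Ψ (red N γ * s) (γ • z, γ • w) = Ψ s (z, w))
    (h1 : ∀ s, Integrable (Ψ s) symMu) (h2 : ∀ s, Integrable (fun p => Ψ s p.swap) symMu) :
    ∑ s : QN N, ∫ p, Ψ s p ∂symMu = ∑ s : QN N, ∫ p, Ψ s p.swap ∂symMu := by
  have key : ∀ (σ : ℝ), ∑ s : QN N, ∫⁻ p, ENNReal.ofReal (σ * Ψ s p) ∂symMu =
      ∑ s : QN N, ∫⁻ p, ENNReal.ofReal (σ * Ψ s p.swap) ∂symMu := by
    intro σ
    have hmm : ∀ s, Measurable (fun p : ℍ × ℍ => ENNReal.ofReal (σ * Ψ s p)) := fun s =>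
      ENNReal.measurable_ofReal.comp (measurable_const.mul (hm s))
    have h := sym_swapL (fun s z w => ENNReal.ofReal (σ * Ψ s (z, w))) hmm
      (fun γ s z w => by rw [hinv])
    calc ∑ s : QN N, ∫⁻ p, ENNReal.ofReal (σ * Ψ s p) ∂symMu =
        ∑ s : QN N, ∫⁻ z in (𝒟ᵒ : Set ℍ), ∫⁻ w : ℍ, ENNReal.ofReal (σ * Ψ s (z, w)) := by
          refine Finset.sum_congr rfl fun s _ => ?_
          exact lintegral_prod _ (hmm s).aemeasurable
      _ = ∑ s : QN N, ∫⁻ w in (𝒟ᵒ : Set ℍ), ∫⁻ z : ℍ, ENNReal.ofReal (σ * Ψ s (z, w)) := h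
      _ = _ := by
          refine Finset.sum_congr rfl fun s _ => ?_
          refine (lintegral_prod _ ((hmm s).comp measurable_swap).aemeasurable).symm
  have e1 : ∀ s, ∫ p, Ψ s p ∂symMu = (∫⁻ p, ENNReal.ofReal (1 * Ψ s p) ∂symMu).toReal -
      (∫⁻ p, ENNReal.ofReal (-1 * Ψ s p) ∂symMu).toReal := by
    intro s
    rw [integral_eq_lintegral_pos_part_sub_lintegral_neg_part (h1 s)]
    simp only [one_mul, neg_mul]
  have e2 : ∀ s, ∫ p, Ψ s p.swap ∂symMu = (∫⁻ p, ENNReal.ofReal (1 * Ψ s p.swap) ∂symMu).toReal -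
      (∫⁻ p, ENNReal.ofReal (-1 * Ψ s p.swap) ∂symMu).toReal := by
    intro s
    rw [integral_eq_lintegral_pos_part_sub_lintegral_neg_part (h2 s)]
    simp only [one_mul, neg_mul]
  have f1 : ∀ σ s, ∫⁻ p, ENNReal.ofReal (σ * Ψ s p) ∂symMu ≠ ⊤ := by
    intro σ s
    exact ((h1 s).const_mul σ).lintegral_lt_top.ne
  have f2 : ∀ σ s, ∫⁻ p, ENNReal.ofReal (σ * Ψ s p.swap) ∂symMu ≠ ⊤ := by
    intro σ s
    exact ((h2 s).const_mul σ).lintegral_lt_top.ne
  simp_rw [e1, e2]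
  rw [Finset.sum_sub_distrib, Finset.sum_sub_distrib,
    ← ENNReal.toReal_sum (fun s _ => f1 1 s), ← ENNReal.toReal_sum (fun s _ => f1 (-1) s),
    ← ENNReal.toReal_sum (fun s _ => f2 1 s), ← ENNReal.toReal_sum (fun s _ => f2 (-1) s),
    key 1, key (-1)]

/-- the swap principle, complex functions -/
theorem sym_swapC {N : ℕ} [NeZero N] (Ψ : QN N → ℍ × ℍ → ℂ) (hm : ∀ s, Measurable (Ψ s))
    (hinv : ∀ (γ : SL(2, ℤ)) (s : QN N) (z w : ℍ), Ψ (red N γ * s) (γ • z, γ • w) = Ψ s (z, w))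
    (h1 : ∀ s, Integrable (Ψ s) symMu) (h2 : ∀ s, Integrable (fun p => Ψ s p.swap) symMu) :
    ∑ s : QN N, ∫ p, Ψ s p ∂symMu = ∑ s : QN N, ∫ p, Ψ s p.swap ∂symMu := by
  have hre := sym_swapR (fun s p => (Ψ s p).re) (fun s => Complex.measurable_re.comp (hm s))
    (fun γ s z w => by rw [hinv]) (fun s => (h1 s).re) (fun s => (h2 s).re)
  have him := sym_swapR (fun s p => (Ψ s p).im) (fun s => Complex.measurable_im.comp (hm s))
    (fun γ s z w => by rw [hinv]) (fun s => (h1 s).im) (fun s => (h2 s).im)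
  have r1 : ∀ s, (∫ p, Ψ s p ∂symMu).re = ∫ p, (Ψ s p).re ∂symMu := fun s =>
    (integral_re (h1 s)).symm
  have r2 : ∀ s, (∫ p, Ψ s p.swap ∂symMu).re = ∫ p, (Ψ s p.swap).re ∂symMu := fun s =>
    (integral_re (h2 s)).symm
  have i1 : ∀ s, (∫ p, Ψ s p ∂symMu).im = ∫ p, (Ψ s p).im ∂symMu := fun s =>
    (integral_im (h1 s)).symm
  have i2 : ∀ s, (∫ p, Ψ s p.swap ∂symMu).im = ∫ p, (Ψ s p.swap).im ∂symMu := fun s =>
    (integral_im (h2 s)).symm
  apply Complex.ext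
  · rw [Complex.re_sum, Complex.re_sum]
    simp_rw [r1, r2]
    exact hre
  · rw [Complex.im_sum, Complex.im_sum]
    simp_rw [i1, i2]
    exact him

theorem sym_kz_inv (k : ℝ → ℝ) (γ : SL(2, ℤ)) (z w : ℍ) : kz k (γ • z) (γ • w) = kz k z w := by
  unfold kz
  have : dist (γ • z) (γ • w) = dist z w := by
    exact dist_smul (Matrix.SpecialLinearGroup.map (Int.castRingHom ℝ) γ : SL(2, ℝ)) z w
  rw [this]

theorem sym_kz_comm (k : ℝ → ℝ) (z w : ℍ) : kz k z w = kz k w z := by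
  unfold kz
  rw [dist_comm]

theorem sym_kz_meas {k : ℝ → ℝ} (hk : TK k) : Continuous (fun p : ℍ × ℍ => kz k p.1 p.2) := by
  unfold kz
  exact hk.smooth.continuous.comp (Real.continuous_cosh.comp continuous_dist)

theorem sym_integrable {k : ℝ → ℝ} (hk : TK k) {N : ℕ} [NeZero N] {f g : QN N → ℍ → ℂ}
    (hf : SqH f) (hg : SqH g) (s : QN N) :
    Integrable (fun p : ℍ × ℍ => (kz k p.1 p.2 : ℂ) * (f s p.2 * conj (g s p.1))) symMu := by
  obtain ⟨R, hR⟩ := hk.supp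
  have hq := sch (q := fun c => |k c|) (hk.smooth.continuous.measurable.norm)
    (fun c _ => abs_nonneg _) (by
      obtain ⟨B, hB⟩ := (isCompact_Icc (a := (1 : ℝ)) (b := max 1 R)).exists_bound_of_continuousOn
        (f := k) hk.smooth.continuous.continuousOn
      refine ⟨max B 0, fun c hc => ?_⟩
      by_cases h : c ≤ max 1 R
      · exact (hB c ⟨hc, h⟩).trans (le_max_left _ _)
      · rw [hR c (by
          have := le_max_right (1 : ℝ) R
          linarith [not_le.1 h]), abs_zero]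
        exact le_max_right _ _)
    ⟨R, fun c hc => by rw [hR c hc, abs_zero]⟩ hf
  have hmeas : Measurable
      (fun p : ℍ × ℍ => (kz k p.1 p.2 : ℂ) * (f s p.2 * conj (g s p.1))) := by
    refine Measurable.mul ?_ ?_
    · exact Complex.measurable_ofReal.comp (sym_kz_meas hk).measurable
    · refine ((hf.meas s).comp measurable_snd).mul ?_
      exact Complex.continuous_conj.measurable.comp ((hg.meas s).comp measurable_fst)
  have hnorm : ∀ z : ℍ, ∫ w : ℍ, ‖(kz k z w : ℂ) * (f s w * conj (g s z))‖ =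
      (∫ w : ℍ, kz (fun c => |k c|) z w * ‖f s w‖) * ‖g s z‖ := by
    intro z
    rw [← integral_mul_const]
    refine integral_congr_ae (Eventually.of_forall fun w => ?_)
    simp only
    rw [norm_mul, norm_mul, Complex.norm_real, Complex.norm_conj, Real.norm_eq_abs]
    unfold kz
    ring
  unfold symMu
  rw [integrable_prod_iff hmeas.aestronglyMeasurable]
  constructor
  · refine Eventually.of_forall fun z => ?_
    have h := (rr_int hk hf s z).mul_const (conj (g s z))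
    refine h.congr (Eventually.of_forall fun w => ?_)
    simp only
    ring
  · have hmz : AEStronglyMeasurable (fun z : ℍ =>
        ∫ w : ℍ, ‖(kz k z w : ℂ) * (f s w * conj (g s z))‖)
        ((volume : Measure ℍ).restrict (𝒟ᵒ : Set ℍ)) := by
      exact (hmeas.norm.stronglyMeasurable.integral_prod_right' (ν := (volume : Measure ℍ))).aestronglyMeasurable
    have hb : Integrable (fun z : ℍ => (∫ w : ℍ, kz (fun c => |k c|) z w * ‖f s w‖) ^ 2 +
        ‖g s z‖ ^ 2) ((volume : Measure ℍ).restrict (𝒟ᵒ : Set ℍ)) := (hq.1 s).add (hg.sq s)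
    refine hb.mono' hmz (Eventually.of_forall fun z => ?_)
    show ‖∫ w : ℍ, ‖(kz k z w : ℂ) * (f s w * conj (g s z))‖‖ ≤ _
    rw [hnorm z, Real.norm_eq_abs]
    set a := ∫ w : ℍ, kz (fun c => |k c|) z w * ‖f s w‖
    rw [abs_mul, abs_of_nonneg (norm_nonneg (g s z))]
    have h1 : |a| ^ 2 = a ^ 2 := sq_abs a
    nlinarith [sq_nonneg (|a| - ‖g s z‖), norm_nonneg (g s z), abs_nonneg a]

theorem sym {k : ℝ → ℝ} (hk : TK k) {N : ℕ} [NeZero N] {f g : QN N → ℍ → ℂ} (hf : SqH f)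
    (hg : SqH g) : ipH (RF k f) g = ipH f (RF k g) := by
  have hI := sym_integrable hk hf hg
  have hI' := sym_integrable hk hg hf
  have hswap : ∀ (s : QN N) (p : ℍ × ℍ), (kz k p.swap.1 p.swap.2 : ℂ) *
      (f s p.swap.2 * conj (g s p.swap.1)) =
      conj ((kz k p.1 p.2 : ℂ) * (g s p.2 * conj (f s p.1))) := by
    intro s p
    rw [map_mul, map_mul, Complex.conj_conj, Complex.conj_ofReal, sym_kz_comm k p.swap.1]
    show (kz k p.1 p.2 : ℂ) * (f s p.1 * conj (g s p.2)) = _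
    ring
  have hI2 : ∀ s, Integrable (fun p : ℍ × ℍ => (kz k p.swap.1 p.swap.2 : ℂ) *
      (f s p.swap.2 * conj (g s p.swap.1))) symMu := by
    intro s
    have h : Integrable (fun p : ℍ × ℍ =>
        conj ((kz k p.1 p.2 : ℂ) * (g s p.2 * conj (f s p.1)))) symMu := by
      exact (LinearIsometryEquiv.integrable_comp_iff Complex.conjLIE).2 (hI' s)
    exact h.congr (Eventually.of_forall fun p => (hswap s p).symm)
  have hm : ∀ s, Measurable
      (fun p : ℍ × ℍ => (kz k p.1 p.2 : ℂ) * (f s p.2 * conj (g s p.1))) := by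
    intro s
    refine Measurable.mul ?_ ?_
    · exact Complex.measurable_ofReal.comp (sym_kz_meas hk).measurable
    · refine ((hf.meas s).comp measurable_snd).mul ?_
      exact Complex.continuous_conj.measurable.comp ((hg.meas s).comp measurable_fst)
  have hmain := sym_swapC (fun s p => (kz k p.1 p.2 : ℂ) * (f s p.2 * conj (g s p.1))) hm
    (fun γ s z w => by
      show (kz k (γ • z) (γ • w) : ℂ) * (f (red N γ * s) (γ • w) *
        conj (g (red N γ * s) (γ • z))) = _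
      rw [sym_kz_inv, hf.fam, hg.fam]) hI hI2
  unfold ipH RF
  have e1 : ∀ s, ∫ z in (𝒟ᵒ : Set ℍ), RR k (f s) z * conj (g s z) =
      ∫ p, (kz k p.1 p.2 : ℂ) * (f s p.2 * conj (g s p.1)) ∂symMu := by
    intro s
    have h := integral_prod (μ := (volume : Measure ℍ).restrict (𝒟ᵒ : Set ℍ))
      (ν := (volume : Measure ℍ)) _ (hI s)
    refine Eq.trans ?_ h.symm
    refine integral_congr_ae (Eventually.of_forall fun z => ?_)
    show RR k (f s) z * conj (g s z) = ∫ w : ℍ, (kz k z w : ℂ) * (f s w * conj (g s z))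
    unfold RR
    rw [← integral_mul_const]
    refine integral_congr_ae (Eventually.of_forall fun w => ?_)
    simp only
    ring
  have e2 : ∀ s, ∫ z in (𝒟ᵒ : Set ℍ), f s z * conj (RR k (g s) z) =
      ∫ p, (kz k p.swap.1 p.swap.2 : ℂ) * (f s p.swap.2 * conj (g s p.swap.1)) ∂symMu := by
    intro s
    have h := integral_prod (μ := (volume : Measure ℍ).restrict (𝒟ᵒ : Set ℍ))
      (ν := (volume : Measure ℍ)) _ (hI2 s)
    refine Eq.trans ?_ h.symm
    refine integral_congr_ae (Eventually.of_forall fun z => ?_)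
    show f s z * conj (RR k (g s) z) = ∫ w : ℍ, (kz k w z : ℂ) * (f s z * conj (g s w))
    unfold RR
    rw [← integral_conj, ← integral_const_mul]
    refine integral_congr_ae (Eventually.of_forall fun w => ?_)
    simp only
    rw [map_mul, Complex.conj_ofReal, sym_kz_comm k z w]
    ring
  simp_rw [e1, e2]
  exact hmain

example : type_of% @sym := @sym

end Pool.Agent.JOS
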